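import Pool.Agent.Work.MP_db9079_lc.PH.PM
import Mathlib.Algebra.Polynomial.Derivative
import Mathlib.Algebra.Polynomial.Roots

/-!
The axioms, as formulas and as properties.
-/

namespace Pool.Agent.PH

open Polynomial

/-- Variable number `i` of block `j`. -/
def vr (j i : ℕ) : ℕ := tv (Nat.pair j i)
/-- Name of the scalar variable `j`. -/
def sc (j : ℕ) : ℕ := Nat.pair j 0
/-- The scalar variable `j`. -/
def vs (j : ℕ) : ℕ := tv (sc j)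
/-- Numerals. -/
def num : ℕ → ℕ
  | 0 => tz
  | n + 1 => ta (num n) t1
/-- Powers. -/
def tp (a : ℕ) : ℕ → ℕ
  | 0 => t1
  | n + 1 => tm (tp a n) a
/-- The polynomial with the first `n` variables of block `j` as coefficients. -/
def hor (j x : ℕ) : ℕ → ℕ
  | 0 => tz
  | n + 1 => ta (hor j x n) (tm (vr j n) (tp x n))
/-- Its derivative. -/
def dho (j x : ℕ) : ℕ → ℕ
  | 0 => tz
  | n + 1 => ta (dho j x n) (tm (tm (vr j n) (num n)) (tp x (n - 1)))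
/-- The monic polynomial of degree `d`. -/
def mon (j x d : ℕ) : ℕ := ta (tp x d) (hor j x d)
/-- Its derivative. -/
def dmo (j x d : ℕ) : ℕ := ta (tm (num d) (tp x (d - 1))) (dho j x d)
/-- Universal quantification of a block. -/
def allB (j φ : ℕ) : ℕ → ℕ
  | 0 => φ
  | n + 1 => fa (Nat.pair j n) (allB j φ n)
/-- Existential quantification of a block. -/
def exB (j φ n : ℕ) : ℕ := fn (allB j (fn φ) n)
/-- Finite conjunction. -/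
def andR (f : ℕ → ℕ) : ℕ → ℕ
  | 0 => fn ff
  | n + 1 => fc (andR f n) (f n)
/-- Finite disjunction. -/
def orR (f : ℕ → ℕ) : ℕ → ℕ
  | 0 => ff
  | n + 1 => fo (orR f n) (f n)
/-- Strict inequality of values. -/
def flt (a b : ℕ) : ℕ := fn (fr b a)
/-- Equality of values. -/
def fqv (a b : ℕ) : ℕ := fc (fr a b) (fr b a)
/-- The block is integral. -/
def intB (j n : ℕ) : ℕ := andR (fun i => fr (vr j i) t1) n
/-- The block is fixed by Frobenius. -/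
def fixB (p j n : ℕ) : ℕ := andR (fun i => fe (tp (vr j i) p) (vr j i)) n
/-- Three universal quantifiers. -/
def al3 (φ : ℕ) : ℕ := fa (sc 0) (fa (sc 1) (fa (sc 2) φ))

/-- Axioms of valued fields. -/
def axF : List ℕ :=
  [al3 (fe (ta (ta (vs 0) (vs 1)) (vs 2)) (ta (vs 0) (ta (vs 1) (vs 2)))),
   al3 (fe (ta tz (vs 0)) (vs 0)),
   al3 (fe (ta (tn (vs 0)) (vs 0)) tz),
   al3 (fe (tm (tm (vs 0) (vs 1)) (vs 2)) (tm (vs 0) (tm (vs 1) (vs 2)))),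
   al3 (fe (tm (vs 0) (vs 1)) (tm (vs 1) (vs 0))),
   al3 (fe (tm t1 (vs 0)) (vs 0)),
   al3 (fe (tm (vs 0) (ta (vs 1) (vs 2))) (ta (tm (vs 0) (vs 1)) (tm (vs 0) (vs 2)))),
   fn (fe tz t1),
   al3 (fi (fn (fe (vs 0) tz)) (fx (sc 3) (fe (tm (vs 0) (vs 3)) t1))),
   fr t1 t1,
   al3 (fi (fr (vs 0) t1) (fr (tn (vs 0)) t1)),
   al3 (fi (fr (vs 0) t1) (fi (fr (vs 1) t1) (fr (ta (vs 0) (vs 1)) t1))),
   al3 (fi (fr (vs 0) t1) (fi (fr (vs 1) t1) (fr (tm (vs 0) (vs 1)) t1))),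
   al3 (fo (fr (vs 0) t1) (fx (sc 3) (fc (fr (vs 3) t1) (fe (tm (vs 0) (vs 3)) t1)))),
   al3 (fi (fr (vs 0) (vs 1)) (fx (sc 3) (fc (fr (vs 3) t1) (fe (tm (vs 3) (vs 1)) (vs 0))))),
   al3 (fi (fr (vs 0) t1) (fr (tm (vs 0) (vs 1)) (vs 1)))]

/-- Characteristic, the constant, perfectness, residue field. -/
def axA (p : ℕ) : ℕ :=
  fc (fe (num p) tz) (fc (fx (sc 0) (fe (vs 0) tt)) (fc (fn (fe tt tz)) (fc (flt tt t1)
    (fc (fa (sc 0) (fx (sc 1) (fe (tp (vs 1) p) (vs 0))))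
      (fa (sc 0) (fi (fr (vs 0) t1) (fx (sc 1) (fc (fe (tp (vs 1) p) (vs 1))
        (flt (ta (vs 0) (tn (vs 1))) t1)))))))))

/-- Hensel. -/
def axH (d : ℕ) : ℕ :=
  allB 1 (fi (intB 1 (d + 2)) (fi (flt (vr 1 0) t1) (fi (fqv (vr 1 1) t1)
    (fx (sc 0) (fc (flt (vs 0) t1) (fe (mon 1 (vs 0) (d + 2)) tz)))))) (d + 2)

/-- The value group modulo `n`. -/
def axV (n : ℕ) : ℕ :=
  fa (sc 0) (fi (fn (fe (vs 0) tz)) (fx (sc 1) (fc (fn (fe (vs 1) tz))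
    (orR (fun j => fqv (vs 0) (tm (tp tt j) (tp (vs 1) n))) n))))

/-- Density of the `n + 1`-th powers in the value group. -/
def axD (n : ℕ) : ℕ :=
  fa (sc 0) (fa (sc 1) (fi (fn (fe (vs 0) tz)) (fi (flt (vs 0) (vs 1))
    (fx (sc 2) (fc (flt (vs 0) (tp (vs 2) (n + 1))) (flt (tp (vs 2) (n + 1)) (vs 1)))))))

/-- Almost unramified generators. -/
def axB (d e : ℕ) : ℕ :=
  allB 1 (allB 2 (allB 3 (fi
    (fa (sc 0) (fe (ta (tm (hor 2 (vs 0) e) (mon 1 (vs 0) d))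
      (tm (hor 3 (vs 0) e) (dmo 1 (vs 0) d))) t1))
    (fa (sc 4) (fi (fn (fe (vs 4) tz)) (fi (flt (vs 4) t1)
      (exB 5 (exB 6 (exB 7 (exB 8 (exB 9 (fx (sc 10)
        (fc (intB 5 d) (fc (intB 8 e) (fc (intB 9 e) (fc (fn (fe (vs 10) tz))
          (fc (fr (vs 4) (vs 10))
            (fc (fa (sc 0) (fe (mon 1 (hor 6 (vs 0) d) d)
                (tm (mon 5 (vs 0) d) (hor 7 (vs 0) (d * d + 1)))))
              (fa (sc 0) (fe (ta (tm (hor 8 (vs 0) e) (mon 5 (vs 0) d))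
                (tm (hor 9 (vs 0) e) (dmo 5 (vs 0) d))) (vs 10)))))))))
        ) e) e) (d * d + 1)) d) d))))) e) e) d

/-- Lines are not contained in the image of the Artin-Schreier map. -/
def axC (p d : ℕ) : ℕ :=
  allB 1 (allB 2 (allB 3 (allB 4 (fi
    (fa (sc 0) (fe (tm (hor 2 (vs 0) (d + 1)) (hor 3 (vs 0) (d + 1)))
      (ta t1 (tm (mon 1 (vs 0) (d + 1)) (hor 4 (vs 0) (d + 1))))))
    (fx (sc 5) (allB 6 (allB 7 (fn (fa (sc 0)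
      (fe (tp (hor 6 (vs 0) (d + 1)) p)
        (ta (ta (hor 6 (vs 0) (d + 1)) (tm (vs 5) (hor 2 (vs 0) (d + 1))))
          (tm (mon 1 (vs 0) (d + 1)) (hor 7 (vs 0) (p * (d + 1))))))))
      (p * (d + 1))) (d + 1)))) (d + 1)) (d + 1)) (d + 1)) (d + 1)

/-- The algebraic part. -/
def axE (p d e m : ℕ) : ℕ :=
  allB 1 (fi (andR (fun i => exB 2 (fc (fixB p 2 e) (fe (vr 1 i) (hor 2 tt e))) e) d)
    (fa (sc 0) (fi (fe (mon 1 (vs 0) d) tz)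
      (exB 3 (fc (fixB p 3 m) (fr (ta (tp (vs 0) (p ^ d)) (tn (hor 3 tt m))) (tp tt m))) m)))) d

/-- The list of all axioms. -/
def ax (p n : ℕ) : ℕ :=
  if n % 8 = 0 then axF.getD (n / 8) (fn ff)
  else if n % 8 = 1 then axA p
  else if n % 8 = 2 then axH (n / 8)
  else if n % 8 = 3 then (if n / 8 % p = 0 then fn ff else axV (n / 8))
  else if n % 8 = 4 then axD (n / 8)
  else if n % 8 = 5 then axB (n / 8).unpair.1 (n / 8).unpair.2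
  else if n % 8 = 6 then axC p (n / 8)
  else axE p (n / 8).unpair.1 (n / 8).unpair.2.unpair.1 (n / 8).unpair.2.unpair.2

/-- `f` has degree `< n` and coefficients in `S`. -/
def Cf {Ω : Type*} [Field Ω] (S : Ω → Prop) (n : ℕ) (f : Ω[X]) : Prop :=
  f.degree < n ∧ ∀ i, S (f.coeff i)

/-- Hensel. -/
def PHe (A : PM) (d : ℕ) : Prop :=
  ∀ f, Cf (fun x => x ∈ A.M ∧ x ∈ A.O) (d + 2) f → A.O.valuation (f.coeff 0) < 1 →
    A.O.valuation (f.coeff 1) = 1 →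
      ∃ x ∈ A.M, A.O.valuation x < 1 ∧ (X ^ (d + 2) + f).eval x = 0

/-- The value group modulo `n`. -/
def PV (A : PM) (n : ℕ) : Prop :=
  ∀ a ∈ A.M, a ≠ 0 → ∃ b ∈ A.M, b ≠ 0 ∧ ∃ j < n, A.O.valuation a = A.O.valuation (A.t ^ j * b ^ n)

/-- Density. -/
def PD (A : PM) (n : ℕ) : Prop :=
  ∀ a ∈ A.M, ∀ b ∈ A.M, a ≠ 0 → A.O.valuation a < A.O.valuation b →
    ∃ c ∈ A.M, A.O.valuation a < A.O.valuation (c ^ (n + 1)) ∧
      A.O.valuation (c ^ (n + 1)) < A.O.valuation b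

/-- Almost unramified generators. -/
def PB (A : PM) (d e : ℕ) : Prop :=
  ∀ f u₀ w₀, Cf (· ∈ A.M) d f → Cf (· ∈ A.M) e u₀ → Cf (· ∈ A.M) e w₀ →
    u₀ * (X ^ d + f) + w₀ * derivative (X ^ d + f) = 1 →
    ∀ c ∈ A.M, c ≠ 0 → A.O.valuation c < 1 →
      ∃ h g q u w, Cf (fun x => x ∈ A.M ∧ x ∈ A.O) d h ∧ Cf (· ∈ A.M) d g ∧
        Cf (· ∈ A.M) (d * d + 1) q ∧ Cf (fun x => x ∈ A.M ∧ x ∈ A.O) e u ∧
        Cf (fun x => x ∈ A.M ∧ x ∈ A.O) e w ∧ ∃ c' ∈ A.M, c' ≠ 0 ∧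
          A.O.valuation c ≤ A.O.valuation c' ∧ (X ^ d + f).comp g = (X ^ d + h) * q ∧
          u * (X ^ d + h) + w * derivative (X ^ d + h) = C c'

/-- Lines are not contained in the image of the Artin-Schreier map. -/
def PC (p : ℕ) (A : PM) (d : ℕ) : Prop :=
  ∀ f z z' q', Cf (· ∈ A.M) (d + 1) f → Cf (· ∈ A.M) (d + 1) z → Cf (· ∈ A.M) (d + 1) z' →
    Cf (· ∈ A.M) (d + 1) q' → z * z' = 1 + (X ^ (d + 1) + f) * q' →
      ∃ c ∈ A.M, ∀ y q, Cf (· ∈ A.M) (d + 1) y → Cf (· ∈ A.M) (p * (d + 1)) q →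
        y ^ p ≠ y + C c * z + (X ^ (d + 1) + f) * q

/-- The algebraic part. -/
def PE (p : ℕ) (A : PM) (d e m : ℕ) : Prop :=
  ∀ f, Cf (· ∈ A.M) d f →
    (∀ i < d, ∃ g, Cf (fun x => x ∈ A.M ∧ x ^ p = x) e g ∧ f.coeff i = g.eval A.t) →
    ∀ x ∈ A.M, (X ^ d + f).eval x = 0 → ∃ g, Cf (fun x => x ∈ A.M ∧ x ^ p = x) m g ∧
      A.O.valuation (x ^ p ^ d - g.eval A.t) ≤ A.O.valuation (A.t ^ m)

/-- The axioms as properties. -/
structure Good (p : ℕ) (A : PM) : Prop where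
  char : (p : A.Ω) = 0
  tM : A.t ∈ A.M
  t0 : A.t ≠ 0
  t1 : A.O.valuation A.t < 1
  perf : ∀ x ∈ A.M, ∃ y ∈ A.M, y ^ p = x
  res : ∀ x ∈ A.M, x ∈ A.O → ∃ y ∈ A.M, y ^ p = y ∧ A.O.valuation (x - y) < 1
  hen : ∀ d, PHe A d
  vmod : ∀ n, n % p ≠ 0 → PV A n
  den : ∀ n, PD A n
  tame : ∀ d e, PB A d e
  lines : ∀ d, PC p A d
  alg : ∀ d e m, PE p A d e m

end Pool.Agent.PH
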