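import Pool.Agent.Work.MP_db9079_lc.RCm
import Pool.Agent.Work.MP_db9079_lc.PH.Ax

/-!
The list of axioms is computable.

PLAN. `@[fun_prop]` lemmas `CI O (fun a => tv (f a))` etc. for all builders (unfold and `fun_prop`;
`CI.of_rec` for `num tp hor dho allB andR orR`, as in `ci_pow` of `RCm`), then the axioms, then `CI.ite`.
-/

namespace Pool.Agent.PH

open Pool.Agent.Lib.RelComp Pool.Agent.Work.MP_db9079_lc

section
variable {α : Type} [Primcodable α] {O : Set (ℕ →. ℕ)} {f g h : α → ℕ} {F : α → ℕ → ℕ}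

@[fun_prop] theorem AxC_tv (hf : CI O f) : CI O (fun a => tv (f a)) := by
  unfold tv
  fun_prop

@[fun_prop] theorem AxC_tn (hf : CI O f) : CI O (fun a => tn (f a)) := by
  unfold tn
  fun_prop

@[fun_prop] theorem AxC_ta (hf : CI O f) (hg : CI O g) : CI O (fun a => ta (f a) (g a)) := by
  unfold ta
  fun_prop

@[fun_prop] theorem AxC_tm (hf : CI O f) (hg : CI O g) : CI O (fun a => tm (f a) (g a)) := by
  unfold tm
  fun_prop

@[fun_prop] theorem AxC_fe (hf : CI O f) (hg : CI O g) : CI O (fun a => fe (f a) (g a)) := by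
  unfold fe
  fun_prop

@[fun_prop] theorem AxC_fr (hf : CI O f) (hg : CI O g) : CI O (fun a => fr (f a) (g a)) := by
  unfold fr
  fun_prop

@[fun_prop] theorem AxC_fi (hf : CI O f) (hg : CI O g) : CI O (fun a => fi (f a) (g a)) := by
  unfold fi
  fun_prop

@[fun_prop] theorem AxC_fa (hf : CI O f) (hg : CI O g) : CI O (fun a => fa (f a) (g a)) := by
  unfold fa
  fun_prop

@[fun_prop] theorem AxC_fn (hf : CI O f) : CI O (fun a => fn (f a)) := by
  unfold fn
  fun_prop

@[fun_prop] theorem AxC_fc (hf : CI O f) (hg : CI O g) : CI O (fun a => fc (f a) (g a)) := by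
  unfold fc
  fun_prop

@[fun_prop] theorem AxC_fo (hf : CI O f) (hg : CI O g) : CI O (fun a => fo (f a) (g a)) := by
  unfold fo
  fun_prop

@[fun_prop] theorem AxC_fx (hf : CI O f) (hg : CI O g) : CI O (fun a => fx (f a) (g a)) := by
  unfold fx
  fun_prop

@[fun_prop] theorem AxC_vr (hf : CI O f) (hg : CI O g) : CI O (fun a => vr (f a) (g a)) := by
  unfold vr
  fun_prop

@[fun_prop] theorem AxC_flt (hf : CI O f) (hg : CI O g) : CI O (fun a => flt (f a) (g a)) := by
  unfold flt
  fun_prop

@[fun_prop] theorem AxC_fqv (hf : CI O f) (hg : CI O g) : CI O (fun a => fqv (f a) (g a)) := by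
  unfold fqv
  fun_prop

@[fun_prop] theorem AxC_num (hf : CI O f) : CI O (fun a => num (f a)) := by
  have := CI.of_rec (O := O) (F := fun (_ : α) n => num n) (h := fun _ _ x => ta x t1)
    (CI.const _) (by fun_prop) (fun _ _ => rfl)
  exact CI.comp _ (fun a => (a, f a)) this (by fun_prop)

@[fun_prop] theorem AxC_tp (hf : CI O f) (hg : CI O g) : CI O (fun a => tp (f a) (g a)) := by
  have := CI.of_rec (O := O) (F := fun a n => tp (f a) n) (h := fun a _ x => tm x (f a))
    (CI.const t1) (by fun_prop) (fun _ _ => rfl)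
  exact CI.comp _ (fun a => (a, g a)) this (by fun_prop)

@[fun_prop] theorem AxC_hor (hf : CI O f) (hg : CI O g) (hh : CI O h) :
    CI O (fun a => hor (f a) (g a) (h a)) := by
  have := CI.of_rec (O := O) (F := fun a n => hor (f a) (g a) n)
    (h := fun a n x => ta x (tm (vr (f a) n) (tp (g a) n)))
    (CI.const tz) (by fun_prop) (fun _ _ => rfl)
  exact CI.comp _ (fun a => (a, h a)) this (by fun_prop)

@[fun_prop] theorem AxC_dho (hf : CI O f) (hg : CI O g) (hh : CI O h) :
    CI O (fun a => dho (f a) (g a) (h a)) := by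
  have := CI.of_rec (O := O) (F := fun a n => dho (f a) (g a) n)
    (h := fun a n x => ta x (tm (tm (vr (f a) n) (num n)) (tp (g a) (n - 1))))
    (CI.const tz) (by fun_prop) (fun _ _ => rfl)
  exact CI.comp _ (fun a => (a, h a)) this (by fun_prop)

@[fun_prop] theorem AxC_allB (hf : CI O f) (hg : CI O g) (hh : CI O h) :
    CI O (fun a => allB (f a) (g a) (h a)) := by
  have := CI.of_rec (O := O) (F := fun a n => allB (f a) (g a) n)
    (h := fun a n x => fa (Nat.pair (f a) n) x) hg (by fun_prop) (fun _ _ => rfl)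
  exact CI.comp _ (fun a => (a, h a)) this (by fun_prop)

@[fun_prop] theorem AxC_andR (hF : CI O fun q : α × ℕ => F q.1 q.2) (hh : CI O h) :
    CI O (fun a => andR (F a) (h a)) := by
  have := CI.of_rec (O := O) (F := fun a n => andR (F a) n) (h := fun a n x => fc x (F a n))
    (CI.const (fn ff)) (AxC_fc (by fun_prop)
      (CI.comp _ (fun p : α × ℕ × ℕ => (p.1, p.2.1)) hF (by fun_prop))) (fun _ _ => rfl)
  exact CI.comp _ (fun a => (a, h a)) this (by fun_prop)

@[fun_prop] theorem AxC_orR (hF : CI O fun q : α × ℕ => F q.1 q.2) (hh : CI O h) :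
    CI O (fun a => orR (F a) (h a)) := by
  have := CI.of_rec (O := O) (F := fun a n => orR (F a) n) (h := fun a n x => fo x (F a n))
    (CI.const ff) (AxC_fo (by fun_prop)
      (CI.comp _ (fun p : α × ℕ × ℕ => (p.1, p.2.1)) hF (by fun_prop))) (fun _ _ => rfl)
  exact CI.comp _ (fun a => (a, h a)) this (by fun_prop)

@[fun_prop] theorem AxC_mon (hf : CI O f) (hg : CI O g) (hh : CI O h) :
    CI O (fun a => mon (f a) (g a) (h a)) := by
  unfold mon
  fun_prop

@[fun_prop] theorem AxC_dmo (hf : CI O f) (hg : CI O g) (hh : CI O h) :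
    CI O (fun a => dmo (f a) (g a) (h a)) := by
  unfold dmo
  fun_prop

@[fun_prop] theorem AxC_exB (hf : CI O f) (hg : CI O g) (hh : CI O h) :
    CI O (fun a => exB (f a) (g a) (h a)) := by
  unfold exB
  fun_prop

@[fun_prop] theorem AxC_intB (hf : CI O f) (hg : CI O g) : CI O (fun a => intB (f a) (g a)) := by
  unfold intB
  fun_prop

@[fun_prop] theorem AxC_fixB (hf : CI O f) (hg : CI O g) (hh : CI O h) :
    CI O (fun a => fixB (f a) (g a) (h a)) := by
  unfold fixB
  fun_prop

@[fun_prop] theorem AxC_axH (hf : CI O f) : CI O (fun a => axH (f a)) := by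
  unfold axH
  fun_prop

@[fun_prop] theorem AxC_axV (hf : CI O f) : CI O (fun a => axV (f a)) := by
  unfold axV
  fun_prop

@[fun_prop] theorem AxC_axD (hf : CI O f) : CI O (fun a => axD (f a)) := by
  unfold axD
  fun_prop

@[fun_prop] theorem AxC_axB (hf : CI O f) (hg : CI O g) : CI O (fun a => axB (f a) (g a)) := by
  unfold axB
  fun_prop

@[fun_prop] theorem AxC_axC (hf : CI O f) (hg : CI O g) : CI O (fun a => axC (f a) (g a)) := by
  unfold axC
  fun_prop

@[fun_prop] theorem AxC_axE (p : ℕ) (hf : CI O f) (hg : CI O g) (hh : CI O h) :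
    CI O (fun a => axE p (f a) (g a) (h a)) := by
  unfold axE
  fun_prop

end

theorem ci_ax (p : ℕ) : CI ∅ (ax p) := by
  unfold ax
  fun_prop

end Pool.Agent.PH
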