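import Pool.Agent.Work.MP_db9079_lc.PH.AxS

/-!
Reading the axioms.

PLAN. As in `sat_axH`: unfold with `sat_allB`, `sat_exB`, `sat_fa`, .., then clean the environments with
`simp (disch := omega) only [updB_self, updB_ne, updB_sc, update_sc_pair, update_sc_sc, pol_update,
pol_updB_ne, pol_updB_self _ _ hf.1, Function.update_self]`; turn `∀ x ∈ M` identities of values into
polynomial identities with `eval_iff` (`eval_mul`, `eval_add`, `eval_comp`, `eval_C`, `eval_pow`);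
`cf_and` merges the integrality (or Frobenius fixed) conditions. `good_iff`: evaluate `ax p` at
`8 * m + r`.
-/

namespace Pool.Agent.PH

open Polynomial

theorem cf_and {Ω : Type*} [Field Ω] {S T : Ω → Prop} (hT : T 0) {n : ℕ} {f : Ω[X]} :
    Cf (fun x => S x ∧ T x) n f ↔ Cf S n f ∧ ∀ i < n, T (f.coeff i) := by
  refine ⟨fun h => ⟨⟨h.1, fun i => (h.2 i).1⟩, fun i _ => (h.2 i).2⟩,
    fun h => ⟨h.1.1, fun i => ⟨h.1.2 i, ?_⟩⟩⟩
  by_cases hi : i < n
  · exact h.2 i hi
  · rwa [coeff_eq_zero_of_degree_lt (h.1.1.trans_le (by exact_mod_cast not_lt.1 hi))]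

variable (A : PM) (e : ℕ → A.Ω)

theorem eval_iff (hM : (A.M : Set A.Ω).Infinite) (P Q : A.Ω[X]) :
    (∀ x ∈ A.M, P.eval x = Q.eval x) ↔ P = Q :=
  ⟨fun h => eq_of_infinite_eval_eq P Q (hM.mono h), fun h _ _ => by rw [h]⟩

theorem sat_axH (d : ℕ) : A.str.Sat (axH d) e ↔ PHe A d := by
  simp only [axH, PHe, sat_allB, sat_fi, sat_intB, sat_flt, sat_fqv, sat_fx, sat_fc, sat_fe, ev_vr,
    ev_vs, ev_t1, ev_tz, ev_mon, cf_and A.O.zero_mem, and_imp, map_one]
  refine forall_congr' fun f => forall_congr' fun hf => ?_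
  simp (disch := omega) only [updB_self, pol_update, pol_updB_self _ _ hf.1, Function.update_self]
  refine imp_congr_left (forall_congr' fun i => forall_congr' fun hi => ?_)
  rw [updB_self _ _ _ hi]

theorem sat_axV (n : ℕ) : A.str.Sat (axV n) e ↔ PV A n := by
  simp (disch := omega) only [axV, PV, sat_fa, sat_fi, sat_fn, sat_fe, sat_fx, sat_fc, sat_orR,
    sat_fqv, ev_vs, ev_tz, ev_tm, ev_tp, ev_tt, Function.update_self, update_sc_sc, ne_eq]

theorem sat_axD (n : ℕ) : A.str.Sat (axD n) e ↔ PD A n := by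
  simp (disch := omega) only [axD, PD, sat_fa, sat_fi, sat_fn, sat_fe, sat_fx, sat_fc, sat_flt,
    ev_vs, ev_tz, ev_tp, Function.update_self, update_sc_sc, ne_eq]

theorem AxR_int (j n : ℕ) (c : ℕ → A.Ω) :
    (∀ i < n, updB e j n c (Nat.pair j i) ∈ A.O) ↔ ∀ i < n, c i ∈ A.O :=
  forall₂_congr fun i hi => by rw [updB_self _ _ _ hi]

theorem AxR_fix (p j n : ℕ) (c : ℕ → A.Ω) :
    (∀ i < n, updB e j n c (Nat.pair j i) ^ p = updB e j n c (Nat.pair j i)) ↔
      ∀ i < n, c i ^ p = c i :=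
  forall₂_congr fun i hi => by rw [updB_self _ _ _ hi]

theorem AxR_all2 {α : Type} {p q : α → Prop} {P Q : α → α → Prop}
    (h : ∀ a b, p a → q b → (P a b ↔ Q a b)) :
    (∀ a, p a → ∀ b, q b → P a b) ↔ ∀ a b, p a → q b → Q a b :=
  ⟨fun k a b ha hb => (h a b ha hb).1 (k a ha b hb),
    fun k a ha b hb => (h a b ha hb).2 (k a b ha hb)⟩

theorem AxR_all3 {α : Type} {p q r : α → Prop} {P Q : α → α → α → Prop}
    (h : ∀ a b c, p a → q b → r c → (P a b c ↔ Q a b c)) :
    (∀ a, p a → ∀ b, q b → ∀ c, r c → P a b c) ↔ ∀ a b c, p a → q b → r c → Q a b c :=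
  ⟨fun k a b c ha hb hc => (h a b c ha hb hc).1 (k a ha b hb c hc),
    fun k a ha b hb c hc => (h a b c ha hb hc).2 (k a b c ha hb hc)⟩

theorem AxR_all4 {α : Type} {p q r s : α → Prop} {P Q : α → α → α → α → Prop}
    (h : ∀ a b c d, p a → q b → r c → s d → (P a b c d ↔ Q a b c d)) :
    (∀ a, p a → ∀ b, q b → ∀ c, r c → ∀ d, s d → P a b c d) ↔
      ∀ a b c d, p a → q b → r c → s d → Q a b c d :=
  ⟨fun k a b c d ha hb hc hd => (h a b c d ha hb hc hd).1 (k a ha b hb c hc d hd),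
    fun k a ha b hb c hc d hd => (h a b c d ha hb hc hd).2 (k a b c d ha hb hc hd)⟩

theorem sat_axB (hM : (A.M : Set A.Ω).Infinite) (d n : ℕ) : A.str.Sat (axB d n) e ↔ PB A d n := by
  simp only [axB, PB, sat_allB, sat_exB, sat_fi, sat_fa, sat_fn, sat_fe, sat_fx, sat_fc, sat_fr,
    sat_flt, sat_intB, ev_ta, ev_tm, ev_hor, ev_mon, ev_dmo, ev_vs, ev_t1, ev_tz,
    cf_and A.O.zero_mem, map_one, ← eval_iff A hM, eval_mul, eval_comp, eval_C, eval_one,
    eval_add (p := _ * _)]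
  refine AxR_all3 fun f u₀ w₀ hf hu₀ hw₀ => ?_
  simp (disch := omega) only [updB_ne, updB_sc, update_sc_pair, update_sc_sc, pol_update,
    pol_updB_ne, pol_updB_self _ _ hf.1, pol_updB_self _ _ hu₀.1, pol_updB_self _ _ hw₀.1,
    Function.update_self, AxR_int]
  refine imp_congr_right fun _ => forall_congr' fun c => forall₃_congr fun _ _ _ => ⟨?_, ?_⟩
  · rintro ⟨h, hh, g, hg, q, hq, u, hu, w, hw, c', hc', k1, k2, k3, k4⟩
    rw [pol_updB_self _ _ hh.1, pol_updB_self _ _ hg.1, pol_updB_self _ _ hq.1,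
      pol_updB_self _ _ hu.1, pol_updB_self _ _ hw.1] at k4
    exact ⟨h, g, q, u, w, ⟨hh, k1⟩, hg, hq, ⟨hu, k2⟩, ⟨hw, k3⟩, c', hc', k4⟩
  · rintro ⟨h, g, q, u, w, ⟨hh, k1⟩, hg, hq, ⟨hu, k2⟩, ⟨hw, k3⟩, c', hc', k4⟩
    refine ⟨h, hh, g, hg, q, hq, u, hu, w, hw, c', hc', k1, k2, k3, ?_⟩
    rwa [pol_updB_self _ _ hh.1, pol_updB_self _ _ hg.1, pol_updB_self _ _ hq.1,
      pol_updB_self _ _ hu.1, pol_updB_self _ _ hw.1]

theorem sat_axC (hM : (A.M : Set A.Ω).Infinite) (p d : ℕ) : A.str.Sat (axC p d) e ↔ PC p A d := by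
  simp only [axC, PC, sat_allB, sat_fi, sat_fa, sat_fn, sat_fe, sat_fx, ev_ta, ev_tm, ev_hor,
    ev_mon, ev_tp, ev_vs, ev_t1, ne_eq]
  refine AxR_all4 fun f z z' q' hf hz hz' hq' => ?_
  simp (disch := omega) only [updB_sc, update_sc_sc, pol_update, pol_updB_ne,
    pol_updB_self _ _ hf.1, pol_updB_self _ _ hz.1, pol_updB_self _ _ hz'.1,
    pol_updB_self _ _ hq'.1, Function.update_self]
  refine imp_congr ?_ (exists_congr fun c => and_congr_right fun _ =>
    AxR_all2 fun y q hy hq => not_congr ?_)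
  · simp only [← eval_iff A hM, eval_mul, eval_add, eval_one]
  · simp only [pol_updB_self _ _ hy.1, pol_updB_self _ _ hq.1, ← eval_iff A hM, eval_mul, eval_add,
      eval_C, eval_pow]

theorem sat_axE (p d n m : ℕ) (hp : p ≠ 0) :
    A.str.Sat (axE p d n m) e ↔ PE p A d n m := by
  simp only [axE, PE, sat_allB, sat_exB, sat_andR, sat_fi, sat_fa, sat_fe, sat_fc, sat_fr,
    sat_fixB, ev_ta, ev_tn, ev_hor, ev_mon, ev_tp, ev_vs, ev_vr, ev_tt, ev_tz,
    cf_and (T := fun x : A.Ω => x ^ p = x) (zero_pow hp), and_assoc, sub_eq_add_neg]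
  refine forall_congr' fun f => forall_congr' fun hf => ?_
  simp (disch := omega) only [updB_ne, updB_sc, pol_update, pol_updB_self _ _ hf.1,
    Function.update_self, AxR_fix]
  refine imp_congr (forall₂_congr fun i hi => exists_congr fun g => and_congr_right fun hg => ?_)
    (forall₃_congr fun x _ _ => exists_congr fun g => and_congr_right fun hg => ?_)
  · rw [pol_updB_self _ _ hg.1, updB_self _ _ _ hi]
  · rw [pol_updB_self _ _ hg.1]

theorem sat_axA (p : ℕ) : A.str.Sat (axA p) e ↔ (p : A.Ω) = 0 ∧ A.t ∈ A.M ∧ A.t ≠ 0 ∧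
    A.O.valuation A.t < 1 ∧ (∀ x ∈ A.M, ∃ y ∈ A.M, y ^ p = x) ∧
    ∀ x ∈ A.M, x ∈ A.O → ∃ y ∈ A.M, y ^ p = y ∧ A.O.valuation (x - y) < 1 := by
  simp (disch := omega) only [axA, sat_fa, sat_fi, sat_fn, sat_fe, sat_fx, sat_fc, sat_fr, sat_flt,
    ev_num, ev_vs, ev_tz, ev_t1, ev_ta, ev_tn, ev_tp, ev_tt, Function.update_self, update_sc_sc,
    ne_eq, map_one, exists_eq_right, ValuationSubring.valuation_le_one_iff, sub_eq_add_neg]

theorem sat_axF (n : ℕ) : A.str.Sat (axF.getD n (fn ff)) e := by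
  have key : ∀ φ ∈ axF, A.str.Sat φ e := by
    simp (disch := omega) only [axF, List.forall_mem_cons, List.not_mem_nil, false_imp_iff,
      implies_true, and_true, al3, sat_fa, sat_fi, sat_fn, sat_fe, sat_fx, sat_fc, sat_fo, sat_fr,
      ev_vs, ev_tz, ev_t1, ev_ta, ev_tn, ev_tm, Function.update_self, update_sc_sc, map_one,
      ValuationSubring.valuation_le_one_iff]
    refine ⟨fun x _ y _ z _ => add_assoc x y z, fun x _ _ _ _ _ => zero_add x,
      fun x _ _ _ _ _ => neg_add_cancel x, fun x _ y _ z _ => mul_assoc x y z,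
      fun x _ y _ _ _ => mul_comm x y, fun x _ _ _ _ _ => one_mul x,
      fun x _ y _ z _ => mul_add x y z, zero_ne_one,
      fun x hx _ _ _ _ h => ⟨x⁻¹, inv_mem hx, mul_inv_cancel₀ h⟩, le_rfl,
      fun _ _ _ _ _ _ h => neg_mem h, fun _ _ _ _ _ _ h h' => add_mem h h',
      fun _ _ _ _ _ _ h h' => mul_mem h h', fun x hx _ _ _ _ => ?_, fun x hx y hy _ _ h => ?_,
      fun x _ y _ _ _ h => ?_⟩
    · by_cases h : x ∈ A.O
      · exact Or.inl h
      · exact Or.inr ⟨x⁻¹, inv_mem hx, (A.O.mem_or_inv_mem x).resolve_left h,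
          mul_inv_cancel₀ fun h0 => h (h0 ▸ A.O.zero_mem)⟩
    · rcases eq_or_ne y 0 with rfl | h0
      · rw [map_zero, le_zero_iff, map_eq_zero] at h
        exact ⟨0, zero_mem _, zero_mem _, by rw [h, zero_mul]⟩
      · refine ⟨x / y, div_mem hx hy, ?_, div_mul_cancel₀ x h0⟩
        rwa [← ValuationSubring.valuation_le_one_iff, map_div₀,
          div_le_one₀ ((Valuation.pos_iff _).2 h0)]
    · rw [map_mul]
      exact mul_le_of_le_one_left' ((A.O.valuation_le_one_iff x).2 h)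
  rcases lt_or_ge n axF.length with h | h
  · rw [List.getD_eq_getElem?_getD, List.getElem?_eq_getElem h, Option.getD_some]
    exact key _ (List.getElem_mem h)
  · rw [List.getD_eq_getElem?_getD, List.getElem?_eq_none h, Option.getD_none, sat_fn, sat_ff]
    exact not_false

theorem infinite_M (h1 : A.t ∈ A.M) (h2 : A.t ≠ 0) (h3 : A.O.valuation A.t < 1) :
    (A.M : Set A.Ω).Infinite := by
  refine Set.infinite_of_injective_forall_mem (f := fun n : ℕ => A.t ^ n) (fun a b h => ?_)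
    fun n => pow_mem h1 n
  have h4 := congrArg A.O.valuation h
  simp only [map_pow] at h4
  exact (pow_right_strictAnti₀ ((Valuation.pos_iff _).2 h2) h3).injective h4

theorem good_iff (p : ℕ) : Good p A ↔ ∀ n, A.str.Sat (ax p n) (fun _ => 0) := by
  have h0 : (∀ x ∈ A.M, ∃ y ∈ A.M, y ^ p = x) → p ≠ 0 := by
    rintro h rfl
    obtain ⟨y, -, hy⟩ := h 0 A.M.zero_mem
    exact one_ne_zero ((pow_zero y).symm.trans hy)
  constructor
  · intro h n
    have hM := infinite_M A h.tM h.t0 h.t1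
    unfold ax
    split_ifs with a0 a1 a2 a3 a4 a5 a6 a7
    · exact sat_axF A _ _
    · exact (sat_axA A _ p).2 ⟨h.char, h.tM, h.t0, h.t1, h.perf, h.res⟩
    · exact (sat_axH A _ _).2 (h.hen _)
    · rw [sat_fn, sat_ff]
      exact not_false
    · exact (sat_axV A _ _).2 (h.vmod _ a4)
    · exact (sat_axD A _ _).2 (h.den _)
    · exact (sat_axB A _ hM _ _).2 (h.tame _ _)
    · exact (sat_axC A _ hM _ _).2 (h.lines _)
    · exact (sat_axE A _ _ _ _ _ (h0 h.perf)).2 (h.alg _ _ _)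
  · intro h
    have k : ∀ m r, r < 8 → (8 * m + r) % 8 = r ∧ (8 * m + r) / 8 = m := fun m r hr => by omega
    have k1 := h (8 * 0 + 1)
    rw [ax, if_neg (by omega), if_pos (by omega), sat_axA] at k1
    obtain ⟨c1, c2, c3, c4, c5, c6⟩ := k1
    have hM := infinite_M A c2 c3 c4
    refine ⟨c1, c2, c3, c4, c5, c6, fun d => ?_, fun n hn => ?_, fun n => ?_, fun d n => ?_,
      fun d => ?_, fun d n m => ?_⟩
    · simpa [ax, k d 2 (by omega), sat_axH] using h (8 * d + 2)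
    · simpa [ax, k n 3 (by omega), hn, sat_axV] using h (8 * n + 3)
    · simpa [ax, k n 4 (by omega), sat_axD] using h (8 * n + 4)
    · simpa [ax, k (Nat.pair d n) 5 (by omega), sat_axB A _ hM] using h (8 * Nat.pair d n + 5)
    · simpa [ax, k d 6 (by omega), sat_axC A _ hM] using h (8 * d + 6)
    · simpa [ax, k (Nat.pair d (Nat.pair n m)) 7 (by omega), sat_axE A _ p _ _ _ (h0 c5)] using
        h (8 * Nat.pair d (Nat.pair n m) + 7)

theorem Elem.good {p : ℕ} {A B : PM} {e : A.Ω →+* B.Ω} (h : Elem A B e) : Good p B ↔ Good p A := by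
  simp only [good_iff, h.sat0]

end Pool.Agent.PH
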