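import Pool.Agent.Work.MP_db9079_lc.PH.VD
import Mathlib.FieldTheory.Galois.Infinite
import Mathlib.FieldTheory.Galois.Profinite
import Mathlib.FieldTheory.PrimitiveElement

/-!
Galois theory of a perfect field `M` inside an algebraic closure `Ω`.

PLAN. `Ω / M` is Galois (`IsAlgClosure`, `IsGalois`). `fix_mem`: `Ω` is Galois over `M⟮α⟯`; an element outside has a conjugate
`≠` itself (`InfiniteGalois.mem_bot_iff_fixed` or `IsGalois.fixedField_fixingSubgroup`-like lemmas). `prim`: a finite Galois `N ⊇ T`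
(normal closure of `adjoin M T`); `ψ` kills the kernel of the restriction to `N`; `H` = image of `ker ψ` in `Gal(N/M)`; `α` a primitive
element of the fixed field of `H`. `res_hom`: `σ` preserves the range of `i` (the elements algebraic over `i L`: roots of mapped
minpolys, `k` algebraically closed), which defines `r`; surjectivity: for `τ`, the `M`-algebra maps
`M ⊗[L] k → Ω`, `m ⊗ a ↦ m * i a` and `m * i (τ a)` have nested kernels (a finite subset of `k` lies in `L⟮α⟯`, and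
`minpoly M (i α)` is the image of `minpoly L α` since the coefficients of a monic factor lie in `i k ∩ M`); or use Zorn. Extend
from the range by `IsAlgClosed.lift`; an endomorphism of `Ω / M` is bijective. `fin_lvl`: `adjoin M S = M⟮α⟯`; `N = adjoin M (range i)`,
the coefficients of `g = minpoly N α` lie in `adjoin M (i S₀)` for a finite `S₀` (`exists_finset_of_mem_adjoin`); `τ` fixing
`i S₀` maps `α` to a root of `g`; `minpoly.exists_algEquiv_of_root'` over `N`.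
-/

namespace Pool.Agent.PH

open IntermediateField

section
variable {M Ω : Type*} [Field M] [PerfectField M] [Field Ω] [IsAlgClosed Ω] [Algebra M Ω]
  [Algebra.IsAlgebraic M Ω]

theorem FLD_gal : IsGalois M Ω :=
  haveI : IsAlgClosure M Ω := ⟨inferInstance, inferInstance⟩
  { to_isSeparable := inferInstance, to_normal := inferInstance }

omit [PerfectField M] [IsAlgClosed Ω] in
theorem FLD_open (τ' : Ω ≃ₐ[M] Ω) (g : Ω) : IsOpen {τ : Ω ≃ₐ[M] Ω | τ' g = τ g} := by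
  have h := (stabilizer_isOpen_of_isIntegral (K := M) g).preimage
    (continuous_const_mul τ'⁻¹)
  convert h using 1
  ext τ
  simp only [Set.mem_ofPred_eq, Set.mem_preimage, SetLike.mem_coe, MulAction.mem_stabilizer_iff,
    AlgEquiv.smul_def, AlgEquiv.mul_apply, AlgEquiv.aut_inv, AlgEquiv.symm_apply_eq]
  exact eq_comm

omit [PerfectField M] [IsAlgClosed Ω] in
theorem FLD_closed (g : Ω) : IsClosed {τ : Ω ≃ₐ[M] Ω | τ g = g} :=
  (MulAction.stabilizer (Ω ≃ₐ[M] Ω) g).isClosed_of_isOpen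
    (stabilizer_isOpen_of_isIntegral (K := M) g)

omit [PerfectField M] [IsAlgClosed Ω] [Algebra.IsAlgebraic M Ω] in
theorem FLD_fixing (T : Set Ω) (σ : Ω ≃ₐ[M] Ω) :
    σ ∈ (adjoin M T).fixingSubgroup ↔ ∀ a ∈ T, σ a = a := by
  rw [IntermediateField.mem_fixingSubgroup_iff]
  refine ⟨fun h a ha => h a (subset_adjoin M T ha), fun h x hx => ?_⟩
  have : adjoin M T ≤ fixedField (Subgroup.zpowers σ) := by
    rw [adjoin_le_iff]
    intro a ha
    rw [SetLike.mem_coe, mem_fixedField_iff]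
    intro f hf
    exact (Subgroup.zpowers_le (H := MulAction.stabilizer (Ω ≃ₐ[M] Ω) a)).2 (h a ha) hf
  exact (mem_fixedField_iff _ _).1 (this hx) σ (Subgroup.mem_zpowers σ)

theorem fix_mem {α y : Ω} (h : ∀ σ : Ω ≃ₐ[M] Ω, σ α = α → σ y = y) : y ∈ M⟮α⟯ := by
  haveI : IsGalois M Ω := FLD_gal
  rw [← InfiniteGalois.fixedField_fixingSubgroup M⟮α⟯, mem_fixedField_iff]
  intro σ hσ
  exact h σ ((FLD_fixing _ σ).1 hσ α rfl)

theorem fix_range {y : Ω} (h : ∀ σ : Ω ≃ₐ[M] Ω, σ y = y) : y ∈ (algebraMap M Ω).range := by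
  haveI : IsGalois M Ω := FLD_gal
  exact (InfiniteGalois.mem_range_algebraMap_iff_fixed y).2 h

theorem prim {B : Type*} [Group B] (ψ : (Ω ≃ₐ[M] Ω) →* B) (h : OpenK ψ) :
    ∃ α : Ω, ∀ σ : Ω ≃ₐ[M] Ω, σ α = α ↔ ψ σ = 1 := by
  haveI : IsGalois M Ω := FLD_gal
  obtain ⟨T, hT⟩ := h
  have hle : (adjoin M (T : Set Ω)).fixingSubgroup ≤ ψ.ker := fun σ hσ =>
    hT σ fun a ha => (FLD_fixing _ σ).1 hσ a ha
  haveI : FiniteDimensional M (adjoin M (T : Set Ω)) :=
    finiteDimensional_adjoin fun x _ => Algebra.IsIntegral.isIntegral x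
  have ho : IsOpen (ψ.ker : Set (Ω ≃ₐ[M] Ω)) :=
    Subgroup.isOpen_mono hle (IntermediateField.fixingSubgroup_isOpen _)
  have hf : (fixedField ψ.ker).fixingSubgroup = ψ.ker :=
    InfiniteGalois.fixingSubgroup_fixedField ⟨ψ.ker, ψ.ker.isClosed_of_isOpen ho⟩
  haveI : FiniteDimensional M (fixedField ψ.ker) :=
    (InfiniteGalois.isOpen_iff_finite _).1 (by rw [hf]; exact ho)
  obtain ⟨α, hα⟩ := Field.exists_primitive_element M (fixedField ψ.ker)
  have hα' : M⟮(α : Ω)⟯ = fixedField ψ.ker := by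
    simpa only [lift_adjoin_simple, lift_top] using congr_arg lift hα
  refine ⟨α, fun σ => ?_⟩
  have h1 := FLD_fixing {(α : Ω)} σ
  rw [hα', hf, MonoidHom.mem_ker] at h1
  rw [h1]
  simp

theorem fin_lvl {k : Type*} [Field k] (i : k →+* Ω) (S : Finset Ω) :
    ∃ S₀ : Finset k, ∀ τ : Ω ≃ₐ[M] Ω, (∀ a ∈ S₀, τ (i a) = i a) →
      ∃ τ' : Ω ≃ₐ[M] Ω, (∀ a, τ' (i a) = i a) ∧ ∀ g ∈ S, τ' g = τ g := by
  haveI : IsGalois M Ω := FLD_gal
  have hW : IsOpen {τ : Ω ≃ₐ[M] Ω |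
      ∃ τ' : Ω ≃ₐ[M] Ω, (∀ a, τ' (i a) = i a) ∧ ∀ g ∈ S, τ' g = τ g} := by
    have : {τ : Ω ≃ₐ[M] Ω | ∃ τ' : Ω ≃ₐ[M] Ω, (∀ a, τ' (i a) = i a) ∧ ∀ g ∈ S, τ' g = τ g} =
        ⋃ τ' ∈ {τ' : Ω ≃ₐ[M] Ω | ∀ a, τ' (i a) = i a}, ⋂ g ∈ S, {τ | τ' g = τ g} := by
      ext τ
      simp
    rw [this]
    exact isOpen_biUnion fun τ' _ => isOpen_biInter_finset fun g _ => FLD_open τ' g
  obtain ⟨u, hu⟩ := hW.isClosed_compl.isCompact.elim_finite_subfamily_closed
    (fun a : k => {τ : Ω ≃ₐ[M] Ω | τ (i a) = i a}) (fun a => FLD_closed _) (by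
      rw [Set.eq_empty_iff_forall_notMem]
      rintro τ ⟨h1, h2⟩
      exact h1 ⟨τ, fun a => Set.mem_iInter.1 h2 a, fun _ _ => rfl⟩)
  refine ⟨u, fun τ hτ => ?_⟩
  by_contra hn
  exact Set.eq_empty_iff_forall_notMem.1 hu τ ⟨hn, Set.mem_iInter₂.2 hτ⟩

end

end Pool.Agent.PH
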