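import Pool.Agent.Work.MP_db9079_lc.PH.VD
import Mathlib.GroupTheory.Sylow
import Mathlib.GroupTheory.Nilpotent
import Mathlib.RingTheory.RootsOfUnity.PrimitiveRoots
import Mathlib.FieldTheory.Finite.Basic

/-!
Eigenvectors, Artin-Schreier elements, Lagrange interpolation, finite `p`-groups.

PLAN. `kum`: `v (z / u - 1) < 1`, apply `σ` (`VP.lt_one`), so `v (ζ - 1) < 1`, and `0 = ∑ i < l, ζ ^ i` is
congruent to `l`, a unit (`(l : F) * m = 1` for some natural `m`). `exists_eig`: with `z_j = ∑ i < l, (ζ⁻¹) ^ (i * j) * σ^[i] a`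
one has `σ z_j = ζ ^ j * z_j` and `∑ j < l, z_j = l * a`; if `z_j = 0` for `0 < j < l` then `σ` fixes `a`.
`ppow`: take the minimal period `d` of `a` (`Function.minimalPeriod`); a prime `l ≠ p` dividing `d` gives with
`σ ^ (d / l)` an eigenvector, against `kum`. `exists_as`: Dedekind (`linearIndependent_monoidHom`) gives `θ` with
`T = ∑ g, g θ ≠ 0`; `z = - (∑ g, χ g * g θ) / T`. `as_split`: `∏ i < p, (z - i) = z ^ p - z`, so some `z - i` has value
`< 1`, and so has its image `z - i + j`. `lag`: with `h = ∏ i ≠ i₀, (X - C (θ i))`, `∑ h(θ i) u i = h(θ i₀) u i₀` is a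
unit and an integral combination of the sums for `n ≤ card`. `exists_chi`: `H` lies in a coatom, normal by
`IsPGroup.isNilpotent` and the normalizer condition; the quotient has prime order. `exists_min_normal`: take a
nontrivial normal subgroup inside `N` of minimal cardinality; use its center and the `p`-torsion of it.
-/

namespace Pool.Agent.PH

variable {F : Type*} [Field F]

theorem V2_root_one (O : ValuationSubring F) {x : F} {n : ℕ} (hn : n ≠ 0) (h : x ^ n = 1) :
    O.valuation x = 1 := by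
  have h1 : O.valuation x ^ n = 1 := by rw [← map_pow, h, map_one]
  exact (pow_eq_one_iff_of_nonneg zero_le hn).1 h1

theorem V2_nat_unit {p : ℕ} [hp : Fact p.Prime] [CharP F p] (O : ValuationSubring F) {j : ℕ}
    (hj : (j : F) ≠ 0) : O.valuation (j : F) = 1 := by
  have h1 : (j : F) ^ p = j := by
    have := map_natCast (frobenius F p) j
    rwa [frobenius_def] at this
  have h2 : (j : F) ^ (p - 1) = 1 := by
    apply mul_left_cancel₀ hj
    rw [← pow_succ', Nat.sub_add_cancel hp.out.one_le, h1, mul_one]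
  exact V2_root_one O (Nat.sub_ne_zero_of_lt hp.out.one_lt) h2

theorem V2_pow_sub_one (O : ValuationSubring F) {x : F} (hx : O.valuation x = 1)
    (h : O.valuation (x - 1) < 1) (i : ℕ) : O.valuation (x ^ i - 1) < 1 := by
  induction i with
  | zero => simp
  | succ i ih =>
    rw [show x ^ (i + 1) - 1 = x * (x ^ i - 1) + (x - 1) by ring]
    refine Valuation.map_add_lt _ ?_ h
    rwa [map_mul, hx, one_mul]

theorem V2_vp_pow (O : ValuationSubring F) (σ : F →+* F) (hσ : VP O O σ) (n : ℕ) :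
    VP O O ⇑(σ ^ n) := by
  induction n with
  | zero => intro a; simp
  | succ n ih =>
    intro a
    rw [pow_succ, RingHom.coe_mul, Function.comp_apply]
    exact (ih (σ a)).trans (hσ a)

theorem V2_prod {p : ℕ} [hp : Fact p.Prime] [CharP F p] (z : F) :
    ∏ a : ZMod p, (z - ZMod.castHom (dvd_refl p) F a) = z ^ p - z := by
  have hm : (Polynomial.X ^ p - Polynomial.X : Polynomial (ZMod p)).Monic := by
    apply Polynomial.monic_X_pow_sub
    rw [Polynomial.degree_X]
    exact_mod_cast hp.out.one_lt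
  have hr : (Polynomial.X ^ p - Polynomial.X : Polynomial (ZMod p)).roots = Finset.univ.val := by
    have := FiniteField.roots_X_pow_card_sub_X (ZMod p)
    rwa [ZMod.card] at this
  have hc : Multiset.card (Polynomial.X ^ p - Polynomial.X : Polynomial (ZMod p)).roots =
      (Polynomial.X ^ p - Polynomial.X : Polynomial (ZMod p)).natDegree := by
    rw [hr, FiniteField.X_pow_card_sub_X_natDegree_eq _ hp.out.one_lt, ← Finset.card_def,
      Finset.card_univ, ZMod.card]
  have h := Polynomial.prod_multiset_X_sub_C_of_monic_of_roots_card_eq hm hc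
  rw [hr] at h
  have h2 := congrArg (Polynomial.eval₂RingHom (ZMod.castHom (dvd_refl p) F) z) h
  rw [← Finset.prod_eq_multiset_prod, map_prod] at h2
  simpa using h2

theorem kum {p l : ℕ} [Fact p.Prime] [CharP F p] (hl : l.Prime) (hne : l ≠ p)
    (O : ValuationSubring F) (σ : F →+* F) (hσ : VP O O σ) {z ζ u : F} (hζ : ζ ^ l = 1)
    (h1 : ζ ≠ 1) (hz : σ z = ζ * z) (hu : σ u = u) (h : O.valuation (z - u) < O.valuation z) :
    False := by
  have hζv : O.valuation ζ = 1 := V2_root_one O hl.ne_zero hζ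
  have hzv : O.valuation z ≠ 0 := fun h0 => by simp [h0] at h
  have h2 : O.valuation (ζ * z - u) < O.valuation z := by
    have := (hσ.lt (z - u) z).2 h
    rwa [map_sub, hz, hu, map_mul, hζv, one_mul] at this
  have h3 : O.valuation (ζ - 1) < 1 := by
    have h4 : O.valuation ((ζ - 1) * z) < O.valuation z := by
      rw [show (ζ - 1) * z = (ζ * z - u) - (z - u) by ring]
      exact Valuation.map_sub_lt _ h2 h
    rw [map_mul] at h4
    by_contra h5
    rw [not_lt] at h5
    have h6 : 1 * O.valuation z ≤ O.valuation (ζ - 1) * O.valuation z := mul_le_mul_left h5 _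
    rw [one_mul] at h6
    exact absurd h4 (not_lt.2 h6)
  have h7 : ∑ i ∈ Finset.range l, ζ ^ i = 0 := by
    have := mul_geom_sum ζ l
    rw [hζ, sub_self] at this
    exact (mul_eq_zero.1 this).resolve_left (sub_ne_zero.2 h1)
  have h8 : O.valuation (∑ i ∈ Finset.range l, (ζ ^ i - 1)) < 1 :=
    Valuation.map_sum_lt _ one_ne_zero fun i _ => V2_pow_sub_one O hζv h3 i
  rw [Finset.sum_sub_distrib, h7, zero_sub, Valuation.map_neg] at h8
  have h9 : (l : F) ≠ 0 := by
    rw [Ne, CharP.cast_eq_zero_iff F p l]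
    intro hd
    exact hne ((Nat.prime_dvd_prime_iff_eq Fact.out hl).1 hd).symm
  simp only [Finset.sum_const, Finset.card_range, nsmul_eq_mul, mul_one] at h8
  rw [V2_nat_unit O h9] at h8
  exact lt_irrefl _ h8

theorem exists_eig {l : ℕ} (hl : l.Prime) (hl0 : (l : F) ≠ 0) (σ : F →+* F) {ζ a : F}
    (hζ : IsPrimitiveRoot ζ l) (hσζ : σ ζ = ζ) (hper : σ^[l] a = a) (hne : σ a ≠ a) :
    ∃ z ξ : F, z ≠ 0 ∧ ξ ^ l = 1 ∧ ξ ≠ 1 ∧ σ z = ξ * z ∧
      ∀ S : Subfield F, ζ ∈ S → (∀ i, σ^[i] a ∈ S) → z ∈ S := by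
  have hζ0 : ζ ≠ 0 := hζ.ne_zero hl.ne_zero
  have hi : IsPrimitiveRoot ζ⁻¹ l := hζ.inv
  set Z : ℕ → F := fun j => ∑ i ∈ Finset.range l, (ζ⁻¹ ^ j) ^ i * σ^[i] a with hZ
  have hσZ : ∀ j, σ (Z j) = ζ ^ j * Z j := by
    intro j
    have h1 : (ζ⁻¹ ^ j) ^ l = 1 := by rw [← pow_mul, mul_comm, pow_mul, hi.pow_eq_one, one_pow]
    have h2 : ζ ^ j * ζ⁻¹ ^ j = 1 := by rw [← mul_pow, mul_inv_cancel₀ hζ0, one_pow]
    have h3 := Finset.sum_range_succ' (fun i => (ζ⁻¹ ^ j) ^ i * σ^[i] a) l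
    rw [Finset.sum_range_succ, h1, hper, pow_zero, Function.iterate_zero_apply,
      add_left_inj] at h3
    have h4 : Z j = ∑ i ∈ Finset.range l, (ζ⁻¹ ^ j) ^ (i + 1) * σ^[i + 1] a := h3
    conv_rhs => rw [h4]
    rw [hZ, map_sum, Finset.mul_sum]
    refine Finset.sum_congr rfl fun i _ => ?_
    rw [map_mul, map_pow, map_pow, map_inv₀, hσζ, Function.iterate_succ_apply', pow_succ']
    rw [← mul_assoc, ← mul_assoc, h2, one_mul]
  have hsum : ∑ j ∈ Finset.range l, Z j = l * a := by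
    rw [hZ, Finset.sum_comm]
    have h5 : ∀ i ∈ Finset.range l, ∑ j ∈ Finset.range l, (ζ⁻¹ ^ j) ^ i * σ^[i] a =
        if i = 0 then l * a else 0 := by
      intro i hi'
      split_ifs with h0
      · subst h0
        simp
      · rw [← Finset.sum_mul]
        have h6 : ζ⁻¹ ^ i ≠ 1 := hi.pow_ne_one_of_pos_of_lt h0 (Finset.mem_range.1 hi')
        have h7 := mul_geom_sum (ζ⁻¹ ^ i) l
        rw [← pow_mul, mul_comm i l, pow_mul, hi.pow_eq_one, one_pow, sub_self] at h7
        have h8 := (mul_eq_zero.1 h7).resolve_left (sub_ne_zero.2 h6)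
        have h9 : ∑ j ∈ Finset.range l, (ζ⁻¹ ^ j) ^ i = 0 := by
          rw [← h8]
          exact Finset.sum_congr rfl fun j _ => by rw [← pow_mul, ← pow_mul, mul_comm]
        rw [h9, zero_mul]
    rw [Finset.sum_congr rfl h5, Finset.sum_ite_eq' _ 0, if_pos (Finset.mem_range.2 hl.pos)]
  by_contra hcon
  have hz : ∀ j ∈ Finset.range l, j ≠ 0 → Z j = 0 := by
    intro j hj hj0
    by_contra hZ0
    refine hcon ⟨Z j, ζ ^ j, hZ0, ?_, hζ.pow_ne_one_of_pos_of_lt hj0 (Finset.mem_range.1 hj),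
      hσZ j, fun S hS hSa => ?_⟩
    · rw [← pow_mul, mul_comm, pow_mul, hζ.pow_eq_one, one_pow]
    · exact sum_mem fun i _ => mul_mem (pow_mem (pow_mem (inv_mem hS) _) _) (hSa i)
  rw [Finset.sum_eq_single_of_mem 0 (Finset.mem_range.2 hl.pos) hz] at hsum
  have h10 := hσZ 0
  rw [hsum, pow_zero, one_mul, map_mul, map_natCast] at h10
  exact hne (mul_left_cancel₀ hl0 h10)

theorem ppow {p : ℕ} [Fact p.Prime] [CharP F p] (O : ValuationSubring F) (σ : F →+* F)
    (hσ : VP O O σ) (happ : ∀ z : F, z ≠ 0 → ∃ u, σ u = u ∧ O.valuation (z - u) < O.valuation z)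
    (hζ : ∀ l : ℕ, l.Prime → l ≠ p → ∃ ζ, IsPrimitiveRoot ζ l ∧ σ ζ = ζ) {a : F} {n : ℕ}
    (hn : 0 < n) (h : σ^[n] a = a) : ∃ m, σ^[p ^ m] a = a := by
  have hmem : a ∈ Function.periodicPts σ := Function.mk_mem_periodicPts hn h
  have hd : 0 < Function.minimalPeriod σ a := Function.minimalPeriod_pos_of_mem_periodicPts hmem
  have hper : σ^[Function.minimalPeriod σ a] a = a := Function.isPeriodicPt_minimalPeriod σ a
  have hall : ∀ {l : ℕ}, l.Prime → l ∣ Function.minimalPeriod σ a → l = p := by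
    intro l hl hdvd
    by_contra hne
    obtain ⟨e, he⟩ := hdvd
    obtain ⟨ζ, hζ1, hζ2⟩ := hζ l hl hne
    have hfix : ∀ x, σ x = x → (σ ^ e) x = x := fun x hx => by
      rw [RingHom.coe_pow]
      exact Function.iterate_fixed hx e
    have h9 : (l : F) ≠ 0 := by
      rw [Ne, CharP.cast_eq_zero_iff F p l]
      intro hd
      exact hne ((Nat.prime_dvd_prime_iff_eq Fact.out hl).1 hd).symm
    have he0 : e ≠ 0 := by
      rintro rfl
      rw [he] at hd
      simp at hd
    have hp1 : (⇑(σ ^ e))^[l] a = a := by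
      rw [RingHom.coe_pow, ← Function.iterate_mul, mul_comm, ← he]
      exact hper
    have hp2 : (σ ^ e) a ≠ a := by
      intro h2
      rw [RingHom.coe_pow] at h2
      have h3 := Function.IsPeriodicPt.minimalPeriod_le (Nat.pos_of_ne_zero he0) h2
      rw [he] at h3
      have h4 := hl.one_lt
      have h5 := Nat.pos_of_ne_zero he0
      nlinarith
    obtain ⟨z, ξ, hz0, hξ1, hξ2, hz, -⟩ := exists_eig hl h9 (σ ^ e) hζ1 (hfix ζ hζ2) hp1 hp2
    obtain ⟨u, hu1, hu2⟩ := happ z hz0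
    exact kum hl hne O (σ ^ e) (V2_vp_pow O σ hσ e) hξ1 hξ2 hz (hfix u hu1) hu2
  refine ⟨(Function.minimalPeriod σ a).primeFactorsList.length, ?_⟩
  rw [← Nat.eq_prime_pow_of_unique_prime_dvd hd.ne' hall]
  exact hper

theorem exists_as {p : ℕ} [Fact p.Prime] [CharP F p] {K : Type*} [Field K] [Algebra K F]
    (Q : Subgroup (F ≃ₐ[K] F)) [Finite Q] (χ : Q →* Multiplicative (ZMod p)) :
    ∃ z : F, ∀ g : Q, (g : F ≃ₐ[K] F) z = z + ((Multiplicative.toAdd (χ g)).val : F) := by
  classical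
  have := Fintype.ofFinite Q
  let φ : Q → (F →* F) := fun g => ((g : F ≃ₐ[K] F) : F →* F)
  have hφ : Function.Injective φ := by
    intro g h hgh
    apply Subtype.ext
    ext x
    exact DFunLike.congr_fun hgh x
  have hli := (linearIndependent_monoidHom F F).comp φ hφ
  obtain ⟨θ, hθ⟩ : ∃ θ : F, ∑ g : Q, (g : F ≃ₐ[K] F) θ ≠ 0 := by
    by_contra hcon
    have h1 := Fintype.linearIndependent_iff.1 hli (fun _ => 1) (by
      funext θ
      by_contra h2
      refine hcon ⟨θ, fun h3 => h2 ?_⟩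
      simpa [Finset.sum_apply, φ] using h3) 1
    exact one_ne_zero h1
  let c : Q → F := fun g => ((Multiplicative.toAdd (χ g)).val : F)
  have hc : ∀ g h, c (g * h) = c g + c h := by
    intro g h
    have h1 : ∀ x : ZMod p, (x.val : F) = ZMod.castHom (dvd_refl p) F x := fun x => by
      rw [ZMod.castHom_apply, ZMod.natCast_val]
    simp only [c, h1, map_mul, toAdd_mul, map_add]
  refine ⟨-(∑ g : Q, c g * (g : F ≃ₐ[K] F) θ) / ∑ g : Q, (g : F ≃ₐ[K] F) θ, fun h => ?_⟩
  have hT : (h : F ≃ₐ[K] F) (∑ g : Q, (g : F ≃ₐ[K] F) θ) = ∑ g : Q, (g : F ≃ₐ[K] F) θ := by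
    rw [map_sum]
    exact Fintype.sum_equiv (Equiv.mulLeft h) _ _ fun g => rfl
  have hS : (h : F ≃ₐ[K] F) (∑ g : Q, c g * (g : F ≃ₐ[K] F) θ) =
      ∑ g : Q, c g * (g : F ≃ₐ[K] F) θ - c h * ∑ g : Q, (g : F ≃ₐ[K] F) θ := by
    rw [map_sum, Finset.mul_sum, ← Finset.sum_sub_distrib]
    refine Fintype.sum_equiv (Equiv.mulLeft h) _ _ fun g => ?_
    have h1 : (h : F ≃ₐ[K] F) (c g) = c g := map_natCast _ _
    have h2 : ((h * g : Q) : F ≃ₐ[K] F) θ = (h : F ≃ₐ[K] F) ((g : F ≃ₐ[K] F) θ) := rfl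
    rw [map_mul, h1, Equiv.coe_mulLeft, hc, h2]
    ring
  rw [map_div₀, map_neg, hS, hT]
  change _ = _ + c h
  field_simp
  ring

theorem as_split {p : ℕ} [Fact p.Prime] [CharP F p] (O : ValuationSubring F) (σ : F →+* F)
    (hσ : VP O O σ) {z : F} {j : ℕ} (hj : (j : F) ≠ 0) (hz : σ z = z + j)
    (h : O.valuation (z ^ p - z) < 1) : False := by
  rw [← V2_prod (p := p) z, map_prod] at h
  obtain ⟨a, ha⟩ : ∃ a : ZMod p, O.valuation (z - ZMod.castHom (dvd_refl p) F a) < 1 := by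
    by_contra hcon
    exact absurd h (not_lt.2 (Finset.one_le_prod' fun a _ => not_lt.1 fun h1 => hcon ⟨a, h1⟩))
  have h1 : σ (ZMod.castHom (dvd_refl p) F a) = ZMod.castHom (dvd_refl p) F a := by
    rw [ZMod.castHom_apply, ← ZMod.natCast_val, map_natCast]
  have h2 := (hσ.lt_one _).2 ha
  rw [map_sub, hz, h1] at h2
  have h3 := Valuation.map_sub_lt _ h2 ha
  rw [show z + j - ZMod.castHom (dvd_refl p) F a - (z - ZMod.castHom (dvd_refl p) F a) = j by ring,
    V2_nat_unit (p := p) O hj] at h3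
  exact lt_irrefl _ h3

end Pool.Agent.PH
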