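import Pool.Agent.Work.MP_db9079_lc.PH.V1b
import Mathlib.RingTheory.Valuation.LocalSubring

/-!
Separation of conjugate valuations, conjugacy in finite normal extensions, decomposition fields.

PLAN. `exists_ext_val`: `IsLocalRing.exists_factor_valuationRing` or `LocalSubring.exists_le_valuationSubring`.
`exists_phi`: `b = (1 - c ^ n + c ^ (2 * n))⁻¹`, `n > 0` a common multiple of the `n i` with `v_i (c ^ n i - 1) < 1` (for the
`i` where such `n i > 0` exists); if `v_i c = 1` and `v_i (1 - c ^ n + c ^ (2 n)) < 1` then `v_i (c ^ (6 n) - 1) < 1`, so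
`c ^ n` is congruent to `1`, contradiction. `exists_sep`: `τ` has finite order, so neither of `O`, `O.comap τ` contains the
other; `c = a / b`. `exists_beta`: `b τ` from `exists_phi` for the family `O.comap σ`, `β₀ = ∏ τ ∉ Dec, b τ`,
`β = ∏ d ∈ Dec, d β₀`. `conj_fin`: otherwise by `inc_eq` the rings `O₂` and `O₁.comap τ` are incomparable for all `τ`;
`exists_phi` gives `η τ = 1 - b τ` small at `O₁.comap τ`, congruent to `1` at `O₂`, integral at all `O₁.comap σ`; for the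
product `η` use `minpoly_coeff_mem` (with `O₁.nonunits`) and `root_lt_one` for `O₂`; finally invert `τ`.
`imm_val`: replace `g` by `y = β ^ m * g` with `v (τ y) ≠ v y` for `τ ∉ Dec` (each `τ` excludes at most one `m`); the minpoly
is separable, its other roots `r` have `v r ≠ v y`; write `μ(y T) = κ * A(T) * (T - 1) * C(T)` with `A = ∏ (1 - T y / r)` over the
large roots, `C = ∏ (T - r / y)` over the `c` small ones; the coefficients of `T ^ c` and `T ^ (c + 1)` of `A (T - 1) C` are units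
(reduce modulo the maximal ideal), so `v y = v (μ_c / μ_(c+1))`.
-/

namespace Pool.Agent.PH

open Polynomial

variable {K E : Type*} [Field K] [Field E]

theorem exists_ext_val (O : ValuationSubring K) (φ : K →+* E) :
    ∃ O' : ValuationSubring E, VP O O' φ := by
  obtain ⟨A, h, hl⟩ := IsLocalRing.exists_factor_valuationRing (φ.comp O.subtype)
  refine ⟨A, fun a => ⟨fun ha => ?_, fun ha => h ⟨a, ha⟩⟩⟩
  by_contra hna
  have hinv : a⁻¹ ∈ O := (O.mem_or_inv_mem a).resolve_left hna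
  have ha0 : a ≠ 0 := fun h0 => hna (h0 ▸ O.zero_mem)
  have hu : IsUnit ((φ.comp O.subtype).codRestrict A.toSubring h ⟨a⁻¹, hinv⟩) := by
    refine IsUnit.of_mul_eq_one ⟨φ a, ha⟩ (Subtype.ext ?_)
    show φ a⁻¹ * φ a = 1
    rw [← map_mul, inv_mul_cancel₀ ha0, map_one]
  obtain ⟨u, hu'⟩ := (hl.map_nonunit _ hu).exists_right_inv
  have h1 : a⁻¹ * (u : K) = 1 := congrArg Subtype.val hu'
  have h2 : (u : K) = a := by
    rw [inv_mul_eq_one₀ ha0] at h1
    exact h1.symm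
  exact hna (h2 ▸ u.2)

theorem V4_pow_sub_one {Γ : Type*} [LinearOrderedCommGroupWithZero Γ] (v : Valuation E Γ) {x : E}
    (hx : v x ≤ 1) (h : v (x - 1) < 1) (k : ℕ) : v (x ^ k - 1) < 1 := by
  induction k with
  | zero => simp
  | succ k ih =>
    have e : x ^ (k + 1) - 1 = (x ^ k - 1) * x + (x - 1) := by ring
    rw [e]
    refine v.map_add_lt ?_ h
    rw [map_mul]
    exact lt_of_le_of_lt (mul_le_of_le_one_right' hx) ih

theorem V4_phi {Γ : Type*} [LinearOrderedCommGroupWithZero Γ] (v : Valuation E Γ) (c : E) {n : ℕ}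
    (hn : 0 < n) (h : v c = 1 → v (c ^ (6 * n) - 1) < 1 → v (c ^ n - 1) < 1) :
    v (1 - c ^ n + c ^ (2 * n))⁻¹ ≤ 1 ∧ (v c < 1 → v ((1 - c ^ n + c ^ (2 * n))⁻¹ - 1) < 1) ∧
      (1 < v c → v (1 - c ^ n + c ^ (2 * n))⁻¹ * v c ≤ 1) := by
  set u := 1 - c ^ n + c ^ (2 * n) with hu
  have e1 : u - 1 = (c ^ n - 1) * c ^ n := by rw [hu]; ring
  rcases lt_trichotomy (v c) 1 with hc | hc | hc
  · have h1 : v (c ^ n) < 1 := by
      rw [map_pow]; exact pow_lt_one₀ zero_le hc hn.ne'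
    have h2 : v (u - 1) < 1 := by
      rw [e1, map_mul]
      refine lt_of_le_of_lt (mul_le_of_le_one_left' ?_) h1
      exact v.map_sub_le h1.le v.map_one.le
    have h3 : v u = 1 := by
      have : u = 1 + (u - 1) := by ring
      rw [this]
      exact v.map_one_add_of_lt h2
    have hu0 : u ≠ 0 := fun h0 => by simp [h0] at h3
    refine ⟨by rw [map_inv₀, h3, inv_one], fun _ => ?_, fun h' => absurd hc h'.not_gt⟩
    have e2 : u⁻¹ - 1 = -((u - 1) * u⁻¹) := by field_simp; ring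
    rw [e2, v.map_neg, map_mul, map_inv₀, h3, inv_one, mul_one]
    exact h2
  · have hn1 : v (c ^ n) = 1 := by rw [map_pow, hc, one_pow]
    have h3 : 1 ≤ v u := by
      by_contra hlt
      push Not at hlt
      have e3 : c ^ (6 * n) - 1 = u * (((c ^ n) + 1) * ((c ^ n) ^ 3 - 1)) := by rw [hu]; ring
      have h4 : v (c ^ (6 * n) - 1) < 1 := by
        rw [e3, map_mul]
        refine lt_of_le_of_lt (mul_le_of_le_one_right' ?_) hlt
        rw [map_mul]
        refine mul_le_one' (v.map_add_le hn1.le v.map_one.le) (v.map_sub_le ?_ v.map_one.le)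
        rw [map_pow, hn1, one_pow]
      have h5 : v (u - 1) < 1 := by
        rw [e1, map_mul, hn1, mul_one]
        exact h hc h4
      have h6 := v.map_sub_lt hlt h5
      simp at h6
    refine ⟨?_, fun h' => absurd hc h'.ne, fun h' => absurd hc h'.ne'⟩
    rw [map_inv₀]
    exact inv_le_one_of_one_le₀ h3
  · have hc0 : 0 < v c := lt_trans zero_lt_one hc
    have h1 : v (1 - c ^ n) < v (c ^ (2 * n)) := by
      rw [map_pow]
      refine v.map_sub_lt ?_ ?_
      · rw [v.map_one]; exact one_lt_pow₀ hc (by omega)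
      · rw [map_pow]; exact pow_lt_pow_right₀ hc (by omega)
    have h3 : v u = v c ^ (2 * n) := by
      rw [hu, v.map_add_eq_of_lt_right h1, map_pow]
    have h4 : v c ≤ v u := by
      rw [h3]; exact le_self_pow₀ hc.le (by omega)
    refine ⟨?_, fun h' => absurd hc h'.not_gt, fun _ => ?_⟩
    · rw [map_inv₀]
      exact inv_le_one_of_one_le₀ (hc.le.trans h4)
    · rw [map_inv₀]
      exact (inv_mul_le_one₀ (hc0.trans_le h4)).2 h4

theorem exists_phi {ι : Type*} [Finite ι] (O : ι → ValuationSubring E) (c : E) :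
    ∃ b : E, ∀ i, b ∈ O i ∧ ((O i).valuation c < 1 → (O i).valuation (b - 1) < 1) ∧
      (1 < (O i).valuation c → (O i).valuation b * (O i).valuation c ≤ 1) := by
  classical
  have := Fintype.ofFinite ι
  have key : ∀ i, ∃ m : ℕ, 0 < m ∧ ∀ k : ℕ, 0 < k → (O i).valuation (c ^ k - 1) < 1 →
      (O i).valuation (c ^ m - 1) < 1 := by
    intro i
    by_cases h : ∃ k : ℕ, 0 < k ∧ (O i).valuation (c ^ k - 1) < 1
    · obtain ⟨k, hk, hk'⟩ := h
      exact ⟨k, hk, fun _ _ _ => hk'⟩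
    · exact ⟨1, one_pos, fun k hk hk' => absurd ⟨k, hk, hk'⟩ h⟩
  choose m hm hm' using key
  have hn : 0 < ∏ i, m i := Finset.prod_pos fun i _ => hm i
  refine ⟨(1 - c ^ (∏ i, m i) + c ^ (2 * ∏ i, m i))⁻¹, fun i => ?_⟩
  rw [← ValuationSubring.valuation_le_one_iff]
  refine V4_phi (O i).valuation c hn fun hc h6 => ?_
  obtain ⟨k, hk⟩ := Finset.dvd_prod_of_mem m (Finset.mem_univ i)
  rw [hk, pow_mul]
  refine V4_pow_sub_one _ ?_ (hm' i _ (by omega) h6) k
  rw [map_pow, hc, one_pow]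

variable [Algebra K E]

theorem V4_mem_Dec [Finite (E ≃ₐ[K] E)] (O : ValuationSubring E) {τ : E ≃ₐ[K] E}
    (h : ∀ a, a ∈ O → τ a ∈ O) : τ ∈ Dec K O := by
  have hk : ∀ (k : ℕ) (a : E), a ∈ O → (τ ^ k) a ∈ O := by
    intro k
    induction k with
    | zero => intro a ha; simpa using ha
    | succ k ih =>
      intro a ha
      rw [pow_succ, AlgEquiv.mul_apply]
      exact ih _ (h a ha)
  refine (mem_Dec K).2 fun a => ⟨fun ha => ?_, h a⟩
  have hpos : 0 < orderOf τ := orderOf_pos τ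
  have h1 := hk (orderOf τ - 1) _ ha
  rw [← AlgEquiv.mul_apply, ← pow_succ, Nat.sub_add_cancel hpos, pow_orderOf_eq_one] at h1
  simpa using h1

theorem exists_sep [Finite (E ≃ₐ[K] E)] (O : ValuationSubring E) {τ : E ≃ₐ[K] E}
    (hτ : τ ∉ Dec K O) : ∃ c : E, O.valuation c < 1 ∧ 1 < O.valuation (τ c) := by
  have h1 : ∃ a, a ∈ O ∧ τ a ∉ O := by
    by_contra h
    push Not at h
    exact hτ (V4_mem_Dec O h)
  have h2 : ∃ b, b ∈ O ∧ τ⁻¹ b ∉ O := by
    by_contra h
    push Not at h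
    exact hτ ((Dec K O).inv_mem_iff.1 (V4_mem_Dec O h))
  obtain ⟨a, ha, ha'⟩ := h1
  obtain ⟨b, hb, hb'⟩ := h2
  rw [← ValuationSubring.valuation_le_one_iff] at ha hb ha' hb'
  push Not at ha' hb'
  have hb0 : b ≠ 0 := by
    rintro rfl
    simp at hb'
  have e : τ (τ⁻¹ b) = b := by rw [← AlgEquiv.mul_apply, mul_inv_cancel, AlgEquiv.one_apply]
  refine ⟨a / τ⁻¹ b, ?_, ?_⟩
  · rw [map_div₀, div_lt_one₀ (lt_trans zero_lt_one hb')]
    exact lt_of_le_of_lt ha hb'
  · rw [map_div₀, e, map_div₀, one_lt_div₀ ((Valuation.pos_iff _).2 hb0)]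
    exact lt_of_le_of_lt hb ha'

omit [Algebra K E] in
theorem V4_prod_sub_one {Γ ι : Type*} [LinearOrderedCommGroupWithZero Γ] (v : Valuation E Γ)
    (s : Finset ι) (f : ι → E) (h : ∀ i ∈ s, v (f i - 1) < 1) : v (∏ i ∈ s, f i - 1) < 1 := by
  classical
  induction s using Finset.induction_on with
  | empty => simp
  | insert i s hi ih =>
    rw [Finset.prod_insert hi]
    have h1 := h i (Finset.mem_insert_self i s)
    have h2 := ih fun j hj => h j (Finset.mem_insert_of_mem hj)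
    have e : f i * ∏ j ∈ s, f j - 1 =
        (f i - 1) * (∏ j ∈ s, f j - 1) + (f i - 1) + (∏ j ∈ s, f j - 1) := by ring
    rw [e]
    refine v.map_add_lt (v.map_add_lt ?_ h1) h2
    rw [map_mul]
    exact lt_of_le_of_lt (mul_le_of_le_one_right' h2.le) h1

omit [Algebra K E] in
theorem V4_prod_le {Γ ι : Type*} [LinearOrderedCommGroupWithZero Γ] (v : Valuation E Γ)
    (s : Finset ι) (f : ι → E) (h : ∀ i ∈ s, v (f i) ≤ 1) {j : ι} (hj : j ∈ s) :
    v (∏ i ∈ s, f i) ≤ v (f j) := by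
  classical
  rw [← Finset.mul_prod_erase s f hj, map_mul]
  refine mul_le_of_le_one_right' ?_
  rw [map_prod]
  exact Finset.prod_le_one' fun i hi => h i (Finset.mem_of_mem_erase hi)

theorem V4_phi_aut [Finite (E ≃ₐ[K] E)] (O : ValuationSubring E) (c : E) :
    ∃ b : E, ∀ σ : E ≃ₐ[K] E, σ b ∈ O ∧ (O.valuation (σ c) < 1 → O.valuation (σ b - 1) < 1) ∧
      (1 < O.valuation (σ c) → O.valuation (σ b) * O.valuation (σ c) ≤ 1) := by
  obtain ⟨b, hb⟩ := exists_phi (fun σ : E ≃ₐ[K] E => O.comap (σ : E →+* E)) c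
  refine ⟨b, fun σ => ?_⟩
  obtain ⟨h1, h2, h3⟩ := hb σ
  have hv := vp_comap O (σ : E →+* E)
  refine ⟨h1, fun h => ?_, fun h => ?_⟩
  · have := (hv.lt_one (b - 1)).2 (h2 ((hv.lt_one c).1 h))
    simpa using this
  · have h4 : 1 < (O.comap (σ : E →+* E)).valuation c := by
      have := (hv.lt 1 c).1 (by simpa using h)
      simpa using this
    have h5 := (hv.le (b * c) 1).2 (by rw [map_mul, map_one]; exact h3 h4)
    simpa using h5

theorem exists_beta [Finite (E ≃ₐ[K] E)] (O : ValuationSubring E) (c : (E ≃ₐ[K] E) → E)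
    (hc : ∀ τ, τ ∉ Dec K O → O.valuation (c τ) < 1 ∧ 1 < O.valuation (τ (c τ))) :
    ∃ β : E, (∀ σ ∈ Dec K O, σ β = β) ∧ O.valuation (β - 1) < 1 ∧ (∀ τ : E ≃ₐ[K] E, τ β ∈ O) ∧
      ∀ τ, τ ∉ Dec K O → O.valuation (τ β) * O.valuation (τ (c τ)) ≤ 1 := by
  classical
  have := Fintype.ofFinite (E ≃ₐ[K] E)
  have := Fintype.ofFinite (Dec K O)
  choose b hb using fun τ : E ≃ₐ[K] E => V4_phi_aut (K := K) O (c τ)
  set S : Finset (E ≃ₐ[K] E) := Finset.univ.filter fun τ => τ ∉ Dec K O with hS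
  set β₀ : E := ∏ τ ∈ S, b τ with hβ₀
  have hint : ∀ σ : E ≃ₐ[K] E, σ β₀ ∈ O := fun σ => by
    rw [hβ₀, map_prod]
    exact prod_mem fun τ _ => (hb τ σ).1
  refine ⟨∏ d : Dec K O, (d : E ≃ₐ[K] E) β₀, fun σ hσ => ?_, ?_, fun τ => ?_, fun τ hτ => ?_⟩
  · rw [map_prod]
    exact Fintype.prod_equiv (Equiv.mulLeft (⟨σ, hσ⟩ : Dec K O)) _ _ fun d => rfl
  · refine V4_prod_sub_one _ _ _ fun d _ => ?_
    rw [hβ₀, map_prod]
    refine V4_prod_sub_one _ _ _ fun τ hτ => (hb τ d).2.1 ?_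
    have hd : VP O O ((d : E ≃ₐ[K] E) : E →+* E) := d.2
    exact (hd.lt_one (c τ)).2 (hc τ (Finset.mem_filter.1 hτ).2).1
  · rw [map_prod]
    exact prod_mem fun d _ => hint (τ * d)
  · refine le_trans (mul_le_mul_left ?_ _) ((hb τ τ).2.2 (hc τ hτ).2)
    rw [map_prod]
    refine le_trans (V4_prod_le O.valuation _ (fun d : Dec K O => τ ((d : E ≃ₐ[K] E) β₀))
      (fun d _ => (O.valuation_le_one_iff _).2 (hint (τ * d))) (Finset.mem_univ 1)) ?_
    show O.valuation (τ β₀) ≤ _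
    rw [hβ₀, map_prod]
    exact V4_prod_le O.valuation _ (fun σ => τ (b σ))
      (fun σ _ => (O.valuation_le_one_iff _).2 (hb σ τ).1)
      (Finset.mem_filter.2 ⟨Finset.mem_univ τ, hτ⟩)

theorem exists_beta' [Finite (E ≃ₐ[K] E)] (O : ValuationSubring E) :
    ∃ β : E, (∀ σ ∈ Dec K O, σ β = β) ∧ O.valuation (β - 1) < 1 ∧
      ∀ τ, τ ∉ Dec K O → O.valuation (τ β) < 1 := by
  have key : ∀ τ : E ≃ₐ[K] E, ∃ c : E, τ ∉ Dec K O →
      O.valuation c < 1 ∧ 1 < O.valuation (τ c) := by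
    intro τ
    by_cases hτ : τ ∈ Dec K O
    · exact ⟨0, fun h => absurd hτ h⟩
    · obtain ⟨c, hc⟩ := exists_sep O hτ
      exact ⟨c, fun _ => hc⟩
  choose c hc using key
  obtain ⟨β, h1, h2, -, h4⟩ := exists_beta O c hc
  refine ⟨β, h1, h2, fun τ hτ => ?_⟩
  by_contra h
  push Not at h
  have h5 := (hc τ hτ).2
  exact absurd (h4 τ hτ) (not_le.2 (lt_of_lt_of_le h5 (le_mul_of_one_le_left' h)))

end Pool.Agent.PH
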