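import Pool.Agent.Work.MP_db9079_lc.PH.Ax
import Pool.Agent.Work.MP_db9079_lc.PH.V4
import Pool.Agent.Work.MP_db9079_lc.PH.V2
import Pool.Agent.Work.MP_db9079_lc.PH.FLD
import Mathlib.RingTheory.RootsOfUnity.AlgebraicallyClosed

/-!
Consequences of the axioms, I: Galois invariance of the valuation, residues, tameness.

PLAN. `charP`: `CharP.charP_iff_prime_eq_zero`. `den'`: `alg_val` for `a` and `b`, common exponent `n + 1`, compare `n + 1`-th powers. `hensel`: let `a ∈ O`, `E` a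
finite normal extension of `M` in `Ω` containing `a` (`normalClosure`), `O_E = O.comap E.val`; if some `τ ∉ Dec`, take `β` from `exists_beta'`, `η = 1 - β`; its minpoly `μ` over `M` is
separable (perfect), splits, `μ = (X - η) * g` where the roots of `g` are conjugates `τ η ≠ η`, which are units congruent to `1`; so `μ` has integral coefficients, `v μ₀ < 1`, `v μ₁ = 1`;
if `natDegree μ ≥ 2`, `hen` gives a root in `M`, impossible for an irreducible `μ`; so `η ∈ M` and `τ η = η`, contradiction. Restrict `σ` (`AlgEquiv.restrictNormal`).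
`resk`: a root of `X ^ p - X` is a natural number cast; `alg_res` with `i.toAlgebra`. `approx`: `v (z ^ n) = v a`, `a ∈ M`, `n = p ^ s * n'`, `a = a' ^ p ^ s` in `M`, `vmod` for `n'`:
`v a' = v (t ^ j * b ^ n')`, so `v z = v (w ^ j * b)` with `w ∈ i k`, `w ^ n' = t`; `z / (w ^ j b)` is a unit, `resk`. `tame'`: `ppow`, `periodic_of_alg`.
-/

namespace Pool.Agent.PH

open Polynomial IntermediateField

/-- Models with an algebraically closed ambient field which is algebraic over `M`. -/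
structure AG (p : ℕ) (A : PM) : Prop where
  good : Good p A
  ac : IsAlgClosed A.Ω
  alg : Algebra.IsAlgebraic A.M A.Ω

theorem MOD_step {F : Type*} [Field F] (O : ValuationSubring F) {q : F[X]} {r : F}
    (hq : ∀ i, q.coeff i ∈ O) (hr : r ∈ O) (i : ℕ) : (q * (X - C r)).coeff i ∈ O := by
  rcases i with _ | i
  · rw [mul_coeff_zero]
    exact mul_mem (hq 0) (by simpa using hr)
  · rw [coeff_mul_X_sub_C]
    exact sub_mem (hq i) (mul_mem (hq _) hr)

theorem MOD_prod {F : Type*} [Field F] (O : ValuationSubring F) (s : Multiset F)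
    (hs : ∀ r ∈ s, O.valuation r = 1) :
    (∀ i, (s.map fun r => X - C r).prod.coeff i ∈ O) ∧
      O.valuation ((s.map fun r => X - C r).prod.coeff 0) = 1 := by
  induction s using Multiset.induction_on with
  | empty =>
    refine ⟨fun i => ?_, by simp⟩
    rw [Multiset.map_zero, Multiset.prod_zero, coeff_one]
    split_ifs
    exacts [O.one_mem, O.zero_mem]
  | cons a s ih =>
    obtain ⟨h1, h2⟩ := ih fun r hr => hs r (Multiset.mem_cons_of_mem hr)
    have ha := hs a (Multiset.mem_cons_self _ _)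
    rw [Multiset.map_cons, Multiset.prod_cons, mul_comm]
    refine ⟨MOD_step O h1 ((O.valuation_le_one_iff _).1 ha.le), ?_⟩
    rw [mul_coeff_zero, map_mul, h2]
    simp [ha]

theorem MOD_poly {F : Type*} [Field F] (O : ValuationSubring F) (s : Multiset F) {η : F}
    (hη : O.valuation η < 1) (hs : ∀ r ∈ s, O.valuation r = 1) :
    (∀ i, ((η ::ₘ s).map fun r => X - C r).prod.coeff i ∈ O) ∧
      O.valuation (((η ::ₘ s).map fun r => X - C r).prod.coeff 0) < 1 ∧
      O.valuation (((η ::ₘ s).map fun r => X - C r).prod.coeff 1) = 1 := by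
  obtain ⟨h1, h2⟩ := MOD_prod O s hs
  rw [Multiset.map_cons, Multiset.prod_cons, mul_comm]
  refine ⟨MOD_step O h1 ((O.valuation_le_one_iff _).1 hη.le), ?_, ?_⟩
  · rw [mul_coeff_zero, map_mul, h2]
    simpa using hη
  · have h3 : O.valuation ((s.map fun r => X - C r).prod.coeff (0 + 1) * η) <
        O.valuation ((s.map fun r => X - C r).prod.coeff 0) := by
      rw [h2, map_mul]
      exact (mul_le_of_le_one_left' ((O.valuation_le_one_iff _).2 (h1 _))).trans_lt hη
    rw [show (1 : ℕ) = 0 + 1 from rfl, coeff_mul_X_sub_C, O.valuation.map_sub_eq_of_lt_left h3, h2]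

theorem MOD_unit {F : Type*} [Field F] (O : ValuationSubring F) {b : F} (hb : O.valuation b < 1) :
    O.valuation (1 - b) = 1 := by
  have h : O.valuation b < O.valuation 1 := by rwa [map_one]
  rw [O.valuation.map_sub_eq_of_lt_left h, map_one]

variable {p : ℕ} [Fact p.Prime] {A : PM}

theorem Good.charP (h : Good p A) : CharP A.Ω p :=
  (CharP.charP_iff_prime_eq_zero Fact.out).2 h.char

theorem Good.perfect (h : Good p A) : PerfectField A.M := by
  have := h.charP
  have : PerfectRing A.M p := PerfectRing.ofSurjective _ _ fun x => by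
    obtain ⟨y, hy, e⟩ := h.perf x x.2
    exact ⟨⟨y, hy⟩, Subtype.ext e⟩
  exact PerfectRing.toPerfectField _ p

theorem AG.den (h : AG p A) : Den A.M A.O := by
  have := h.alg
  intro a b ha hab
  have hb : b ≠ 0 := by
    rintro rfl
    simp at hab
  obtain ⟨n, hn, -, a', ha'⟩ := alg_val A.O (Algebra.IsAlgebraic.isAlgebraic (R := A.M) a) ha
  obtain ⟨m, hm, -, b', hb'⟩ := alg_val A.O (Algebra.IsAlgebraic.isAlgebraic (R := A.M) b) hb
  obtain ⟨N, hN⟩ : ∃ N, n * m = N + 1 := ⟨n * m - 1, by have := Nat.mul_pos hn hm; omega⟩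
  have h1 : A.O.valuation ((a' : A.Ω) ^ m) = A.O.valuation a ^ (N + 1) := by
    rw [← hN, pow_mul, map_pow, ← map_pow _ a, ha']; rfl
  have h2 : A.O.valuation ((b' : A.Ω) ^ n) = A.O.valuation b ^ (N + 1) := by
    rw [← hN, mul_comm, pow_mul, map_pow, ← map_pow _ b, hb']; rfl
  have h3 : (a' : A.Ω) ^ m ≠ 0 := by
    rw [← A.O.valuation.ne_zero_iff, h1]
    exact pow_ne_zero _ (A.O.valuation.ne_zero_iff.2 ha)
  obtain ⟨c, hc, h4, h5⟩ := h.good.den N _ (pow_mem a'.2 m) _ (pow_mem b'.2 n) h3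
    (by rw [h1, h2]; exact pow_lt_pow_left₀ hab zero_le (Nat.succ_ne_zero N))
  rw [h1, map_pow] at h4
  rw [h2, map_pow] at h5
  exact ⟨c, hc, lt_of_pow_lt_pow_left₀ _ zero_le h4, lt_of_pow_lt_pow_left₀ _ zero_le h5⟩

theorem MOD_root (h : AG p A) {η : A.Ω} (hη : A.O.valuation η < 1)
    (hc : ∀ σ : A.Ω ≃ₐ[A.M] A.Ω, σ η ≠ η → A.O.valuation (σ η) = 1) :
    η ∈ (algebraMap A.M A.Ω).range := by
  classical
  have := h.alg
  have := h.ac
  have := h.good.perfect
  have : IsGalois A.M A.Ω := FLD_gal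
  have halg : IsAlgebraic A.M η := Algebra.IsAlgebraic.isAlgebraic η
  by_contra hn
  obtain ⟨d, hd⟩ := Nat.exists_eq_add_of_le' ((minpoly.two_le_natDegree_iff halg.isIntegral).2 hn)
  have hm0 := minpoly.monic halg.isIntegral
  have hm := hm0.map (algebraMap A.M A.Ω)
  have hirr := minpoly.irreducible halg.isIntegral
  have hsep : ((minpoly A.M η).map (algebraMap A.M A.Ω)).Separable :=
    (PerfectField.separable_of_irreducible hirr).map
  have hmem : η ∈ ((minpoly A.M η).map (algebraMap A.M A.Ω)).roots := by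
    rw [mem_roots hm.ne_zero, IsRoot, eval_map_algebraMap]
    exact minpoly.aeval _ _
  have hfac := (IsAlgClosed.splits ((minpoly A.M η).map (algebraMap A.M A.Ω))).eq_prod_roots_of_monic hm
  rw [← Multiset.cons_erase hmem] at hfac
  obtain ⟨h1, h2, h3⟩ := MOD_poly A.O (((minpoly A.M η).map (algebraMap A.M A.Ω)).roots.erase η) hη
    fun r hr => by
      obtain ⟨hne, hr'⟩ := (nodup_roots hsep).mem_erase_iff.1 hr
      rw [mem_roots hm.ne_zero, IsRoot, eval_map_algebraMap] at hr'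
      obtain ⟨σ, rfl⟩ := minpoly.exists_algEquiv_of_root' halg hr'
      exact hc σ hne
  rw [← hfac] at h1 h2 h3
  have hdeg : ((minpoly A.M η).map (algebraMap A.M A.Ω)).degree = (d + 2 : ℕ) := by
    rw [degree_eq_natDegree hm.ne_zero, natDegree_map, hd]
  obtain ⟨x, hx, -, hx0⟩ := h.good.hen d ((minpoly A.M η).map (algebraMap A.M A.Ω) - X ^ (d + 2))
    ⟨by
      rw [← hdeg]
      refine degree_sub_lt_left (by rw [hdeg, degree_X_pow]) hm.ne_zero ?_
      rw [hm.leadingCoeff, leadingCoeff_X_pow], fun i => by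
      rw [coeff_sub, coeff_X_pow]
      refine ⟨sub_mem ?_ ?_, sub_mem (h1 i) ?_⟩
      · rw [coeff_map]
        exact ((minpoly A.M η).coeff i).2
      · split_ifs
        exacts [A.M.one_mem, A.M.zero_mem]
      · split_ifs
        exacts [A.O.one_mem, A.O.zero_mem]⟩
    (by rwa [coeff_sub, coeff_X_pow, if_neg (by omega), sub_zero])
    (by rwa [coeff_sub, coeff_X_pow, if_neg (by omega), sub_zero])
  rw [add_sub_cancel, show x = algebraMap A.M A.Ω ⟨x, hx⟩ from rfl, eval_map, eval₂_at_apply,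
    map_eq_zero] at hx0
  have h4 := degree_eq_one_of_irreducible_of_root hirr hx0
  rw [degree_eq_natDegree hm0.ne_zero, hd] at h4
  have h5 : d + 2 = 1 := by exact_mod_cast h4
  omega

theorem MOD_hensel (h : AG p A) (σ : A.Ω ≃ₐ[A.M] A.Ω) {a : A.Ω} (ha : a ∈ A.O) : σ a ∈ A.O := by
  have := h.alg
  have := h.ac
  have := h.good.perfect
  have : IsGalois A.M A.Ω := FLD_gal
  have : FiniteDimensional A.M A.M⟮a⟯ :=
    adjoin.finiteDimensional (Algebra.IsAlgebraic.isAlgebraic a).isIntegral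
  let E : IntermediateField A.M A.Ω := normalClosure A.M A.M⟮a⟯ A.Ω
  have haE : a ∈ E := le_normalClosure A.M⟮a⟯ (mem_adjoin_simple_self _ a)
  have hvp := vp_comap A.O (algebraMap E A.Ω)
  obtain ⟨β, hfix, hone, hsm⟩ := exists_beta' (K := A.M) (A.O.comap (algebraMap E A.Ω))
  have hη : A.O.valuation (algebraMap E A.Ω (1 - β)) < 1 := by
    rw [hvp.lt_one, Valuation.map_sub_swap]
    exact hone
  obtain ⟨m, hm⟩ := MOD_root h hη fun τ hτ => by
    rw [← AlgEquiv.restrictNormal_commutes] at hτ ⊢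
    have h1 : τ.restrictNormal E ∉ Dec A.M (A.O.comap (algebraMap E A.Ω)) := fun hd =>
      hτ (by rw [map_sub (τ.restrictNormal E), map_one, hfix _ hd])
    rw [map_sub (τ.restrictNormal E), map_one, map_sub, map_one]
    exact MOD_unit _ ((hvp.lt_one _).2 (hsm _ h1))
  have hdec : σ.restrictNormal E ∈ Dec A.M (A.O.comap (algebraMap E A.Ω)) := by
    by_contra hd
    have h1 := (hvp.lt_one _).2 (hsm _ hd)
    have h2 : σ (algebraMap E A.Ω (1 - β)) = algebraMap E A.Ω (1 - β) := by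
      rw [← hm, σ.commutes]
    rw [AlgEquiv.restrictNormal_commutes] at h1
    rw [← h2, map_sub, map_one, map_sub, map_one, MOD_unit _ h1] at hη
    exact lt_irrefl _ hη
  have h3 := (hvp _).2 (((mem_Dec _).1 hdec ⟨a, haE⟩).2 ha)
  rwa [AlgEquiv.restrictNormal_commutes] at h3

theorem AG.hensel (h : AG p A) (σ : A.Ω ≃ₐ[A.M] A.Ω) : VP A.O A.O σ := fun a =>
  ⟨fun ha => by simpa using MOD_hensel h σ.symm ha, MOD_hensel h σ⟩

theorem AG.resk (h : AG p A) {k : Type*} [Field k] [IsAlgClosed k] (i : k →+* A.Ω) {g : A.Ω}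
    (hg : g ∈ A.O) : ∃ a : k, A.O.valuation (g - i a) < 1 := by
  have := h.alg
  have := h.good.charP
  let _ := i.toAlgebra
  refine alg_res (K := A.M) (k := k) (S := Set.univ) A.O ?_
    (fun g _ => Algebra.IsAlgebraic.isAlgebraic g) g (Set.mem_univ _) hg
  rintro _ ⟨x, rfl⟩ hx
  obtain ⟨y, -, hy, hv⟩ := h.good.res x x.2 hx
  have h1 := V2_prod (p := p) y
  rw [hy, sub_self, Finset.prod_eq_zero_iff] at h1
  obtain ⟨a, -, ha⟩ := h1
  refine ⟨(a.val : k), ?_⟩
  rw [map_natCast, ZMod.natCast_val, ← ZMod.castHom_apply (h := dvd_refl p), ← sub_eq_zero.1 ha]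
  exact hv

omit [Fact p.Prime] in
theorem MOD_perf (h : Good p A) (s : ℕ) : ∀ x ∈ A.M, ∃ y ∈ A.M, y ^ p ^ s = x := by
  induction s with
  | zero => exact fun x hx => ⟨x, hx, by simp⟩
  | succ s ih =>
    intro x hx
    obtain ⟨y, hy, rfl⟩ := h.perf x hx
    obtain ⟨z, hz, rfl⟩ := ih y hy
    exact ⟨z, hz, by rw [pow_succ, pow_mul]⟩

theorem AG.approx (h : AG p A) {k : Type*} [Field k] [IsAlgClosed k] (i : k →+* A.Ω)
    (ht : A.t ∈ i.range) {z : A.Ω} (hz : z ≠ 0) :
    ∃ (a : k) (b : A.Ω), b ∈ A.M ∧ A.O.valuation (z - i a * b) < A.O.valuation z := by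
  have := h.alg
  have hp : p.Prime := Fact.out
  obtain ⟨n, hn, -, a, ha⟩ := alg_val A.O (Algebra.IsAlgebraic.isAlgebraic (R := A.M) z) hz
  obtain ⟨s, n', hn', rfl⟩ := Nat.exists_eq_pow_mul_and_not_dvd hn.ne' p hp.ne_one
  have hn0 : n' ≠ 0 := by
    rintro rfl
    exact hn' (dvd_zero p)
  obtain ⟨a', ha', e⟩ := MOD_perf h.good s a a.2
  have hz0 : 0 < A.O.valuation z := zero_lt_iff.2 (A.O.valuation.ne_zero_iff.2 hz)
  have h1 : A.O.valuation z ^ n' = A.O.valuation a' := by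
    refine (pow_left_inj₀ zero_le zero_le (pow_ne_zero s hp.ne_zero)).1 ?_
    rw [← pow_mul, mul_comm, ← map_pow, ha, ← map_pow, e]
    rfl
  have h2 : a' ≠ 0 := by
    rw [← A.O.valuation.ne_zero_iff, ← h1]
    exact pow_ne_zero _ hz0.ne'
  obtain ⟨b, hb, -, j, -, hj⟩ := h.good.vmod n' (fun e => hn' (Nat.dvd_of_mod_eq_zero e)) a' ha' h2
  obtain ⟨t₀, ht₀⟩ := ht
  obtain ⟨w, hw⟩ := IsAlgClosed.exists_pow_nat_eq t₀ (Nat.pos_of_ne_zero hn0)
  have h3 : A.O.valuation (i (w ^ j) * b) = A.O.valuation z := by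
    refine (pow_left_inj₀ zero_le zero_le hn0).1 ?_
    rw [h1, hj, ← map_pow, mul_pow, ← map_pow i, ← pow_mul, mul_comm j, pow_mul, hw, map_pow i, ht₀]
  have h4 : i (w ^ j) * b ≠ 0 := by
    rw [← A.O.valuation.ne_zero_iff, h3]
    exact hz0.ne'
  obtain ⟨c, hc⟩ := h.resk i (g := z / (i (w ^ j) * b))
    (by rw [← A.O.valuation_le_one_iff, map_div₀, h3, div_self hz0.ne'])
  refine ⟨c * w ^ j, b, hb, ?_⟩
  have e1 : z - i (c * w ^ j) * b = (z / (i (w ^ j) * b) - i c) * (i (w ^ j) * b) := by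
    rw [sub_mul, div_mul_cancel₀ _ h4, map_mul, mul_assoc]
  rw [e1, map_mul, h3]
  exact mul_lt_of_lt_one_left hz0 hc

theorem AG.tame (h : AG p A) {k : Type*} [Field k] [IsAlgClosed k] (i : k →+* A.Ω)
    (ht : A.t ∈ i.range) (σ : A.Ω ≃ₐ[A.M] A.Ω) (hσ : ∀ a, σ (i a) = i a) (g : A.Ω) :
    ∃ m : ℕ, σ^[p ^ m] g = g := by
  have := h.alg
  have := h.good.charP
  have hp : p.Prime := Fact.out
  obtain ⟨n, hn, hg⟩ := periodic_of_alg σ (Algebra.IsAlgebraic.isAlgebraic (R := A.M) g)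
  refine ppow (p := p) A.O (σ : A.Ω →+* A.Ω) (h.hensel σ) ?_ ?_ hn hg
  · intro z hz
    obtain ⟨a, b, hb, hv⟩ := h.approx i ht hz
    refine ⟨i a * b, ?_, hv⟩
    have h1 : σ b = b := σ.commutes ⟨b, hb⟩
    change σ (i a * b) = i a * b
    rw [map_mul, hσ, h1]
  · intro l hl hne
    have : NeZero (l : k) := ⟨fun e => by
      have h1 : (l : A.Ω) = 0 := by rw [← map_natCast i, e, map_zero]
      exact hne ((Nat.prime_dvd_prime_iff_eq hp hl).1 ((CharP.cast_eq_zero_iff A.Ω p l).1 h1)).symm⟩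
    obtain ⟨ζ, hζ⟩ := HasEnoughRootsOfUnity.exists_primitiveRoot k l
    exact ⟨i ζ, hζ.map_of_injective i.injective, hσ ζ⟩

end Pool.Agent.PH
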