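import Pool.Agent.Work.MP_db9079_lc.PH.V4

/-!
Separation of conjugate valuations, conjugacy in finite normal extensions, decomposition fields.

PLAN. `exists_ext_val`: `IsLocalRing.exists_factor_valuationRing` or `LocalSubring.exists_le_valuationSubring`.
`exists_phi`: `b = (1 - c ^ n + c ^ (2 * n))⁻¹`, `n > 0` a common multiple of the `n i` with `v_i (c ^ n i - 1) < 1` (for the
`i` where such `n i > 0` exists); if `v_i c = 1` and `v_i (1 - c ^ n + c ^ (2 n)) < 1` then `v_i (c ^ (6 n) - 1) < 1`, so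
`c ^ n` is congruent to `1`, contradiction. `exists_sep`: `τ` has finite order, so neither of `O`, `O.comap τ` contains the
other; `c = a / b`. `exists_beta`: `b τ` from `exists_phi` for the family `O.comap σ`, `β₀ = ∏ τ ∉ Dec, b τ`,
`β = ∏ d ∈ Dec, d β₀`. `conj_fin`: otherwise by `inc_eq` the rings `O₂` and `O₁.comap τ` are incomparable for all `τ`;
`exists_phi` gives `η τ = 1 - b τ` small at `O₁.comap τ`, congruent to `1` at `O₂`, integral at all `O₁.comap σ`; for the
product `η` use `minpoly_coeff_mem` (with `O₁.nonunits`) and `root_lt_one` for `O₂`; finally invert `τ`.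
`imm_val`: replace `g` by `y = β ^ m * g` with `v (τ y) ≠ v y` for `τ ∉ Dec` (each `τ` excludes at most one `m`); the minpoly
is separable, its other roots `r` have `v r ≠ v y`; write `μ(y T) = κ * A(T) * (T - 1) * C(T)` with `A = ∏ (1 - T y / r)` over the
large roots, `C = ∏ (T - r / y)` over the `c` small ones; the coefficients of `T ^ c` and `T ^ (c + 1)` of `A (T - 1) C` are units
(reduce modulo the maximal ideal), so `v y = v (μ_c / μ_(c+1))`.
-/

namespace Pool.Agent.PH

open Polynomial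

variable {K E : Type*} [Field K] [Field E] [Algebra K E]

theorem conj_fin [FiniteDimensional K E] [Normal K E] (O₁ O₂ : ValuationSubring E)
    (h : ∀ a : K, algebraMap K E a ∈ O₁ ↔ algebraMap K E a ∈ O₂) :
    ∃ τ : E ≃ₐ[K] E, VP O₁ O₂ τ := by
  classical
  by_contra hne
  push Not at hne
  have h1 : ∀ τ : E ≃ₐ[K] E, ∃ c : E, O₁.valuation c < 1 ∧ 1 < O₂.valuation (τ c) := by
    intro τ
    have hK : ∀ a : K, algebraMap K E a ∈ O₂.comap (τ : E →+* E) ↔ algebraMap K E a ∈ O₁ := by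
      intro a
      rw [ValuationSubring.mem_comap, h a]
      simp
    have hd : O₁ ≠ O₂.comap (τ : E →+* E) := fun e => hne τ fun a => by rw [e]; rfl
    have ha : ∃ a, a ∈ O₁ ∧ τ a ∉ O₂ := by
      by_contra hc
      push Not at hc
      exact hd (inc_eq (K := K) (fun a ha => hc a ha) fun a ha => (hK a).1 ha)
    have hb : ∃ b, τ b ∈ O₂ ∧ b ∉ O₁ := by
      by_contra hc
      push Not at hc
      exact hd (inc_eq (K := K) (O := O₂.comap (τ : E →+* E)) (fun a ha => hc a ha)
        fun a ha => (hK a).2 ha).symm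
    obtain ⟨a, ha, ha'⟩ := ha
    obtain ⟨b, hb, hb'⟩ := hb
    rw [← ValuationSubring.valuation_le_one_iff] at ha hb ha' hb'
    push Not at ha' hb'
    have hb0 : τ b ≠ 0 := by
      intro h0
      rw [(map_eq_zero τ).1 h0] at hb'
      simp at hb'
    refine ⟨a / b, ?_, ?_⟩
    · rw [map_div₀, div_lt_one₀ (lt_trans zero_lt_one hb')]
      exact lt_of_le_of_lt ha hb'
    · rw [map_div₀, map_div₀, one_lt_div₀ ((Valuation.pos_iff _).2 hb0)]
      exact lt_of_le_of_lt hb ha'
  have h2 : ∀ τ : E ≃ₐ[K] E, ∃ b : E, O₁.valuation (b - 1) < 1 ∧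
      (∀ σ : E ≃ₐ[K] E, O₂.valuation (σ b) ≤ 1) ∧ O₂.valuation (τ b) < 1 := by
    intro τ
    obtain ⟨c, hc, hc'⟩ := h1 τ
    obtain ⟨b, hb⟩ := exists_phi
      (fun i : Option (E ≃ₐ[K] E) => i.elim O₁ fun σ => O₂.comap (σ : E →+* E)) c
    refine ⟨b, (hb none).2.1 hc, fun σ => (O₂.valuation_le_one_iff _).2 (hb (some σ)).1, ?_⟩
    have hv := vp_comap O₂ (τ : E →+* E)
    have h3 : 1 < (O₂.comap (τ : E →+* E)).valuation c := by
      have := (hv.lt 1 c).1 (by simpa using hc')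
      simpa using this
    have h4 : (O₂.comap (τ : E →+* E)).valuation b * (O₂.comap (τ : E →+* E)).valuation c ≤ 1 :=
      (hb (some τ)).2.2 h3
    refine (hv.lt_one b).2 ?_
    by_contra h5
    push Not at h5
    exact absurd (lt_of_lt_of_le h3 (le_mul_of_one_le_left' h5)) h4.not_gt
  choose b hb1 hb2 hb3 using h2
  have h6 : O₁.valuation (∏ τ, b τ - 1) < 1 := V4_prod_sub_one _ _ _ fun τ _ => hb1 τ
  have h7 : ∀ σ : E ≃ₐ[K] E, σ (∏ τ, b τ) ∈ O₂.nonunits := by
    intro σ
    rw [ValuationSubring.mem_nonunits_iff, map_prod]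
    exact lt_of_le_of_lt (V4_prod_le _ _ (fun τ => σ (b τ)) (fun τ _ => hb2 τ σ)
      (Finset.mem_univ σ)) (hb3 σ)
  have hint : IsIntegral K (∏ τ, b τ) := Algebra.IsIntegral.isIntegral _
  have h8 : O₁.valuation (∏ τ, b τ) < 1 := by
    refine root_lt_one O₁ (f := (minpoly K (∏ τ, b τ)).map (algebraMap K E))
      ((minpoly.monic hint).map _) (fun i hi => ?_) ?_
    · rw [natDegree_map] at hi
      have h9 := minpoly_coeff_mem O₂.nonunits h7 hi
      rw [coeff_map, ← ValuationSubring.mem_nonunits_iff]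
      generalize (minpoly K (∏ τ, b τ)).coeff i = a at h9 ⊢
      rw [← inv_inv (algebraMap K E a), ValuationSubring.inv_mem_nonunits_iff, ← map_inv₀] at h9 ⊢
      rwa [h]
    · rw [eval_map_algebraMap, minpoly.aeval]
  have h10 := O₁.valuation.map_sub_lt h8 h6
  simp at h10

section

variable {Γ : Type*} [LinearOrderedCommGroupWithZero Γ]

/-- The term of index `c` of `P` at `y` dominates all the others. -/
def V4b_Dom (v : Valuation E Γ) (y : E) (P : E[X]) (c : ℕ) : Prop :=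
  ∀ i, i ≠ c → v (P.coeff i * y ^ i) < v (P.coeff c * y ^ c)

theorem V4b_pos {v : Valuation E Γ} {y : E} {P : E[X]} {c : ℕ} (h : V4b_Dom v y P c) :
    0 < v (P.coeff c * y ^ c) :=
  lt_of_le_of_lt zero_le (h (c + 1) (by omega))

theorem V4b_le {v : Valuation E Γ} {y : E} {P : E[X]} {c : ℕ} (h : V4b_Dom v y P c) (i : ℕ) :
    v (P.coeff i * y ^ i) ≤ v (P.coeff c * y ^ c) := by
  by_cases hi : i = c
  · rw [hi]
  · exact (h i hi).le

theorem V4b_mul {v : Valuation E Γ} {y : E} {P Q : E[X]} {c d : ℕ} (hP : V4b_Dom v y P c)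
    (hQ : V4b_Dom v y Q d) : V4b_Dom v y (P * Q) (c + d) := by
  have key : ∀ p : ℕ × ℕ, p ≠ (c, d) → v (P.coeff p.1 * y ^ p.1 * (Q.coeff p.2 * y ^ p.2)) <
      v (P.coeff c * y ^ c * (Q.coeff d * y ^ d)) := by
    intro p hp
    rw [map_mul v (P.coeff p.1 * y ^ p.1), map_mul v (P.coeff c * y ^ c)]
    by_cases h1 : p.1 = c
    · have h2 : p.2 ≠ d := fun h2 => hp (Prod.ext h1 h2)
      rw [h1]
      exact mul_lt_mul_of_pos_left (hQ _ h2) (V4b_pos hP)
    · exact lt_of_le_of_lt (mul_le_mul_right (V4b_le hQ _) _)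
        (mul_lt_mul_of_pos_right (hP _ h1) (V4b_pos hQ))
  have e : ∀ n, (P * Q).coeff n * y ^ n = ∑ p ∈ Finset.antidiagonal n,
      P.coeff p.1 * y ^ p.1 * (Q.coeff p.2 * y ^ p.2) := by
    intro n
    rw [coeff_mul, Finset.sum_mul]
    refine Finset.sum_congr rfl fun p hp => ?_
    rw [← Finset.mem_antidiagonal.1 hp]
    ring
  intro n hn
  rw [e, e, v.map_sum_eq_of_lt (j := (c, d)) (Finset.mem_antidiagonal.2 rfl)
    fun p hp => key p (Finset.notMem_singleton.1 (Finset.mem_sdiff.1 hp).2)]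
  refine v.map_sum_lt' ?_ fun p hp => key p ?_
  · rw [map_mul v (P.coeff c * y ^ c)]
    exact mul_pos (V4b_pos hP) (V4b_pos hQ)
  · rintro rfl
    exact hn (Finset.mem_antidiagonal.1 hp).symm

theorem V4b_lin (v : Valuation E Γ) {y r : E} (h : v r ≠ v y) : ∃ c, V4b_Dom v y (X - C r) c := by
  rcases h.lt_or_gt with h | h
  · refine ⟨1, fun i hi => ?_⟩
    rcases i with _ | _ | i
    · simpa using h
    · exact absurd rfl hi
    · simpa [coeff_X, coeff_C] using lt_of_le_of_lt zero_le h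
  · refine ⟨0, fun i hi => ?_⟩
    rcases i with _ | _ | i
    · exact absurd rfl hi
    · simpa [coeff_X, coeff_C] using h
    · simpa [coeff_X, coeff_C] using lt_of_le_of_lt zero_le h

theorem V4b_prod (v : Valuation E Γ) (y : E) (s : Finset E) (h : ∀ r ∈ s, v r ≠ v y) :
    ∃ c, V4b_Dom v y (∏ r ∈ s, (X - C r)) c := by
  classical
  induction s using Finset.induction_on with
  | empty =>
    refine ⟨0, fun i hi => ?_⟩
    simp [coeff_one, hi]
  | insert r s hr ih =>
    obtain ⟨c, hc⟩ := V4b_lin v (h r (Finset.mem_insert_self _ _))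
    obtain ⟨d, hd⟩ := ih fun x hx => h x (Finset.mem_insert_of_mem hx)
    exact ⟨c + d, by rw [Finset.prod_insert hr]; exact V4b_mul hc hd⟩

theorem V4b_ratio {v : Valuation E Γ} {y : E} (hy : y ≠ 0) {P : E[X]} {c : ℕ}
    (h : V4b_Dom v y P c) :
    v y = v (((X - C y) * P).coeff c / ((X - C y) * P).coeff (c + 1)) := by
  have hy' : 0 < v y := (Valuation.pos_iff _).2 hy
  have hlt : ∀ i, i ≠ c → v (y * (P.coeff i * y ^ i)) < v (y * (P.coeff c * y ^ c)) := by
    intro i hi
    rw [map_mul v y, map_mul v y]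
    exact mul_lt_mul_of_pos_left (h i hi) hy'
  have e : ∀ i, ((X - C y) * P).coeff (i + 1) * y ^ (i + 1) =
      y * (P.coeff i * y ^ i) - y * (P.coeff (i + 1) * y ^ (i + 1)) := by
    intro i
    rw [coeff_X_sub_C_mul]
    ring
  have h1 : v (((X - C y) * P).coeff (c + 1) * y ^ (c + 1)) = v (y * (P.coeff c * y ^ c)) := by
    rw [e, v.map_sub_eq_of_lt_left (hlt _ (by omega))]
  have h2 : v (((X - C y) * P).coeff c * y ^ c) = v (y * (P.coeff c * y ^ c)) := by
    rcases c with _ | c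
    · simp [mul_coeff_zero]
    · rw [e, v.map_sub_eq_of_lt_right (hlt _ (by omega))]
  have h3 : v (((X - C y) * P).coeff (c + 1)) ≠ 0 := by
    intro h0
    rw [map_mul, h0, zero_mul, map_mul] at h1
    exact (mul_pos hy' (V4b_pos h)).ne h1
  rw [← h2, pow_succ', ← mul_assoc, map_mul, map_mul, map_mul] at h1
  have h4 := mul_right_cancel₀ ((Valuation.ne_zero_iff v).2 (pow_ne_zero c hy)) h1
  rw [map_div₀, eq_div_iff h3, mul_comm, h4]

theorem V4b_val [FiniteDimensional K E] [IsGalois K E] (v : Valuation E Γ) {y : E} (hy : y ≠ 0)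
    (h : ∀ τ : E ≃ₐ[K] E, τ y ≠ y → v (τ y) ≠ v y) : ∃ a : K, v y = v (algebraMap K E a) := by
  classical
  set s : Finset E := Finset.univ.image fun τ : E ≃ₐ[K] E => τ y with hs
  have hmem : ∀ r, r ∈ s ↔ ∃ τ : E ≃ₐ[K] E, τ y = r := fun r => by simp [hs]
  obtain ⟨c, hc⟩ := V4b_prod v y (s.erase y) fun r hr => by
    obtain ⟨τ, rfl⟩ := (hmem r).1 (Finset.mem_of_mem_erase hr)
    exact h τ (Finset.ne_of_mem_erase hr)
  have h1 := V4b_ratio hy hc
  rw [Finset.mul_prod_erase s (fun r => X - C r) ((hmem y).2 ⟨1, rfl⟩)] at h1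
  have h2 : ∀ i, (∏ r ∈ s, (X - C r)).coeff i ∈ Set.range (algebraMap K E) := by
    intro i
    refine (IsGalois.mem_range_algebraMap_iff_fixed _).2 fun σ => ?_
    have e : (∏ r ∈ s, (X - C r)).map (σ : E →+* E) = ∏ r ∈ s, (X - C r) := by
      rw [Polynomial.map_prod]
      refine Finset.prod_equiv σ.toEquiv (fun r => ?_) fun r _ => by simp
      rw [hmem, hmem]
      constructor
      · rintro ⟨τ, rfl⟩
        exact ⟨σ * τ, rfl⟩
      · rintro ⟨τ, hτ⟩
        exact ⟨σ⁻¹ * τ, by rw [AlgEquiv.mul_apply, hτ]; exact σ.symm_apply_apply r⟩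
    have h3 := congrArg (fun p => p.coeff i) e
    simp only [coeff_map] at h3
    exact h3
  obtain ⟨a, ha⟩ := h2 c
  obtain ⟨b, hb⟩ := h2 (c + 1)
  exact ⟨a / b, by rw [map_div₀, ha, hb, h1]⟩

end

theorem imm_val [FiniteDimensional K E] [IsGalois K E] (O : ValuationSubring E) {g : E}
    (hg : ∀ σ ∈ Dec K O, σ g = g) : ∃ a : K, O.valuation g = O.valuation (algebraMap K E a) := by
  classical
  by_cases hg0 : g = 0
  · exact ⟨0, by simp [hg0]⟩
  obtain ⟨β, hβ1, hβ2, hβ3⟩ := exists_beta' (K := K) O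
  have hβ : O.valuation β = 1 := by
    rw [show β = 1 + (β - 1) by ring]
    exact O.valuation.map_one_add_of_lt hβ2
  have hβ0 : β ≠ 0 := fun h0 => by simp [h0] at hβ
  have hfin : (⋃ τ : E ≃ₐ[K] E, {m : ℕ | τ ∉ Dec K O ∧
      O.valuation (τ β) ^ m * O.valuation (τ g) = O.valuation g}).Finite := by
    refine Set.finite_iUnion fun τ => Set.Subsingleton.finite ?_
    rintro m ⟨hτ, hm⟩ m' ⟨-, hm'⟩
    have h1 : O.valuation (τ g) ≠ 0 := by simpa using hg0
    have h2 : 0 < O.valuation (τ β) := (Valuation.pos_iff _).2 (by simpa using hβ0)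
    exact pow_right_injective₀ h2 (hβ3 τ hτ).ne (mul_right_cancel₀ h1 (hm.trans hm'.symm))
  obtain ⟨m, hm⟩ := hfin.exists_notMem
  simp only [Set.mem_iUnion, Set.mem_ofPred_eq, not_exists, not_and] at hm
  have hy : O.valuation (β ^ m * g) = O.valuation g := by
    rw [map_mul, map_pow, hβ, one_pow, one_mul]
  rw [← hy]
  refine V4b_val O.valuation (mul_ne_zero (pow_ne_zero _ hβ0) hg0) fun τ hτ => ?_
  have hD : τ ∉ Dec K O := fun hD => hτ (by rw [map_mul, map_pow, hβ1 τ hD, hg τ hD])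
  rw [hy, map_mul, map_pow, map_mul, map_pow]
  exact hm τ hD

end Pool.Agent.PH
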