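import Pool.Agent.Work.MP_db9079_lc.PH.V4b
import Mathlib.FieldTheory.Extension
import Mathlib.FieldTheory.Normal.Closure

/-!
Extension of valuation preserving embeddings.

PLAN. `ext_vp`: make `Ω` a `K`-algebra by `φ`; Zorn on the valuation preserving elements of
`IntermediateField.Lifts K F Ω` (`Lifts.exists_upper_bound`/`union`), or on pairs (subfield, map). One step, from `L` to
`L⟮a⟯`: embed `L⟮a⟯` in a finite normal extension `N` of `L` (e.g. the splitting field of the minpoly), extend the valuation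
ring (`exists_ext_val`), lift `N → Ω` by `IsAlgClosed.lift`, correct by `conj_fin`. `ext_aut`: an algebra endomorphism of
an algebraic extension is bijective (`Algebra.IsAlgebraic.algHom_bijective`). `exists_rat0`: `k⟮y⟯ ≃ RatFunc k`
(`RatFunc.algEquivOfTranscendental` if present) or `IsFractionRing.lift` from `k[X]`; both evaluation maps are injective by
`transc_of_ne`. `vt_ext`: `exists_rat0` is valuation preserving on `k⟮y⟯`: by `rat_ind` each `g ≠ 0` has
`v g = v (a * y ^ j)` and `w (φ₀ g) = w (φ a * c ^ j)` with the same `a, j`; compare with `1` using a `j`-th root in `k`. Then `ext_vp`.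
-/

namespace Pool.Agent.PH

open IntermediateField

theorem V5_fin {K F Ω : Type*} [Field K] [Field F] [Field Ω] [Algebra K F] [Algebra K Ω]
    [FiniteDimensional K F] [IsAlgClosed Ω] (O : ValuationSubring F) (W : ValuationSubring Ω)
    (h : ∀ a, algebraMap K Ω a ∈ W ↔ algebraMap K F a ∈ O) : ∃ ψ : F →ₐ[K] Ω, VP O W ψ := by
  have hN : Normal K (normalClosure K F Ω) :=
    (Algebra.IsAlgebraic.isNormalClosure_normalClosure fun _ => IsAlgClosed.splits _).normal
  let ι : F →ₐ[K] Ω := IsAlgClosed.lift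
  let j : F →ₐ[K] normalClosure K F Ω :=
    ι.codRestrict (normalClosure K F Ω).toSubalgebra fun x =>
      ι.fieldRange_le_normalClosure ⟨x, rfl⟩
  obtain ⟨O', hO⟩ := exists_ext_val O j.toRingHom
  obtain ⟨τ, hτ⟩ := conj_fin (K := K) O' (W.comap (normalClosure K F Ω).val.toRingHom) fun a => by
    rw [← j.commutes a]
    refine (hO _).trans ((h a).symm.trans ?_)
    rw [j.commutes a]
    exact Iff.rfl
  exact ⟨(normalClosure K F Ω).val.comp (τ.toAlgHom.comp j), fun a => (hτ (j a)).trans (hO a)⟩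

theorem V5_alg {K F Ω : Type*} [Field K] [Field F] [Field Ω] [Algebra K F] [Algebra K Ω]
    [Algebra.IsAlgebraic K F] [IsAlgClosed Ω] (O : ValuationSubring F) (W : ValuationSubring Ω)
    (h : ∀ a, algebraMap K Ω a ∈ W ↔ algebraMap K F a ∈ O) : ∃ ψ : F →ₐ[K] Ω, VP O W ψ := by
  obtain ⟨σ, -, hσ⟩ := zorn_le_nonempty₀
    {σ : Lifts K F Ω | ∀ x : σ.carrier, σ.emb x ∈ W ↔ (x : F) ∈ O}
    (fun c hs hc y hy => ⟨Lifts.union c hc, fun x => by
      have : Nonempty c := ⟨⟨y, hy⟩⟩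
      have hx : (x : F) ∈ ((⨆ i : c, i.1.carrier : IntermediateField K F) : Set F) :=
        (Lifts.carrier_union c hc).le x.2
      rw [coe_iSup_of_directed (t := fun i : c => i.1.carrier)
        (hc.directedOn.directed_val.mono_comp _ fun _ _ h => h.1)] at hx
      obtain ⟨i, hi⟩ := Set.mem_iUnion.1 hx
      have e := (Lifts.le_union c hc i.2).2 ⟨x, hi⟩
      exact (Iff.of_eq (congrArg (· ∈ W) e)).trans (hs i.2 ⟨x, hi⟩), Lifts.le_union c hc⟩)
    ⊥ fun x => by
      obtain ⟨a, ha⟩ := mem_bot.1 x.2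
      obtain rfl : algebraMap K _ a = x := Subtype.ext ha
      rw [AlgHom.commutes]
      exact h a
  have top : ∀ a : F, a ∈ σ.carrier := fun a => by
    let _ : Algebra σ.carrier Ω := σ.emb.toAlgebra
    have := adjoin.finiteDimensional (Algebra.IsIntegral.isIntegral (R := σ.carrier) a)
    obtain ⟨ψ, hψ⟩ := V5_fin (K := σ.carrier) (O.comap (σ.carrier⟮a⟯.val.toRingHom)) W hσ.1
    have le : σ ≤ ⟨σ.carrier⟮a⟯.restrictScalars K, ψ.restrictScalars K⟩ :=
      ⟨fun z hz => IntermediateField.algebraMap_mem σ.carrier⟮a⟯ ⟨z, hz⟩, ψ.commutes⟩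
    exact (hσ.2 (y := ⟨σ.carrier⟮a⟯.restrictScalars K, ψ.restrictScalars K⟩) hψ le).1
      (mem_adjoin_simple_self σ.carrier a)
  exact ⟨σ.emb.comp ((AlgHom.id K F).codRestrict σ.carrier.toSubalgebra top),
    fun a => hσ.1 ⟨a, top a⟩⟩

theorem ext_vp {K F Ω : Type*} [Field K] [Field F] [Field Ω] [Algebra K F]
    [Algebra.IsAlgebraic K F] [IsAlgClosed Ω] (O : ValuationSubring F) (W : ValuationSubring Ω)
    (φ : K →+* Ω) (h : ∀ a, φ a ∈ W ↔ algebraMap K F a ∈ O) :
    ∃ φ' : F →+* Ω, (∀ a, φ' (algebraMap K F a) = φ a) ∧ VP O W φ' := by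
  let _ : Algebra K Ω := φ.toAlgebra
  obtain ⟨ψ, hψ⟩ := V5_alg O W h
  exact ⟨ψ, ψ.commutes, hψ⟩

theorem ext_aut {K Ω : Type*} [Field K] [Field Ω] [Algebra K Ω] [Algebra.IsAlgebraic K Ω]
    [IsAlgClosed Ω] (O₁ O₂ : ValuationSubring Ω)
    (h : ∀ a : K, algebraMap K Ω a ∈ O₁ ↔ algebraMap K Ω a ∈ O₂) :
    ∃ τ : Ω ≃ₐ[K] Ω, VP O₁ O₂ τ := by
  obtain ⟨ψ, hψ⟩ := V5_alg O₁ O₂ fun a => (h a).symm
  exact ⟨AlgEquiv.ofBijective ψ (Algebra.IsAlgebraic.algHom_bijective ψ), hψ⟩

end Pool.Agent.PH
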