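import Pool.Agent.Work.MP_db9079_lc.PH.Ult
import Pool.Agent.Work.MP_db9079_lc.PH.MOD
import Pool.Agent.Work.MP_db9079_lc.PH.AxR
import Pool.Agent.Work.MP_db9079_lc.PH.V4b
import Pool.Agent.Work.MP_db9079_lc.PH.V5
import Mathlib.FieldTheory.AlgebraicClosure
import Mathlib.Algebra.AlgebraicCard

/-!
Relative algebraic closures; passing to algebraic ambient fields.

PLAN. `exists_acl`: `(algebraicClosure M Ω).toSubfield` (`algebraicClosure.isAlgClosure`); countability by `Algebra.IsAlgebraic.cardinalMk_le_max` or roots of countably many polynomials.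
`exists_acl1`: restrict scalars of `algebraicClosure k⟮x⟯ Ω`; transfer algebraicity along the isomorphism of `k⟮x⟯` with `k⟮⟨x, _⟩⟯`. `val_of_fixed`: `E = normalClosure K K⟮g⟯ Ω` is finite Galois;
extend `d ∈ Dec` by `ext_vp` (over the base `E`, map `E.val ∘ d`); `imm_val`. `exists_up`: `AlgebraicClosure`, `exists_ext_val`, `elem_of_map`. `exists_down`: `exists_acl`, `elem_of_map`.
`exists_sat`: `exists_down` of `B.ult`; the diagonal factors through; `Elem.of_comp`; `ult_satur`.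
-/

namespace Pool.Agent.PH

open IntermediateField

theorem ACL_factor {R S T : Type*} [Field R] [Field S] [Field T] (d : R →+* T) (j : S →+* T)
    (h : ∀ x, ∃ y, j y = d x) : ∃ e : R →+* S, j.comp e = d := by
  choose f hf using h
  exact ⟨{ toFun := f
           map_one' := j.injective (by rw [hf, map_one, map_one])
           map_mul' := fun a b => j.injective (by rw [map_mul, hf, hf, hf, map_mul])
           map_zero' := j.injective (by rw [hf, map_zero, map_zero])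
           map_add' := fun a b => j.injective (by rw [map_add, hf, hf, hf, map_add]) },
    RingHom.ext hf⟩

theorem ACL_up {R S F Ω : Type*} [Field R] [Field S] [Field F] [Field Ω] [Algebra R F] [Algebra S Ω]
    (e : F →+* Ω) (h : ∀ r, ∃ s, algebraMap S Ω s = e (algebraMap R F r)) {a : F}
    (ha : IsAlgebraic R a) : IsAlgebraic S (e a) := by
  obtain ⟨f, hf⟩ := ACL_factor (e.comp (algebraMap R F)) (algebraMap S Ω) h
  exact ha.ringHom_of_comp_eq f e f.injective hf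

theorem ACL_down {R S F Ω : Type*} [Field R] [Field S] [Field F] [Field Ω] [Algebra R F]
    [Algebra S Ω] (e : F →+* Ω) (h : ∀ s, ∃ r, e (algebraMap R F r) = algebraMap S Ω s) {a : F}
    (ha : IsAlgebraic S (e a)) : IsAlgebraic R a := by
  obtain ⟨f, hf⟩ := ACL_factor (algebraMap S Ω) (e.comp (algebraMap R F)) h
  obtain ⟨p, h1, h2⟩ := ha
  refine ⟨p.map f, (Polynomial.map_ne_zero_iff f.injective).2 h1, e.injective ?_⟩
  rw [map_zero, Polynomial.aeval_def, Polynomial.hom_eval₂, Polynomial.eval₂_map, hf]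
  exact h2

theorem exists_acl {Ω : Type*} [Field Ω] [IsAlgClosed Ω] (M : Subfield Ω) :
    ∃ N : Subfield Ω, IsAlgClosed N ∧ (∀ g, g ∈ N ↔ IsAlgebraic M g) ∧
      (Countable M → Countable N) := by
  refine ⟨(algebraicClosure M Ω).toSubfield,
    IsAlgClosure.isAlgClosed M (K := algebraicClosure M Ω), fun g => mem_algebraicClosure_iff,
    fun _ => ?_⟩
  exact ((Algebraic.countable M Ω).mono fun g hg => mem_algebraicClosure_iff.1 hg).to_subtype

theorem exists_acl1 {k Ω : Type*} [Field k] [Field Ω] [IsAlgClosed Ω] [Algebra k Ω] (x : Ω) :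
    ∃ (T : IntermediateField k Ω) (x₁ : T), (x₁ : Ω) = x ∧ IsAlgClosed T ∧
      Algebra.IsAlgebraic k⟮x₁⟯ T ∧ (∀ g, g ∈ T ↔ IsAlgebraic k⟮x⟯ g) ∧
      (Countable k → Countable T) := by
  have hx : x ∈ (algebraicClosure k⟮x⟯ Ω).restrictScalars k :=
    (algebraicClosure k⟮x⟯ Ω).algebraMap_mem ⟨x, mem_adjoin_simple_self k x⟩
  refine ⟨(algebraicClosure k⟮x⟯ Ω).restrictScalars k, ⟨x, hx⟩, rfl,
    IsAlgClosure.isAlgClosed k⟮x⟯ (K := algebraicClosure k⟮x⟯ Ω), ⟨fun g => ?_⟩,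
    fun g => mem_algebraicClosure_iff, fun _ => ?_⟩
  · refine ACL_down (S := k⟮x⟯) (algebraMap _ Ω) (fun s => ?_) (mem_algebraicClosure_iff.1 g.2)
    have h1 : (s : Ω) ∈ lift k⟮(⟨x, hx⟩ : (algebraicClosure k⟮x⟯ Ω).restrictScalars k)⟯ := by
      rw [lift_adjoin_simple]
      exact s.2
    obtain ⟨r, hr, e⟩ := h1
    exact ⟨⟨r, hr⟩, e⟩
  · have : Countable k⟮x⟯ := by
      rw [← Cardinal.mk_le_aleph0_iff, ← Cardinal.lift_le_aleph0]
      refine (IntermediateField.lift_cardinalMk_adjoin_le k {x}).trans ?_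
      simp
    exact ((Algebraic.countable k⟮x⟯ Ω).mono fun g hg => mem_algebraicClosure_iff.1 hg).to_subtype

theorem val_of_fixed {K Ω : Type*} [Field K] [Field Ω] [IsAlgClosed Ω] [Algebra K Ω]
    [Algebra.IsAlgebraic K Ω] (W : ValuationSubring Ω) {g : Ω} (hg : IsSeparable K g)
    (h : ∀ d : Ω →+* Ω, VP W W d → (∀ a : K, d (algebraMap K Ω a) = algebraMap K Ω a) → d g = g) :
    ∃ a : K, W.valuation g = W.valuation (algebraMap K Ω a) := by
  let E : IntermediateField K Ω := adjoin K ((minpoly K g).rootSet Ω)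
  have : (minpoly K g).IsSplittingField K E := adjoin_rootSet_isSplittingField (IsAlgClosed.splits _)
  have : FiniteDimensional K E := Polynomial.IsSplittingField.finiteDimensional E (minpoly K g)
  have : IsGalois K E := IsGalois.of_separable_splitting_field hg
  have : Algebra.IsAlgebraic E Ω := Algebra.IsAlgebraic.tower_top (K := K) E
  have hgE : g ∈ E := subset_adjoin _ _
    (Polynomial.mem_rootSet.2 ⟨minpoly.ne_zero hg.isIntegral, minpoly.aeval _ _⟩)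
  have hvp := vp_comap W (algebraMap E Ω)
  obtain ⟨a, ha⟩ := imm_val (K := K) (W.comap (algebraMap E Ω)) (g := ⟨g, hgE⟩) fun σ hσ => by
    obtain ⟨d, h1, h2⟩ := ext_vp W W ((algebraMap E Ω).comp σ.toRingEquiv.toRingHom)
      fun a => (mem_Dec _).1 hσ a
    refine Subtype.ext ((h1 ⟨g, hgE⟩).symm.trans (h d h2 fun a => ?_))
    exact (h1 (algebraMap K E a)).trans (congrArg (algebraMap E Ω) (σ.commutes a))
  exact ⟨a, (hvp.eq _ _).2 ha⟩

theorem Elem.of_comp {A B C : PM} {e : A.Ω →+* B.Ω} {e' : B.Ω →+* C.Ω}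
    (h : Elem A C (e'.comp e)) (h' : Elem B C e') : Elem A B e := fun φ env =>
  (h' φ fun v => e (env v)).symm.trans (h φ env)

theorem exists_up (A : PM) (hM : A.M = ⊤) : ∃ (B : PM) (e : A.Ω →+* B.Ω),
    IsAlgClosed B.Ω ∧ Algebra.IsAlgebraic B.M B.Ω ∧ Elem A B e := by
  obtain ⟨O, hO⟩ := exists_ext_val A.O (algebraMap A.Ω (AlgebraicClosure A.Ω))
  refine ⟨⟨AlgebraicClosure A.Ω, (algebraMap A.Ω _).fieldRange, O, algebraMap A.Ω _ A.t⟩,
    algebraMap A.Ω _, AlgebraicClosure.isAlgClosed _, ⟨fun g => ?_⟩,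
    elem_of_map _ rfl hO fun y => ?_⟩
  · exact ACL_down (S := A.Ω) (RingHom.id _) (fun s => ⟨⟨_, s, rfl⟩, rfl⟩)
      (Algebra.IsAlgebraic.isAlgebraic _)
  · rw [hM]
    exact ⟨fun ⟨x, hx⟩ => ⟨x, trivial, hx⟩, fun ⟨x, _, hx⟩ => ⟨x, hx⟩⟩

theorem exists_down (A : PM) [IsAlgClosed A.Ω] (ht : A.t ∈ A.M) : ∃ (B : PM) (e : B.Ω →+* A.Ω),
    IsAlgClosed B.Ω ∧ Algebra.IsAlgebraic B.M B.Ω ∧ Elem B A e ∧
      ∀ x, IsAlgebraic A.M x → x ∈ e.range := by
  obtain ⟨N, h1, h2, -⟩ := exists_acl A.M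
  have h3 : ∀ y ∈ A.M, y ∈ N := fun y hy => (h2 y).2 (isAlgebraic_algebraMap (⟨y, hy⟩ : A.M))
  refine ⟨⟨N, A.M.comap N.subtype, A.O.comap N.subtype, ⟨A.t, h3 _ ht⟩⟩, N.subtype, h1,
    ⟨fun g => ?_⟩, elem_of_map _ rfl (vp_comap _ _) fun y => ?_, fun x hx => ⟨⟨x, (h2 x).2 hx⟩, rfl⟩⟩
  · exact ACL_down (S := A.M) N.subtype (fun s => ⟨⟨⟨s, h3 _ s.2⟩, s.2⟩, rfl⟩) ((h2 _).1 g.2)
  · exact ⟨fun hy => ⟨⟨y, h3 y hy⟩, hy, rfl⟩, fun ⟨x, hx, e⟩ => e ▸ hx⟩

/-- The algebraic part of the ultrapower. -/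
theorem exists_sat {p : ℕ} {B : PM} (hB : AG p B) : ∃ (C : PM) (e : B.Ω →+* C.Ω)
    (e' : C.Ω →+* B.ult.Ω), AG p C ∧ Elem B C e ∧ Elem C B.ult e' ∧ e'.comp e = B.diag ∧
      (∀ x, IsAlgebraic B.ult.M x → x ∈ e'.range) ∧ Satur C.M C.O := by
  have := hB.ac
  have := hB.alg
  have : IsAlgClosed B.ult.Ω := ult_algClosed B.Ω
  have hd := elem_diag B
  have hg := hd.good.2 hB.good
  obtain ⟨C, e', h1, h2, h3, h4⟩ := exists_down B.ult hg.tM
  obtain ⟨e, he⟩ := ACL_factor B.diag e' fun x => h4 _ (ACL_up (R := B.M) B.diag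
    (fun r => ⟨⟨_, (hd.mem _).2 r.2⟩, rfl⟩) (Algebra.IsAlgebraic.isAlgebraic x))
  refine ⟨C, e, e', ⟨h3.good.1 hg, h1, h2⟩, Elem.of_comp (he ▸ hd) h3, h3, he, h4, fun a b hab => ?_⟩
  have key : ∀ x u w : C.Ω, (B.ult.O.valuation (e' x) < B.ult.O.valuation (e' w) ∨
      1 < B.ult.O.valuation (e' x * e' u)) ↔
        (C.O.valuation x < C.O.valuation w ∨ 1 < C.O.valuation (x * u)) := fun x u w => by
    have h5 := h3.vp.lt 1 (x * u)
    rw [map_one, map_one, map_one, map_mul e'] at h5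
    rw [h5, h3.vp.lt]
  obtain ⟨y, hy, y0, h5⟩ := ult_satur B.M B.O (fun n => e' (a n)) (fun n => e' (b n)) fun N => by
    obtain ⟨x, hx, x0, h6⟩ := hab N
    exact ⟨e' x, (h3.mem x).2 hx, (map_ne_zero e').2 x0, fun n hn => (key _ _ _).2 (h6 n hn)⟩
  obtain ⟨x, rfl⟩ := h4 y (isAlgebraic_algebraMap (⟨y, hy⟩ : B.ult.M))
  exact ⟨x, (h3.mem x).1 hy, (map_ne_zero e').1 y0, fun n => (key _ _ _).1 (h5 n)⟩

end Pool.Agent.PH
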