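import Pool.Agent.Work.MP_db9079_lc.PH.VD

/-!
States of the back and forth system.
-/

namespace Pool.Agent.PH

/-- A countable algebraically closed field of finite rank embedded in both ambient fields. -/
structure St (A B : PM) where
  k : Type
  [fld : Field k]
  [ac : IsAlgClosed k]
  [cnt : Countable k]
  i : k →+* A.Ω
  j : k →+* B.Ω
  hM : ∀ a, i a ∈ A.M ↔ j a ∈ B.M
  hO : ∀ a, i a ∈ A.O ↔ j a ∈ B.O
  t : k
  ti : i t = A.t
  tj : j t = B.t
  alg : Algebra.IsAlgebraic (A.M.comap i) k
  fr : FR (A.O.comap i)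

attribute [instance] St.fld St.ac St.cnt

/-- The symmetric state. -/
def St.symm {A B : PM} (s : St A B) : St B A where
  k := s.k
  i := s.j
  j := s.i
  hM := fun a => (s.hM a).symm
  hO := fun a => (s.hO a).symm
  t := s.t
  ti := s.tj
  tj := s.ti
  alg := by
    have h : B.M.comap s.j = A.M.comap s.i := Subfield.ext fun a => (s.hM a).symm
    rw [h]; exact s.alg
  fr := by
    have h : B.O.comap s.j = A.O.comap s.i := ValuationSubring.ext _ _ fun a => (s.hO a).symm
    rw [h]; exact s.fr

end Pool.Agent.PH
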