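import Pool.Agent.Work.MP_db9079_lc.PH.V3
import Mathlib.GroupTheory.Archimedean

/-!
Rational functions over an algebraically closed field, generators of value groups, finite rank.

PLAN. `rat_ind`: `IntermediateField.mem_adjoin_simple_iff`, factor numerator and denominator
(`IsAlgClosed.splits`, `C_leadingCoeff_mul_prod_multiset_X_sub_C`). `exch`: transcendence degree (a transcendence
basis has one element; `IsTranscendenceBasis`, `AlgebraicIndependent`, `Algebra.trdeg`) or directly: `y` algebraic over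
`k⟮x⟯` gives a nonzero two variable relation, in which `x` occurs. `vt_approx`: `rat_ind` with the property
`∃ a j, g ≠ 0 ∧ v (g / (a * y ^ j) - 1) < 1`. `exists_gen`: by `alg_val` and `vt_approx`, each `g ≠ 0` in `T` has
`v g ^ N! = v (a * y₀ ^ j)`, `j` unique (`vt_zpow`); these `j` form a nonzero subgroup of `ℤ`; take `y` realizing a
generator (`Int.subgroup_cyclic` or a minimal positive `j`); take `N!`-th roots in `k`. `fr_max`: otherwise build a
sequence by choice. `fr_step`: if all values come from `k` transport the sequence; else take `y` with `VT`, use `exch`,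
`v (g n) ^ m n = v (a n * y ^ j n)`; if all `j n = 0` use `a n`; else fix `n₀` with `j n₀ ≠ 0` and eliminate `y` from
`g n` (`n > n₀`) by `h n = g n ^ s * g n₀ ^ r`, `s ≥ 2`, so `v (g n) ^ (s + 1) ≤ v (h n) ≤ v (g n)`.
-/

namespace Pool.Agent.PH

open Polynomial IntermediateField

variable {k F : Type*} [Field k] [Field F] [Algebra k F]

theorem fr_max {O : ValuationSubring F} (h : FR O) {S : Set F} (hne : S.Nonempty)
    (hS : ∀ g ∈ S, g ≠ 0 ∧ O.valuation g < 1) :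
    ∃ d ∈ S, ∀ g ∈ S, ∃ n : ℕ, O.valuation d ^ n ≤ O.valuation g := by
  by_contra hc
  have hc' : ∀ d : S, ∃ g : S, ∀ n : ℕ, O.valuation (g : F) < O.valuation (d : F) ^ n := by
    intro d
    by_contra h2
    refine hc ⟨d, d.2, fun g hg => ?_⟩
    by_contra h3
    exact h2 ⟨⟨g, hg⟩, fun n => lt_of_not_ge fun h4 => h3 ⟨n, h4⟩⟩
  choose f hf using hc'
  obtain ⟨d, hd⟩ := hne
  refine h ⟨fun n => (f^[n] ⟨d, hd⟩ : S), fun n => ⟨(hS _ (f^[n] ⟨d, hd⟩).2).1,
    (hS _ (f^[n] ⟨d, hd⟩).2).2, fun m => ?_⟩⟩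
  simp only [Function.iterate_succ_apply']
  exact hf _ m

theorem fr_of_vp {F' : Type*} [Field F'] {O : ValuationSubring F} {O' : ValuationSubring F'}
    {φ : F →+* F'} (h : VP O O' φ) (h' : FR O') : FR O := by
  rintro ⟨g, hg⟩
  refine h' ⟨fun n => φ (g n), fun n => ⟨(_root_.map_ne_zero φ).2 (hg n).1, (h.lt_one _).2 (hg n).2.1,
    fun m => ?_⟩⟩
  rw [← map_pow, ← map_pow, h.lt, map_pow]
  exact (hg n).2.2 m

variable [IsAlgClosed k]

theorem V3b_val {O : ValuationSubring F} {y : F} (hy : VT k O y) {g : F}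
    (hg : IsAlgebraic k⟮y⟯ g) (h0 : g ≠ 0) :
    ∃ n, 0 < n ∧ n ≤ (minpoly k⟮y⟯ g).natDegree ∧ ∃ (a : k) (j : ℤ),
      O.valuation (g ^ n) = O.valuation (algebraMap k F a * y ^ j) := by
  obtain ⟨n, hn, hn', b, hb⟩ := alg_val O hg h0
  have hb0 : (b : F) ≠ 0 := by
    intro h
    have h1 : O.valuation (g ^ n) = 0 := by
      rw [hb]
      exact (Valuation.zero_iff _).2 h
    exact pow_ne_zero n h0 ((Valuation.zero_iff _).1 h1)
  obtain ⟨a, j, hj⟩ := vt_genV hy (b : F) b.2 hb0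
  exact ⟨n, hn, hn', a, j, hb.trans hj⟩

/-- The exponents of `y` met by the `M`-th powers of the elements of `T`. -/
def V3b_H (k : Type*) [Field k] [Algebra k F] (O : ValuationSubring F) {y : F} (hy : y ≠ 0)
    (T : Subfield F) (M : ℕ) : AddSubgroup ℤ where
  carrier := {j | ∃ g ∈ T, g ≠ 0 ∧ ∃ a : k,
    O.valuation (g ^ M) = O.valuation (algebraMap k F a * y ^ j)}
  zero_mem' := ⟨1, T.one_mem, one_ne_zero, 1, by simp⟩
  add_mem' := by
    rintro i j ⟨g, hg, hg0, a, ha⟩ ⟨g', hg', hg0', a', ha'⟩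
    refine ⟨g * g', mul_mem hg hg', mul_ne_zero hg0 hg0', a * a', ?_⟩
    rw [mul_pow, map_mul, ha, ha', ← map_mul, map_mul (algebraMap k F), zpow_add₀ hy]
    congr 1
    ring
  neg_mem' := by
    rintro j ⟨g, hg, hg0, a, ha⟩
    refine ⟨g⁻¹, inv_mem hg, inv_ne_zero hg0, a⁻¹, ?_⟩
    rw [inv_pow, map_inv₀, ha, ← map_inv₀, map_inv₀ (algebraMap k F), zpow_neg, mul_inv]

theorem exists_gen {O : ValuationSubring F} {y₀ : F} (hy : VT k O y₀) (T : Subfield F)
    (hT : y₀ ∈ T) (N : ℕ) (hN : ∀ g ∈ T, IsAlgebraic k⟮y₀⟯ g ∧ (minpoly k⟮y₀⟯ g).natDegree ≤ N) :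
    ∃ y ∈ T, VT k O y ∧ GenV k O y T := by
  have hy0 := hy.ne_zero
  have hM : N.factorial ≠ 0 := N.factorial_ne_zero
  have hall : ∀ g ∈ T, g ≠ 0 → ∃ (a : k) (j : ℤ),
      O.valuation (g ^ N.factorial) = O.valuation (algebraMap k F a * y₀ ^ j) := by
    intro g hg h0
    obtain ⟨n, hn, hn', a, j, h⟩ := V3b_val hy (hN g hg).1 h0
    obtain ⟨e, he⟩ := Nat.dvd_factorial hn (hn'.trans (hN g hg).2)
    refine ⟨a ^ e, j * e, ?_⟩
    rw [he, pow_mul, map_pow, h, ← map_pow, mul_pow, map_pow (algebraMap k F), zpow_mul,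
      zpow_natCast]
  obtain ⟨d, hd⟩ := Int.subgroup_cyclic (V3b_H k O hy0 T N.factorial)
  have hmem : ∀ j, j ∈ V3b_H k O hy0 T N.factorial → ∃ e : ℤ, e * d = j := by
    intro j hj
    rw [hd, AddSubgroup.mem_closure_singleton] at hj
    simpa using hj
  have hd0 : d ≠ 0 := by
    obtain ⟨e, he⟩ := hmem (N.factorial : ℤ) ⟨y₀, hT, hy0, 1, by simp⟩
    rintro rfl
    exact hM (by exact_mod_cast (by simpa using he.symm : (N.factorial : ℤ) = 0))
  have hdm : d ∈ V3b_H k O hy0 T N.factorial := by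
    rw [hd]
    exact AddSubgroup.subset_closure rfl
  obtain ⟨y, hyT, hy1, a₀, ha₀⟩ := hdm
  have ha0 : a₀ ≠ 0 := by
    rintro rfl
    simp [hy1] at ha₀
  have ha1 : algebraMap k F a₀ ≠ 0 := (_root_.map_ne_zero _).2 ha0
  have ha2 : O.valuation (algebraMap k F a₀) ≠ 0 := (Valuation.ne_zero_iff _).2 ha1
  have hyd : O.valuation (y₀ ^ d) = O.valuation (y ^ N.factorial / algebraMap k F a₀) := by
    rw [map_div₀, ha₀, map_mul, mul_div_cancel_left₀ _ ha2]
  refine ⟨y, hyT, fun b hb => vt_zpow hy hd0 (b ^ N.factorial / a₀) ?_, fun g hg h0 => ?_⟩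
  · rw [hyd, map_div₀, map_pow, hb, map_div₀ (algebraMap k F), map_div₀, map_pow, map_pow]
  · obtain ⟨a, j, h⟩ := hall g hg h0
    obtain ⟨e, rfl⟩ := hmem j ⟨g, hg, h0, a, h⟩
    obtain ⟨c, hc⟩ := IsAlgClosed.exists_pow_nat_eq (a / a₀ ^ e) (Nat.pos_of_ne_zero hM)
    refine ⟨c, e, (pow_left_inj₀ zero_le zero_le hM).1 ?_⟩
    rw [← map_pow, h, ← map_pow, mul_pow, ← map_pow (algebraMap k F), hc, mul_comm e d, zpow_mul,
      map_mul, map_zpow₀, hyd, ← map_zpow₀, ← map_mul, map_div₀ (algebraMap k F), map_zpow₀,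
      ← zpow_natCast (y ^ e), ← zpow_mul, mul_comm e, zpow_mul, zpow_natCast, div_zpow]
    congr 1
    ring

theorem exists_gen_fin {O : ValuationSubring F} {y₀ : F} (hy : VT k O y₀) (S : Finset F)
    (hT : y₀ ∈ adjoin k (S : Set F)) (halg : Algebra.IsAlgebraic k⟮y₀⟯ F) :
    ∃ y ∈ adjoin k (S : Set F), VT k O y ∧ GenV k O y (adjoin k (S : Set F)) := by
  have : FiniteDimensional k⟮y₀⟯ (adjoin k⟮y₀⟯ (S : Set F)) :=
    finiteDimensional_adjoin fun x _ => (halg.isAlgebraic x).isIntegral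
  have hle : ∀ g ∈ adjoin k (S : Set F), g ∈ adjoin k⟮y₀⟯ (S : Set F) := by
    have : adjoin k (S : Set F) ≤ (adjoin k⟮y₀⟯ (S : Set F)).restrictScalars k :=
      adjoin_le_iff.2 (subset_adjoin k⟮y₀⟯ (S : Set F))
    exact fun g hg => this hg
  refine exists_gen hy (adjoin k (S : Set F)).toSubfield hT
    (Module.finrank k⟮y₀⟯ (adjoin k⟮y₀⟯ (S : Set F))) fun g hg => ⟨halg.isAlgebraic g, ?_⟩
  have h1 := minpoly.natDegree_le (A := k⟮y₀⟯) (⟨g, hle g hg⟩ : adjoin k⟮y₀⟯ (S : Set F))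
  rwa [IntermediateField.minpoly_eq] at h1

theorem V3b_grp {Γ : Type*} [LinearOrderedCommGroupWithZero Γ] {u w : Γ} (hw0 : w ≠ 0)
    (hw1 : w < 1) (h : ∀ m : ℕ, u < w ^ m) (r : ℤ) : u ≤ w ^ r ∧ u * w ^ r ≤ 1 := by
  have hu : u ≤ 1 := by simpa using (h 0).le
  have hw : 0 < w := zero_lt_iff.2 hw0
  obtain ⟨m, rfl | rfl⟩ := r.eq_nat_or_neg
  · rw [zpow_natCast]
    exact ⟨(h m).le, mul_le_one' hu (pow_le_one' hw1.le m)⟩
  · rw [zpow_neg, zpow_natCast]
    refine ⟨hu.trans ((one_le_inv₀ (pow_pos hw m)).2 (pow_le_one' hw1.le m)), ?_⟩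
    rw [← div_eq_mul_inv, div_le_one₀ (pow_pos hw m)]
    exact (h m).le

omit [IsAlgClosed k] in
theorem V3b_seq {O : ValuationSubring F} (h : FR (O.comap (algebraMap k F))) (g : ℕ → F)
    (hg : ∀ n, g n ≠ 0 ∧ O.valuation (g n) < 1 ∧
      ∀ m, O.valuation (g (n + 1)) < O.valuation (g n) ^ m)
    (ha : ∀ n, ∃ (a : k) (s : ℕ), O.valuation (g n) ^ s ≤ O.valuation (algebraMap k F a) ∧
      O.valuation (algebraMap k F a) ≤ O.valuation (g n)) : False := by
  choose a s h1 h2 using ha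
  have hv := vp_comap O (algebraMap k F)
  refine h ⟨a, fun n => ⟨?_, (hv.lt_one _).1 ((h2 n).trans_lt (hg n).2.1), fun m => ?_⟩⟩
  · intro h0
    have h3 := h1 n
    rw [h0, map_zero, map_zero, le_zero_iff] at h3
    exact pow_ne_zero _ ((Valuation.ne_zero_iff _).2 (hg n).1) h3
  · rw [← map_pow, ← hv.lt, map_pow, map_pow]
    refine (h2 (n + 1)).trans_lt (((hg n).2.2 (s n * m)).trans_le ?_)
    rw [pow_mul]
    exact pow_le_pow_left' (h1 n) m

theorem fr_step {O : ValuationSubring F} {x : F} (halg : Algebra.IsAlgebraic k⟮x⟯ F)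
    (h : FR (O.comap (algebraMap k F))) : FR O := by
  rintro ⟨g, hg⟩
  by_cases hv : ∃ y, VT k O y
  swap
  · refine V3b_seq h g hg fun n => ?_
    have h1 : ¬ VT k O (g n) := fun h2 => hv ⟨_, h2⟩
    obtain ⟨a, ha⟩ := not_forall.1 h1
    have ha' := not_not.1 ha
    exact ⟨a, 1, by rw [pow_one, ha'], ha'.ge⟩
  obtain ⟨y, hy⟩ := hv
  have hy0 : O.valuation y ≠ 0 := (Valuation.ne_zero_iff _).2 hy.ne_zero
  have halg' := exch halg (transc_of_ne hy.ne)
  have hall : ∀ n, ∃ (m : ℕ) (a : k) (j : ℤ), O.valuation (g n) ^ (m + 1)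
      = O.valuation (algebraMap k F a) * O.valuation y ^ j := by
    intro n
    obtain ⟨m, hm, -, a, j, h1⟩ := V3b_val hy (halg'.isAlgebraic (g n)) (hg n).1
    obtain ⟨m, rfl⟩ := Nat.exists_eq_succ_of_ne_zero hm.ne'
    exact ⟨m, a, j, by rw [← map_pow, h1, map_mul, map_zpow₀]⟩
  choose m a j hm using hall
  by_cases hj : ∀ n, j n = 0
  · refine V3b_seq h g hg fun n => ⟨a n, m n + 1, ?_, ?_⟩
    · rw [hm, hj, zpow_zero, mul_one]
    · have h1 := hm n
      rw [hj, zpow_zero, mul_one] at h1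
      rw [← h1, pow_succ]
      exact mul_le_of_le_one_left' (pow_le_one' (hg n).2.1.le _)
  obtain ⟨n₀, hn₀⟩ := not_forall.1 hj
  have hch : ∀ n (e : ℕ), O.valuation (g (n₀ + 1 + n)) < O.valuation (g n₀) ^ e := by
    intro n e
    induction n with
    | zero => exact (hg n₀).2.2 e
    | succ n ih =>
      have h1 := (hg (n₀ + 1 + n)).2.2 1
      rw [pow_one] at h1
      exact h1.trans ih
  refine V3b_seq h (fun n => g (n₀ + 1 + n)) (fun n => hg (n₀ + 1 + n)) fun n => ?_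
  set N := n₀ + 1 + n with hN
  have hw0 : O.valuation (g n₀) ≠ 0 := (Valuation.ne_zero_iff _).2 (hg n₀).1
  obtain ⟨q, hq⟩ : ∃ q : ℕ, j n₀ * j n₀ = (q : ℤ) + 1 :=
    ⟨(j n₀ * j n₀ - 1).toNat, by
      have : 0 < j n₀ * j n₀ := mul_self_pos.2 hn₀
      omega⟩
  obtain ⟨h1, h2⟩ := V3b_grp hw0 (hg n₀).2.1 (hch n)
    (((m n₀ + 1 : ℕ) : ℤ) * (-(2 * j n₀ * j N)))
  have h3 : O.valuation (algebraMap k F (a N ^ (2 * (q + 1)) * a n₀ ^ (-(2 * j n₀ * j N))))
      = O.valuation (g N) ^ ((m N + 1) * (2 * (q + 1)))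
        * O.valuation (g n₀) ^ (((m n₀ + 1 : ℕ) : ℤ) * (-(2 * j n₀ * j N))) := by
    have h4 : (O.valuation y ^ j N) ^ (2 * (q + 1))
        * (O.valuation y ^ j n₀) ^ (-(2 * j n₀ * j N)) = 1 := by
      rw [← zpow_natCast, ← zpow_mul, ← zpow_mul, ← zpow_add₀ hy0]
      have : j N * ((2 * (q + 1) : ℕ) : ℤ) + j n₀ * -(2 * j n₀ * j N) = 0 := by
        push_cast
        linear_combination (-2 * j N) * hq
      rw [this, zpow_zero]
    rw [pow_mul (O.valuation (g N)), zpow_mul, zpow_natCast, hm, hm, mul_pow, mul_zpow, mul_mul_mul_comm, h4, mul_one,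
      map_mul, map_mul, map_pow, map_pow, map_zpow₀, map_zpow₀]
  obtain ⟨s, hs⟩ : ∃ s : ℕ, (m N + 1) * (2 * (q + 1)) = s + 2 :=
    ⟨m N * (2 * (q + 1)) + 2 * q, by ring⟩
  rw [hs] at h3
  refine ⟨a N ^ (2 * (q + 1)) * a n₀ ^ (-(2 * j n₀ * j N)), s + 2 + 1, ?_, ?_⟩
  · rw [h3, pow_succ]
    exact mul_le_mul' le_rfl h1
  · rw [h3, pow_succ, pow_succ', mul_assoc, mul_assoc]
    exact mul_le_of_le_one_right' (mul_le_one' (pow_le_one' (hg N).2.1.le _) h2)

end Pool.Agent.PH
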