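import Pool.Agent.Work.MP_db9079_lc.PH.V1b
import Mathlib.RingTheory.AlgebraicIndependent.TranscendenceBasis

/-!
Rational functions over an algebraically closed field, generators of value groups, finite rank.

PLAN. `rat_ind`: `IntermediateField.mem_adjoin_simple_iff`, factor numerator and denominator
(`IsAlgClosed.splits`, `C_leadingCoeff_mul_prod_multiset_X_sub_C`). `exch`: transcendence degree (a transcendence
basis has one element; `IsTranscendenceBasis`, `AlgebraicIndependent`, `Algebra.trdeg`) or directly: `y` algebraic over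
`k⟮x⟯` gives a nonzero two variable relation, in which `x` occurs. `vt_approx`: `rat_ind` with the property
`∃ a j, g ≠ 0 ∧ v (g / (a * y ^ j) - 1) < 1`. `exists_gen`: by `alg_val` and `vt_approx`, each `g ≠ 0` in `T` has
`v g ^ N! = v (a * y₀ ^ j)`, `j` unique (`vt_zpow`); these `j` form a nonzero subgroup of `ℤ`; take `y` realizing a
generator (`Int.subgroup_cyclic` or a minimal positive `j`); take `N!`-th roots in `k`. `fr_max`: otherwise build a
sequence by choice. `fr_step`: if all values come from `k` transport the sequence; else take `y` with `VT`, use `exch`,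
`v (g n) ^ m n = v (a n * y ^ j n)`; if all `j n = 0` use `a n`; else fix `n₀` with `j n₀ ≠ 0` and eliminate `y` from
`g n` (`n > n₀`) by `h n = g n ^ s * g n₀ ^ r`, `s ≥ 2`, so `v (g n) ^ (s + 1) ≤ v (h n) ≤ v (g n)`.
-/

namespace Pool.Agent.PH

open Polynomial IntermediateField

variable {k F : Type*} [Field k] [Field F] [Algebra k F]

theorem exch {x y : F} (halg : Algebra.IsAlgebraic k⟮x⟯ F) (hy : Transcendental k y) :
    Algebra.IsAlgebraic k⟮y⟯ F := by
  have h1 : Algebra.IsAlgebraic (Algebra.adjoin k {x}) F :=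
    IntermediateField.isAlgebraic_adjoin_iff_top.1 halg
  have h2 := Algebra.IsAlgebraic.trdeg_le_cardinalMk k ({x} : Set F)
  have h3 : AlgebraicIndependent k fun _ : Unit => y := algebraicIndependent_unique_type_iff.2 hy
  have h4 := h3.isTranscendenceBasis_of_lift_trdeg_le_of_finite (by simpa using h2)
  have h5 := h4.isAlgebraic_field
  rwa [Set.range_const] at h5

theorem VT.ne {O : ValuationSubring F} {y : F} (hy : VT k O y) (a : k) : y ≠ algebraMap k F a :=
  fun h => hy a (by rw [h])

theorem VT.ne_zero {O : ValuationSubring F} {y : F} (hy : VT k O y) : y ≠ 0 := by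
  simpa using hy.ne 0

theorem V3_eq {O : ValuationSubring F} {g c : F} (h : O.valuation (g - c) < O.valuation g) :
    O.valuation c = O.valuation g :=
  O.valuation.map_eq_of_sub_lt (by rwa [Valuation.map_sub_swap])

theorem V3_mul {O : ValuationSubring F} {g c h d : F} (h1 : O.valuation (g - c) < O.valuation g)
    (h2 : O.valuation (h - d) < O.valuation h) :
    O.valuation (g * h - c * d) < O.valuation (g * h) := by
  have hg : 0 < O.valuation g := lt_of_le_of_lt zero_le h1
  have hh : 0 < O.valuation h := lt_of_le_of_lt zero_le h2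
  rw [show g * h - c * d = g * (h - d) + (g - c) * d by ring]
  refine O.valuation.map_add_lt ?_ ?_
  · rw [map_mul, map_mul]
    exact mul_lt_mul_of_pos_left h2 hg
  · rw [map_mul, map_mul, V3_eq h2]
    exact mul_lt_mul_of_pos_right h1 hh

theorem V3_inv {O : ValuationSubring F} {g c : F} (h1 : O.valuation (g - c) < O.valuation g) :
    O.valuation (g⁻¹ - c⁻¹) < O.valuation g⁻¹ := by
  have hg : 0 < O.valuation g := lt_of_le_of_lt zero_le h1
  have hc : 0 < O.valuation c := by rwa [V3_eq h1]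
  have hg0 : g ≠ 0 := O.valuation.ne_zero_iff.1 hg.ne'
  have hc0 : c ≠ 0 := O.valuation.ne_zero_iff.1 hc.ne'
  rw [show g⁻¹ - c⁻¹ = g⁻¹ * ((c - g) * c⁻¹) by field_simp, map_mul, map_mul, map_inv₀ _ c,
    Valuation.map_sub_swap, V3_eq h1]
  refine mul_lt_of_lt_one_right (by rw [map_inv₀]; exact inv_pos.2 hg) ?_
  rwa [mul_inv_lt_iff₀ hg, one_mul]

variable [IsAlgClosed k]

theorem transc_of_ne {x : F} (h : ∀ a : k, x ≠ algebraMap k F a) : Transcendental k x := by
  intro hx
  obtain ⟨a, ha⟩ := minpoly.mem_range_of_degree_eq_one k x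
    (IsAlgClosed.degree_eq_one_of_irreducible k (minpoly.irreducible hx.isIntegral))
  exact h a ha.symm

theorem rat_ind {x : F} (P : F → Prop) (hc : ∀ a : k, a ≠ 0 → P (algebraMap k F a))
    (hl : ∀ a : k, x ≠ algebraMap k F a → P (x - algebraMap k F a))
    (hm : ∀ g h, P g → P h → P (g * h)) (hi : ∀ g, P g → P g⁻¹) {g : F} (hg : g ∈ k⟮x⟯)
    (h0 : g ≠ 0) : P g := by
  have h1 : ∀ s : Multiset k, aeval x (s.map fun a => X - C a).prod ≠ 0 →
      P (aeval x (s.map fun a => X - C a).prod) := by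
    intro s
    induction s using Multiset.induction_on with
    | empty => intro _; simpa using hc 1 one_ne_zero
    | cons a s ih =>
      rw [Multiset.map_cons, Multiset.prod_cons, map_mul, map_sub, aeval_X, aeval_C]
      exact fun h => hm _ _ (hl a (sub_ne_zero.1 (left_ne_zero_of_mul h)))
        (ih (right_ne_zero_of_mul h))
  have h2 : ∀ p : k[X], aeval x p ≠ 0 → P (aeval x p) := by
    intro p
    rw [(IsAlgClosed.splits p).eq_prod_roots, map_mul, aeval_C]
    exact fun h => hm _ _ (hc _ fun e => left_ne_zero_of_mul h (by rw [e, map_zero]))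
      (h1 _ (right_ne_zero_of_mul h))
  obtain ⟨r, s, rfl⟩ := (mem_adjoin_simple_iff k g).1 hg
  rw [div_eq_mul_inv]
  exact hm _ _ (h2 r (div_ne_zero_iff.1 h0).1) (hi _ (h2 s (div_ne_zero_iff.1 h0).2))

theorem vt_zpow {O : ValuationSubring F} {y : F} (hy : VT k O y) {j : ℤ} (hj : j ≠ 0) (a : k) :
    O.valuation (y ^ j) ≠ O.valuation (algebraMap k F a) := by
  have h1 : ∀ (n : ℕ) (a : k), n ≠ 0 → O.valuation (y ^ n) ≠ O.valuation (algebraMap k F a) := by
    intro n a hn h
    obtain ⟨b, rfl⟩ := IsAlgClosed.exists_pow_nat_eq a (Nat.pos_of_ne_zero hn)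
    rw [map_pow, map_pow, map_pow] at h
    exact hy b ((pow_left_inj₀ zero_le zero_le hn).1 h)
  obtain ⟨n, rfl | rfl⟩ := Int.eq_nat_or_neg j
  · rw [zpow_natCast]
    exact h1 n a (by exact_mod_cast hj)
  · intro h
    refine h1 n a⁻¹ (by rintro rfl; simp at hj) ?_
    rw [map_inv₀, map_inv₀, ← h, zpow_neg, map_inv₀, inv_inv, zpow_natCast]

theorem vt_approx {O : ValuationSubring F} {y : F} (hy : VT k O y) {g : F} (hg : g ∈ k⟮y⟯)
    (h0 : g ≠ 0) : ∃ (a : k) (j : ℤ),
      O.valuation (g - algebraMap k F a * y ^ j) < O.valuation g := by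
  refine rat_ind (fun g => ∃ (a : k) (j : ℤ),
    O.valuation (g - algebraMap k F a * y ^ j) < O.valuation g) ?_ ?_ ?_ ?_ hg h0
  · intro a ha
    refine ⟨a, 0, ?_⟩
    rw [zpow_zero, mul_one, sub_self, map_zero]
    exact zero_lt_iff.2 (O.valuation.ne_zero_iff.2 ((_root_.map_ne_zero _).2 ha))
  · intro a _
    rcases lt_or_gt_of_ne (hy a) with h | h
    · refine ⟨-a, 0, ?_⟩
      rw [zpow_zero, mul_one, map_neg, sub_neg_eq_add, sub_add_cancel,
        O.valuation.map_sub_eq_of_lt_right h]
      exact h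
    · refine ⟨1, 1, ?_⟩
      rw [zpow_one, map_one, one_mul, sub_sub_cancel_left, Valuation.map_neg,
        O.valuation.map_sub_eq_of_lt_left h]
      exact h
  · rintro g h ⟨a, i, h1⟩ ⟨b, j, h2⟩
    refine ⟨a * b, i + j, ?_⟩
    rw [zpow_add₀ hy.ne_zero, map_mul (algebraMap k F), mul_mul_mul_comm]
    exact V3_mul h1 h2
  · rintro g ⟨a, i, h1⟩
    refine ⟨a⁻¹, -i, ?_⟩
    rw [zpow_neg, map_inv₀ (algebraMap k F), ← mul_inv]
    exact V3_inv h1

theorem vt_genV {O : ValuationSubring F} {y : F} (hy : VT k O y) : GenV k O y k⟮y⟯ := by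
  intro g hg h0
  obtain ⟨a, j, h⟩ := vt_approx hy hg h0
  exact ⟨a, j, (V3_eq h).symm⟩

theorem vt_res {O : ValuationSubring F} {y : F} (hy : VT k O y)
    (halg : Algebra.IsAlgebraic k⟮y⟯ F) : Res k O Set.univ := by
  refine alg_res (K := k⟮y⟯) O ?_ fun g _ => halg.isAlgebraic g
  rintro _ ⟨⟨g, hg⟩, rfl⟩ hO
  change g ∈ O at hO
  change ∃ a : k, O.valuation (g - algebraMap k F a) < 1
  have h1 : O.valuation g ≤ 1 := (O.valuation_le_one_iff g).2 hO
  rcases h1.lt_or_eq with h2 | h2
  · exact ⟨0, by simpa using h2⟩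
  have h0 : g ≠ 0 := by
    rintro rfl
    simp at h2
  obtain ⟨a, j, h⟩ := vt_approx hy hg h0
  by_cases hj : j = 0
  · exact ⟨a, by simpa [hj, h2] using h⟩
  · refine absurd ?_ (vt_zpow hy hj a⁻¹)
    have h3 := V3_eq h
    rw [h2, map_mul] at h3
    rw [map_inv₀, map_inv₀]
    exact eq_inv_of_mul_eq_one_right h3

end Pool.Agent.PH
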