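import Mathlib.FieldTheory.RatFunc.AsPolynomial
import Pool.Agent.Work.MP_db9079_lc.PH.V3
import Pool.Agent.Work.MP_db9079_lc.PH.V5

/-!
Extension of valuation preserving embeddings.

PLAN. `ext_vp`: make `Ω` a `K`-algebra by `φ`; Zorn on the valuation preserving elements of
`IntermediateField.Lifts K F Ω` (`Lifts.exists_upper_bound`/`union`), or on pairs (subfield, map). One step, from `L` to
`L⟮a⟯`: embed `L⟮a⟯` in a finite normal extension `N` of `L` (e.g. the splitting field of the minpoly), extend the valuation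
ring (`exists_ext_val`), lift `N → Ω` by `IsAlgClosed.lift`, correct by `conj_fin`. `ext_aut`: an algebra endomorphism of
an algebraic extension is bijective (`Algebra.IsAlgebraic.algHom_bijective`). `exists_rat0`: `k⟮y⟯ ≃ RatFunc k`
(`RatFunc.algEquivOfTranscendental` if present) or `IsFractionRing.lift` from `k[X]`; both evaluation maps are injective by
`transc_of_ne`. `vt_ext`: `exists_rat0` is valuation preserving on `k⟮y⟯`: by `rat_ind` each `g ≠ 0` has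
`v g = v (a * y ^ j)` and `w (φ₀ g) = w (φ a * c ^ j)` with the same `a, j`; compare with `1` using a `j`-th root in `k`. Then `ext_vp`.
-/

namespace Pool.Agent.PH

open IntermediateField

variable {k F Ω : Type*} [Field k] [IsAlgClosed k] [Field F] [Field Ω] [Algebra k F]

theorem exists_rat0 {y : F} (hy : ∀ a : k, y ≠ algebraMap k F a) (φ : k →+* Ω) {c : Ω}
    (hc : ∀ a, c ≠ φ a) : ∃ φ₀ : k⟮y⟯ →+* Ω, (∀ a, φ₀ (algebraMap k k⟮y⟯ a) = φ a) ∧
      φ₀ ⟨y, mem_adjoin_simple_self k y⟩ = c := by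
  letI := φ.toAlgebra
  let e := (RatFunc.algEquivOfTranscendental y (transc_of_ne hy)).symm.trans
    (RatFunc.algEquivOfTranscendental c (transc_of_ne (k := k) hc))
  refine ⟨(k⟮c⟯.val.comp (e : k⟮y⟯ →ₐ[k] k⟮c⟯) : k⟮y⟯ →ₐ[k] Ω),
    fun a => (k⟮c⟯.val.comp (e : k⟮y⟯ →ₐ[k] k⟮c⟯)).commutes a, ?_⟩
  show (e (AdjoinSimple.gen k y) : Ω) = c
  rw [AlgEquiv.trans_apply, RatFunc.algEquivOfTranscendental_symm_gen,
    RatFunc.algEquivOfTranscendental_X]

theorem exists_rat [IsAlgClosed Ω] {y : F} (hy : ∀ a : k, y ≠ algebraMap k F a)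
    (halg : Algebra.IsAlgebraic k⟮y⟯ F) (φ : k →+* Ω) {c : Ω} (hc : ∀ a, c ≠ φ a) :
    ∃ φ' : F →+* Ω, (∀ a, φ' (algebraMap k F a) = φ a) ∧ φ' y = c := by
  obtain ⟨φ₀, h1, h2⟩ := exists_rat0 hy φ hc
  obtain ⟨φ', h3, -⟩ := ext_vp (⊤ : ValuationSubring F) (⊤ : ValuationSubring Ω) φ₀
    fun a => iff_of_true trivial trivial
  exact ⟨φ', fun a => (h3 (algebraMap k k⟮y⟯ a)).trans (h1 a),
    (h3 ⟨y, mem_adjoin_simple_self k y⟩).trans h2⟩

theorem V5b_div (O : ValuationSubring F) (x : F) {b : F} (hb : b ≠ 0) {n : ℕ} (hn : n ≠ 0) :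
    O.valuation ((x / b) ^ n) ≤ 1 ↔ O.valuation x ≤ O.valuation b := by
  rw [map_pow, pow_le_one_iff_of_nonneg zero_le hn, map_div₀,
    div_le_one₀ (zero_lt_iff.2 ((map_ne_zero _).2 hb))]

omit [IsAlgClosed k] [Algebra k F] in
theorem V5b_pos (O : ValuationSubring F) (ψ : k →+* F) (x : F) {b : k} (hb : b ≠ 0) {n : ℕ}
    (hn : n ≠ 0) :
    O.valuation (ψ (b ^ n)⁻¹ * x ^ (n : ℤ)) ≤ 1 ↔ O.valuation x ≤ O.valuation (ψ b) := by
  rw [← V5b_div O x ((map_ne_zero ψ).2 hb) hn, map_inv₀, map_pow ψ, zpow_natCast, div_pow,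
    inv_mul_eq_div]

omit [IsAlgClosed k] [Algebra k F] in
theorem V5b_neg (O : ValuationSubring F) (ψ : k →+* F) {x : F} (hx : x ≠ 0) (b : k) {n : ℕ}
    (hn : n ≠ 0) :
    O.valuation (ψ (b ^ n) * x ^ (-(n : ℤ))) ≤ 1 ↔ O.valuation (ψ b) ≤ O.valuation x := by
  rw [← V5b_div O _ hx hn, map_pow ψ, zpow_neg, zpow_natCast, div_pow, div_eq_mul_inv]

theorem V5b_mon (O : ValuationSubring F) (W : ValuationSubring Ω) {y : F} (hy : VT k O y)
    (φ : k →+* Ω) (hφ : ∀ a, φ a ∈ W ↔ algebraMap k F a ∈ O) {c : Ω}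
    (hc : ∀ a, W.valuation c ≠ W.valuation (φ a))
    (hcut : ∀ a, O.valuation y < O.valuation (algebraMap k F a) ↔
      W.valuation c < W.valuation (φ a)) (a : k) (j : ℤ) :
    W.valuation (φ a * c ^ j) ≤ 1 ↔ O.valuation (algebraMap k F a * y ^ j) ≤ 1 := by
  have c0 : c ≠ 0 := fun e => hc 0 (by rw [e, map_zero φ])
  by_cases ha : a = 0
  · simp [ha]
  by_cases hj : j = 0
  · rw [hj, zpow_zero, zpow_zero, mul_one, mul_one, W.valuation_le_one_iff,
      O.valuation_le_one_iff, hφ]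
  obtain ⟨n, rfl | rfl⟩ := j.eq_nat_or_neg
  · have hn : n ≠ 0 := fun e => hj (by rw [e, Nat.cast_zero])
    obtain ⟨b, hb⟩ := IsAlgClosed.exists_pow_nat_eq a⁻¹ (Nat.pos_of_ne_zero hn)
    have b0 : b ≠ 0 := fun e => inv_ne_zero ha (by rw [← hb, e, zero_pow hn])
    rw [← inv_inv a, ← hb, V5b_pos W φ c b0 hn, V5b_pos O _ y b0 hn, le_iff_eq_or_lt,
      le_iff_eq_or_lt, or_iff_right (hc b), or_iff_right (hy b), hcut]
  · have hn : n ≠ 0 := fun e => hj (by rw [e, Nat.cast_zero, neg_zero])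
    obtain ⟨b, rfl⟩ := IsAlgClosed.exists_pow_nat_eq a (Nat.pos_of_ne_zero hn)
    rw [V5b_neg W φ c0 b hn, V5b_neg O _ hy.ne_zero b hn, ← not_lt, ← not_lt, hcut]

theorem V5b_same (O : ValuationSubring F) (W : ValuationSubring Ω) {y : F} (hy : VT k O y)
    (φ : k →+* Ω) {c : Ω} (hc : ∀ a, W.valuation c ≠ W.valuation (φ a))
    (hcut : ∀ a, O.valuation y < O.valuation (algebraMap k F a) ↔
      W.valuation c < W.valuation (φ a)) (φ₀ : k⟮y⟯ →+* Ω)
    (h1 : ∀ a, φ₀ (algebraMap k k⟮y⟯ a) = φ a) (h2 : φ₀ ⟨y, mem_adjoin_simple_self k y⟩ = c)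
    (g : k⟮y⟯) (h0 : (g : F) ≠ 0) : ∃ (a : k) (j : ℤ),
      O.valuation (g : F) = O.valuation (algebraMap k F a * y ^ j) ∧
        W.valuation (φ₀ g) = W.valuation (φ a * c ^ j) := by
  have c0 : c ≠ 0 := fun e => hc 0 (by rw [e, map_zero φ])
  have key := rat_ind (k := k) (x := y) (fun x => ∃ g : k⟮y⟯, (g : F) = x ∧ ∃ (a : k) (j : ℤ),
      O.valuation x = O.valuation (algebraMap k F a * y ^ j) ∧
        W.valuation (φ₀ g) = W.valuation (φ a * c ^ j)) (fun a _ => ?_) (fun a _ => ?_) ?_ ?_ g.2 h0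
  · obtain ⟨g', e, h⟩ := key
    rwa [Subtype.ext e] at h
  · exact ⟨algebraMap k k⟮y⟯ a, rfl, a, 0, by rw [zpow_zero, mul_one],
      by rw [zpow_zero, mul_one, h1]⟩
  · refine ⟨⟨y, mem_adjoin_simple_self k y⟩ - algebraMap k k⟮y⟯ a, rfl, ?_⟩
    rw [map_sub φ₀, h1, h2]
    by_cases h : O.valuation y < O.valuation (algebraMap k F a)
    · exact ⟨a, 0, by rw [zpow_zero, mul_one, Valuation.map_sub_eq_of_lt_right _ h],
        by rw [zpow_zero, mul_one, Valuation.map_sub_eq_of_lt_right _ ((hcut a).1 h)]⟩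
    · have h3 := (not_lt.1 h).lt_of_ne (hy a).symm
      have h4 := (not_lt.1 fun e => h ((hcut a).2 e)).lt_of_ne (hc a).symm
      exact ⟨1, 1, by rw [zpow_one, map_one, one_mul, Valuation.map_sub_eq_of_lt_left _ h3],
        by rw [zpow_one, map_one, one_mul, Valuation.map_sub_eq_of_lt_left _ h4]⟩
  · rintro _ _ ⟨g, rfl, a, i, e1, e2⟩ ⟨g', rfl, b, j, e3, e4⟩
    refine ⟨g * g', rfl, a * b, i + j, ?_, ?_⟩
    · rw [map_mul, e1, e3, ← map_mul, map_mul (algebraMap k F), zpow_add₀ hy.ne_zero,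
        mul_mul_mul_comm]
    · rw [map_mul, map_mul, e2, e4, ← map_mul, map_mul φ, zpow_add₀ c0, mul_mul_mul_comm]
  · rintro _ ⟨g, rfl, a, i, e1, e2⟩
    refine ⟨g⁻¹, rfl, a⁻¹, -i, ?_, ?_⟩
    · rw [map_inv₀, e1, ← map_inv₀, map_inv₀ (algebraMap k F), zpow_neg, mul_inv]
    · rw [map_inv₀, map_inv₀, e2, ← map_inv₀, map_inv₀ φ, zpow_neg, mul_inv]

theorem vt_ext [IsAlgClosed Ω] (O : ValuationSubring F) (W : ValuationSubring Ω) {y : F}
    (hy : VT k O y) (halg : Algebra.IsAlgebraic k⟮y⟯ F) (φ : k →+* Ω)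
    (hφ : ∀ a, φ a ∈ W ↔ algebraMap k F a ∈ O) {c : Ω}
    (hc : ∀ a, W.valuation c ≠ W.valuation (φ a))
    (hcut : ∀ a, O.valuation y < O.valuation (algebraMap k F a) ↔
      W.valuation c < W.valuation (φ a)) :
    ∃ φ' : F →+* Ω, VP O W φ' ∧ (∀ a, φ' (algebraMap k F a) = φ a) ∧ φ' y = c := by
  obtain ⟨φ₀, h1, h2⟩ := exists_rat0 hy.ne φ (c := c) fun a e => hc a (by rw [e])
  obtain ⟨φ', h3, h4⟩ := ext_vp O W φ₀ fun g => by
    by_cases h0 : (g : F) = 0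
    · rw [show g = 0 from Subtype.ext h0, map_zero, map_zero]
      exact iff_of_true W.zero_mem O.zero_mem
    obtain ⟨a, j, e1, e2⟩ := V5b_same O W hy φ hc hcut φ₀ h1 h2 g h0
    rw [← W.valuation_le_one_iff, ← O.valuation_le_one_iff, e2, V5b_mon O W hy φ hφ hc hcut, ← e1]
    rfl
  exact ⟨φ', h4, fun a => (h3 (algebraMap k k⟮y⟯ a)).trans (h1 a),
    (h3 ⟨y, mem_adjoin_simple_self k y⟩).trans h2⟩

end Pool.Agent.PH
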