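import Pool.Agent.Work.MP_db9079_lc.PH.MODb
import Pool.Agent.Work.MP_db9079_lc.PH.ACL
import Pool.Agent.Work.MP_db9079_lc.PH.V5b
import Pool.Agent.Work.MP_db9079_lc.PH.V3b
import Pool.Agent.Work.MP_db9079_lc.PH.SD
import Mathlib.Algebra.Algebra.ZMod
import Mathlib.RingTheory.Algebraic.Cardinality

/-!
The initial state.

PLAN. `base_mem`: `g` is algebraic over `R = Subring.closure {t}`, so `r * g` is integral for some `r ≠ 0` in `R` (`IsAlgebraic.exists_integral_multiple`); `i`, `j` map `R` into `M`; `algpart` in `A` gives `b m ∈ R` (preimages under `i`) with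
`v (g' ^ p ^ s - b m) ≤ v (t ^ m)`; transfer to `B`; for `σ` over `B.M`, `σ y - y` (`y = j g' ^ p ^ s`) has value `≤ v (t ^ m)` for all `m`, and is algebraic over the image of `R`; a nonzero such element has value `≥ v (t ^ m)` for some `m`
(`arch_t`: in a relation with nonzero constant coefficient, the constant coefficient is a polynomial in `t` over the prime field, of value `v (t ^ m)`); so `σ y = y`, `fix_range`, and `M` is perfect. `base_state`: `κ₀ = AlgebraicClosure (ZMod p)` embedded in both fields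
(`IsAlgClosed.lift`); all its elements are integral (nonzero ones are roots of unity), `t` has `VT`; `T, t₁` from `exists_acl1`; `j` from `vt_ext`; `fr_step` (the valuation on `κ₀` is trivial); elements of `T` are algebraic over `Subring.closure {t₁}`.
-/

namespace Pool.Agent.PH

variable {p : ℕ} [Fact p.Prime] {A B : PM}

open Polynomial IntermediateField

theorem BASE_int {F : Type*} [Field F] [CharP F p] (O : ValuationSubring F) {c : ℤ}
    (hc : (c : F) ≠ 0) : O.valuation (c : F) = 1 := by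
  obtain ⟨n, rfl | rfl⟩ := c.eq_nat_or_neg
  · rw [Int.cast_natCast] at hc ⊢
    exact V2_nat_unit (p := p) O hc
  · rw [Int.cast_neg, Int.cast_natCast] at hc ⊢
    rw [Valuation.map_neg]
    exact V2_nat_unit (p := p) O (neg_ne_zero.1 hc)

theorem BASE_aeval {F : Type*} [Field F] (S : Subring F) {t : F} (ht : t ∈ S) (P : ℤ[X]) :
    aeval t P ∈ S := by
  rw [aeval_eq_sum_range]
  exact sum_mem fun i _ => zsmul_mem (pow_mem ht i) _

theorem BASE_poly {F : Type*} [Field F] [CharP F p] (O : ValuationSubring F) {t : F}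
    (ht : O.valuation t < 1) (n : ℕ) : ∀ P : ℤ[X], P.natDegree < n → aeval t P ≠ 0 →
      ∃ m : ℕ, O.valuation (t ^ m) ≤ O.valuation (aeval t P) := by
  induction n with
  | zero => intro P hP; omega
  | succ n ih =>
    intro P hP h0
    have e : aeval t P = aeval t P.divX * t + ((P.coeff 0 : ℤ) : F) := by
      conv_lhs => rw [← P.divX_mul_X_add]
      simp
    by_cases hc : ((P.coeff 0 : ℤ) : F) = 0
    · rw [hc, add_zero] at e
      have h1 : aeval t P.divX ≠ 0 := fun h => h0 (by rw [e, h, zero_mul])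
      have h2 : P.natDegree ≠ 0 := fun h => h1 (by
        rw [divX_eq_zero_iff.2 (eq_C_of_natDegree_eq_zero h), map_zero])
      obtain ⟨m, hm⟩ := ih P.divX (by rw [natDegree_divX_eq_natDegree_tsub_one]; omega) h1
      refine ⟨m + 1, ?_⟩
      rw [e, pow_succ, map_mul, map_mul]
      exact mul_le_mul_left hm _
    · have h1 := BASE_int (p := p) O hc
      have h2 : O.valuation (aeval t P.divX) ≤ 1 := (O.valuation_le_one_iff _).2
        (BASE_aeval O.toSubring ((O.valuation_le_one_iff _).1 ht.le) _)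
      have h3 : O.valuation (aeval t P.divX * t) < O.valuation ((P.coeff 0 : ℤ) : F) := by
        rw [h1, map_mul]
        exact (mul_le_of_le_one_left' h2).trans_lt ht
      refine ⟨0, ?_⟩
      rw [e, Valuation.map_add_eq_of_lt_right _ h3, h1, pow_zero, map_one]

theorem BASE_rep {F : Type*} [Field F] {t r : F} (hr : r ∈ Subring.closure {t}) :
    ∃ P : ℤ[X], aeval t P = r := by
  have h : Subring.closure {t} ≤ (aeval t : ℤ[X] →ₐ[ℤ] F).range.toSubring :=
    Subring.closure_le.2 (Set.singleton_subset_iff.2 ⟨X, aeval_X t⟩)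
  exact h hr

theorem arch_t (h : Good p A) {y : A.Ω} (hy : IsAlgebraic (Subring.closure {A.t}) y)
    (hm : ∀ m : ℕ, A.O.valuation y ≤ A.O.valuation (A.t ^ m)) : y = 0 := by
  have := h.charP
  by_contra h0
  obtain ⟨u, hu, r, hr, e⟩ := hy.exists_nonzero_eq_adjoin_mul (mem_nonZeroDivisors_of_ne_zero h0)
  have htO : A.t ∈ A.O := (A.O.valuation_le_one_iff _).1 h.t1.le
  have hR : Subring.closure {A.t} ≤ A.O.toSubring :=
    Subring.closure_le.2 (Set.singleton_subset_iff.2 htO)
  have hyO : y ∈ A.O := (A.O.valuation_le_one_iff _).1 (by simpa using hm 0)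
  have huO : u ∈ A.O := by
    clear e
    induction hu using Algebra.adjoin_induction with
    | mem x hx => rw [Set.mem_singleton_iff.1 hx]; exact hyO
    | algebraMap r => exact hR r.2
    | add x y _ _ hx hy => exact add_mem hx hy
    | mul x y _ _ hx hy => exact mul_mem hx hy
  obtain ⟨P, hP⟩ := BASE_rep r.2
  have hr0 : (r : A.Ω) ≠ 0 := fun h1 => hr (Subtype.ext h1)
  obtain ⟨m, h1⟩ := BASE_poly (p := p) A.O h.t1 _ P (Nat.lt_succ_self _) (by rwa [hP])
  rw [hP] at h1
  have h2 : A.O.valuation (r : A.Ω) ≤ A.O.valuation y := by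
    have e' : (r : A.Ω) = y * u := e.symm
    rw [e', map_mul]
    exact mul_le_of_le_one_right' ((A.O.valuation_le_one_iff _).2 huO)
  have h3 : A.O.valuation (A.t ^ (m + 1)) < A.O.valuation (A.t ^ m) := by
    rw [pow_succ, map_mul]
    exact mul_lt_of_lt_one_right ((Valuation.pos_iff _).2 (pow_ne_zero _ h.t0)) h.t1
  exact absurd ((h1.trans h2).trans (hm (m + 1))) (not_le.2 h3)

theorem BASE_int_map {k F : Type*} [Field k] [Field F] (i : k →+* F) {t : k} {s : F} (h : i t = s)
    {g : k} (hg : IsIntegral (Subring.closure {t}) g) : IsIntegral (Subring.closure {s}) (i g) := by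
  have hle : Subring.closure {t} ≤ (Subring.closure {s}).comap i :=
    Subring.closure_le.2 (Set.singleton_subset_iff.2 (by
      rw [SetLike.mem_coe, Subring.mem_comap, h]; exact Subring.subset_closure rfl))
  exact hg.map_of_comp_eq (i.restrict _ _ fun x hx => hle hx) i rfl

theorem BASE_pre {k F : Type*} [Field k] [Field F] (i : k →+* F) {t : k} {s : F} (h : i t = s)
    {b : F} (hb : b ∈ Subring.closure {s}) : ∃ b₀ ∈ Subring.closure {t}, i b₀ = b := by
  rw [← h, ← Set.image_singleton, ← RingHom.map_closure] at hb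
  exact hb

omit [Fact p.Prime] in
theorem BASE_inM (h : Good p A) {k : Type*} [Field k] (i : k →+* A.Ω) {t : k} (ti : i t = A.t)
    {r : k} (hr : r ∈ Subring.closure {t}) : i r ∈ A.M := by
  have hle : Subring.closure {t} ≤ A.M.toSubring.comap i :=
    Subring.closure_le.2 (Set.singleton_subset_iff.2 (by
      rw [SetLike.mem_coe, Subring.mem_comap, ti]; exact h.tM))
  exact hle hr

theorem BASE_root (h : Good p A) (s : ℕ) : ∀ {x : A.Ω}, x ^ p ^ s ∈ A.M → x ∈ A.M := by
  have := h.charP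
  induction s with
  | zero => intro x hx; simpa using hx
  | succ s ih =>
    intro x hx
    obtain ⟨y, hy, e⟩ := h.perf _ hx
    rw [pow_succ, pow_mul] at e
    have e' : y = x ^ p ^ s := frobenius_inj A.Ω p e
    exact ih (e' ▸ hy)

theorem base_mem (hA : AG p A) (hB : AG p B) {k : Type*} [Field k] (i : k →+* A.Ω) (j : k →+* B.Ω)
    (hO : ∀ a, i a ∈ A.O ↔ j a ∈ B.O) {t : k} (ti : i t = A.t) (tj : j t = B.t) {g : k}
    (hg : IsAlgebraic (Subring.closure {t}) g) (h : i g ∈ A.M) : j g ∈ B.M := by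
  obtain ⟨r, hr0, hint⟩ := hg.exists_integral_multiple
  have e0 : r • g = (r : k) * g := rfl
  rw [e0] at hint
  have hr : (r : k) ≠ 0 := fun h1 => hr0 (Subtype.ext h1)
  obtain ⟨s, hs⟩ := hA.good.algpart (x := i ((r : k) * g))
    (by rw [map_mul]; exact mul_mem (BASE_inM hA.good i ti r.2) h) (BASE_int_map i ti hint)
  have hi : VP (A.O.comap i) A.O i := vp_comap _ _
  have hj : VP (A.O.comap i) B.O j := fun a => (hO a).symm
  have hy : IsIntegral (Subring.closure {B.t}) (j ((r : k) * g) ^ p ^ s) :=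
    (BASE_int_map j tj hint).pow _
  have hfix : ∀ σ : B.Ω ≃ₐ[B.M] B.Ω, σ (j ((r : k) * g) ^ p ^ s) = j ((r : k) * g) ^ p ^ s := by
    intro σ
    have hσ : ∀ x ∈ B.M, σ x = x := fun x hx => σ.commutes ⟨x, hx⟩
    have hv : VP B.O B.O (σ : B.Ω →+* B.Ω) := hB.hensel σ
    have hy' := BASE_int_map (σ : B.Ω →+* B.Ω) (hσ _ hB.good.tM) hy
    refine sub_eq_zero.1 (arch_t hB.good (hy'.sub hy).isAlgebraic fun m => ?_)
    obtain ⟨b, hb, hb'⟩ := hs m
    obtain ⟨b₀, hb₀, rfl⟩ := BASE_pre i ti hb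
    rw [← ti, ← map_pow, ← map_pow, ← map_sub, hi.le, ← hj.le, map_sub, map_pow j, map_pow j,
      tj] at hb'
    have h1 := (hv.le _ _).2 hb'
    have h2 : (σ : B.Ω →+* B.Ω) (B.t ^ m) = B.t ^ m := hσ _ (pow_mem hB.good.tM m)
    have h3 : (σ : B.Ω →+* B.Ω) (j b₀) = j b₀ := hσ _ (BASE_inM hB.good j tj hb₀)
    rw [h2, map_sub (σ : B.Ω →+* B.Ω), h3] at h1
    rw [← sub_sub_sub_cancel_right _ _ (j b₀)]
    exact Valuation.map_sub_le _ h1 hb'
  have := hB.ac
  have := hB.alg
  have := hB.good.perfect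
  obtain ⟨z, hz⟩ := fix_range hfix
  have h1 : j ((r : k) * g) ∈ B.M := BASE_root hB.good s (hz ▸ z.2)
  have h2 : j g = (j r)⁻¹ * j ((r : k) * g) := by
    rw [map_mul, inv_mul_cancel_left₀ ((map_ne_zero j).2 hr)]
  rw [h2]
  exact mul_mem (inv_mem (BASE_inM hB.good j tj r.2)) h1

theorem BASE_cl {F : Type*} [Field F] (S : Subring F) (ψ : AlgebraicClosure (ZMod p) →+* F)
    (a : AlgebraicClosure (ZMod p)) : IsIntegral S (ψ a) := by
  have ha : IsIntegral (ZMod p) a := Algebra.IsIntegral.isIntegral a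
  have hz : IsIntegral ℤ a := by
    have : Algebra.IsIntegral ℤ (ZMod p) := inferInstance
    exact isIntegral_trans a ha
  exact hz.map_of_comp_eq (Int.castRingHom S) ψ (RingHom.ext_int _ _)

theorem BASE_mem {F : Type*} [Field F] (O : ValuationSubring F)
    (ψ : AlgebraicClosure (ZMod p) →+* F) (a : AlgebraicClosure (ZMod p)) : ψ a ∈ O := by
  obtain ⟨P, hP, hP'⟩ := BASE_cl O.toSubring ψ a
  refine root_mem O (hP.map (algebraMap O.toSubring F)) (fun i => ?_) (by rwa [eval_map])
  rw [coeff_map]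
  exact (P.coeff i).2

theorem BASE_one {F : Type*} [Field F] (O : ValuationSubring F)
    (ψ : AlgebraicClosure (ZMod p) →+* F) {a : AlgebraicClosure (ZMod p)} (ha : a ≠ 0) :
    O.valuation (ψ a) = 1 := by
  refine le_antisymm ((O.valuation_le_one_iff _).2 (BASE_mem O ψ a)) ?_
  have h := (O.valuation_le_one_iff _).2 (BASE_mem O ψ a⁻¹)
  rw [map_inv₀, map_inv₀] at h
  exact (inv_le_one₀ ((Valuation.pos_iff _).2 ((map_ne_zero ψ).2 ha))).1 h

theorem BASE_ne {F : Type*} [Field F] (O : ValuationSubring F)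
    (ψ : AlgebraicClosure (ZMod p) →+* F) {t : F} (h0 : t ≠ 0) (h1 : O.valuation t < 1)
    (a : AlgebraicClosure (ZMod p)) : O.valuation t ≠ O.valuation (ψ a) := by
  by_cases ha : a = 0
  · rw [ha, map_zero, map_zero]
    exact (Valuation.ne_zero_iff _).2 h0
  · rw [BASE_one O ψ ha]
    exact h1.ne

theorem BASE_lt {F : Type*} [Field F] (O : ValuationSubring F)
    (ψ : AlgebraicClosure (ZMod p) →+* F) {t : F} (h1 : O.valuation t < 1)
    (a : AlgebraicClosure (ZMod p)) : O.valuation t < O.valuation (ψ a) ↔ a ≠ 0 := by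
  by_cases ha : a = 0
  · simp [ha]
  · rw [BASE_one O ψ ha]
    exact iff_of_true h1 ha

theorem BASE_emb (h : AG p A) : Nonempty (AlgebraicClosure (ZMod p) →+* A.Ω) := by
  have := h.good.charP
  have := h.ac
  let _ : Algebra (ZMod p) A.Ω := ZMod.algebra _ p
  exact ⟨(IsAlgClosed.lift : AlgebraicClosure (ZMod p) →ₐ[ZMod p] A.Ω)⟩

theorem BASE_alg {F : Type*} [Field F] [Algebra (AlgebraicClosure (ZMod p)) F] (x : F)
    (h : Algebra.IsAlgebraic (AlgebraicClosure (ZMod p))⟮x⟯ F) (g : F) :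
    IsAlgebraic (Subring.closure {x}) g := by
  have h1 : ∀ y ∈ (AlgebraicClosure (ZMod p))⟮x⟯, IsAlgebraic (Subring.closure {x}) y := by
    intro y hy
    induction hy using adjoin_induction with
    | mem y hy =>
      rw [Set.mem_singleton_iff.1 hy]
      exact isAlgebraic_algebraMap (⟨x, Subring.subset_closure rfl⟩ : Subring.closure {x})
    | algebraMap a => exact (BASE_cl _ _ a).isAlgebraic
    | add y z _ _ hy hz => exact hy.add hz
    | inv y _ hy => exact hy.inv
    | mul y z _ _ hy hz => exact hy.mul hz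
  have hle : Subring.closure {x} ≤ (AlgebraicClosure (ZMod p))⟮x⟯.toSubfield.toSubring :=
    Subring.closure_le.2 (Set.singleton_subset_iff.2 (mem_adjoin_simple_self _ x))
  let _ : Algebra (Subring.closure {x}) (AlgebraicClosure (ZMod p))⟮x⟯ :=
    (Subring.inclusion hle).toAlgebra
  have : IsScalarTower (Subring.closure {x}) (AlgebraicClosure (ZMod p))⟮x⟯ F :=
    IsScalarTower.of_algebraMap_eq fun _ => rfl
  have : Algebra.IsAlgebraic (Subring.closure {x}) (AlgebraicClosure (ZMod p))⟮x⟯ :=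
    ⟨fun y => (isAlgebraic_algebraMap_iff (A := F) Subtype.val_injective).1 (h1 y y.2)⟩
  exact (h.isAlgebraic g).restrictScalars _

theorem base_state (hA : AG p A) (hB : AG p B) : Nonempty (St A B) := by
  obtain ⟨ψ⟩ := BASE_emb hA
  obtain ⟨φ⟩ := BASE_emb hB
  have := hA.ac
  have := hB.ac
  let _ : Algebra (AlgebraicClosure (ZMod p)) A.Ω := ψ.toAlgebra
  obtain ⟨T, x, hx, hT, halg, -, hcnt⟩ := exists_acl1 (k := AlgebraicClosure (ZMod p)) A.t
  have hc : Countable (AlgebraicClosure (ZMod p)) := by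
    rw [← Cardinal.mk_le_aleph0_iff]
    refine (Algebra.IsAlgebraic.cardinalMk_le_max (ZMod p) _).trans (max_le ?_ le_rfl)
    exact Cardinal.mk_le_aleph0
  have := hcnt hc
  have hv := vp_comap A.O (algebraMap T A.Ω)
  have ti : algebraMap T A.Ω x = A.t := hx
  have h0 : x ≠ 0 := fun h => hA.good.t0 (by rw [← ti, h, map_zero])
  have h1 : (A.O.comap (algebraMap T A.Ω)).valuation x < 1 := by
    rw [← hv.lt_one, ti]; exact hA.good.t1
  obtain ⟨j, hj, -, tj⟩ := vt_ext (A.O.comap (algebraMap T A.Ω)) B.O (y := x)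
    (BASE_ne _ _ h0 h1) halg φ (fun a => iff_of_true (BASE_mem _ _ a) (BASE_mem _ _ a))
    (BASE_ne _ φ hB.good.t0 hB.good.t1)
    fun a => (BASE_lt _ _ h1 a).trans (BASE_lt _ φ hB.good.t1 a).symm
  have hO : ∀ a, algebraMap T A.Ω a ∈ A.O ↔ j a ∈ B.O := fun a => (hj a).symm
  have hg := BASE_alg x halg
  refine ⟨⟨T, algebraMap T A.Ω, j, fun a => ⟨base_mem hA hB _ _ hO ti tj (hg a),
    base_mem hB hA _ _ (fun a => (hO a).symm) tj ti (hg a)⟩, hO, x, ti, tj, ⟨fun a => ?_⟩,
    fr_step halg ?_⟩⟩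
  · have hle : Subring.closure {x} ≤ (A.M.comap (algebraMap T A.Ω)).toSubring :=
      fun r hr => BASE_inM hA.good _ ti hr
    exact (hg a).ringHom_of_comp_eq (Subring.inclusion hle) (RingHom.id T)
      (Subring.inclusion_injective hle) rfl
  · rintro ⟨g, hg⟩
    obtain ⟨h2, h3, -⟩ := hg 0
    rw [← (vp_comap _ _).lt_one, BASE_one _ _ h2] at h3
    exact lt_irrefl _ h3

end Pool.Agent.PH
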