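import Pool.Agent.Work.MP_db9079_lc.PH.V1
import Mathlib.Algebra.BigOperators.Field

/-!
Basic lemmas on valuations in algebraic extensions.

PLAN. `vp_on_le`: as `VP.le`. `val_eq_of_periodic`: if `v (τ a) < v a` then `v (τ^[i+1] a) < v (τ^[i] a)`
for all `i`. `alg_val`: in `∑ a_i g ^ i = 0` (minpoly) two nonzero terms have the same value, else the
largest one gives the value of the sum (`Valuation.map_sum_eq_of_lt` or induction). `alg_res`: divide a
relation by a coefficient of largest value, replace each coefficient by an element of `k` (by `h`), get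
`q : k[X]` with a unit coefficient and `v (aeval g q) < 1`; divide out: factor `q` over `k`; write
`q = c * ∏ (X - r)`; if `v (g - r) ≥ 1` for all roots then compare with the unit coefficient (simplest: first
replace the coefficients of value `< 1` by `0`, so the leading coefficient of `q` is a unit, and then
`∏ v (g - r) < 1`). `alg_imm`: `v (g ^ n) = v a = v (λ)`, `μ ^ n = λ` in `k`, `g / μ` is a unit, `alg_res`.
`inc_eq`: for `a ∈ O' \ O` use `alg_val` for `O` and `a⁻¹`. `coeff_mem_of_roots`: induction on the multiset,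
carrying monic and degree. `minpoly_coeff_mem`: the minpoly splits, its roots are conjugates
(`minpoly.exists_algEquiv_of_root'` or `Normal.minpoly_eq_iff_mem_orbit`).
-/

namespace Pool.Agent.PH

open Polynomial

variable {F : Type*} [Field F] {K : Type*} [Field K] [Algebra K F]

theorem V1b_rel {g : F} (K : Type*) [Field K] [Algebra K F] :
    ∑ i ∈ Finset.range ((minpoly K g).natDegree + 1),
      algebraMap K F ((minpoly K g).coeff i) * g ^ i = 0 := by
  have h := minpoly.aeval K g
  rw [aeval_eq_sum_range] at h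
  simpa only [Algebra.smul_def] using h

theorem V1b_ratio (O : ValuationSubring F) {g : F} (h0 : g ≠ 0) {a b : K} {i j : ℕ} (hij : i < j)
    (hb : algebraMap K F b ≠ 0)
    (h : O.valuation (algebraMap K F a * g ^ i) = O.valuation (algebraMap K F b * g ^ j)) :
    O.valuation (g ^ (j - i)) = O.valuation (algebraMap K F (a / b)) := by
  obtain ⟨m, rfl⟩ := Nat.exists_eq_add_of_le hij.le
  have h1 : O.valuation (g ^ i) ≠ 0 := (Valuation.ne_zero_iff _).2 (pow_ne_zero _ h0)
  have h2 : O.valuation (algebraMap K F b) ≠ 0 := (Valuation.ne_zero_iff _).2 hb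
  rw [Nat.add_sub_cancel_left, map_div₀, map_div₀, eq_div_iff h2]
  rw [pow_add, map_mul, map_mul, map_mul] at h
  refine mul_right_cancel₀ h1 ?_
  rw [h]
  ac_rfl

theorem alg_val (O : ValuationSubring F) {g : F} (hg : IsAlgebraic K g) (h0 : g ≠ 0) :
    ∃ n, 0 < n ∧ n ≤ (minpoly K g).natDegree ∧
      ∃ a : K, O.valuation (g ^ n) = O.valuation (algebraMap K F a) := by
  have hm := minpoly.monic hg.isIntegral
  have hrel := V1b_rel (g := g) K
  obtain ⟨j, hj, hmax⟩ := Finset.exists_max_image (Finset.range ((minpoly K g).natDegree + 1))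
    (fun i => O.valuation (algebraMap K F ((minpoly K g).coeff i) * g ^ i))
    ⟨0, Finset.mem_range.2 (Nat.succ_pos _)⟩
  have hj0 : O.valuation (algebraMap K F ((minpoly K g).coeff j) * g ^ j) ≠ 0 := by
    have h1 := hmax _ (Finset.self_mem_range_succ _)
    rw [hm.coeff_natDegree, map_one, one_mul] at h1
    exact ((zero_lt_iff.2 ((Valuation.ne_zero_iff _).2 (pow_ne_zero _ h0))).trans_le h1).ne'
  have hex : ∃ i ∈ Finset.range ((minpoly K g).natDegree + 1), i ≠ j ∧
      O.valuation (algebraMap K F ((minpoly K g).coeff i) * g ^ i) =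
        O.valuation (algebraMap K F ((minpoly K g).coeff j) * g ^ j) := by
    by_contra hn
    push Not at hn
    have h1 := O.valuation.map_sum_eq_of_lt
      (f := fun i => algebraMap K F ((minpoly K g).coeff i) * g ^ i) hj fun i hi => by
        rw [Finset.mem_sdiff, Finset.mem_singleton] at hi
        exact lt_of_le_of_ne (hmax i hi.1) (hn i hi.1 hi.2)
    rw [hrel, map_zero] at h1
    exact hj0 h1.symm
  obtain ⟨i, hi, hij, he⟩ := hex
  rw [Finset.mem_range] at hi hj
  have hne : ∀ l, O.valuation (algebraMap K F ((minpoly K g).coeff l) * g ^ l) ≠ 0 →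
      algebraMap K F ((minpoly K g).coeff l) ≠ 0 := by
    intro l h1 h2
    rw [h2, zero_mul, map_zero] at h1
    exact h1 rfl
  rcases lt_or_gt_of_ne hij with h | h
  · exact ⟨j - i, by omega, by omega, _, V1b_ratio O h0 h (hne j hj0) he⟩
  · exact ⟨i - j, by omega, by omega, _, V1b_ratio O h0 h (hne i (he ▸ hj0)) he.symm⟩

theorem V1b_one_le {O : ValuationSubring F} {a b : F} (h : O.valuation (a - b) < 1)
    (ha : 1 ≤ O.valuation a) : 1 ≤ O.valuation b := by
  have h1 : O.valuation (b - a) < O.valuation a := by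
    rw [Valuation.map_sub_swap]
    exact h.trans_le ha
  rw [O.valuation.map_eq_of_sub_lt h1]
  exact ha

theorem V1b_core {k : Type*} [Field k] [IsAlgClosed k] [Algebra k F] (O : ValuationSubring F)
    {g : F} (hg : g ∈ O) (c : ℕ → F) (d : ℕ) (hc : ∑ i ∈ Finset.range d, c i * g ^ i = 0)
    {j : ℕ} (hj : j < d) (h1 : 1 ≤ O.valuation (c j))
    (h : ∀ i < d, ∃ a : k, O.valuation (c i - algebraMap k F a) < 1) :
    ∃ a : k, O.valuation (g - algebraMap k F a) < 1 := by
  have h2 : ∀ i, ∃ a : k, (i < d → O.valuation (c i - algebraMap k F a) < 1) ∧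
      (a = 0 ∨ 1 ≤ O.valuation (algebraMap k F a)) := by
    intro i
    by_cases hi : i < d
    · by_cases hv : O.valuation (c i) < 1
      · exact ⟨0, fun _ => by simpa using hv, Or.inl rfl⟩
      · obtain ⟨a, ha⟩ := h i hi
        exact ⟨a, fun _ => ha, Or.inr (V1b_one_le ha (not_lt.1 hv))⟩
    · exact ⟨0, fun h => absurd h hi, Or.inl rfl⟩
  choose l hl1 hl2 using h2
  set q : k[X] := ∑ i ∈ Finset.range d, monomial i (l i) with hq
  have hco : ∀ i, q.coeff i = if i ∈ Finset.range d then l i else 0 := by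
    intro i
    simp only [hq, finsetSum_coeff, coeff_monomial, Finset.sum_ite_eq']
  have hq0 : q ≠ 0 := by
    intro h0
    have h3 := hco j
    rw [h0, coeff_zero, if_pos (Finset.mem_range.2 hj)] at h3
    have h4 := hl1 j hj
    rw [← h3, map_zero, sub_zero] at h4
    exact absurd h4 (not_lt.2 h1)
  have hlc : 1 ≤ O.valuation (algebraMap k F q.leadingCoeff) := by
    have h3 := leadingCoeff_ne_zero.2 hq0
    rw [leadingCoeff, hco] at h3 ⊢
    split_ifs at h3 ⊢ with h4
    · exact (hl2 _).resolve_left h3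
    · exact absurd rfl h3
  have hg1 : O.valuation g ≤ 1 := (O.valuation_le_one_iff g).2 hg
  have hev : O.valuation (aeval g q) < 1 := by
    have e : aeval g q = ∑ i ∈ Finset.range d, (algebraMap k F (l i) - c i) * g ^ i := by
      simp only [hq, map_sum, aeval_monomial, sub_mul, Finset.sum_sub_distrib, hc, sub_zero]
    rw [e]
    refine O.valuation.map_sum_lt one_ne_zero fun i hi => ?_
    rw [map_mul, map_pow, Valuation.map_sub_swap]
    exact mul_lt_one_of_lt_of_le (hl1 i (Finset.mem_range.1 hi)) (pow_le_one' hg1 i)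
  by_contra hn
  push Not at hn
  have e : aeval g q = algebraMap k F q.leadingCoeff *
      (q.roots.map fun r => g - algebraMap k F r).prod := by
    conv_lhs => rw [(IsAlgClosed.splits q).eq_prod_roots]
    simp [map_multiset_prod]
  rw [e, map_mul, map_multiset_prod] at hev
  refine absurd hev (not_lt.2 (one_le_mul hlc (Multiset.one_le_prod_of_one_le fun x hx => ?_)))
  simp only [Multiset.map_map, Multiset.mem_map, Function.comp_apply] at hx
  obtain ⟨r, -, rfl⟩ := hx
  exact hn r

theorem alg_res {k : Type*} [Field k] [IsAlgClosed k] [Algebra k F] (O : ValuationSubring F)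
    (h : Res k O (Set.range (algebraMap K F))) {S : Set F} (hS : ∀ g ∈ S, IsAlgebraic K g) :
    Res k O S := by
  intro g hgS hg
  have hm := minpoly.monic (hS g hgS).isIntegral
  have hrel := V1b_rel (g := g) K
  obtain ⟨j, hj, hmax⟩ := Finset.exists_max_image (Finset.range ((minpoly K g).natDegree + 1))
    (fun i => O.valuation (algebraMap K F ((minpoly K g).coeff i)))
    ⟨0, Finset.mem_range.2 (Nat.succ_pos _)⟩
  have hj0 : 0 < O.valuation (algebraMap K F ((minpoly K g).coeff j)) := by
    have h1 := hmax _ (Finset.self_mem_range_succ _)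
    rw [hm.coeff_natDegree, map_one, map_one] at h1
    exact zero_lt_one.trans_le h1
  have hj1 : algebraMap K F ((minpoly K g).coeff j) ≠ 0 := (Valuation.pos_iff _).1 hj0
  refine V1b_core O hg (fun i => algebraMap K F ((minpoly K g).coeff i) /
    algebraMap K F ((minpoly K g).coeff j)) _ ?_ (Finset.mem_range.1 hj) ?_ fun i hi => ?_
  · simp only [div_mul_eq_mul_div]
    rw [← Finset.sum_div, hrel, zero_div]
  · rw [div_self hj1, map_one]
  · refine h _ ⟨(minpoly K g).coeff i / (minpoly K g).coeff j, map_div₀ _ _ _⟩ ?_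
    rw [← O.valuation_le_one_iff, map_div₀, div_le_one₀ hj0]
    exact hmax i (Finset.mem_range.2 hi)

theorem alg_imm {k : Type*} [Field k] [IsAlgClosed k] [Algebra k F] (O : ValuationSubring F)
    (h : Imm k O (Set.range (algebraMap K F))) {S : Set F} (hS : ∀ g ∈ S, IsAlgebraic K g) :
    Imm k O S := by
  intro g hgS hg
  have hg0 : 0 < O.valuation g := (Valuation.pos_iff _).2 hg
  obtain ⟨n, hn, -, a, ha⟩ := alg_val O (hS g hgS) hg
  have ha0 : algebraMap K F a ≠ 0 := by
    rw [← Valuation.ne_zero_iff O.valuation, ← ha, Valuation.ne_zero_iff]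
    exact pow_ne_zero _ hg
  obtain ⟨b, hb⟩ := h _ ⟨a, rfl⟩ ha0
  obtain ⟨μ, rfl⟩ := IsAlgClosed.exists_pow_nat_eq b hn
  rw [Valuation.map_sub_swap] at hb
  have hμ : O.valuation (algebraMap k F μ) = O.valuation g := by
    have h1 := O.valuation.map_eq_of_sub_lt hb
    rw [← ha, map_pow, map_pow, map_pow] at h1
    exact (pow_left_inj₀ zero_le zero_le hn.ne').1 h1
  have hμ0 : algebraMap k F μ ≠ 0 := (Valuation.pos_iff O.valuation).1 (hμ ▸ hg0)
  have hm := minpoly.monic (hS g hgS).isIntegral
  have hrel := V1b_rel (g := g) K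
  obtain ⟨j, hj, hmax⟩ := Finset.exists_max_image (Finset.range ((minpoly K g).natDegree + 1))
    (fun i => O.valuation (algebraMap K F ((minpoly K g).coeff i)) * O.valuation g ^ i)
    ⟨0, Finset.mem_range.2 (Nat.succ_pos _)⟩
  have hj0 : 0 < O.valuation (algebraMap K F ((minpoly K g).coeff j)) * O.valuation g ^ j := by
    have h1 := hmax _ (Finset.self_mem_range_succ _)
    rw [hm.coeff_natDegree, map_one, map_one, one_mul] at h1
    exact (pow_pos hg0 _).trans_le h1
  have hj1 : algebraMap K F ((minpoly K g).coeff j) ≠ 0 := by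
    intro h0
    rw [h0, map_zero, zero_mul] at hj0
    exact lt_irrefl _ hj0
  obtain ⟨e, he⟩ := h _ ⟨_, rfl⟩ hj1
  rw [Valuation.map_sub_swap] at he
  have hκ : O.valuation (algebraMap k F (e * μ ^ j)) =
      O.valuation (algebraMap K F ((minpoly K g).coeff j)) * O.valuation g ^ j := by
    rw [map_mul, map_pow, map_mul, map_pow, hμ, O.valuation.map_eq_of_sub_lt he]
  have hκ0 : 0 < O.valuation (algebraMap k F (e * μ ^ j)) := hκ ▸ hj0
  rw [← hκ] at hmax
  generalize e * μ ^ j = κ at hκ hκ0 hmax
  obtain ⟨r, hr⟩ := V1b_core (k := k) O (g := g / algebraMap k F μ)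
    (by rw [← O.valuation_le_one_iff, map_div₀, hμ, div_self hg0.ne'])
    (fun i => algebraMap K F ((minpoly K g).coeff i) * algebraMap k F μ ^ i / algebraMap k F κ)
    ((minpoly K g).natDegree + 1) (by
      rw [← zero_div (algebraMap k F κ), ← hrel, Finset.sum_div]
      refine Finset.sum_congr rfl fun i _ => ?_
      rw [div_pow, div_mul_eq_mul_div, mul_assoc, mul_div_cancel₀ _ (pow_ne_zero i hμ0)])
    (Finset.mem_range.1 hj) (by
      rw [map_div₀, map_mul, map_pow, hμ, ← hκ, div_self hκ0.ne']) fun i hi => by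
      by_cases h0 : algebraMap K F ((minpoly K g).coeff i) = 0
      · exact ⟨0, by simp [h0]⟩
      · obtain ⟨a', ha'⟩ := h _ ⟨_, rfl⟩ h0
        refine ⟨a' * μ ^ i / κ, ?_⟩
        rw [map_div₀, map_mul, map_pow, ← sub_div, ← sub_mul, map_div₀, map_mul, map_pow, hμ,
          div_lt_one₀ hκ0]
        exact (mul_lt_mul_of_pos_right ha' (pow_pos hg0 i)).trans_le
          (hmax i (Finset.mem_range.2 hi))
  refine ⟨r * μ, ?_⟩
  have e1 : g - algebraMap k F (r * μ) =
      (g / algebraMap k F μ - algebraMap k F r) * algebraMap k F μ := by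
    rw [sub_mul, div_mul_cancel₀ _ hμ0, map_mul]
  rw [e1, map_mul, hμ]
  exact mul_lt_of_lt_one_left hg0 hr

theorem inc_eq [Algebra.IsAlgebraic K F] {O O' : ValuationSubring F} (hle : O ≤ O')
    (h : ∀ a : K, algebraMap K F a ∈ O' → algebraMap K F a ∈ O) : O = O' := by
  refine le_antisymm hle fun x hx => ?_
  by_cases h0 : x = 0
  · rw [h0]
    exact O.zero_mem
  obtain ⟨n, hn, -, a, ha⟩ := alg_val O (Algebra.IsAlgebraic.isAlgebraic (R := K) x) h0
  have hx0 : x ^ n ≠ 0 := pow_ne_zero _ h0
  have h1 : algebraMap K F a / x ^ n ∈ O := by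
    rw [← O.valuation_le_one_iff, map_div₀, ← ha, div_self ((Valuation.ne_zero_iff _).2 hx0)]
  have h2 : algebraMap K F a ∈ O' := by
    rw [← div_mul_cancel₀ (algebraMap K F a) hx0]
    exact mul_mem (hle h1) (pow_mem hx n)
  have h3 := (O.valuation_le_one_iff _).2 (h a h2)
  rw [← ha, map_pow] at h3
  exact (O.valuation_le_one_iff x).1 ((pow_le_one_iff hn.ne').1 h3)

theorem minpoly_coeff_mem [Normal K F] (I : NonUnitalSubring F) {a : F}
    (h : ∀ σ : F ≃ₐ[K] F, σ a ∈ I) {i : ℕ} (hi : i < (minpoly K a).natDegree) :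
    algebraMap K F ((minpoly K a).coeff i) ∈ I := by
  have ha : IsAlgebraic K a := Algebra.IsAlgebraic.isAlgebraic a
  have hm := (minpoly.monic ha.isIntegral).map (algebraMap K F)
  have hs := Normal.splits inferInstance (F := K) a
  rw [← coeff_map, hs.eq_prod_roots_of_monic hm]
  refine coeff_mem_of_roots I _ (fun r hr => ?_) ?_
  · have h1 : aeval r (minpoly K a) = 0 := by
      rw [← eval_map_algebraMap]
      exact (mem_roots hm.ne_zero).1 hr
    obtain ⟨σ, rfl⟩ := minpoly.exists_algEquiv_of_root' ha h1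
    exact h σ
  · rw [← hs.natDegree_eq_card_roots, natDegree_map]
    exact hi

end Pool.Agent.PH
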