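import Pool.Agent.Work.MP_db9079_lc.PH.FLD
import Pool.Agent.Work.MP_db9079_lc.PH.V1b
import Mathlib.RingTheory.TensorProduct.Maps
import Mathlib.FieldTheory.Galois.Profinite

/-!
Galois theory of a perfect field `M` inside an algebraic closure `Ω`.

PLAN. `Ω / M` is Galois (`IsAlgClosure`, `IsGalois`). `fix_mem`: `Ω` is Galois over `M⟮α⟯`; an element outside has a conjugate
`≠` itself (`InfiniteGalois.mem_bot_iff_fixed` or `IsGalois.fixedField_fixingSubgroup`-like lemmas). `prim`: a finite Galois `N ⊇ T`
(normal closure of `adjoin M T`); `ψ` kills the kernel of the restriction to `N`; `H` = image of `ker ψ` in `Gal(N/M)`; `α` a primitive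
element of the fixed field of `H`. `res_hom`: `σ` preserves the range of `i` (the elements algebraic over `i L`: roots of mapped
minpolys, `k` algebraically closed), which defines `r`; surjectivity: for `τ`, the `M`-algebra maps
`M ⊗[L] k → Ω`, `m ⊗ a ↦ m * i a` and `m * i (τ a)` have nested kernels (a finite subset of `k` lies in `L⟮α⟯`, and
`minpoly M (i α)` is the image of `minpoly L α` since the coefficients of a monic factor lie in `i k ∩ M`); or use Zorn. Extend
from the range by `IsAlgClosed.lift`; an endomorphism of `Ω / M` is bijective. `fin_lvl`: `adjoin M S = M⟮α⟯`; `N = adjoin M (range i)`,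
the coefficients of `g = minpoly N α` lie in `adjoin M (i S₀)` for a finite `S₀` (`exists_finset_of_mem_adjoin`); `τ` fixing
`i S₀` maps `α` to a root of `g`; `minpoly.exists_algEquiv_of_root'` over `N`.
-/

namespace Pool.Agent.PH

open IntermediateField

open Polynomial in
theorem FLDb_root {Ω k : Type*} [Field Ω] [Field k] [IsAlgClosed k] (i : k →+* Ω) {P : k[X]}
    (hP : P ≠ 0) {y : Ω} (hy : (P.map i).eval y = 0) : ∃ b, i b = y := by
  have h0 : P.map i ≠ 0 := (Polynomial.map_ne_zero_iff i.injective).2 hP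
  have h1 : y ∈ (P.map i).roots := (mem_roots h0).2 hy
  rw [(IsAlgClosed.splits P).roots_map_of_ne_zero h0, Multiset.mem_map] at h1
  obtain ⟨b, -, hb⟩ := h1
  exact ⟨b, hb⟩

theorem FLDb_closed {M Ω : Type*} [Field M] [Field Ω] [Algebra M Ω] [Algebra.IsAlgebraic M Ω]
    (x y : Ω) : IsClosed {σ : Ω ≃ₐ[M] Ω | σ x = y} := by
  rcases Set.eq_empty_or_nonempty {σ : Ω ≃ₐ[M] Ω | σ x = y} with h | ⟨σ0, h0⟩
  · rw [h]
    exact isClosed_empty
  · have h1 := Subgroup.isClosed_of_isOpen _ (stabilizer_isOpen_of_isIntegral (K := M) x)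
    have h2 := h1.preimage (continuous_const_mul σ0⁻¹)
    convert h2 using 1
    ext σ
    rw [Set.mem_ofPred_eq] at h0
    simp only [Set.mem_ofPred_eq, Set.mem_preimage, SetLike.mem_coe, MulAction.mem_stabilizer_iff,
      AlgEquiv.smul_def, AlgEquiv.mul_apply, AlgEquiv.aut_inv, AlgEquiv.symm_apply_eq, h0]

open Polynomial in
theorem res_hom {Ω k : Type*} [Field Ω] [IsAlgClosed Ω] (M : Subfield Ω) [PerfectField M]
    [Algebra.IsAlgebraic M Ω] [Field k] [IsAlgClosed k] (i : k →+* Ω) (L : Subfield k)
    (hL : ∀ a, a ∈ L ↔ i a ∈ M) [Algebra.IsAlgebraic L k] :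
    ∃ r : (Ω ≃ₐ[M] Ω) →* (k ≃ₐ[L] k), Function.Surjective r ∧ ∀ σ a, i (r σ a) = σ (i a) := by
  have : IsAlgClosure M Ω := ⟨inferInstance, inferInstance⟩
  have : IsGalois M Ω := {}
  let j : L →+* M := (i.comp L.subtype).codRestrict M fun a => (hL a).1 a.2
  have hj : (algebraMap M Ω).comp j = i.comp (algebraMap L k) := rfl
  have hev : ∀ (p : L[X]) (a : k), i (aeval a p) = aeval (i a) (p.map j) :=
    fun p a => map_aeval_eq_aeval_map hj p a
  have hint : ∀ a : k, IsIntegral L a := fun a => Algebra.IsIntegral.isIntegral a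
  have hrange : ∀ (σ : Ω ≃ₐ[M] Ω) (a : k), ∃ b, i b = σ (i a) := by
    intro σ a
    refine FLDb_root i (P := (minpoly L a).map (algebraMap L k))
      ((minpoly.monic (hint a)).map _).ne_zero ?_
    rw [Polynomial.map_map, ← hj, ← Polynomial.map_map, eval_map_algebraMap, aeval_algHom_apply,
      ← hev, minpoly.aeval, map_zero, map_zero]
  have hlift : ∀ a : k, ∃ g : L[X], g.map j = minpoly M (i a) := by
    intro a
    rw [← mem_lifts, lifts_iff_coeff_lifts]
    intro n
    have hm := minpoly.monic (Algebra.IsIntegral.isIntegral (R := M) (i a))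
    rcases lt_trichotomy n (minpoly M (i a)).natDegree with h | h | h
    · obtain ⟨b, hb⟩ : algebraMap M Ω ((minpoly M (i a)).coeff n) ∈ i.range.toNonUnitalSubring :=
        minpoly_coeff_mem _ (fun σ => hrange σ a) h
      exact ⟨⟨b, (hL b).2 (hb ▸ ((minpoly M (i a)).coeff n).2)⟩, Subtype.ext hb⟩
    · exact ⟨1, by rw [h, hm.coeff_natDegree, map_one]⟩
    · exact ⟨0, by rw [coeff_eq_zero_of_natDegree_lt h, map_zero]⟩
  have : Algebra.IsSeparable L k := ⟨fun a => by
    obtain ⟨g, hg⟩ := hlift a
    have h1 : aeval a g = 0 := i.injective (by rw [hev, hg, minpoly.aeval, map_zero])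
    have h2 : (g.map j).Separable := hg ▸ Algebra.IsSeparable.isSeparable M (i a)
    exact ((separable_map j).1 h2).of_dvd (minpoly.dvd L a h1)⟩
  choose f hf using hrange
  let e : (Ω ≃ₐ[M] Ω) → (k ≃ₐ[L] k) := fun σ =>
    { toFun := f σ
      invFun := f σ.symm
      left_inv := fun a => i.injective (by rw [hf, hf, AlgEquiv.symm_apply_apply])
      right_inv := fun a => i.injective (by rw [hf, hf, AlgEquiv.apply_symm_apply])
      map_mul' := fun a b => i.injective (by simp only [hf, map_mul])
      map_add' := fun a b => i.injective (by simp only [hf, map_add])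
      commutes' := fun a => i.injective (by rw [hf]; exact σ.commutes (j a)) }
  have he : ∀ σ a, i (e σ a) = σ (i a) := hf
  refine ⟨MonoidHom.mk' e fun σ τ => AlgEquiv.ext fun a => i.injective ?_, fun τ => ?_, he⟩
  · simp only [AlgEquiv.mul_apply, he]
  · obtain ⟨σ, hσ⟩ := CompactSpace.iInter_nonempty
      (t := fun a : k => {σ : Ω ≃ₐ[M] Ω | σ (i a) = i (τ a)}) (fun a => FLDb_closed _ _) fun T => by
        have : FiniteDimensional L (adjoin L (T : Set k)) :=
          finiteDimensional_adjoin fun a _ => hint a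
        obtain ⟨α, hα⟩ := Field.exists_primitive_element L (adjoin L (T : Set k))
        obtain ⟨g, hg⟩ := hlift α
        have h1 : aeval (α : k) g = 0 := i.injective (by rw [hev, hg, minpoly.aeval, map_zero])
        have h2 : aeval (i (τ α)) (minpoly M (i α)) = 0 := by
          rw [← hg, ← hev, aeval_algHom_apply, h1, map_zero, map_zero]
        obtain ⟨σ, hσ⟩ := minpoly.exists_algEquiv_of_root'
          (Algebra.IsAlgebraic.isAlgebraic (i α)) h2
        have h3 : ∀ p : L[X], σ (i (aeval (α : k) p)) = i (τ (aeval (α : k) p)) := by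
          intro p
          rw [hev, ← aeval_algHom_apply, hσ, ← hev, aeval_algHom_apply]
        refine ⟨σ, Set.mem_iInter₂.2 fun a ha => ?_⟩
        have h4 : (⟨a, subset_adjoin L _ ha⟩ : adjoin L (T : Set k)) ∈ L⟮α⟯ := by
          rw [hα]
          exact mem_top
        obtain ⟨p, q, hpq⟩ := (mem_adjoin_simple_iff _ _).1 h4
        have h5 : a = aeval (α : k) p / aeval (α : k) q := by
          have := congrArg (adjoin L (T : Set k)).val hpq
          rwa [map_div₀, ← aeval_algHom_apply, ← aeval_algHom_apply] at this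
        change σ (i a) = i (τ a)
        rw [h5, map_div₀, map_div₀, map_div₀, map_div₀, h3, h3]
    refine ⟨σ, AlgEquiv.ext fun a => i.injective ?_⟩
    exact (he σ a).trans (Set.mem_iInter.1 hσ a)

end Pool.Agent.PH
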