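import Pool.Agent.Work.MP_db9079_lc.PH.D4
import Pool.Agent.Work.MP_db9079_lc.PH.V5

/-!
The deformation theorem.

PLAN. `exists_stable`: `K = k⟮x⟯`; `m` with all `s ^ p ^ m` separable over `K` (`exists_pow..` for `separableClosure`,
`IsPurelyInseparable.pow_mem`, or `minpoly` and `expand`); `S'` = the finite set of the `γ (τ (s ^ p ^ m))`, `γ ∈ Aut(Ω/K)`, `τ ∈ Aut(Ω/L)` (`finite_orbit`);
`E = adjoin K S'`; `τ γ τ⁻¹` is again a `K`-automorphism since `τ` maps `K` onto `K` (`hk` for `τ` and `τ⁻¹`); normal since stable under `Aut(Ω/K)`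
(`IntermediateField.normal_iff_forall_map_le'`). `deform`: `E` for `S ∪ Φ`, `O_E = O.comap E.val`; `Imm`, `FR` pass to `E`; `β, π` from `def_beta`; `Φ'` = the `g ^ p ^ m`, `g ∈ Φ`, and the
`τ (γ β)` of value `< 1`; `A` from `def_core`; `c, r` from `exists_far`; `O₁'` from `hcut`; `γ` from `def_core`, lifted to `Ω` (`AlgEquiv.liftNormal`); `O₁ = O₁'.comap γ`.
For `τ`: `O₁` and `O₁.comap τ` agree on `K` (`near_inv`, `dec_val`), `ext_aut` gives `γ'` with `τ (γ' a) ∈ O₁ ↔ a ∈ O₁`; `γ'|E ∈ Dec` since otherwise `τ (γ' β)` is small and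
congruent to `1`; then `τ g = τ (γ' (γ'⁻¹ g))`. For `g ∈ adjoin k (insert x S)`, `g ^ p ^ m ∈ E`.
-/

namespace Pool.Agent.PH

open Polynomial IntermediateField

theorem D5_ind {F Ω : Type*} [Field F] [Field Ω] [Algebra F Ω] (φ : Ω →+* Ω) (T : Set Ω)
    (E : Subfield Ω) (h1 : ∀ a : F, φ (algebraMap F Ω a) ∈ E) (h2 : ∀ t ∈ T, φ t ∈ E) {g : Ω}
    (hg : g ∈ adjoin F T) : φ g ∈ E := by
  induction hg using adjoin_induction with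
  | mem t ht => exact h2 t ht
  | algebraMap a => exact h1 a
  | add a b _ _ ha hb => rw [map_add]; exact add_mem ha hb
  | inv a _ ha => rw [map_inv₀]; exact inv_mem ha
  | mul a b _ _ ha hb => rw [map_mul]; exact mul_mem ha hb

theorem D5_fin (K L : Type*) {Ω : Type*} [Field K] [Field L] [Field Ω] [Algebra K Ω] [Algebra L Ω]
    [Algebra.IsAlgebraic K Ω] [Algebra.IsAlgebraic L Ω] (b : Ω) :
    {y | ∃ (γ : Ω ≃ₐ[K] Ω) (τ : Ω ≃ₐ[L] Ω), y = γ (τ b)}.Finite := by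
  refine ((finite_orbit (Algebra.IsAlgebraic.isAlgebraic (R := L) b)).biUnion fun z _ =>
    finite_orbit (Algebra.IsAlgebraic.isAlgebraic (R := K) z)).subset ?_
  rintro _ ⟨γ, τ, rfl⟩
  exact Set.mem_biUnion ⟨τ, rfl⟩ ⟨γ, rfl⟩

theorem D5_pow {Ω : Type*} [Field Ω] (O : ValuationSubring Ω) (a : Ω) {n : ℕ} (hn : n ≠ 0) :
    a ^ n ∈ O ↔ a ∈ O := by
  rw [← O.valuation_le_one_iff, ← O.valuation_le_one_iff, map_pow,
    pow_le_one_iff_of_nonneg zero_le hn]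

theorem D5_near {k E F : Type*} [Field k] [Field E] [Field F] [Algebra k E] [Algebra k F]
    {O O₁ : ValuationSubring F} {W W₁ : ValuationSubring E} {φ ψ : E →+* F} (h : VP W O φ)
    (h₁ : VP W₁ O₁ ψ) (hφ : ∀ a, φ (algebraMap k E a) = algebraMap k F a)
    (hψ : ∀ a, ψ (algebraMap k E a) = algebraMap k F a) {x : E} {y : F} (e : φ x = y)
    (e₁ : ψ x = y) {c r : k} (hn : Near O O₁ y c r) : Near W W₁ x c r where
  agree a := by rw [← h, ← h₁, hφ, hψ, hn.agree]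
  r0 := hn.r0
  rad := by rw [← h.eq, map_sub, hφ, hφ, e, hn.rad]
  lo := by rw [← h₁.lt, map_sub, hψ, hψ, e₁]; exact hn.lo
  hi a ha := by
    rw [← h.lt, hφ, hφ] at ha
    rw [← h₁.lt, map_sub, hψ, hψ, e₁]
    exact hn.hi a ha

variable {k Ω : Type*} [Field k] [IsAlgClosed k] [Field Ω] [IsAlgClosed Ω] [Algebra k Ω] (p : ℕ)
  [Fact p.Prime] [CharP k p]

theorem exists_stable {x : Ω} (halg : Algebra.IsAlgebraic k⟮x⟯ Ω) (L : Subfield Ω)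
    [Algebra.IsAlgebraic L Ω] (hxL : x ∈ L)
    (hk : ∀ (τ : Ω ≃ₐ[L] Ω) (a : k), ∃ b : k, τ (algebraMap k Ω a) = algebraMap k Ω b)
    (S : Finset Ω) : ∃ E : IntermediateField k⟮x⟯ Ω, FiniteDimensional k⟮x⟯ E ∧ IsGalois k⟮x⟯ E ∧
      (∀ (τ : Ω ≃ₐ[L] Ω), ∀ g ∈ E, τ g ∈ E) ∧ ∃ m : ℕ, ∀ s ∈ S, s ^ p ^ m ∈ E := by
  have : CharP Ω p := charP_of_injective_algebraMap (algebraMap k Ω).injective p
  have hK : ∀ (τ : Ω ≃ₐ[L] Ω), ∀ g ∈ k⟮x⟯, τ g ∈ k⟮x⟯ := fun τ g hg =>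
    D5_ind (τ : Ω →+* Ω) {x} k⟮x⟯.toSubfield (fun a => by
      obtain ⟨b, hb⟩ := hk τ a
      exact hb ▸ k⟮x⟯.algebraMap_mem b) (by
      rintro _ rfl
      exact (τ.commutes ⟨_, hxL⟩).symm ▸ mem_adjoin_simple_self k _) hg
  obtain ⟨T, hT, h1, h2, h3⟩ : ∃ T : Set Ω, T.Finite ∧ (∀ s ∈ S, s ∈ T) ∧
      (∀ γ : Ω ≃ₐ[k⟮x⟯] Ω, ∀ t ∈ T, γ t ∈ T) ∧ ∀ τ : Ω ≃ₐ[L] Ω, ∀ t ∈ T, τ t ∈ T := by
    refine ⟨_, S.finite_toSet.biUnion fun s _ => D5_fin k⟮x⟯ L s,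
      fun s hs => Set.mem_biUnion hs ⟨1, 1, rfl⟩, fun γ t ht => ?_, fun τ t ht => ?_⟩
    · obtain ⟨s, hs, γ', τ', rfl⟩ := Set.mem_iUnion₂.1 ht
      exact Set.mem_biUnion hs ⟨γ * γ', τ', rfl⟩
    · obtain ⟨s, hs, γ', τ', rfl⟩ := Set.mem_iUnion₂.1 ht
      refine Set.mem_biUnion hs ⟨AlgEquiv.ofRingEquiv
        (f := τ.symm.toRingEquiv.trans (γ'.toRingEquiv.trans τ.toRingEquiv)) fun a => ?_,
        τ * τ', ?_⟩
      · exact (congrArg τ (γ'.commutes ⟨_, hK τ.symm a a.2⟩)).trans (τ.apply_symm_apply a)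
      · exact congrArg τ (congrArg γ' (τ.symm_apply_apply _).symm)
  obtain ⟨m, hm⟩ : ∃ m : ℕ, ∀ t ∈ T, t ^ p ^ m ∈ separableClosure k⟮x⟯ Ω := by
    refine ((hT.eventually_all (l := Filter.atTop)).2 fun t _ => ?_).exists
    obtain ⟨n, z, hz⟩ := IsPurelyInseparable.pow_mem (separableClosure k⟮x⟯ Ω) p t
    filter_upwards [Filter.eventually_ge_atTop n] with m hm
    rw [← Nat.add_sub_cancel' hm, pow_add, pow_mul, ← hz]
    exact pow_mem z.2 _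
  have := (hT.image fun t => t ^ p ^ m).to_subtype
  refine ⟨adjoin k⟮x⟯ ((fun t => t ^ p ^ m) '' T),
    finiteDimensional_adjoin fun t _ => (halg.isAlgebraic t).isIntegral, ?_, fun τ g hg => ?_, m,
    fun s hs => subset_adjoin _ _ ⟨s, h1 s hs, rfl⟩⟩
  · have : Algebra.IsSeparable k⟮x⟯ (adjoin k⟮x⟯ ((fun t => t ^ p ^ m) '' T)) :=
      (isSeparable_adjoin_iff_isSeparable _ _).2 (by
        rintro _ ⟨t, ht, rfl⟩
        exact mem_separableClosure_iff.1 (hm t ht))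
    have : IsAlgClosure k⟮x⟯ Ω := ⟨inferInstance, halg⟩
    have : Normal k⟮x⟯ (adjoin k⟮x⟯ ((fun t => t ^ p ^ m) '' T)) := by
      refine normal_iff_forall_map_le'.2 fun γ => ?_
      rw [adjoin_map]
      refine adjoin.mono _ _ _ ?_
      rintro _ ⟨_, ⟨t, ht, rfl⟩, rfl⟩
      exact ⟨γ t, h2 γ t ht, (map_pow γ _ _).symm⟩
    exact ⟨⟩
  · refine D5_ind (F := k⟮x⟯) (τ : Ω →+* Ω) _
      (adjoin k⟮x⟯ ((fun t => t ^ p ^ m) '' T)).toSubfield (fun a => ?_) ?_ hg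
    · exact (adjoin k⟮x⟯ ((fun t => t ^ p ^ m) '' T)).algebraMap_mem ⟨_, hK τ a a.2⟩
    rintro _ ⟨t, ht, rfl⟩
    exact subset_adjoin _ _ ⟨τ t, h3 τ t ht, (map_pow τ _ _).symm⟩

include p in
theorem deform (O : ValuationSubring Ω) {x : Ω} (halg : Algebra.IsAlgebraic k⟮x⟯ Ω)
    (hx : ∀ a : k, x ≠ algebraMap k Ω a) (himm : Imm k O Set.univ) (hfr : FR O)
    (hcut : ∀ c r : k, r ≠ 0 → O.valuation (x - algebraMap k Ω c) = O.valuation (algebraMap k Ω r) →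
      ∃ O₁ : ValuationSubring Ω, Near O O₁ x c r)
    (L : Subfield Ω) [Algebra.IsAlgebraic L Ω] (hxL : x ∈ L) (hO : ∀ τ : Ω ≃ₐ[L] Ω, VP O O τ)
    (hk : ∀ (τ : Ω ≃ₐ[L] Ω) (a : k), ∃ b : k, τ (algebraMap k Ω a) = algebraMap k Ω b)
    (S Φ : Finset Ω) (hΦ : ∀ g ∈ Φ, O.valuation g < 1) :
    ∃ O₁ : ValuationSubring Ω, (∀ a : k, algebraMap k Ω a ∈ O₁ ↔ algebraMap k Ω a ∈ O) ∧
      (∃ c : k, VT k O₁ (x - algebraMap k Ω c)) ∧ (∀ g ∈ Φ, O₁.valuation g < 1) ∧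
      ∀ (τ : Ω ≃ₐ[L] Ω), ∀ g ∈ adjoin k (insert x (S : Set Ω)), τ g ∈ O₁ ↔ g ∈ O₁ := by
  classical
  have : CharP Ω p := charP_of_injective_algebraMap (algebraMap k Ω).injective p
  have : IsAlgClosure k⟮x⟯ Ω := ⟨inferInstance, halg⟩
  have hp : ∀ m : ℕ, p ^ m ≠ 0 := fun m => pow_ne_zero m (Fact.out : p.Prime).ne_zero
  obtain ⟨E, hfin, hgal, hE, m, hm⟩ := exists_stable p halg L hxL hk (S ∪ Φ)
  have hKE : ∀ g ∈ k⟮x⟯, g ∈ E := fun g hg => E.algebraMap_mem ⟨g, hg⟩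
  obtain ⟨y, hy⟩ : ∃ y : E, algebraMap E Ω y = x := ⟨⟨x, hKE x (mem_adjoin_simple_self k x)⟩, rfl⟩
  have hφ : ∀ a, algebraMap E Ω (algebraMap k E a) = algebraMap k Ω a := fun a => rfl
  have hK : ∀ g : E, g ∈ k⟮y⟯ ↔ g ∈ (algebraMap k⟮x⟯ E).range := fun g => by
    have e : k⟮y⟯.map ⟨algebraMap E Ω, hφ⟩ = k⟮x⟯ := by
      rw [adjoin_map, Set.image_singleton]
      exact congrArg (fun t => k⟮t⟯) hy
    refine ⟨fun h => ⟨⟨g, e.le ⟨g, h, rfl⟩⟩, rfl⟩, ?_⟩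
    rintro ⟨a, rfl⟩
    obtain ⟨b, hb, e'⟩ := e.ge a.2
    exact (Subtype.ext e' : b = algebraMap k⟮x⟯ E a) ▸ hb
  have hv := vp_comap O (algebraMap E Ω)
  generalize O.comap (algebraMap E Ω) = W at hv
  have hy' : ∀ a : k, y ≠ algebraMap k E a := fun a h => hx a (by rw [← hy, h, hφ])
  have himm' : Imm k W Set.univ := fun g _ h0 => by
    obtain ⟨a, ha⟩ := himm (algebraMap E Ω g) trivial ((_root_.map_ne_zero _).2 h0)
    exact ⟨a, by rwa [← hv.lt, map_sub, hφ]⟩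
  obtain ⟨β, π, hβ⟩ := def_beta (K := k⟮x⟯) (fun a => (hK _).1 (k⟮y⟯.algebraMap_mem a)) himm'
    (fr_of_vp hv hfr)
  obtain ⟨U, hU⟩ : ∃ U : Finset E, ∀ g, g ∈ U ↔ W.valuation g < 1 ∧
      algebraMap E Ω g ∈ (fun t => t ^ p ^ m) '' Φ ∪
        {t | ∃ (τ : Ω ≃ₐ[L] Ω) (γ : Ω ≃ₐ[k⟮x⟯] Ω), t = τ (γ (algebraMap E Ω β))} :=
    ⟨(((Φ.finite_toSet.image _).union (D5_fin L k⟮x⟯ _)).preimage
      (algebraMap E Ω).injective.injOn).toFinset.filter fun g => W.valuation g < 1, fun g => by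
        rw [Finset.mem_filter, Set.Finite.mem_toFinset, and_comm, Set.mem_preimage]⟩
  obtain ⟨A, hA⟩ : ∃ A : Finset k, ∀ (c r : k) (O₁ : ValuationSubring E), Near W O₁ y c r →
      Far W y A c → ∃ γ : E ≃ₐ[k⟮x⟯] E, O₁.valuation (γ (β - 1)) < 1 ∧
        (∀ g ∈ U, O₁.valuation (γ g) < 1) ∧
        ∀ σ ∈ Dec k⟮x⟯ W, ∀ g : E, γ (σ g) ∈ O₁ ↔ γ g ∈ O₁ := by
    first
    | exact def_core p hK hy' himm' hβ U fun g hg => ((hU g).1 hg).1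
    | exact def_core hK hy' himm' hβ U fun g hg => ((hU g).1 hg).1
  obtain ⟨c, r, hfar, hr, hcr⟩ := exists_far hy' himm' A
  obtain ⟨O', hn⟩ := hcut c r hr (by rwa [← hv.eq, map_sub, hφ, hφ, hy] at hcr)
  have hv' := vp_comap O' (algebraMap E Ω)
  obtain ⟨γ, g1, g2, g3⟩ := hA c r _ (D5_near hv hv' hφ hφ hy hy hn) hfar
  obtain ⟨Γ, hΓ⟩ : ∃ Γ : Ω ≃ₐ[k⟮x⟯] Ω, ∀ g, (Γ : Ω →+* Ω) (algebraMap E Ω g) =
      algebraMap E Ω (γ g) := ⟨γ.liftNormal Ω, γ.liftNormal_commutes Ω⟩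
  have hw := vp_comap O' (Γ : Ω →+* Ω)
  generalize O'.comap (Γ : Ω →+* Ω) = O₁ at hw
  have hn₁ : Near O O₁ x c r := D5_near (k := k) (φ := RingHom.id Ω) (fun _ => Iff.rfl) hw
    (fun _ => rfl) (fun a => Γ.commutes ⟨_, k⟮x⟯.algebraMap_mem a⟩) rfl
    (Γ.commutes ⟨_, mem_adjoin_simple_self k x⟩) hn
  have k1 : ∀ g : E, (O'.comap (algebraMap E Ω)).valuation (γ g) < 1 →
      O₁.valuation (algebraMap E Ω g) < 1 := fun g h => by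
    rwa [← hw.lt_one, hΓ, hv'.lt_one]
  have k2 : ∀ g : E, algebraMap E Ω g ∈ O₁ ↔ γ g ∈ O'.comap (algebraMap E Ω) := fun g => by
    rw [← hw, hΓ, hv']
  refine ⟨O₁, hn₁.agree, ⟨c, near_vt hn₁⟩, fun g hg => ?_, fun τ g hg => ?_⟩
  · have h1 := k1 _ (g2 ⟨g ^ p ^ m, hm g (Finset.mem_union_right _ hg)⟩ ((hU _).2
      ⟨(hv.lt_one _).1 (by
        change O.valuation (g ^ p ^ m) < 1
        rw [map_pow]
        exact pow_lt_one₀ zero_le (hΦ g hg) (hp m)), Or.inl ⟨g, hg, rfl⟩⟩))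
    change O₁.valuation (g ^ p ^ m) < 1 at h1
    rwa [map_pow, pow_lt_one_iff_of_nonneg zero_le (hp m)] at h1
  have hτ := dec_val (σ := τ) (hO τ)
  obtain ⟨γ', hγ'⟩ := ext_aut (K := k⟮x⟯) O₁ (O₁.comap (τ : Ω →+* Ω)) fun a => by
    rw [ValuationSubring.mem_comap, ← O₁.valuation_le_one_iff, ← O₁.valuation_le_one_iff]
    exact (iff_of_eq (congrArg (· ≤ 1) (near_inv hn₁ (τ : Ω →+* Ω) (τ.commutes ⟨x, hxL⟩) (hk τ)
      hτ a.2))).symm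
  have hσ := γ'.restrictNormal_commutes E
  generalize γ'.restrictNormal E = σ at hσ
  have hD : σ ∈ Dec k⟮x⟯ W := by
    by_contra hD
    have h1 : O.valuation (τ (algebraMap E Ω (σ β))) < 1 := by
      rw [hτ, hv.lt_one, hβ.val σ hD]
      exact pow_lt_one₀ zero_le (hβ.pi1 σ hD) two_ne_zero
    have h2 := k1 _ (g2 ⟨τ (algebraMap E Ω (σ β)), hE τ _ (σ β).2⟩ ((hU _).2
      ⟨(hv.lt_one _).1 h1, Or.inr ⟨τ, γ', congrArg τ (hσ β)⟩⟩))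
    change O₁.valuation (τ (algebraMap E Ω (σ β))) < 1 at h2
    rw [hσ] at h2
    have h3 := (VP.lt_one (O := O₁) (O' := O₁) (φ := (τ : Ω →+* Ω).comp (γ' : Ω →+* Ω)) hγ' _).1 h2
    have h4 := k1 _ g1
    rw [map_sub, map_one] at h4
    have h5 := O₁.valuation.map_sub_lt h3 h4
    rw [sub_sub_cancel, map_one] at h5
    exact lt_irrefl _ h5
  have h1 : g ^ p ^ m ∈ E := D5_ind (iterateFrobenius Ω p m) _ E.toSubfield
    (fun a => pow_mem (hKE _ (k⟮x⟯.algebraMap_mem a)) _) (by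
      rintro t (rfl | ht)
      · exact pow_mem (hKE _ (mem_adjoin_simple_self k t)) _
      · exact hm t (Finset.mem_union_left _ ht)) hg
  obtain ⟨g₀, h2⟩ := σ.surjective ⟨_, h1⟩
  have h3 : g ^ p ^ m = algebraMap E Ω (σ g₀) := by rw [h2]; rfl
  rw [← D5_pow O₁ g (hp m), ← D5_pow O₁ (τ g) (hp m), ← map_pow, h3, k2, g3 σ hD, ← k2, hσ]
  exact hγ' _

end Pool.Agent.PH
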