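import Pool.Agent.Work.MP_db9079_lc.PH.MOD

/-!
Consequences of the axioms, II.

PLAN. `cf_monic`: subtract the leading term. `atm`: `μ = (minpoly M α).map`, degree `d`, separable, so `u₀ μ + w₀ μ' = 1` over `M`; take `e` above the degrees; `tame d e` gives
`h, g, q, u, w, c'`; `H = X ^ d + h`; a root `θ₀` of `H`; `g(θ₀)` is a root of `μ`; move it to `α` by some `σ` (`minpoly.exists_algEquiv_of_root'`), `θ = σ θ₀`, so `g(θ) = α`, `θ ∈ O` (`root_mem`).
`σ θ = θ → σ α = α` is clear; conversely `M⟮α⟯ ≤ M⟮θ⟯` and `finrank M⟮θ⟯ ≤ d`, so `θ ∈ M⟮α⟯`. If `σ θ ≠ θ`, `H = (X - θ) * (X - σ θ) * H₂` with integral `H₂` (roots integral,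
`coeff_mem_of_roots`), `c' = w(θ) H'(θ) = w(θ) (θ - σ θ) H₂(θ)`. `linesC`: represent `z`, `z⁻¹`, `y` by polynomials over `M` of degree `< d` (`modByMonic (minpoly M α)`, power basis); divisibility by
the minpoly (`minpoly.dvd`), degree bounds for the quotients. `algpart`: coefficients in `Subring.closure {t}` are values at `t` of polynomials with integer cast coefficients
(`Subring.closure_induction`, or range of `eval₂RingHom (Int.castRingHom _) t`), which are fixed by Frobenius; conversely Frobenius fixed elements are natural number casts.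
-/

namespace Pool.Agent.PH

open Polynomial IntermediateField

theorem cf_monic {Ω : Type*} [Field Ω] {S : Ω → Prop} (h0 : S 0) {f : Ω[X]} (hf : f.Monic)
    (h : ∀ i < f.natDegree, S (f.coeff i)) :
    ∃ g, Cf S f.natDegree g ∧ f = X ^ f.natDegree + g := by
  refine ⟨f.eraseLead, ⟨?_, fun i => ?_⟩, ?_⟩
  · rw [← degree_eq_natDegree hf.ne_zero]
    exact degree_eraseLead_lt hf.ne_zero
  · rw [eraseLead_coeff]
    split_ifs with hi
    · exact h0
    · rcases lt_or_gt_of_ne hi with hi | hi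
      · exact h i hi
      · rw [coeff_eq_zero_of_natDegree_lt hi]
        exact h0
  · have e := f.eraseLead_add_C_mul_X_pow
    rw [hf.leadingCoeff, C_1, one_mul, add_comm] at e
    exact e.symm

theorem MODb_lift {R Ω : Type*} [CommRing R] [Field Ω] (φ : R →+* Ω) (f : Ω[X])
    (h : ∀ i, f.coeff i ∈ Set.range φ) : ∃ g : R[X], g.map φ = f :=
  (mem_lifts f).1 ((lifts_iff_coeff_lifts f).2 h)

theorem MODb_cf {Ω : Type*} [Field Ω] {M : Subfield Ω} {g : M[X]} {n : ℕ} (h : g.natDegree < n) :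
    Cf (· ∈ M) n (g.map (algebraMap M Ω)) :=
  ⟨degree_map_le.trans_lt (degree_le_natDegree.trans_lt (by exact_mod_cast h)), fun i => by
    rw [coeff_map]
    exact (g.coeff i).2⟩

theorem MODb_monic {Ω : Type*} [Field Ω] {M : Subfield Ω} {g : M[X]} (h : g.Monic) :
    ∃ f, Cf (· ∈ M) g.natDegree f ∧ g.map (algebraMap M Ω) = X ^ g.natDegree + f := by
  have h1 := cf_monic (S := (· ∈ M)) (zero_mem _) (h.map (algebraMap M Ω)) fun i _ => by
    rw [coeff_map]
    exact (g.coeff i).2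
  rwa [natDegree_map] at h1

theorem MODb_aut {Ω : Type*} [Field Ω] {M : Subfield Ω} {g : Ω[X]} (h : ∀ i, g.coeff i ∈ M)
    (σ : Ω ≃ₐ[M] Ω) (x : Ω) : σ (g.eval x) = g.eval (σ x) := by
  obtain ⟨g₀, rfl⟩ := MODb_lift (algebraMap M Ω) g fun i => ⟨⟨_, h i⟩, rfl⟩
  rw [eval_map_algebraMap, eval_map_algebraMap, aeval_algHom_apply]

theorem MODb_der {Ω : Type*} [Field Ω] (O : ValuationSubring Ω) {H : Ω[X]} (h : ∀ i, H.coeff i ∈ O)
    {x y : Ω} (hx : x ∈ O) (hy : y ∈ O) (hne : y ≠ x) (h1 : H.eval x = 0) (h2 : H.eval y = 0) :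
    O.valuation ((derivative H).eval x) ≤ O.valuation (y - x) := by
  obtain ⟨H₀, rfl⟩ := MODb_lift O.subtype H fun i => ⟨⟨_, h i⟩, rfl⟩
  obtain ⟨k, hk⟩ := H₀.binomExpansion ⟨x, hx⟩ (⟨y, hy⟩ - ⟨x, hx⟩)
  have h3 := congrArg O.subtype hk
  rw [add_sub_cancel, map_add, map_add, map_mul, map_mul, map_pow, map_sub, ← eval_map_apply,
    ← eval_map_apply, ← eval_map_apply, ← derivative_map] at h3
  change eval y _ = eval x _ + eval x _ * (y - x) + (k : Ω) * (y - x) ^ 2 at h3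
  rw [h1, h2] at h3
  have h4 : (derivative (H₀.map O.subtype)).eval x = -((k : Ω) * (y - x)) :=
    mul_right_cancel₀ (sub_ne_zero.2 hne) (by linear_combination -h3)
  rw [h4, Valuation.map_neg, map_mul]
  exact mul_le_of_le_one_left' (O.valuation_le_one k)

theorem MODb_rep {K Ω : Type*} [Field K] [Field Ω] [Algebra K Ω] {α y : Ω} (hα : IsIntegral K α)
    (hy : y ∈ K⟮α⟯) : ∃ g : K[X], g.natDegree < (minpoly K α).natDegree ∧ aeval α g = y := by
  have h1 : y ∈ K⟮α⟯.toSubalgebra := hy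
  rw [adjoin_simple_toSubalgebra_of_isAlgebraic hα.isAlgebraic,
    Algebra.adjoin_singleton_eq_range_aeval] at h1
  obtain ⟨g, rfl⟩ := h1
  exact ⟨g %ₘ minpoly K α, natDegree_modByMonic_lt g (minpoly.monic hα) (minpoly.ne_one K α),
    aeval_modByMonic_eq_self_of_root (minpoly.aeval K α)⟩

theorem MODb_quot {K : Type*} [Field K] {P μ Q : K[X]} {k : ℕ} (hm : μ.Monic) (h : P = μ * Q)
    (hk : 0 < k) (hP : P.natDegree < μ.natDegree + k) : Q.natDegree < k := by
  by_cases hQ : Q = 0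
  · rwa [hQ, natDegree_zero]
  · rw [h, hm.natDegree_mul' hQ] at hP
    omega

variable {p : ℕ} [Fact p.Prime] {A : PM}

theorem AG.atm (h : AG p A) (α : A.Ω) {c : A.Ω} (hc : c ∈ A.M) (h0 : c ≠ 0)
    (h1 : A.O.valuation c < 1) : ∃ θ ∈ A.O, (∀ σ : A.Ω ≃ₐ[A.M] A.Ω, σ θ = θ ↔ σ α = α) ∧
      ∀ σ : A.Ω ≃ₐ[A.M] A.Ω, σ θ ≠ θ → A.O.valuation c ≤ A.O.valuation (σ θ - θ) := by
  have := h.ac
  have := h.alg
  have := h.good.perfect
  have : IsGalois A.M A.Ω := FLD_gal
  have hα : IsIntegral A.M α := Algebra.IsIntegral.isIntegral α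
  obtain ⟨a, b, hab⟩ : (minpoly A.M α).Separable := Algebra.IsSeparable.isSeparable A.M α
  obtain ⟨f, hf, hf'⟩ := MODb_monic (minpoly.monic hα)
  set d := (minpoly A.M α).natDegree with hd
  have hd0 : 0 < d := minpoly.natDegree_pos hα
  obtain ⟨h', g, q, u, w, hh, hg, -, -, hw, c', -, -, hc', e1, e2⟩ :=
    h.good.tame d (a.natDegree + b.natDegree + 1) f _ _ hf
      (MODb_cf (g := a) (by omega)) (MODb_cf (g := b) (by omega))
      (by rw [← hf', derivative_map, ← Polynomial.map_mul, ← Polynomial.map_mul,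
        ← Polynomial.map_add, hab, Polynomial.map_one]) c hc h0 h1
  have hm : (X ^ d + h').Monic := monic_X_pow_add hh.1
  have hdeg : (X ^ d + h').degree = (d : WithBot ℕ) := by
    rw [degree_add_eq_left_of_degree_lt (by rw [degree_X_pow]; exact hh.1), degree_X_pow]
  have hco : ∀ i, (X ^ d + h').coeff i ∈ A.M ∧ (X ^ d + h').coeff i ∈ A.O := fun i => by
    rw [coeff_add, coeff_X_pow]
    split_ifs
    · exact ⟨add_mem (one_mem _) (hh.2 i).1, add_mem (one_mem _) (hh.2 i).2⟩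
    · rw [zero_add]
      exact hh.2 i
  generalize X ^ d + h' = H at *
  obtain ⟨θ₀, hθ₀⟩ := IsAlgClosed.exists_root H (by rw [hdeg]; exact_mod_cast hd0.ne')
  have h2 : aeval (g.eval θ₀) (minpoly A.M α) = 0 := by
    rw [← eval_map_algebraMap, hf', ← eval_comp, e1, eval_mul, hθ₀.eq_zero, zero_mul]
  obtain ⟨τ, hτ⟩ := minpoly.exists_algEquiv_of_root hα.isAlgebraic h2
  rw [ MODb_aut hg.2] at hτ
  have hH : H.eval (τ θ₀) = 0 := by rw [← MODb_aut fun i => (hco i).1, hθ₀.eq_zero, map_zero]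
  generalize τ θ₀ = θ at hτ hH
  have hO : θ ∈ A.O := root_mem A.O hm (fun i => (hco i).2) hH
  refine ⟨θ, hO, fun σ => ⟨fun hσ => ?_, fun hσ => ?_⟩, fun σ hσ => ?_⟩
  · rw [← hτ, MODb_aut hg.2, hσ]
  · have hθ : IsIntegral A.M θ := Algebra.IsIntegral.isIntegral θ
    have := adjoin.finiteDimensional hθ
    obtain ⟨g₀, rfl⟩ := MODb_lift (algebraMap A.M A.Ω) g fun i => ⟨⟨_, hg.2 i⟩, rfl⟩
    obtain ⟨H₀, rfl⟩ := MODb_lift (algebraMap A.M A.Ω) H fun i => ⟨⟨_, (hco i).1⟩, rfl⟩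
    rw [eval_map_algebraMap] at hτ hH
    have h3 : A.M⟮α⟯ ≤ A.M⟮θ⟯ := by
      rw [adjoin_simple_le_iff, ← hτ]
      exact Algebra.adjoin_le (S := A.M⟮θ⟯.toSubalgebra)
        (Set.singleton_subset_iff.2 (mem_adjoin_simple_self _ θ))
        (Polynomial.aeval_mem_adjoin_singleton _ _)
    have h4 : A.M⟮α⟯ = A.M⟮θ⟯ := by
      refine eq_of_le_of_finrank_le h3 ?_
      rw [adjoin.finrank hθ, adjoin.finrank hα, ← hd]
      rw [degree_map] at hdeg
      have h5 : H₀ ≠ 0 := fun h5 => hm.ne_zero (by rw [h5, Polynomial.map_zero])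
      exact natDegree_le_iff_degree_le.2 (hdeg ▸ minpoly.degree_le_of_ne_zero _ _ h5 hH)
    have h6 : σ ∈ A.M⟮α⟯.fixingSubgroup := (FLD_fixing _ σ).2 fun x hx => by
      rw [Set.mem_singleton_iff.1 hx, hσ]
    rw [h4] at h6
    exact (FLD_fixing _ σ).1 h6 θ rfl
  · have hH' : H.eval (σ θ) = 0 := by rw [← MODb_aut fun i => (hco i).1, hH, map_zero]
    have hO' : σ θ ∈ A.O := root_mem A.O hm (fun i => (hco i).2) hH'
    have h3 := congrArg (eval θ) e2
    rw [eval_add, eval_mul, eval_mul, hH, mul_zero, zero_add, eval_C] at h3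
    refine hc'.trans ?_
    rw [← h3, map_mul]
    refine (mul_le_of_le_one_left' ?_).trans
      (MODb_der A.O (fun i => (hco i).2) hO hO' hσ hH hH')
    rw [ValuationSubring.valuation_le_one_iff, eval_eq_sum_range]
    exact sum_mem fun i _ => mul_mem (hw.2 i).2 (pow_mem hO _)

theorem AG.linesC (h : AG p A) (α z : A.Ω) (hz : z ∈ A.M⟮α⟯) (h0 : z ≠ 0) :
    ∃ c : A.M, ∀ y ∈ A.M⟮α⟯, y ^ p - y ≠ algebraMap A.M A.Ω c * z := by
  have := h.alg
  have hα : IsIntegral A.M α := Algebra.IsIntegral.isIntegral α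
  have hm := minpoly.monic hα
  obtain ⟨f, hf, hf'⟩ := MODb_monic hm
  obtain ⟨d, hd⟩ : ∃ d, (minpoly A.M α).natDegree = d + 1 :=
    ⟨_, (Nat.succ_pred_eq_of_pos (minpoly.natDegree_pos hα)).symm⟩
  obtain ⟨Z, hZ, rfl⟩ := MODb_rep hα hz
  obtain ⟨Z', hZ', hZ''⟩ := MODb_rep hα (inv_mem hz)
  rw [hd] at hf hf' hZ hZ'
  obtain ⟨Q', hQ'⟩ : minpoly A.M α ∣ Z * Z' - 1 := minpoly.dvd _ _ (by
    rw [map_sub, map_mul, hZ'', map_one, mul_inv_cancel₀ h0, sub_self])
  have h1 : Q'.natDegree < d + 1 := by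
    refine MODb_quot hm hQ' (by omega) ?_
    have h2 : (Z * Z').natDegree ≤ _ := natDegree_mul_le
    have h3 := natDegree_sub_le (Z * Z') 1
    rw [natDegree_one] at h3
    omega
  obtain ⟨c, hc, h2⟩ := h.good.lines d f _ _ _ hf (MODb_cf hZ) (MODb_cf hZ') (MODb_cf h1) (by
    rw [← hf', ← Polynomial.map_mul, ← Polynomial.map_mul, ← hQ', Polynomial.map_sub,
      Polynomial.map_one]
    ring)
  refine ⟨⟨c, hc⟩, fun y hy e => ?_⟩
  obtain ⟨Y, hY, rfl⟩ := MODb_rep hα hy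
  rw [hd] at hY
  obtain ⟨Q, hQ⟩ : minpoly A.M α ∣ Y ^ p - Y - C ⟨c, hc⟩ * Z := minpoly.dvd _ _ (by
    rw [map_sub, map_sub, map_pow, map_mul, aeval_C, e, sub_self])
  have hp : 0 < p := (Fact.out : p.Prime).pos
  have h3 : Q.natDegree < p * (d + 1) := by
    refine MODb_quot hm hQ (by positivity) ?_
    have h4 : (Y ^ p).natDegree ≤ p * (d + 1) :=
      natDegree_pow_le.trans (Nat.mul_le_mul_left p hY.le)
    have h5 := natDegree_C_mul_le (⟨c, hc⟩ : A.M) Z
    have h6 := natDegree_sub_le (Y ^ p) Y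
    have h7 := natDegree_sub_le (Y ^ p - Y) (C ⟨c, hc⟩ * Z)
    have h8 : 0 < p * (d + 1) := by positivity
    omega
  refine h2 _ _ (MODb_cf hY) (MODb_cf h3) ?_
  have h9 := congrArg (Polynomial.map (algebraMap A.M A.Ω)) hQ
  rw [Polynomial.map_mul, hf', Polynomial.map_sub, Polynomial.map_sub, Polynomial.map_mul,
    Polynomial.map_pow, map_C] at h9
  rw [← h9]
  change _ = _ + C c * _ + (_ - _ - C c * _)
  ring

theorem Good.algpart (h : Good p A) {x : A.Ω} (hx : x ∈ A.M)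
    (hi : IsIntegral (Subring.closure {A.t}) x) : ∃ s : ℕ, ∀ m : ℕ, ∃ b ∈ Subring.closure {A.t},
      A.O.valuation (x ^ p ^ s - b) ≤ A.O.valuation (A.t ^ m) := by
  have := h.charP
  obtain ⟨P, hP, hP'⟩ := hi
  obtain ⟨f, hf, hf'⟩ := cf_monic (S := (· ∈ Subring.closure {A.t})) (zero_mem _)
    (hP.map (algebraMap (Subring.closure {A.t}) A.Ω)) fun i _ => by
      rw [coeff_map]
      exact (P.coeff i).2
  generalize (P.map (algebraMap (Subring.closure {A.t}) A.Ω)).natDegree = d at hf hf'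
  have h1 : Subring.closure {A.t} ≤ A.M.toSubring :=
    Subring.closure_le.2 (Set.singleton_subset_iff.2 h.tM)
  have h2 : Subring.closure {A.t} ≤ (eval₂RingHom (Int.castRingHom A.Ω) A.t).range :=
    Subring.closure_le.2 (Set.singleton_subset_iff.2 ⟨X, by simp⟩)
  choose G hG using fun i => h2 (hf.2 i)
  refine ⟨d, fun m => ?_⟩
  have h4 : ∀ i < d, ∃ g, Cf (fun x => x ∈ A.M ∧ x ^ p = x)
      (∑ i ∈ Finset.range d, (G i).natDegree + 1) g ∧ f.coeff i = g.eval A.t := by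
    intro i hi
    refine ⟨(G i).map (Int.castRingHom A.Ω),
      ⟨degree_map_le.trans_lt (degree_le_natDegree.trans_lt ?_), fun j => ?_⟩, ?_⟩
    · exact_mod_cast Nat.lt_succ_of_le (Finset.single_le_sum (f := fun i => (G i).natDegree)
        (fun _ _ => Nat.zero_le _) (Finset.mem_range.2 hi))
    · rw [coeff_map, eq_intCast]
      exact ⟨intCast_mem _ _, map_intCast (frobenius A.Ω p) _⟩
    · rw [eval_map, ← hG i, coe_eval₂RingHom]
  have h5 : (X ^ d + f).eval x = 0 := by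
    rw [← hf', eval_map]
    exact hP'
  obtain ⟨g, hg, hg'⟩ := h.alg d _ m f ⟨hf.1, fun i => h1 (hf.2 i)⟩ h4 x hx h5
  refine ⟨g.eval A.t, ?_, hg'⟩
  rw [eval_eq_sum_range]
  have h6 : A.t ∈ Subring.closure {A.t} := Subring.subset_closure (Set.mem_singleton _)
  refine Subring.sum_mem _ fun i _ => Subring.mul_mem _ ?_ (Subring.pow_mem _ h6 _)
  have h3 := V2_prod (p := p) (g.coeff i)
  rw [(hg.2 i).2, sub_self, Finset.prod_eq_zero_iff] at h3
  obtain ⟨a, -, ha⟩ := h3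
  rw [sub_eq_zero.1 ha, ZMod.castHom_apply, ZMod.cast_eq_val]
  exact natCast_mem _ _

end Pool.Agent.PH
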