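import Pool.Agent.Work.MP_db9079_lc.PH.FLV
import Pool.Agent.Work.MP_db9079_lc.PH.MODb
import Pool.Agent.Work.MP_db9079_lc.PH.D5

/-!
The finite level embedding.

PLAN. `aut_k`: `τ a` is a root of the image of the minpoly of `a` over `L.comap`, which splits in `k` (or `res_hom`). `fl_vt`: `F = adjoin k S₁` is stable; `y` from `exists_gen_fin` (`exch`); `flb` for `insert y S₁`; `flc`. For `g ∈ S₁`:
`J g ∈ M` iff fixed by all `σ` (`fix_range`) iff `τ_σ g = g` for all `σ`; as `ψ` is onto and `ker ρ` fixes `S₁` this says that all `τ` fix `g`. `fl`: if some `g₀` has `VT k O g₀` use `fl_vt` with `O₁ = O` and `S₁ ⊇ insert g₀ S` (`exists_stable_set`).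
Otherwise `Imm k O univ` (from `hres`); `hcut` of `deform`: `sat2` with `c = 1`, `N = ∅`, `P a = (v r < v a)` gives `x'`, `exists_rat` for `x - c ↦ x'`, `O₁ = B.O.comap`; `S₁ ⊇ insert x S` stable; `deform`, `fl_vt` with `y₀ = x - c`.
-/

namespace Pool.Agent.PH

open IntermediateField

variable {k Ω₁ : Type} [Field k] [IsAlgClosed k] [Field Ω₁] [IsAlgClosed Ω₁] [Algebra k Ω₁]

theorem aut_k (L₁ : Subfield Ω₁)
    (hkalg : Algebra.IsAlgebraic (L₁.comap (algebraMap k Ω₁)) k) (τ : Ω₁ ≃ₐ[L₁] Ω₁) (a : k) :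
    ∃ b : k, τ (algebraMap k Ω₁ a) = algebraMap k Ω₁ b := by
  obtain ⟨P, hP0, hP⟩ := hkalg.isAlgebraic a
  have h1 : P.map (algebraMap (L₁.comap (algebraMap k Ω₁)) k) ≠ 0 :=
    Polynomial.map_ne_zero hP0
  have h2 : Polynomial.eval₂ ((algebraMap k Ω₁).comp (algebraMap (L₁.comap (algebraMap k Ω₁)) k))
      (algebraMap k Ω₁ a) P = 0 := by
    rw [← Polynomial.hom_eval₂, ← Polynomial.aeval_def, hP, map_zero]
  have h3 : (τ : Ω₁ →+* Ω₁).comp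
      ((algebraMap k Ω₁).comp (algebraMap (L₁.comap (algebraMap k Ω₁)) k)) =
      (algebraMap k Ω₁).comp (algebraMap (L₁.comap (algebraMap k Ω₁)) k) :=
    RingHom.ext fun c => τ.commutes ⟨_, c.2⟩
  have h4 := congrArg (τ : Ω₁ →+* Ω₁) h2
  rw [Polynomial.hom_eval₂, h3, map_zero] at h4
  obtain ⟨b, hb⟩ := (IsAlgClosed.splits _).mem_range_of_isRoot h1 (i := algebraMap k Ω₁)
    (x := τ (algebraMap k Ω₁ a)) (by
      rw [Polynomial.IsRoot.def, Polynomial.map_map, Polynomial.eval_map]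
      exact h4)
  exact ⟨b, hb.symm⟩

theorem FL_ne {O : ValuationSubring Ω₁} {y : Ω₁} (h : VT k O y) (a : k) :
    y ≠ algebraMap k Ω₁ a := fun e => h a (by rw [e])

theorem FL_imm {O : ValuationSubring Ω₁} (hres : Res k O Set.univ) (h : ∀ g, ¬ VT k O g) :
    Imm k O Set.univ := by
  intro g _ hg
  obtain ⟨a, ha⟩ : ∃ a : k, O.valuation g = O.valuation (algebraMap k Ω₁ a) := by
    by_contra hc
    exact h g fun a e => hc ⟨a, e⟩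
  have h0 : O.valuation g ≠ 0 := (Valuation.ne_zero_iff _).2 hg
  have ha0 : algebraMap k Ω₁ a ≠ 0 := fun e => h0 (by rw [ha, e, map_zero])
  obtain ⟨b, hb⟩ := hres (g / algebraMap k Ω₁ a) trivial (by
    rw [← O.valuation_le_one_iff, map_div₀, ← ha, div_self h0])
  refine ⟨a * b, ?_⟩
  have e : g - algebraMap k Ω₁ (a * b) =
      algebraMap k Ω₁ a * (g / algebraMap k Ω₁ a - algebraMap k Ω₁ b) := by
    rw [map_mul]
    field_simp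
  rw [e, map_mul, ← ha]
  exact mul_lt_of_lt_one_right (zero_lt_iff.2 h0) hb

variable [Countable k] {p : ℕ} [Fact p.Prime] (L₁ : Subfield Ω₁) [PerfectField L₁]
  [Algebra.IsAlgebraic L₁ Ω₁]

theorem fl_vt {x : Ω₁} (halg : Algebra.IsAlgebraic k⟮x⟯ Ω₁)
    (hkalg : Algebra.IsAlgebraic (L₁.comap (algebraMap k Ω₁)) k)
    (htame : ∀ τ : Ω₁ ≃ₐ[L₁] Ω₁, (∀ a, τ (algebraMap k Ω₁ a) = algebraMap k Ω₁ a) →
      ∀ g, ∃ m : ℕ, τ^[p ^ m] g = g)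
    {B : PM} (hB : AG p B) (hs : Satur B.M B.O) (j : k →+* B.Ω)
    (hjM : ∀ a, algebraMap k Ω₁ a ∈ L₁ ↔ j a ∈ B.M) (ht : B.t ∈ j.range)
    (O₁ : ValuationSubring Ω₁) (hjO : ∀ a, algebraMap k Ω₁ a ∈ O₁ ↔ j a ∈ B.O) (S₁ : Finset Ω₁)
    (hS₁ : ∀ (τ : Ω₁ ≃ₐ[L₁] Ω₁), ∀ g ∈ S₁, τ g ∈ S₁) {y₀ : Ω₁}
    (hy₀ : y₀ ∈ adjoin k (S₁ : Set Ω₁)) (hvt : VT k O₁ y₀)
    (hinv : ∀ (τ : Ω₁ ≃ₐ[L₁] Ω₁), ∀ g ∈ adjoin k (S₁ : Set Ω₁), τ g ∈ O₁ ↔ g ∈ O₁) :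
    ∃ J : Ω₁ →+* B.Ω, (∀ a, J (algebraMap k Ω₁ a) = j a) ∧ (∀ g ∈ S₁, J g ∈ B.M ↔ g ∈ L₁) ∧
      ∀ g, O₁.valuation g < 1 → B.O.valuation (J g) < 1 := by
  classical
  have := hB.ac
  have := hB.alg
  have := hB.good.perfect
  have := hB.good.charP
  have : CharP k p := RingHom.charP j j.injective p
  obtain ⟨y, hyF, hy, hg⟩ := exists_gen_fin hvt S₁ hy₀ (exch halg (transc_of_ne (FL_ne hvt)))
  obtain ⟨G, _, _, ρ, ψ, hρ, hψ, ho, hker, hcomp⟩ := flb p L₁ B.M (algebraMap k Ω₁) j hjM hkalg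
    htame hB.linesC (insert y S₁)
  have hF : ∀ (τ : Ω₁ ≃ₐ[L₁] Ω₁), ∀ g ∈ adjoin k (S₁ : Set Ω₁), τ g ∈ adjoin k (S₁ : Set Ω₁) ∧
      (τ g ∈ O₁ ↔ g ∈ O₁) := fun τ g hg =>
    ⟨D5_ind (τ : Ω₁ →+* Ω₁) _ (adjoin k (S₁ : Set Ω₁)).toSubfield (fun a => by
      obtain ⟨b, hb⟩ := aut_k L₁ hkalg τ a
      exact hb ▸ (adjoin k (S₁ : Set Ω₁)).algebraMap_mem b)
      (fun t ht => subset_adjoin _ _ (hS₁ τ t ht)) hg, hinv τ g hg⟩
  obtain ⟨a, ha⟩ := ht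
  obtain ⟨J, h1, h2, h3⟩ := flc p L₁ B.M O₁ B.O j (adjoin k (S₁ : Set Ω₁)) hyF
    (exch halg (transc_of_ne (FL_ne hy))) hy hg hF (fun a => (hjO a).symm) hB.hensel
    (fun α c hc h0 h1 => hB.atm α hc h0 h1) hs hB.den
    ⟨a, fun e => hB.good.t0 (by rw [← ha, e, map_zero]), ha ▸ hB.good.t1⟩ ρ ψ hρ hψ ho
    (fun τ hτ => hker τ hτ y (Finset.mem_insert_self _ _))
  refine ⟨J, h1, fun g hg => ⟨fun hJ => ?_, fun hL => ?_⟩, h2⟩
  · obtain ⟨z, hz⟩ := fix_range (M := L₁) (y := g) fun τ' => by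
      obtain ⟨σ, hσ⟩ := hψ (ρ τ')
      obtain ⟨τ, hτ, hc⟩ := hcomp σ
      have e1 : J (τ g) = J g :=
        (h3 σ τ hτ hc g (subset_adjoin _ _ hg)).symm.trans (σ.commutes ⟨_, hJ⟩)
      have e2 := hker (τ⁻¹ * τ') (by rw [map_mul, map_inv, hτ, hσ, inv_mul_cancel]) g
        (Finset.mem_insert_of_mem hg)
      have e3 := congrArg τ e2
      rw [AlgEquiv.mul_apply, AlgEquiv.aut_inv, AlgEquiv.apply_symm_apply] at e3
      exact e3.trans (J.injective e1)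
    exact hz ▸ z.2
  · obtain ⟨z, hz⟩ := fix_range (M := B.M) (y := J g) fun σ => by
      obtain ⟨τ, hτ, hc⟩ := hcomp σ
      exact (h3 σ τ hτ hc g (subset_adjoin _ _ hg)).trans (congrArg J (τ.commutes ⟨_, hL⟩))
    exact hz ▸ z.2

theorem fl (O : ValuationSubring Ω₁) {x : Ω₁} (hxL : x ∈ L₁)
    (hx : ∀ a : k, x ≠ algebraMap k Ω₁ a) (halg : Algebra.IsAlgebraic k⟮x⟯ Ω₁)
    (hkalg : Algebra.IsAlgebraic (L₁.comap (algebraMap k Ω₁)) k)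
    (hO : ∀ τ : Ω₁ ≃ₐ[L₁] Ω₁, VP O O τ)
    (htame : ∀ τ : Ω₁ ≃ₐ[L₁] Ω₁, (∀ a, τ (algebraMap k Ω₁ a) = algebraMap k Ω₁ a) →
      ∀ g, ∃ m : ℕ, τ^[p ^ m] g = g)
    (hres : Res k O Set.univ) (hfr : FR O) {B : PM} (hB : AG p B) (hs : Satur B.M B.O)
    (j : k →+* B.Ω) (hjM : ∀ a, algebraMap k Ω₁ a ∈ L₁ ↔ j a ∈ B.M)
    (hjO : ∀ a, algebraMap k Ω₁ a ∈ O ↔ j a ∈ B.O) (ht : B.t ∈ j.range) (S Φ : Finset Ω₁)
    (hΦ : ∀ g ∈ Φ, O.valuation g < 1) :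
    ∃ J : Ω₁ →+* B.Ω, (∀ a, J (algebraMap k Ω₁ a) = j a) ∧ (∀ g ∈ S, J g ∈ B.M ↔ g ∈ L₁) ∧
      ∀ g ∈ Φ, B.O.valuation (J g) < 1 := by
  classical
  by_cases hv : ∃ g₀, VT k O g₀
  · obtain ⟨g₀, hg₀⟩ := hv
    obtain ⟨S₁, hS, hS₁⟩ := exists_stable_set (L := L₁) (insert g₀ S)
    obtain ⟨J, h1, h2, h3⟩ := fl_vt L₁ halg hkalg htame hB hs j hjM ht O hjO S₁ hS₁
      (subset_adjoin _ _ (hS (Finset.mem_insert_self _ _))) hg₀ fun τ g _ => hO τ g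
    exact ⟨J, h1, fun g hg => h2 g (hS (Finset.mem_insert_of_mem hg)), fun g hg => h3 g (hΦ g hg)⟩
  have := hB.ac
  have := hB.good.charP
  have : CharP k p := RingHom.charP j j.injective p
  have himm := FL_imm hres fun g hg => hv ⟨g, hg⟩
  have v1 := vp_comap O (algebraMap k Ω₁)
  have v2 : VP (O.comap (algebraMap k Ω₁)) B.O j := fun a => (hjO a).symm
  obtain ⟨a, ha⟩ := id ht
  have hcut : ∀ c r : k, r ≠ 0 →
      O.valuation (x - algebraMap k Ω₁ c) = O.valuation (algebraMap k Ω₁ r) →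
      ∃ O₁ : ValuationSubring Ω₁, Near O O₁ x c r := by
    intro c r hr hcr
    obtain ⟨x', -, -, g1, g2, -⟩ := sat2 hs hB.den j
      ⟨a, fun e => hB.good.t0 (by rw [← ha, e, map_zero]), ha ▸ hB.good.t1⟩ (c := 1) one_ne_zero
      (fun a n h => by rwa [map_one, one_pow])
      (fun a => O.valuation (algebraMap k Ω₁ r) < O.valuation (algebraMap k Ω₁ a)) (by simp)
      (fun a b h h' => h.trans_le ((v1.le a b).2 ((v2.le a b).1 h'))) ∅ Set.countable_empty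
    have hne : ∀ a, x' ≠ j a := fun a e => by
      by_cases h : O.valuation (algebraMap k Ω₁ r) < O.valuation (algebraMap k Ω₁ a)
      · exact (g1 a h).ne (by rw [e])
      · exact (g2 a h).ne (by rw [e])
    have hy : ∀ a : k, x - algebraMap k Ω₁ c ≠ algebraMap k Ω₁ a := fun a e =>
      hx (a + c) (by rw [map_add, ← e, sub_add_cancel])
    obtain ⟨φ, p1, p2⟩ := exists_rat hy (exch halg (transc_of_ne hy)) j hne
    have v3 := vp_comap B.O φ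
    refine ⟨B.O.comap φ, fun a => ?_, hr, hcr, ?_, fun a h => ?_⟩
    · rw [← v3, p1, hjO]
    · rw [← v3.lt, p1, p2]
      exact g2 r (lt_irrefl _)
    · rw [← v3.lt, p1, p2]
      exact g1 a h
  obtain ⟨S₁, hS, hS₁⟩ := exists_stable_set (L := L₁) (insert x S)
  obtain ⟨O₁, q1, ⟨c, q2⟩, q3, q4⟩ := deform p O halg hx himm hfr hcut L₁ hxL hO
    (aut_k L₁ hkalg) S₁ Φ hΦ
  obtain ⟨J, h1, h2, h3⟩ := fl_vt L₁ halg hkalg htame hB hs j hjM ht O₁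
    (fun a => (q1 a).trans (hjO a)) S₁ hS₁
    (sub_mem (subset_adjoin _ _ (hS (Finset.mem_insert_self _ _)))
      ((adjoin k (S₁ : Set Ω₁)).algebraMap_mem c)) q2
    fun τ g hg => q4 τ g (adjoin.mono _ _ _ (Set.subset_insert _ _) hg)
  exact ⟨J, h1, fun g hg => h2 g (hS (Finset.mem_insert_of_mem hg)), fun g hg => h3 g (q3 g hg)⟩

end Pool.Agent.PH
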