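import Pool.Agent.Work.MP_db9079_lc.PH.KD
import Mathlib.FieldTheory.PurelyInseparable.Basic
import Mathlib.FieldTheory.Finite.Basic
import Mathlib.RingTheory.Valuation.LocalSubring
import Mathlib.RingTheory.PowerSeries.Trunc

/-!
The standard model: residue field, value group, algebraic part.

PLAN. `k_res`: `x ^ p ^ n = ofPS f`, `a` the constant coefficient, `y = (a.val : KP p)`, `(x - y) ^ p ^ n = ofPS (f - C a)` is divisible by `t`. `k_vmod`: `v a ^ p ^ s = v t ^ m`; choose `j < n`, `q`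
with `m = j * p ^ s + n * q` (`p ^ s` is invertible mod `n`); `b` with `b ^ p ^ s = t ^ q`. `k_den`: `v a ^ P = v t ^ m₁`, `v b ^ P = v t ^ m₂`, `m₂ < m₁`; take `P' = p ^ s' > n + 1`, then a multiple of `n + 1` lies strictly between
`m₂ P'` and `m₁ P'`; `c` a `P P'`-th root of a power of `t`. `k_alg`: Frobenius fixed elements are casts from `ZMod p`, so the coefficients come from power series; with `K = LS p` and the algebra given by `ofL`, `x` is purely
inseparable over `K`, its minpoly is `X ^ p ^ s - C y` (`IsPurelyInseparable.minpoly_eq_X_pow_sub_C`) of degree `≤ d`, so `s ≤ d` and `x ^ p ^ d = ofL y'`; `x ∈ OK` since it is a root of a monic integral polynomial;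
truncate the power series (`PowerSeries.trunc`, `X_pow_dvd_iff`).
-/

namespace Pool.Agent.PH

variable {p : ℕ} [Fact p.Prime]

open Polynomial

theorem K1_root (y : KP p) (s : ℕ) : ∃ b : KP p, b ^ p ^ s = y := by
  obtain ⟨b, hb⟩ := (bijective_iterateFrobenius (KP p) p s).2 y
  exact ⟨b, by rw [← hb, iterateFrobenius_def]⟩

theorem K1_cast (a : ZMod p) : KD_ps p (PowerSeries.C a) ^ p = KD_ps p (PowerSeries.C a) := by
  rw [← map_pow, ← map_pow, ZMod.pow_card]

theorem K1_fix {y : KP p} (hy : y ^ p = y) : y ∈ (KD_ps p).range := by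
  obtain ⟨n, rfl⟩ := (mem_bot_iff_intCast p (KP p)).1
    ((Subfield.mem_bot_iff_pow_eq_self (KP p) p).2 hy)
  exact intCast_mem _ n

theorem K1_int (f : PowerSeries (ZMod p)) : KD_ps p f ∈ OK p :=
  ⟨0, f, by rw [pow_zero, pow_one]; rfl⟩

theorem K1_le {F : PowerSeries (ZMod p)} {m : ℕ} (h : PowerSeries.X ^ m ∣ F) :
    (OK p).valuation (KD_ps p F) ≤ (OK p).valuation (ofPS p PowerSeries.X ^ m) := by
  obtain ⟨G, rfl⟩ := h
  rw [map_mul, map_mul, map_pow, ← KD_ps_eq]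
  exact mul_le_of_le_one_right' (((OK p).valuation_le_one_iff _).2 (K1_int G))

theorem K1_eval (q : (ZMod p)[X]) : KD_ps p (q : PowerSeries (ZMod p)) =
    (q.map ((KD_ps p).comp PowerSeries.C)).eval (ofPS p PowerSeries.X) := by
  induction q using Polynomial.induction_on' with
  | add f g hf hg => rw [Polynomial.coe_add, map_add, hf, hg, Polynomial.map_add, eval_add]
  | monomial i a =>
    rw [← C_mul_X_pow_eq_monomial, Polynomial.coe_mul, Polynomial.coe_pow, Polynomial.coe_C,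
      Polynomial.coe_X, map_mul, map_pow, Polynomial.map_mul, Polynomial.map_pow, map_C, map_X,
      eval_mul, eval_pow, eval_C, eval_X]
    rfl

theorem K1_t0 : 0 < (OK p).valuation (ofPS p PowerSeries.X) := (Valuation.pos_iff _).2 k_t0

theorem k_res (x : KP p) (hx : x ∈ OK p) : ∃ y : KP p, y ^ p = y ∧ (OK p).valuation (x - y) < 1 := by
  obtain ⟨n, f, hf⟩ := hx
  refine ⟨KD_ps p (PowerSeries.C (PowerSeries.constantCoeff f)), K1_cast _, ?_⟩
  have h1 : KD_ps p (PowerSeries.C (PowerSeries.constantCoeff f)) ^ p ^ n =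
      KD_ps p (PowerSeries.C (PowerSeries.constantCoeff f)) := by
    rw [← map_pow, ← map_pow, ZMod.pow_card_pow]
  have h2 : PowerSeries.X ^ 1 ∣ f - PowerSeries.C (PowerSeries.constantCoeff f) := by
    rw [pow_one, PowerSeries.X_dvd_iff]
    simp
  have h3 := K1_le h2
  rw [pow_one, map_sub, ← KD_ps_eq, ← hf, ← h1, ← sub_pow_char_pow, map_pow] at h3
  exact (pow_lt_one_iff_of_nonneg zero_le (KD_pos n)).1 (h3.trans_lt k_t1)

theorem k_vmod {n : ℕ} (hn : n % p ≠ 0) : PV (KPM p) n := by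
  intro a _ ha
  obtain ⟨s, hs⟩ := kv_val ha
  obtain ⟨m, hm⟩ := hs s le_rfl
  have hn0 : 0 < n := Nat.pos_of_ne_zero fun e => hn (by simp [e])
  have hco : Nat.Coprime (p ^ s) n := Nat.Coprime.pow_left s
    ((Nat.Prime.coprime_iff_not_dvd Fact.out).2 fun h => hn (Nat.mod_eq_zero_of_dvd h))
  obtain ⟨u, w, huw⟩ := Nat.isCoprime_iff_coprime.2 hco
  have hnz : (0 : ℤ) < n := by exact_mod_cast hn0
  have h0 := Int.emod_nonneg (m * u) hnz.ne'
  have h1 := Int.emod_lt_of_pos (m * u) hnz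
  have h2 := Int.emod_add_mul_ediv (m * u) n
  obtain ⟨j, hj⟩ := Int.eq_ofNat_of_zero_le h0
  obtain ⟨b, hb⟩ := K1_root (ofPS p PowerSeries.X ^ (m * w + m * u / n * ((p ^ s : ℕ) : ℤ))) s
  have hb0 : b ≠ 0 := by
    rintro rfl
    rw [zero_pow (KD_pos s)] at hb
    exact zpow_ne_zero _ k_t0 hb.symm
  refine ⟨b, trivial, hb0, j, by omega, ?_⟩
  refine (pow_left_inj₀ zero_le zero_le (KD_pos (p := p) s)).1 ?_
  change (OK p).valuation a ^ p ^ s = (OK p).valuation (ofPS p PowerSeries.X ^ j * b ^ n) ^ p ^ s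
  rw [hm, ← map_pow, mul_pow, ← pow_mul, ← pow_mul b, mul_comm n, pow_mul b, hb, ← zpow_natCast,
    ← zpow_natCast, ← zpow_mul, ← zpow_add₀ k_t0, map_zpow₀]
  congr 1
  rw [hj] at h2
  push_cast at huw h2 ⊢
  linear_combination (-m) * huw - (p : ℤ) ^ s * h2

theorem k_den (n : ℕ) : PD (KPM p) n := by
  intro a _ b _ ha hab
  change (OK p).valuation a < (OK p).valuation b at hab
  have hb : b ≠ 0 := by
    rintro rfl
    rw [map_zero] at hab
    exact not_lt_zero hab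
  obtain ⟨s₁, h₁⟩ := kv_val ha
  obtain ⟨s₂, h₂⟩ := kv_val hb
  obtain ⟨m₁, hm₁⟩ := h₁ (s₁ + s₂) (by omega)
  obtain ⟨m₂, hm₂⟩ := h₂ (s₁ + s₂) (by omega)
  have hlt : m₂ < m₁ := by
    rw [← zpow_lt_zpow_iff_right_of_lt_one₀ (K1_t0 (p := p)) k_t1, ← hm₁, ← hm₂]
    exact pow_lt_pow_left₀ hab zero_le (KD_pos _)
  have hP : n + 1 < p ^ (n + 1) := Nat.lt_pow_self (Fact.out : p.Prime).one_lt
  have hP' : ((n : ℤ) + 1) < ((p ^ (n + 1) : ℕ) : ℤ) := by exact_mod_cast hP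
  have hnz : (0 : ℤ) < (n : ℤ) + 1 := by omega
  have h0 := Int.emod_nonneg (m₂ * ((p ^ (n + 1) : ℕ) : ℤ)) hnz.ne'
  have h1 := Int.emod_lt_of_pos (m₂ * ((p ^ (n + 1) : ℕ) : ℤ)) hnz
  have h2 := Int.emod_add_mul_ediv (m₂ * ((p ^ (n + 1) : ℕ) : ℤ)) ((n : ℤ) + 1)
  obtain ⟨c, hc⟩ := K1_root (ofPS p PowerSeries.X ^
    (m₂ * ((p ^ (n + 1) : ℕ) : ℤ) / ((n : ℤ) + 1) + 1)) (s₁ + s₂ + (n + 1))
  have e : ∀ (x : KP p) (m : ℤ), (OK p).valuation x ^ p ^ (s₁ + s₂) =
      (OK p).valuation (ofPS p PowerSeries.X) ^ m → (OK p).valuation x ^ p ^ (s₁ + s₂ + (n + 1)) =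
        (OK p).valuation (ofPS p PowerSeries.X) ^ (m * ((p ^ (n + 1) : ℕ) : ℤ)) := by
    intro x m h
    rw [pow_add, pow_mul, h, zpow_mul, zpow_natCast]
  have ec : (OK p).valuation (c ^ (n + 1)) ^ p ^ (s₁ + s₂ + (n + 1)) =
      (OK p).valuation (ofPS p PowerSeries.X) ^
        ((m₂ * ((p ^ (n + 1) : ℕ) : ℤ) / ((n : ℤ) + 1) + 1) * ((n : ℤ) + 1)) := by
    rw [← map_pow, ← pow_mul, mul_comm (n + 1), pow_mul, hc, ← zpow_natCast, ← zpow_mul,
      map_zpow₀, Nat.cast_add, Nat.cast_one]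
  refine ⟨c, trivial, ?_, ?_⟩
  · change (OK p).valuation a < (OK p).valuation (c ^ (n + 1))
    refine lt_of_pow_lt_pow_left₀ (p ^ (s₁ + s₂ + (n + 1))) zero_le ?_
    rw [e a m₁ hm₁, ec, zpow_lt_zpow_iff_right_of_lt_one₀ (K1_t0 (p := p)) k_t1]
    nlinarith
  · change (OK p).valuation (c ^ (n + 1)) < (OK p).valuation b
    refine lt_of_pow_lt_pow_left₀ (p ^ (s₁ + s₂ + (n + 1))) zero_le ?_
    rw [e b m₂ hm₂, ec, zpow_lt_zpow_iff_right_of_lt_one₀ (K1_t0 (p := p)) k_t1]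
    nlinarith

theorem k_alg (d e m : ℕ) : PE p (KPM p) d e m := by
  intro f hf hc x _ hx
  change (KP p)[X] at f
  change KP p at x
  have hmon : (X ^ d + f : (KP p)[X]).Monic := monic_X_pow_add hf.1
  have hdeg : (X ^ d + f : (KP p)[X]).natDegree = d := by
    refine natDegree_eq_of_degree_eq_some ?_
    rw [degree_add_eq_left_of_degree_lt (by rw [degree_X_pow]; exact hf.1), degree_X_pow]
  have hl : (X ^ d + f : (KP p)[X]) ∈ lifts (KD_ps p) := by
    refine add_mem (pow_mem (X_mem_lifts _) d) ((lifts_iff_coeff_lifts _).2 fun i => ?_)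
    change f.coeff i ∈ (KD_ps p).range
    by_cases hi : i < d
    · obtain ⟨g, hg, e⟩ := hc i hi
      rw [e, eval_eq_sum_range]
      exact sum_mem fun k _ => mul_mem (K1_fix (hg.2 k).2) (pow_mem (RingHom.mem_range.2 ⟨PowerSeries.X, rfl⟩) k)
    · rw [coeff_eq_zero_of_degree_lt (hf.1.trans_le (by exact_mod_cast not_lt.1 hi))]
      exact zero_mem _
  obtain ⟨F, hF, hFd, hFm⟩ := lifts_and_natDegree_eq_and_monic hl hmon
  have hx' : F.eval₂ (KD_ps p) x = 0 := by rw [eval₂_eq_eval_map, hF]; exact hx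
  have hxO : x ∈ OK p := by
    let φ : PowerSeries (ZMod p) →+* OK p := (KD_ps p).codRestrict (OK p) K1_int
    have hint : IsIntegral (OK p) x := ⟨F.map φ, hFm.map φ, by rw [eval₂_map]; exact hx'⟩
    obtain ⟨y, rfl⟩ := IsIntegrallyClosed.isIntegral_iff.1 hint
    exact y.2
  have hy : ∃ y : LS p, x ^ p ^ d = ofL p y := by
    let _ : Algebra (LS p) (KP p) := (ofL p).toAlgebra
    have : IsPurelyInseparable (LS p) (KP p) :=
      (isPurelyInseparable_iff_pow_mem (LS p) p).2 fun z => by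
        obtain ⟨n, g, hg⟩ := KD_pow p z
        exact ⟨n, g, hg.symm⟩
    obtain ⟨s, y, hs⟩ := IsPurelyInseparable.minpoly_eq_X_pow_sub_C (LS p) p x
    have h1 : aeval x (F.map (HahnSeries.ofPowerSeries ℤ (ZMod p))) = 0 := by
      rw [aeval_def, eval₂_map]
      exact hx'
    have h2 := natDegree_le_natDegree (minpoly.min (LS p) x (hFm.map _) h1)
    rw [hs, natDegree_X_pow_sub_C, hFm.natDegree_map, hFd, hdeg] at h2
    have h3 := minpoly.aeval (LS p) x
    rw [hs, map_sub, map_pow, aeval_X, aeval_C, sub_eq_zero] at h3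
    exact ⟨_, KD_up p (ofL p) h3
      ((Nat.lt_pow_self (Fact.out : p.Prime).one_lt).le.trans h2)⟩
  obtain ⟨y, hy⟩ := hy
  have hyO : Valued.v y ≤ 1 := (vp_ofL y).1 (hy ▸ pow_mem hxO _)
  obtain ⟨G, rfl⟩ := (LaurentSeries.val_le_one_iff_eq_coe _ y).1 hyO
  refine ⟨(PowerSeries.trunc m G).map ((KD_ps p).comp PowerSeries.C),
    ⟨degree_map_le.trans_lt (PowerSeries.degree_trunc_lt G m), fun i => ⟨trivial, ?_⟩⟩, ?_⟩
  · rw [coeff_map]
    exact K1_cast _
  · have h1 : PowerSeries.X ^ m ∣ G - ((PowerSeries.trunc m G : (ZMod p)[X]) : PowerSeries (ZMod p)) := by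
      rw [PowerSeries.X_pow_dvd_iff]
      intro i hi
      rw [map_sub, Polynomial.coeff_coe, PowerSeries.coeff_trunc, if_pos hi, sub_self]
    have h2 := K1_le h1
    rw [map_sub, K1_eval] at h2
    rw [hy]
    exact h2

end Pool.Agent.PH
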