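import Pool.Agent.Work.MP_db9079_lc.PH.KD
import Mathlib.RingTheory.Henselian
import Mathlib.RingTheory.AdicCompletion.Completeness

/-!
The standard model: Hensel and almost unramified generators.

PLAN. `k_hen`: twist by `iterateFrobenius` (`k_poly`): the coefficients become power series, `g ∈ (ZMod p)⟦X⟧[X]` monic with `g₀ ∈ (X)`, `g₁` a unit; `IsAdicComplete.henselianRing` for the ideal `span {X}`
(instance in `AdicCompletion.Completeness`) at `a₀ = 0`; take the `p ^ n`-th root of the root. `k_tame`: `F = X ^ d + f`. Choose `l ≠ 0` (a power of `t`, `k_arch`) with `h₁ = scaleRoots F l` integral; from `u₀ F + w₀ F' = 1`, composing with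
`C l⁻¹ * X` and multiplying by a power of `t`, get `u₁ h₁ + w₁ h₁' = C c₁` with integral `u₁, w₁` of the same degrees, `c₁ ≠ 0`. Apply the inverse `r` of `iterateFrobeniusEquiv` to the coefficients: `H = h₁.map r`, `u, w, c'`, with `n` so large that
`v c ^ p ^ n ≤ v c₁`. `H ^ p ^ n = expand (p ^ n) h₁` (`expand_char`, `map_expand_pow_char`), so `H ∣ F.comp (C l⁻¹ * X ^ p ^ n)`; `g = (C l⁻¹ * X ^ p ^ n) %ₘ H`, `H ∣ F.comp g` (`sub_dvd_eval_sub`-like for `comp`); degree of the quotient; treat `d = 0` apart.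
-/

namespace Pool.Agent.PH

open Polynomial

section
variable {K : Type*} [Field K] (O : ValuationSubring K)

theorem K2_den (f : K[X]) : ∃ l : K, l ≠ 0 ∧ l ∈ O ∧ ∀ i, l * f.coeff i ∈ O := by
  induction f using Polynomial.induction_on' with
  | add f g hf hg =>
    obtain ⟨l, h0, h1, h2⟩ := hf
    obtain ⟨m, k0, k1, k2⟩ := hg
    refine ⟨l * m, mul_ne_zero h0 k0, mul_mem h1 k1, fun i => ?_⟩
    rw [coeff_add, show l * m * (f.coeff i + g.coeff i) = m * (l * f.coeff i) + l * (m * g.coeff i)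
      by ring]
    exact add_mem (mul_mem k1 (h2 i)) (mul_mem h1 (k2 i))
  | monomial n a =>
    by_cases h : a ∈ O
    · refine ⟨1, one_ne_zero, one_mem _, fun i => ?_⟩
      rw [one_mul, coeff_monomial]
      split_ifs
      exacts [h, zero_mem _]
    · have h0 : a ≠ 0 := fun h0 => h (h0 ▸ zero_mem _)
      refine ⟨a⁻¹, inv_ne_zero h0, (O.mem_or_inv_mem a).resolve_left h, fun i => ?_⟩
      rw [coeff_monomial]
      split_ifs
      · rw [inv_mul_cancel₀ h0]
        exact one_mem _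
      · rw [mul_zero]
        exact zero_mem _

theorem K2_deg {f : K[X]} {n : ℕ} (h : f.degree < n) (a r : K) :
    (C a * f.comp (C r * X)).degree < n := by
  rw [degree_lt_iff_coeff_zero] at h ⊢
  intro m hm
  rw [coeff_C_mul, comp_C_mul_X_coeff, h m hm, zero_mul, mul_zero]

theorem K2_scale {d e : ℕ} {F u₀ w₀ : K[X]} (hF : F.Monic) (hd : F.natDegree = d)
    (hu : u₀.degree < e) (hw : w₀.degree < e) (h : u₀ * F + w₀ * derivative F = 1) :
    ∃ (l c : K) (H u w : K[X]), l ≠ 0 ∧ c ≠ 0 ∧ H = C (l ^ d) * F.comp (C l⁻¹ * X) ∧ H.Monic ∧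
      H.natDegree = d ∧ (∀ i, H.coeff i ∈ O) ∧ u.degree < e ∧ (∀ i, u.coeff i ∈ O) ∧
      w.degree < e ∧ (∀ i, w.coeff i ∈ O) ∧ u * H + w * derivative H = C c := by
  obtain ⟨l, hl0, hl1, hl2⟩ := K2_den O F
  obtain ⟨m, hm0, hm1, hm2⟩ := K2_den O (u₀.comp (C l⁻¹ * X))
  obtain ⟨m', hm0', hm1', hm2'⟩ := K2_den O (w₀.comp (C l⁻¹ * X))
  have hc : ∀ i, (C (l ^ d) * F.comp (C l⁻¹ * X)).coeff i = l ^ d * (F.coeff i * l⁻¹ ^ i) :=
    fun i => by rw [coeff_C_mul, comp_C_mul_X_coeff]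
  have hcd : (C (l ^ d) * F.comp (C l⁻¹ * X)).coeff d = 1 := by
    rw [hc, ← hd, hF.coeff_natDegree, one_mul, ← mul_pow, mul_inv_cancel₀ hl0, one_pow]
  have hle : (C (l ^ d) * F.comp (C l⁻¹ * X)).natDegree ≤ d := by
    rw [natDegree_le_iff_coeff_eq_zero]
    intro i hi
    rw [hc, coeff_eq_zero_of_natDegree_lt (hd ▸ hi), zero_mul, mul_zero]
  refine ⟨l, m * m' * l ^ d, _, C (m * m') * u₀.comp (C l⁻¹ * X),
    C (m * m' * l) * w₀.comp (C l⁻¹ * X), hl0,
    mul_ne_zero (mul_ne_zero hm0 hm0') (pow_ne_zero _ hl0), rfl,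
    monic_of_natDegree_le_of_coeff_eq_one d hle hcd,
    le_antisymm hle (le_natDegree_of_ne_zero (hcd ▸ one_ne_zero)), fun i => ?_, K2_deg hu _ _,
    fun i => ?_, K2_deg hw _ _, fun i => ?_, ?_⟩
  · rcases lt_trichotomy i d with hi | rfl | hi
    · obtain ⟨k, rfl⟩ := Nat.exists_eq_add_of_lt hi
      rw [hc, show l ^ (i + k + 1) * (F.coeff i * l⁻¹ ^ i) = l ^ k * (l * F.coeff i) by
        rw [inv_pow]; field_simp; ring]
      exact mul_mem (pow_mem hl1 _) (hl2 i)
    · rw [hcd]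
      exact one_mem _
    · rw [coeff_eq_zero_of_natDegree_lt (hle.trans_lt hi)]
      exact zero_mem _
  · rw [coeff_C_mul, mul_comm m, mul_assoc]
    exact mul_mem hm1' (hm2 i)
  · rw [coeff_C_mul, mul_right_comm m, mul_assoc]
    exact mul_mem (mul_mem hm1 hl1) (hm2' i)
  · have h1 := congrArg (fun P => P.comp (C l⁻¹ * X)) h
    simp only [add_comp, mul_comp, one_comp] at h1
    have h2 : (C l : K[X]) * C l⁻¹ = 1 := by rw [← C_mul, mul_inv_cancel₀ hl0, C_1]
    rw [derivative_C_mul, derivative_comp, derivative_C_mul, derivative_X]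
    simp only [C_mul]
    linear_combination (C m * C m' * C (l ^ d)) * h1 +
      (C m * C m' * C (l ^ d) * w₀.comp (C l⁻¹ * X) * (derivative F).comp (C l⁻¹ * X)) * h2

theorem K2_tame (p : ℕ) [Fact p.Prime] [CharP K p] [PerfectRing K p]
    (harch : ∀ a b : K, O.valuation a < 1 → b ≠ 0 → ∃ n : ℕ, O.valuation a ^ n ≤ O.valuation b)
    {d e : ℕ} {F u₀ w₀ : K[X]} (hF : F.Monic) (hd : F.natDegree = d)
    (hu : u₀.degree < e) (hw : w₀.degree < e) (h : u₀ * F + w₀ * derivative F = 1)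
    {c : K} (hc : O.valuation c < 1) :
    ∃ H g q u w : K[X], H.Monic ∧ H.natDegree = d ∧ (∀ i, H.coeff i ∈ O) ∧ g.degree < d ∧
      q.degree < (d * d + 1 : ℕ) ∧ u.degree < e ∧ (∀ i, u.coeff i ∈ O) ∧ w.degree < e ∧
      (∀ i, w.coeff i ∈ O) ∧ ∃ c' : K, c' ≠ 0 ∧ O.valuation c ≤ O.valuation c' ∧
        F.comp g = H * q ∧ u * H + w * derivative H = C c' := by
  obtain ⟨l, c₁, H, u, w, hl, hc₁, hH, hHm, hHd, hHO, hu1, hu2, hw1, hw2, he⟩ :=
    K2_scale O hF hd hu hw h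
  obtain ⟨n, hn⟩ := harch c c₁ hc hc₁
  have hp := (Fact.out : p.Prime)
  have hp0 : p ^ n ≠ 0 := pow_ne_zero _ hp.ne_zero
  obtain ⟨r, hr⟩ : ∃ r : K →+* K, ∀ x, r x ^ p ^ n = x :=
    ⟨(iterateFrobeniusEquiv K p n).symm, fun x => (iterateFrobeniusEquiv K p n).apply_symm_apply x⟩
  have hrO : ∀ x ∈ O, r x ∈ O := fun x hx => by
    rw [← O.valuation_le_one_iff, ← pow_le_one_iff hp0, ← map_pow, hr, O.valuation_le_one_iff]
    exact hx
  have hm : (H.map r).Monic := hHm.map r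
  have hmd : (H.map r).natDegree = d := by rw [natDegree_map, hHd]
  have hpow : H.map r ^ p ^ n = C (l ^ d) * F.comp (C l⁻¹ * X ^ p ^ n) := by
    have h1 : (iterateFrobenius K p n).comp r = RingHom.id K := RingHom.ext hr
    rw [← map_iterateFrobenius_expand, map_expand, Polynomial.map_map, h1, Polynomial.map_id,
      expand_eq_comp_X_pow, hH, mul_comp, C_comp, comp_assoc, mul_comp, C_comp, X_comp]
  have hdvd : H.map r ∣ F.comp (C l⁻¹ * X ^ p ^ n) := by
    have h1 : H.map r ∣ C (l ^ d) * F.comp (C l⁻¹ * X ^ p ^ n) := hpow ▸ dvd_pow_self _ hp0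
    exact (IsUnit.dvd_mul_left (isUnit_C.mpr (pow_ne_zero _ hl).isUnit)).mp h1
  obtain ⟨G, hG⟩ : ∃ G : K[X], G = C l⁻¹ * X ^ p ^ n := ⟨_, rfl⟩
  rw [← hG] at hdvd
  have hg : (G %ₘ H.map r).degree < d := by
    rw [← hmd, ← degree_eq_natDegree hm.ne_zero]
    exact degree_modByMonic_lt _ hm
  have hdvd' : H.map r ∣ F.comp (G %ₘ H.map r) := by
    have h1 : H.map r ∣ G - G %ₘ H.map r :=
      ⟨G /ₘ H.map r, by rw [sub_eq_iff_eq_add', modByMonic_add_div]⟩
    have h2 := h1.trans (sub_dvd_eval_sub G (G %ₘ H.map r) (F.map C))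
    rw [eval_map, eval_map] at h2
    exact (dvd_sub_right hdvd).mp h2
  obtain ⟨q, hq⟩ := hdvd'
  refine ⟨H.map r, G %ₘ H.map r, q, u.map r, w.map r, hm, hmd, fun i => ?_, hg, ?_,
    degree_map_le.trans_lt hu1, fun i => ?_, degree_map_le.trans_lt hw1, fun i => ?_, r c₁,
    (map_ne_zero r).mpr hc₁, ?_, hq, ?_⟩
  · rw [coeff_map]
    exact hrO _ (hHO i)
  · by_cases h0 : q = 0
    · rw [h0, degree_zero]
      exact WithBot.bot_lt_coe _
    · have h1 : (G %ₘ H.map r).natDegree ≤ d := natDegree_le_iff_degree_le.mpr hg.le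
      have h2 : (F.comp (G %ₘ H.map r)).natDegree ≤ d * d :=
        natDegree_comp_le.trans (Nat.mul_le_mul hd.le h1)
      rw [hq, hm.natDegree_mul' h0] at h2
      rw [degree_eq_natDegree h0]
      exact_mod_cast (by omega : q.natDegree < d * d + 1)
  · rw [coeff_map]
    exact hrO _ (hu2 i)
  · rw [coeff_map]
    exact hrO _ (hw2 i)
  · rw [← pow_le_pow_iff_left₀ zero_le zero_le hp0, ← map_pow _ (r c₁), hr]
    exact (pow_le_pow_of_le_one zero_le hc.le (Nat.lt_pow_self hp.one_lt).le).trans hn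
  · rw [derivative_map, ← Polynomial.map_mul, ← Polynomial.map_mul, ← Polynomial.map_add, he, map_C]

end

variable {p : ℕ} [Fact p.Prime]

/-- Power series inside the standard model. -/
noncomputable def K2_phi (p : ℕ) [Fact p.Prime] : PowerSeries (ZMod p) →+* KP p :=
  (ofL p).comp (HahnSeries.ofPowerSeries ℤ (ZMod p))

theorem K2_le (a : PowerSeries (ZMod p)) : (OK p).valuation (K2_phi p a) ≤ 1 :=
  ((OK p).valuation_le_one_iff _).mpr ((mem_OK p _).mpr ⟨0, a, by rw [pow_zero, pow_one]; rfl⟩)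

theorem K2_lt {a : PowerSeries (ZMod p)} (h : PowerSeries.X ∣ a) :
    (OK p).valuation (K2_phi p a) < 1 := by
  obtain ⟨b, rfl⟩ := h
  rw [map_mul, map_mul]
  exact (mul_le_of_le_one_right' (K2_le b)).trans_lt k_t1

theorem K2_unit {a : PowerSeries (ZMod p)} (h : ¬ PowerSeries.X ∣ a) : IsUnit a := by
  rw [PowerSeries.X_dvd_iff] at h
  exact PowerSeries.isUnit_iff_constantCoeff.mpr (Ne.isUnit h)

theorem K2_dvd {a : PowerSeries (ZMod p)} (h : (OK p).valuation (K2_phi p a) < 1) :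
    PowerSeries.X ∣ a := by
  by_contra h1
  obtain ⟨b, hb⟩ := (K2_unit h1).exists_right_inv
  have h2 : (OK p).valuation (K2_phi p (a * b)) < 1 := by
    rw [map_mul, map_mul]
    exact (mul_le_of_le_one_right' (K2_le b)).trans_lt h
  rw [hb, map_one, map_one] at h2
  exact lt_irrefl _ h2

theorem k_hen (d : ℕ) : PHe (KPM p) d := by
  intro f hf h0 h1
  have hp := (Fact.out : p.Prime)
  obtain ⟨F, hF⟩ : ∃ F : (KP p)[X], F = X ^ (d + 2) + f := ⟨_, rfl⟩
  have hFm : F.Monic := hF ▸ monic_X_pow_add hf.1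
  have hFO : ∀ i, F.coeff i ∈ OK p := fun i => by
    rw [hF, coeff_add, coeff_X_pow]
    refine add_mem ?_ (hf.2 i).2
    split_ifs
    exacts [one_mem _, zero_mem _]
  have hF0 : F.coeff 0 = f.coeff 0 := by
    rw [hF, coeff_add, coeff_X_pow, if_neg (by omega), zero_add]
  have hF1 : F.coeff 1 = f.coeff 1 := by
    rw [hF, coeff_add, coeff_X_pow, if_neg (by omega), zero_add]
  obtain ⟨n, hn⟩ := k_poly F
  obtain ⟨g, hg⟩ := hn n le_rfl
  have hp0 : p ^ n ≠ 0 := pow_ne_zero _ hp.ne_zero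
  have hl : F.map (iterateFrobenius (KP p) p n) ∈ lifts (K2_phi p) := by
    rw [lifts_iff_coeff_lifts]
    intro i
    have e : ofL p (g.coeff i) = F.coeff i ^ p ^ n := by
      rw [← coeff_map, ← hg, coeff_map, iterateFrobenius_def]
    have h2 : g.coeff i ∈ (Valued.v : Valuation (LS p) _).valuationSubring :=
      (vp_ofL _).mp (e ▸ pow_mem (hFO i) _)
    obtain ⟨a, ha⟩ := (LaurentSeries.val_le_one_iff_eq_coe _ _).mp h2
    refine ⟨a, ?_⟩
    rw [hg, coeff_map, ← ha]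
    rfl
  obtain ⟨G, hG, -, hGm⟩ := lifts_and_degree_eq_and_monic hl (hFm.map _)
  have hc : ∀ i, K2_phi p (G.coeff i) = F.coeff i ^ p ^ n := fun i => by
    rw [← coeff_map, hG, coeff_map, iterateFrobenius_def]
  obtain ⟨a, ha, ha'⟩ := HenselianRing.is_henselian
    (I := Ideal.span {(PowerSeries.X : PowerSeries (ZMod p))}) G hGm 0 (by
      rw [← coeff_zero_eq_eval_zero, Ideal.mem_span_singleton]
      apply K2_dvd
      rw [hc, map_pow, hF0]
      exact pow_lt_one₀ zero_le h0 hp0) (by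
      rw [← coeff_zero_eq_eval_zero, coeff_derivative]
      simp only [zero_add, Nat.cast_zero, mul_one]
      refine IsUnit.map _ (K2_unit fun h => ?_)
      have h2 := K2_lt h
      rw [hc, map_pow, hF1, h1, one_pow] at h2
      exact lt_irrefl _ h2)
  rw [sub_zero, Ideal.mem_span_singleton] at ha'
  obtain ⟨x, hx⟩ := (iterateFrobeniusEquiv (KP p) p n).surjective (K2_phi p a)
  have hx' : iterateFrobenius (KP p) p n x = K2_phi p a := hx
  refine ⟨x, Subfield.mem_top _, ?_, ?_⟩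
  · have h2 := K2_lt ha'
    rw [← hx', iterateFrobenius_def, map_pow] at h2
    exact lt_of_pow_lt_pow_left₀ (p ^ n) zero_le (by rwa [one_pow])
  · rw [← hF]
    apply (iterateFrobenius (KP p) p n).injective
    rw [map_zero, ← eval₂_at_apply, ← eval_map, ← hG, hx', eval_map, eval₂_at_apply, ha.eq_zero,
      map_zero]

theorem k_tame (d e : ℕ) : PB (KPM p) d e := by
  intro f u₀ w₀ hf hu hw h c _ _ hc
  have hFd : (X ^ d + f).natDegree = d := by
    rw [natDegree_add_eq_left_of_degree_lt (by rw [degree_X_pow]; exact hf.1), natDegree_X_pow]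
  obtain ⟨H, g, q, u, w, hm, hd, hO, hg, hq, hu1, hu2, hw1, hw2, c', h1, h2, h3, h4⟩ :=
    K2_tame (OK p) p (fun _ _ => k_arch) (monic_X_pow_add hf.1) hFd hu.1 hw.1 h hc
  have e : X ^ d + (H - X ^ d) = H := add_sub_cancel _ _
  refine ⟨H - X ^ d, g, q, u, w, ⟨?_, fun i => ⟨Subfield.mem_top _, ?_⟩⟩,
    ⟨hg, fun _ => Subfield.mem_top _⟩, ⟨hq, fun _ => Subfield.mem_top _⟩,
    ⟨hu1, fun i => ⟨Subfield.mem_top _, hu2 i⟩⟩, ⟨hw1, fun i => ⟨Subfield.mem_top _, hw2 i⟩⟩,
    c', Subfield.mem_top _, h1, h2, by rw [e]; exact h3, by rw [e]; exact h4⟩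
  · have e1 : H.degree = d := by rw [degree_eq_natDegree hm.ne_zero, hd]
    rw [← e1]
    exact degree_sub_lt_left (by rw [e1, degree_X_pow]) hm.ne_zero
      (by rw [hm.leadingCoeff, leadingCoeff_X_pow])
  · rw [coeff_sub, coeff_X_pow]
    refine sub_mem (hO i) ?_
    split_ifs
    exacts [one_mem _, zero_mem _]

end Pool.Agent.PH
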