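import Pool.Agent.Work.MP_db9079_lc.PH.KD
import Pool.Agent.Work.MP_db9079_lc.PH.V4
import Mathlib.RingTheory.Trace.Basic
import Mathlib.FieldTheory.PurelyInseparable.PerfectClosure

/-!
The standard model: lines are not contained in the image of the Artin-Schreier map.

PLAN. `ls_lines`: `K = LS p`, `E / K` finite separable, basis `e`, the `e m ^ p` form a basis `b` (`LinearIndependent.map_pow_expChar_pow_of_isSeparable`, `Basis.mapPowExpCharPowOfIsSeparable`); the coordinates of `y ^ p` in `b` are `p`-th powers.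
Pick `m` with `z_m = b.repr z m ≠ 0`, of order `o`. For `c = X ^ (-N)` with `p ∤ o - N`: `y ^ p - y = c z` gives `u ^ p - y_m = c z_m`; the coefficient of `u ^ p` at `o - N` vanishes, so `Valued.v y_m ≥ exp (N - o)`.
On the other hand `y_m = trace (y * b*_m)` (dual basis for `Algebra.traceForm`), a sum of `σ y * σ b*_m` over the embeddings `σ` into `Ω = AlgebraicClosure K` (`trace_eq_sum_embeddings`); extend the valuation ring to `Ω` (`exists_ext_val`); from
`(σ y) ^ p - σ y = c σ z` get `v (σ y) ^ p ≤ max 1 (v (c σ z))`; all `σ z`, `σ b*_m` are bounded by a fixed power `v (X ^ (-C))`; so `v y_m ^ p ≤ v (X ^ (-(N + C')))`, false for large `N`.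
`k_lines`: `F = X ^ (d + 1) + f`; take a monic irreducible factor `F₁` (separable, the field is perfect) and a root `α` in `Ω = AlgebraicClosure (KP p)`; `z(α) ≠ 0`. Twist by `p ^ n`: `α' = α ^ p ^ n` is a root of a separable polynomial over `K`
(`k_poly`), `z₀ = z(α) ^ p ^ n ∈ E = K⟮α'⟯`; `c₀` from `ls_lines`, `c ^ p ^ n = ofL c₀`. If the identity holds, `Y = y(α) ^ p ^ n` has `Y ^ p - Y = c₀ z₀`, `Y ^ p ^ s ∈ E` for some `s`, and `Y ^ p ^ s - Y ∈ E` by induction; so `Y ∈ E`.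
DONE differently for `ls_lines`: coordinates only (`K4_lines`), the matrix of `e` in the basis `b` is bounded; `Ω` is the algebraic closure of `LS p`.
-/

namespace Pool.Agent.PH

variable {p : ℕ} [Fact p.Prime]

open Polynomial WithZero IntermediateField

theorem K4_bd {ι : Type*} [Finite ι] (f : ι → WithZero (Multiplicative ℤ)) :
    ∃ a : ℕ, ∀ a' : ℕ, a ≤ a' → ∀ i, f i ≤ exp (a' : ℤ) := by
  obtain ⟨a, ha⟩ := (Set.finite_range fun i => (log (f i)).toNat).bddAbove
  refine ⟨a, fun a' h i => ?_⟩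
  by_cases h0 : f i = 0
  · rw [h0]
    exact zero_le
  · have h1 : (log (f i)).toNat ≤ a := ha ⟨i, rfl⟩
    rw [← log_le_iff_le_exp h0]
    omega

theorem K4_lines {K E : Type*} [Field K] [CharP K p] [Field E] [Algebra K E]
    [FiniteDimensional K E] [Algebra.IsSeparable K E]
    (v : Valuation K (WithZero (Multiplicative ℤ))) (hv : Function.Surjective v) {z : E}
    (hz : z ≠ 0) : ∃ c : K, ∀ y : E, y ^ p - y ≠ algebraMap K E c * z := by
  have : CharP E p := charP_of_injective_algebraMap (algebraMap K E).injective p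
  have hp : (2 : ℤ) ≤ p := by exact_mod_cast (Fact.out : p.Prime).two_le
  let e := Module.finBasis K E
  let b := e.mapPowExpCharPowOfIsSeparable p 1
  have hb : ∀ j, b j = e j ^ p := fun j => by
    simp [b, Module.Basis.mapPowExpCharPowOfIsSeparable]
  obtain ⟨m, hm⟩ : ∃ m, b.repr z m ≠ 0 := by
    by_contra h
    push Not at h
    exact hz (b.repr.map_eq_zero_iff.1 (Finsupp.ext h))
  obtain ⟨a1, h1⟩ := K4_bd fun q : _ × _ => v (b.repr (e q.1) q.2)
  obtain ⟨a2, h2⟩ := K4_bd fun i => v (b.repr z i / b.repr z m)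
  obtain ⟨a, ha1, ha2⟩ : ∃ a : ℕ, a1 ≤ a ∧ a2 ≤ a := ⟨max a1 a2, le_max_left _ _, le_max_right _ _⟩
  obtain ⟨N, hN⟩ : ∃ N : ℤ, N = p * (2 * a + 2) - 1 := ⟨_, rfl⟩
  have hN1 : 4 * (a : ℤ) + 3 ≤ N := by nlinarith [Int.natCast_nonneg a]
  obtain ⟨t, ht⟩ := hv (exp N)
  refine ⟨t / b.repr z m, fun y hy => ?_⟩
  have e1 : ∀ i, b.repr (y ^ p) i = e.repr y i ^ p := by
    intro i
    have : y ^ p = ∑ j, (e.repr y j ^ p) • b j := by
      conv_lhs => rw [← e.sum_repr y, sum_pow_char]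
      simp only [_root_.smul_pow, hb]
    rw [this, b.repr_sum_self]
  have e2 : ∀ i, e.repr y i ^ p = b.repr y i + t * (b.repr z i / b.repr z m) := by
    intro i
    rw [← e1, sub_eq_iff_eq_add'.1 hy, ← Algebra.smul_def, map_add, map_smul, Finsupp.add_apply,
      Finsupp.smul_apply, smul_eq_mul]
    ring
  have : Nonempty (Fin (Module.finrank K E)) := ⟨m⟩
  obtain ⟨j, hj⟩ := Finite.exists_max fun j => v (e.repr y j)
  have e3 : ∀ i, v (b.repr y i) ≤ v (e.repr y j) * exp (a : ℤ) := by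
    intro i
    conv_lhs => rw [← e.sum_repr y, map_sum, Finsupp.finsetSum_apply]
    refine v.map_sum_le fun l _ => ?_
    rw [map_smul, Finsupp.smul_apply, smul_eq_mul, map_mul]
    exact mul_le_mul' (hj l) (h1 a ha1 (l, i))
  have e4 : exp N ≤ v (b.repr y m) := by
    by_contra h
    have h3 := congrArg v (e2 m)
    rw [div_self hm, mul_one, v.map_add_eq_of_lt_right (ht ▸ not_le.1 h), ht, map_pow] at h3
    have h4 := congrArg log h3
    rw [log_pow, log_exp, nsmul_eq_mul, hN] at h4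
    have h5 : (p : ℤ) ∣ 1 := ⟨2 * a + 2 - log (v (e.repr y m)), by linear_combination h4⟩
    have := Int.le_of_dvd one_pos h5
    omega
  have e5 : v (e.repr y j) ≠ 0 := by
    intro h
    have := e4.trans (e3 m)
    rw [h, zero_mul] at this
    exact exp_ne_zero (le_zero_iff.1 this)
  obtain ⟨μ, hμ⟩ : ∃ μ : ℤ, v (e.repr y j) = exp μ := ⟨_, (exp_log e5).symm⟩
  have e6 := e4.trans (e3 m)
  have e7 := e3 j
  have e8 : v (t * (b.repr z j / b.repr z m)) ≤ exp (N + a) := by
    rw [map_mul, ht, exp_add]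
    exact mul_le_mul' le_rfl (h2 a ha2 j)
  have e9 := v.map_add (b.repr y j) (t * (b.repr z j / b.repr z m))
  rw [hμ, ← exp_add] at e6 e7
  rw [← e2, map_pow, hμ, ← exp_nsmul, nsmul_eq_mul] at e9
  rw [exp_le_exp] at e6
  have e10 : 2 * μ ≤ p * μ := mul_le_mul_of_nonneg_right hp (by omega)
  rcases le_max_iff.1 e9 with h | h
  · have := exp_le_exp.1 (h.trans e7)
    omega
  · have := exp_le_exp.1 (h.trans e8)
    omega

theorem ls_lines {E : Type*} [Field E] [Algebra (LS p) E] [FiniteDimensional (LS p) E]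
    [Algebra.IsSeparable (LS p) E] {z : E} (hz : z ≠ 0) :
    ∃ c : LS p, ∀ y : E, y ^ p - y ≠ algebraMap (LS p) E c * z :=
  K4_lines Valued.v (LaurentSeries.valuation_surjective (ZMod p)) hz

omit [Fact p.Prime] in
theorem K4_up {K Ω : Type*} [Field K] [Field Ω] [Algebra K Ω] (E : IntermediateField K Ω) {w : Ω}
    {s : ℕ} (h : w ^ p ^ s ∈ E) (n : ℕ) : w ^ p ^ (s + n) ∈ E := by
  rw [pow_add, pow_mul]
  exact pow_mem h _

theorem K4_down {K Ω : Type*} [Field K] [Field Ω] [Algebra K Ω] [CharP Ω p]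
    (E : IntermediateField K Ω) {Y w : Ω} (hw : w ∈ E) (h : Y ^ p = Y + w) (s : ℕ)
    (hs : Y ^ p ^ s ∈ E) : Y ∈ E := by
  induction s with
  | zero => simpa using hs
  | succ s ih =>
    rw [pow_succ', pow_mul, h, add_pow_char_pow] at hs
    exact ih (by simpa using sub_mem hs (pow_mem hw (p ^ s)))

theorem k_lines (d : ℕ) : PC p (KPM p) d := by
  intro f z z' q' hf _ _ _ hzz
  let Ω := AlgebraicClosure (LS p)
  obtain ⟨φ, hφ⟩ : ∃ φ : KP p →+* Ω, ∀ g, φ (ofL p g) = algebraMap (LS p) Ω g :=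
    ⟨PerfectClosure.lift (LS p) p Ω (algebraMap (LS p) Ω), fun _ => rfl⟩
  have hdeg : (X ^ (d + 1) + f : (KP p)[X]).degree ≠ 0 := by
    rw [degree_add_eq_left_of_degree_lt (by rw [degree_X_pow]; exact hf.1), degree_X_pow]
    exact_mod_cast Nat.succ_ne_zero d
  obtain ⟨α, hα⟩ := IsAlgClosed.exists_eval₂_eq_zero φ _ hdeg
  let ev : (KP p)[X] →+* Ω := eval₂RingHom φ α
  have hα' : ev (X ^ (d + 1) + f) = 0 := hα
  obtain ⟨n, hn⟩ := IsPurelyInseparable.pow_mem (separableClosure (LS p) Ω) p α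
  have hsep : IsSeparable (LS p) (α ^ p ^ n) := by
    obtain ⟨x, hx⟩ := hn
    rw [← hx]
    exact x.2
  have := (isSeparable_adjoin_simple_iff_isSeparable (LS p) Ω).2 hsep
  have := adjoin.finiteDimensional hsep.isIntegral
  set E := (LS p)⟮α ^ p ^ n⟯ with hE
  have key : ∀ y : (KP p)[X], ∃ s, ev y ^ p ^ s ∈ E := by
    intro y
    induction y using Polynomial.induction_on' with
    | add y y' h h' =>
      obtain ⟨s, hs⟩ := h
      obtain ⟨s', hs'⟩ := h'
      refine ⟨s + s', ?_⟩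
      rw [map_add, add_pow_char_pow]
      exact add_mem (K4_up E hs _) (add_comm s s' ▸ K4_up E hs' _)
    | monomial i a =>
      obtain ⟨s, hs⟩ := k_pow a
      obtain ⟨g, hg⟩ := hs (n + s) (by omega)
      refine ⟨n + s, ?_⟩
      have e : ev (monomial i a) = φ a * α ^ i := eval₂_monomial ..
      rw [e, mul_pow, ← map_pow, hg, hφ, ← pow_mul, mul_comm i, pow_mul]
      exact mul_mem (E.algebraMap_mem g)
        (pow_mem (K4_up E (mem_adjoin_simple_self (LS p) _) s) i)
  obtain ⟨s, hs⟩ := key z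
  have hz0 : ev z ≠ 0 := by
    intro h
    have := congrArg ev hzz
    rw [map_mul, map_add, map_mul, hα', h, map_one] at this
    simp at this
  obtain ⟨c₀, hc₀⟩ := ls_lines (p := p) (E := E) (z := ⟨_, hs⟩)
    fun h => pow_ne_zero _ hz0 (congrArg Subtype.val h)
  obtain ⟨c, hc⟩ := (bijective_iterateFrobenius (KP p) p s).2 (ofL p c₀)
  rw [iterateFrobenius_def] at hc
  refine ⟨c, Subfield.mem_top _, fun y q _ _ h => ?_⟩
  have h1 := congrArg ev h
  have e : ev (C c) = φ c := eval₂_C ..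
  rw [map_pow, map_add, map_add, map_mul, map_mul, hα', zero_mul, add_zero, e] at h1
  have h2 : (ev y ^ p ^ s) ^ p = ev y ^ p ^ s + algebraMap (LS p) Ω c₀ * ev z ^ p ^ s := by
    rw [← pow_mul, mul_comm, pow_mul, h1, add_pow_char_pow, mul_pow, ← map_pow φ, hc, hφ]
  obtain ⟨s', hs'⟩ := key y
  have h3 : ev y ^ p ^ s ∈ E := by
    refine K4_down E (mul_mem (E.algebraMap_mem c₀) hs) h2 s' ?_
    rw [← pow_mul, ← pow_add, add_comm]
    exact K4_up E hs' s
  exact hc₀ ⟨_, h3⟩ (Subtype.ext (sub_eq_iff_eq_add'.2 h2))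

end Pool.Agent.PH
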