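import Pool.Agent.Work.MP_db9079_lc.PH.KD
import Pool.Agent.Work.MP_db9079_lc.RCm

/-!
Translation of the codes of sentences.

PLAN. Imitate `RLang.lean` and `RMain.lean` in the parent folder (do not import them). Structural translations `trT : Lang.Term (Empty ⊕ Fin k) → ℕ` (variable `i ↦ tv i`), `trF : Lang.BoundedFormula Empty k → ℕ`
(`falsum ↦ ff`, `equal ↦ fe`, `rel ↦ fr (trT (ts 0)) t1`, `imp ↦ fi`, `all` at level `k ↦ fa k`), correct by induction (`Function.update`, `Fin.snoc`; `valuation_le_one_iff`, `mem_OK`). Computation on codes: a term code is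
`2 * Nat.pair k (encode (listEncode t))`, the symbol codes are `2 * (2 * i + 1)` for variables and `2 * m + 1` for `fnCode = m`; fold a stack from the right (`ci_foldr`). For formulas the list of codes is
`[4 * (k + 2) + 3]`, `[tcode, tcode]`, `[1, 4 * k + 3, tcode]`, `3 :: ..`, `7 :: ..`; compute the stacks of pairs (level, formula) for all suffixes (`ci_listRec`), as `memo` in `RMain`.
-/

namespace Pool.Agent.PH

open FirstOrder Pool.Agent.Lib.RelComp Pool.Agent.Work.MP_db9079_lc

/-- Translation of terms. -/
def TR_T {k : ℕ} : Lang.Term (Empty ⊕ Fin k) → ℕ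
  | .var (Sum.inl e) => e.elim
  | .var (Sum.inr i) => tv i
  | .func .zero _ => tz
  | .func .one _ => t1
  | .func .t _ => tt
  | .func .neg ts => tn (TR_T (ts 0))
  | .func .add ts => ta (TR_T (ts 0)) (TR_T (ts 1))
  | .func .mul ts => tm (TR_T (ts 0)) (TR_T (ts 1))

/-- Translation of formulas. -/
def TR_F : ∀ {k : ℕ}, Lang.BoundedFormula Empty k → ℕ
  | _, .falsum => ff
  | _, .equal t₁ t₂ => fe (TR_T t₁) (TR_T t₂)
  | _, .rel .int ts => fr (TR_T (ts 0)) t1
  | _, .imp φ ψ => fi (TR_F φ) (TR_F ψ)
  | k, .all φ => fa k (TR_F φ)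

section
variable {p : ℕ} [Fact p.Prime]

theorem TR_ev {k : ℕ} {e : ℕ → KP p} {v : Empty → KP p} {xs : Fin k → KP p}
    (h : ∀ i : Fin k, e i = xs i) (t : Lang.Term (Empty ⊕ Fin k)) :
    (KPM p).str.ev e (TR_T t) = t.realize (Sum.elim v xs) := by
  induction t with
  | var x =>
    rcases x with x | i
    · exact x.elim
    · rw [TR_T, ev_tv, h i]; rfl
  | func f ts ih =>
    cases f with
    | zero => rw [TR_T, ev_tz]; rfl
    | one => rw [TR_T, ev_t1]; rfl
    | t => rw [TR_T, ev_tt]; rfl
    | neg => rw [TR_T, ev_tn, ih 0]; rfl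
    | add => rw [TR_T, ev_ta, ih 0, ih 1]; rfl
    | mul => rw [TR_T, ev_tm, ih 0, ih 1]; rfl

theorem TR_sat {k : ℕ} (φ : Lang.BoundedFormula Empty k) (e : ℕ → KP p) (v : Empty → KP p)
    (xs : Fin k → KP p) (h : ∀ i : Fin k, e i = xs i) :
    (KPM p).str.Sat (TR_F φ) e ↔ φ.Realize v xs := by
  induction φ generalizing e with
  | falsum => rw [TR_F, sat_ff]; exact Iff.rfl
  | equal t₁ t₂ => rw [TR_F, sat_fe, TR_ev (v := v) h, TR_ev (v := v) h]; exact Iff.rfl
  | rel R ts =>
    cases R with
    | int =>
      rw [TR_F, sat_fr, TR_ev (v := v) h, ev_t1]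
      change (OK p).valuation _ ≤ (OK p).valuation 1 ↔ _
      rw [map_one, ValuationSubring.valuation_le_one_iff, mem_OK]
      exact Iff.rfl
  | imp φ ψ ih1 ih2 => rw [TR_F, sat_fi]; exact imp_congr (ih1 e xs h) (ih2 e xs h)
  | @all k φ ih =>
    rw [TR_F, sat_fa]
    refine forall_congr' fun x => ?_
    have hx : (KPM p).str.D x := Subfield.mem_top x
    rw [imp_iff_right hx]
    refine ih _ (Fin.snoc xs x) fun i => ?_
    refine Fin.lastCases ?_ (fun i => ?_) i
    · simp
    · have := i.2
      rw [Function.update_of_ne (by simp; omega), Fin.snoc_castSucc, ← h]; rfl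

end

theorem TR_encode_map {α : Type} [Encodable α] (l : List α) :
    Encodable.encode (l.map Encodable.encode) = Encodable.encode l := by
  induction l with
  | nil => rfl
  | cons a l ih =>
    rw [List.map_cons, Encodable.encode_list_cons, Encodable.encode_list_cons, ih]; rfl

theorem TR_decode {α : Type} [Encodable α] (l : List α) :
    Encodable.decode (α := List ℕ) (Encodable.encode l) = some (l.map Encodable.encode) := by
  rw [← TR_encode_map]
  exact Encodable.encodek _

/-- The list of the codes of the symbols of a formula. -/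
def TR_codes {k : ℕ} (φ : Lang.BoundedFormula Empty k) : List ℕ :=
  φ.listEncode.map Encodable.encode

/-- The code of a term inside a formula. -/
def TR_tcode {k : ℕ} (t : Lang.Term (Empty ⊕ Fin k)) : ℕ :=
  2 * Nat.pair k (Encodable.encode t)

/-- One step of the evaluation of the symbols of a term. -/
def TR_tstep (c : ℕ) (s : List ℕ) : List ℕ :=
  if c % 2 = 0 then tv (c / 4) :: s
  else if c = 1 then tz :: s
  else if c = 3 then t1 :: s
  else if c = 5 then tt :: s
  else if c = 7 then tn (s.getD 0 0) :: s.drop 1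
  else if c = 9 then ta (s.getD 0 0) (s.getD 1 0) :: s.drop 2
  else tm (s.getD 0 0) (s.getD 1 0) :: s.drop 2

theorem TR_tstep_var (i : ℕ) (s : List ℕ) : TR_tstep (2 * (2 * i + 1)) s = tv i :: s := by
  rw [TR_tstep, if_pos (by omega), show 2 * (2 * i + 1) / 4 = i by omega]

theorem TR_fold {k : ℕ} (t : Lang.Term (Empty ⊕ Fin k)) (s : List ℕ) :
    (t.listEncode.map Encodable.encode).foldr TR_tstep s = TR_T t :: s := by
  induction t generalizing s with
  | var v =>
    rcases v with e | i
    · exact e.elim
    · exact TR_tstep_var i s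
  | func f ts ih =>
    cases f with
    | zero => rfl
    | one =>
      have : (Language.Term.func (L := Lang) Fn.one ts).listEncode.map Encodable.encode = [3] := by
        simp only [Language.Term.listEncode, List.map_cons]
        congr 1
      rw [this]; rfl
    | t =>
      have : (Language.Term.func (L := Lang) Fn.t ts).listEncode.map Encodable.encode = [5] := by
        simp only [Language.Term.listEncode, List.map_cons]
        congr 1
      rw [this]; rfl
    | neg =>
      have : (Language.Term.func (L := Lang) Fn.neg ts).listEncode.map Encodable.encode =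
          7 :: (ts 0).listEncode.map Encodable.encode := by
        simp only [Language.Term.listEncode, List.map_cons]
        congr 1
        simp [List.finRange_succ]
      rw [this, List.foldr_cons, ih 0]; rfl
    | add =>
      have : (Language.Term.func (L := Lang) Fn.add ts).listEncode.map Encodable.encode =
          9 :: ((ts 0).listEncode.map Encodable.encode ++
            (ts 1).listEncode.map Encodable.encode) := by
        simp only [Language.Term.listEncode, List.map_cons]
        congr 1
        simp [List.finRange_succ]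
      rw [this, List.foldr_cons, List.foldr_append, ih 1, ih 0]; rfl
    | mul =>
      have : (Language.Term.func (L := Lang) Fn.mul ts).listEncode.map Encodable.encode =
          11 :: ((ts 0).listEncode.map Encodable.encode ++
            (ts 1).listEncode.map Encodable.encode) := by
        simp only [Language.Term.listEncode, List.map_cons]
        congr 1
        simp [List.finRange_succ]
      rw [this, List.foldr_cons, List.foldr_append, ih 1, ih 0]; rfl

/-- Translation of the code of a term. -/
def TR_cT (c : ℕ) : ℕ :=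
  (((Encodable.decode (α := List ℕ) (Nat.unpair (c / 2)).2).getD []).foldr TR_tstep []).getD 0 0

theorem TR_cT_tcode {k : ℕ} (t : Lang.Term (Empty ⊕ Fin k)) : TR_cT (TR_tcode t) = TR_T t := by
  have h : Encodable.decode (α := List ℕ) (Encodable.encode t) =
      some (t.listEncode.map Encodable.encode) := TR_decode t.listEncode
  rw [TR_cT, TR_tcode, Nat.mul_div_cancel_left _ two_pos, Nat.unpair_pair, h, Option.getD_some,
    TR_fold, List.getD_cons_zero]

theorem TR_codes_falsum (k : ℕ) :
    TR_codes (.falsum : Lang.BoundedFormula Empty k) = [4 * (k + 2) + 3] := by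
  change [2 * (2 * (k + 2) + 1) + 1] = _
  congr 1; omega

theorem TR_codes_equal {k : ℕ} (t₁ t₂ : Lang.Term (Empty ⊕ Fin k)) :
    TR_codes (.equal t₁ t₂) = [TR_tcode t₁, TR_tcode t₂] := rfl

theorem TR_codes_rel {k : ℕ} (ts : Fin 1 → Lang.Term (Empty ⊕ Fin k)) :
    TR_codes (Language.BoundedFormula.rel (L := Lang) Rl.int ts) =
      [1, 4 * k + 3, TR_tcode (ts 0)] := by
  change [2 * (2 * 0) + 1, 2 * (2 * k + 1) + 1, TR_tcode (ts 0)] = _
  congr 2; omega

theorem TR_codes_imp {k : ℕ} (φ ψ : Lang.BoundedFormula Empty k) :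
    TR_codes (φ.imp ψ) = 3 :: (TR_codes φ ++ TR_codes ψ) := by
  simp only [TR_codes, Language.BoundedFormula.listEncode, List.map_append, List.map_cons,
    List.cons_append]
  rfl

theorem TR_codes_all {k : ℕ} (φ : Lang.BoundedFormula Empty (k + 1)) :
    TR_codes φ.all = 7 :: TR_codes φ := rfl

/-- One step of the evaluation of the symbols of a formula; `m` lists the stacks of the suffixes
of `l`, a stack consists of pairs (level, formula). -/
def TR_fstep (c : ℕ) (l : List ℕ) (m : List (List (ℕ × ℕ))) : List (ℕ × ℕ) :=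
  if c % 2 = 0 then ((Nat.unpair (c / 2)).1, fe (TR_cT c) (TR_cT (l.getD 0 0))) :: m.getD 1 []
  else if c = 1 then (l.getD 0 0 / 4, fr (TR_cT (l.getD 1 0)) t1) :: m.getD 2 []
  else if c = 3 then
    (((m.getD 0 []).getD 0 (0, 0)).1,
      fi ((m.getD 0 []).getD 0 (0, 0)).2 ((m.getD 0 []).getD 1 (0, 0)).2) :: (m.getD 0 []).drop 2
  else if c = 7 then
    (((m.getD 0 []).getD 0 (0, 0)).1 - 1,
      fa (((m.getD 0 []).getD 0 (0, 0)).1 - 1) ((m.getD 0 []).getD 0 (0, 0)).2) ::
        (m.getD 0 []).drop 1
  else (c / 4 - 2, ff) :: m.getD 0 []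

/-- The stacks of all suffixes. -/
def TR_memo (l : List ℕ) : List (List (ℕ × ℕ)) :=
  List.rec (motive := fun _ => List (List (ℕ × ℕ))) ([] :: [])
    (fun c l m => TR_fstep c l m :: m) l

theorem TR_memo_cons (c : ℕ) (l : List ℕ) :
    TR_memo (c :: l) = TR_fstep c l (TR_memo l) :: TR_memo l := rfl

theorem TR_memo_codes {k : ℕ} (φ : Lang.BoundedFormula Empty k) (l : List ℕ) :
    (TR_memo (TR_codes φ ++ l)).getD 0 [] = (k, TR_F φ) :: (TR_memo l).getD 0 [] := by
  induction φ generalizing l with
  | @falsum k =>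
    rw [TR_codes_falsum, List.singleton_append, TR_memo_cons, List.getD_cons_zero, TR_fstep,
      if_neg (by omega), if_neg (by omega), if_neg (by omega), if_neg (by omega),
      show (4 * (k + 2) + 3) / 4 - 2 = k by omega]
    rfl
  | @equal k t₁ t₂ =>
    rw [TR_codes_equal, List.cons_append, TR_memo_cons, List.getD_cons_zero, TR_fstep,
      if_pos (by rw [TR_tcode]; omega), List.singleton_append, List.getD_cons_zero, TR_cT_tcode,
      TR_cT_tcode, TR_tcode, Nat.mul_div_cancel_left _ two_pos, Nat.unpair_pair]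
    rfl
  | @rel k _ R ts =>
    cases R with
    | int =>
      rw [TR_codes_rel, List.cons_append, TR_memo_cons, List.getD_cons_zero, TR_fstep,
        if_neg (by omega), if_pos rfl]
      simp only [List.cons_append, List.getD_cons_succ, List.getD_cons_zero, TR_cT_tcode,
        TR_memo_cons, List.nil_append]
      rw [show (4 * k + 3) / 4 = k by omega]
      rfl
  | imp φ ψ ih1 ih2 =>
    rw [TR_codes_imp, List.cons_append, TR_memo_cons, List.getD_cons_zero, TR_fstep,
      if_neg (by omega), if_neg (by omega), if_pos rfl, List.append_assoc, ih1, ih2]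
    rfl
  | all φ ih =>
    rw [TR_codes_all, List.cons_append, TR_memo_cons, List.getD_cons_zero, TR_fstep,
      if_neg (by omega), if_neg (by omega), if_neg (by omega), if_pos rfl, ih]
    rfl

theorem TR_ci_tstep : CI ∅ (fun q : ℕ × List ℕ => TR_tstep q.1 q.2) := by
  unfold TR_tstep tv tn ta tm
  fun_prop

theorem TR_ci_cT : CI ∅ TR_cT := by
  have h : CI ∅ (fun c : ℕ =>
      ((Encodable.decode (α := List ℕ) (Nat.unpair (c / 2)).2).getD []).foldr TR_tstep []) :=
    ci_foldr (h := fun _ => TR_tstep) (by fun_prop) (CI.const _)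
      (CI.comp _ (fun q : ℕ × ℕ × List ℕ => q.2) TR_ci_tstep (by fun_prop))
  unfold TR_cT
  fun_prop

theorem TR_ci_fstep :
    CI ∅ (fun q : ℕ × List ℕ × List (List (ℕ × ℕ)) => TR_fstep q.1 q.2.1 q.2.2) := by
  have := TR_ci_cT
  unfold TR_fstep fe fr fi fa
  fun_prop

theorem TR_ci_memo : CI ∅ TR_memo :=
  ci_listRec (h := fun _ c t m => TR_fstep c t m :: m) CI.id' (CI.const _)
    (CI.cons (CI.comp _ (fun q : List ℕ × ℕ × List ℕ × List (List (ℕ × ℕ)) => q.2) TR_ci_fstep
      (by fun_prop)) (by fun_prop))

theorem exists_tr : ∃ g : ℕ → ℕ, CI ∅ g ∧ ∀ (p : ℕ) [Fact p.Prime] (σ : Lang.Sentence),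
    (KPM p).str.Sat (g (Encodable.encode (Language.BoundedFormula.listEncode σ))) (fun _ => 0) ↔
      Language.Sentence.Realize (KP p) σ := by
  refine ⟨fun e => (((TR_memo ((Encodable.decode (α := List ℕ) e).getD [])).getD 0 []).getD 0
    (0, 0)).2, ?_, fun p _ σ => ?_⟩
  · have := TR_ci_memo
    fun_prop
  · have h1 := TR_memo_codes σ []
    rw [List.append_nil] at h1
    have h2 : Encodable.decode (α := List ℕ)
        (Encodable.encode (Language.BoundedFormula.listEncode σ)) = some (TR_codes σ) :=
      TR_decode _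
    simp only [h2, Option.getD_some, h1, List.getD_cons_zero]
    exact TR_sat σ _ _ _ fun i => i.elim0

end Pool.Agent.PH
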