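import Pool.Agent.Work.MP_db9079_lc.PH.HDefs

/-!
Soundness of the Henkin clauses.

PLAN. Define the values `H : ℕ → S.A` of the Henkin constants by strong recursion: for
`n = Nat.pair (fa v ψ) e`, `H n` is a witness `x` of `¬ S.Sat ψ (update (env e) v x)` if there is one
(else `S.zero`), where `env e w = S.ev H (lk e w)`. In the recursion use `H' m = if m < n then H m else zero`:
`lk e w = tz` or `lk e w < e ≤ n`, and `S.ev` at a term `a` only reads variables `m ≤ a`
(lemma by `tm_ind`: environments agreeing on all `m ≤ a` give the same value of `a`).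
Then `f (aS ψ e) = decide (S.Sat ψ (env e))`, `f (aE a b) = decide (ev H a = ev H b)`,
`f (aR a b) = decide (S.R ..)`, `f (aV τ e a) = decide (S.ev (env e) τ = S.ev H a)` (define `f n` by `n % 4`).
`env 0 = fun _ => S.zero`, `env (ec v a e) = update (env e) v (ev H a)` (`lk_ec`). Check the 28 clauses.
-/

namespace Pool.Agent.PH

theorem HS_agree (S : Str) (e e' : ℕ → S.A) (a : ℕ) :
    (∀ m, m ≤ a → e m = e' m) → S.ev e a = S.ev e' a := by
  induction a using tm_ind with
  | hv n =>
    intro h
    rw [ev_tv, ev_tv]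
    exact h n (by unfold tv; omega)
  | h1 n hn => intro _; rw [ev_1 S e hn, ev_1 S e' hn]
  | h2 n hn => intro _; rw [ev_2 S e hn, ev_2 S e' hn]
  | h3 n hn => intro _; rw [ev_3 S e hn, ev_3 S e' hn]
  | hn a ih =>
    intro h
    rw [ev_tn, ev_tn, ih fun m hm => h m (by unfold tn; omega)]
  | ha a b iha ihb =>
    intro h
    have h1 := Nat.left_le_pair a b
    have h2 := Nat.right_le_pair a b
    rw [ev_ta, ev_ta, iha fun m hm => h m (by unfold ta; omega),
      ihb fun m hm => h m (by unfold ta; omega)]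
  | hm a b iha ihb =>
    intro h
    have h1 := Nat.left_le_pair a b
    have h2 := Nat.right_le_pair a b
    rw [ev_tm, ev_tm, iha fun m hm => h m (by unfold tm; omega),
      ihb fun m hm => h m (by unfold tm; omega)]

theorem HS_lk (e w : ℕ) : lk e w = tz ∨ lk e w < e := by
  induction e using Nat.strong_induction_on with
  | _ e ih =>
    cases e with
    | zero => exact Or.inl (lk_zero w)
    | succ e =>
      have h1 := Nat.unpair_left_le e
      have h2 := Nat.unpair_right_le e
      have h3 := Nat.unpair_right_le e.unpair.1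
      rw [lk]
      split_ifs
      · exact Or.inr (by omega)
      · exact (ih e.unpair.2 (by omega)).imp id fun h => by omega

open Classical in
/-- A counterexample to a universal formula, if there is one. -/
noncomputable def HS_wit (S : Str) (p : ℕ) (e : ℕ → S.A) : S.A :=
  if h : ∃ x, ¬ S.Sat (p / 5).unpair.2 (Function.update e (p / 5).unpair.1 x) then h.choose
  else S.zero

theorem HS_wit_spec (S : Str) (v ψ : ℕ) (e : ℕ → S.A)
    (h : S.Sat ψ (Function.update e v (HS_wit S (fa v ψ) e))) (x : S.A) :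
    S.Sat ψ (Function.update e v x) := by
  have e1 : fa v ψ / 5 = Nat.pair v ψ := by unfold fa; omega
  by_contra hx
  have h1 : ∃ x, ¬ S.Sat (fa v ψ / 5).unpair.2 (Function.update e (fa v ψ / 5).unpair.1 x) :=
    ⟨x, by rwa [e1, Nat.unpair_pair]⟩
  have h2 := h1.choose_spec
  rw [HS_wit, dif_pos h1] at h
  generalize h1.choose = y at h h2
  rw [e1, Nat.unpair_pair] at h2
  exact h2 h

/-- The values of the Henkin constants. -/
noncomputable def HS_H (S : Str) (n : ℕ) : S.A :=
  HS_wit S n.unpair.1 fun w =>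
    S.ev (fun m => if _h : m < n then HS_H S m else S.zero) (lk n.unpair.2 w)
termination_by n

/-- The environment coded by a number. -/
noncomputable def HS_env (S : Str) (e : ℕ) : ℕ → S.A := fun w => S.ev (HS_H S) (lk e w)

theorem HS_H_pair (S : Str) (p e : ℕ) : HS_H S (Nat.pair p e) = HS_wit S p (HS_env S e) := by
  rw [HS_H, Nat.unpair_pair]
  congr 1
  funext w
  rcases HS_lk e w with h | h
  · simp only [HS_env, h, ev_tz]
  · refine HS_agree S _ _ _ fun m hm => dif_pos ?_
    have h1 := Nat.right_le_pair p e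
    exact lt_of_le_of_lt hm (lt_of_lt_of_le h h1)

theorem HS_env_zero (S : Str) : HS_env S 0 = fun _ => S.zero := by
  funext w
  simp only [HS_env, lk_zero, ev_tz]

theorem HS_env_ec (S : Str) (v a e : ℕ) :
    HS_env S (ec v a e) = Function.update (HS_env S e) v (S.ev (HS_H S) a) := by
  funext w
  by_cases h : v = w
  · subst h
    simp [HS_env, lk_ec]
  · rw [Function.update_of_ne (Ne.symm h)]
    simp [HS_env, lk_ec, h]

/-- The meaning of an atom. -/
def HS_P (S : Str) (n : ℕ) : Prop :=
  if n % 4 = 0 then S.Sat (n / 4).unpair.1 (HS_env S (n / 4).unpair.2)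
  else if n % 4 = 1 then S.ev (HS_H S) (n / 4).unpair.1 = S.ev (HS_H S) (n / 4).unpair.2
  else if n % 4 = 2 then S.R (S.ev (HS_H S) (n / 4).unpair.1) (S.ev (HS_H S) (n / 4).unpair.2)
  else S.ev (HS_env S (n / 4).unpair.2.unpair.1) (n / 4).unpair.1 =
    S.ev (HS_H S) (n / 4).unpair.2.unpair.2

theorem HS_aS (S : Str) (ψ e : ℕ) : HS_P S (aS ψ e) ↔ S.Sat ψ (HS_env S e) := by
  rw [HS_P, if_pos (by unfold aS; omega), show aS ψ e / 4 = Nat.pair ψ e by unfold aS; omega,
    Nat.unpair_pair]

theorem HS_aE (S : Str) (a b : ℕ) : HS_P S (aE a b) ↔ S.ev (HS_H S) a = S.ev (HS_H S) b := by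
  rw [HS_P, if_neg (by unfold aE; omega), if_pos (by unfold aE; omega),
    show aE a b / 4 = Nat.pair a b by unfold aE; omega, Nat.unpair_pair]

theorem HS_aR (S : Str) (a b : ℕ) :
    HS_P S (aR a b) ↔ S.R (S.ev (HS_H S) a) (S.ev (HS_H S) b) := by
  rw [HS_P, if_neg (by unfold aR; omega), if_neg (by unfold aR; omega),
    if_pos (by unfold aR; omega), show aR a b / 4 = Nat.pair a b by unfold aR; omega,
    Nat.unpair_pair]

theorem HS_aV (S : Str) (τ e a : ℕ) :
    HS_P S (aV τ e a) ↔ S.ev (HS_env S e) τ = S.ev (HS_H S) a := by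
  rw [HS_P, if_neg (by unfold aV; omega), if_neg (by unfold aV; omega),
    if_neg (by unfold aV; omega),
    show aV τ e a / 4 = Nat.pair τ (Nat.pair e a) by unfold aV; omega]
  simp only [Nat.unpair_pair]

theorem HS_cons {α : Type} (p : α → Prop) (a : α) (l : List α) :
    (∃ x ∈ a :: l, p x) ↔ p a ∨ ∃ x ∈ l, p x := by simp

theorem sol_of_model (T : ℕ → ℕ) (φ : ℕ) (S : Str) (hD : ∀ x, S.D x)
    (hT : ∀ n, S.Sat (T n) (fun _ => S.zero)) (hφ : ¬ S.Sat φ (fun _ => S.zero)) :
    ∃ f, Sol T φ f := by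
  classical
  refine ⟨fun n => decide (HS_P S n), fun a b c d u => ?_⟩
  simp only [cls, List.forall_mem_cons, HS_cons, List.not_mem_nil, false_and,
    exists_false, or_false, false_imp_iff, implies_true, and_true, decide_eq_true_eq,
    decide_eq_false_iff_not, HS_aS, HS_aE, HS_aR, HS_aV, HS_env_zero, HS_env_ec, sat_fi, sat_fa,
    sat_fe, sat_fr, ev_tv, ev_tz, ev_t1, ev_tt, ev_tn, ev_ta, ev_tm, ← imp_iff_not_or,
    Function.update_self, true_and]
  refine ⟨hT a, hφ, fun h => (sat_0 S _ (by omega)).1 h, fun h1 h2 => h1 h2, by tauto,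
    fun h _ => h, fun h => h _ (hD _), ?_, fun h1 h2 h3 => by rw [← h1, ← h2, h3], ?_,
    fun h1 h2 h3 => by rwa [← h1, ← h2], ?_, ?_, ev_1 S _ (by omega), ev_2 S _ (by omega),
    ev_3 S _ (by omega), fun h => by rw [h], fun h1 h2 => by rw [h1, h2],
    fun h1 h2 => by rw [h1, h2], fun h => h.symm, fun h1 h2 => h1.trans h2, fun h => by rw [h],
    fun h1 h2 => by rw [h1, h2], fun h1 h2 => by rw [h1, h2], fun h1 h2 h3 => by rwa [← h1, ← h2]⟩
  · rw [sk, ev_tv, HS_H_pair, or_iff_not_imp_right, not_not]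
    exact fun h x _ => HS_wit_spec S a b _ h x
  · intro h1 h2
    rw [h1, h2]
    exact em _
  · intro h1 h2
    rw [h1, h2]
    exact em _
  · intro h
    by_cases e : a = d
    · subst e
      rw [if_pos rfl, Function.update_self]
    · rw [if_neg e, Function.update_of_ne e, h]

end Pool.Agent.PH
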