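import Pool.Agent.Work.MP_db9079_lc.PH.HDefs

/-!
The term model.

PLAN. `f (aE a b) = true` is an equivalence relation on `ℕ` and a congruence for `tn ta tm` and for
`f (aR a b) = true`; `S.A` is the quotient, `D = fun _ => True`, `zero = ⟦tz⟧`, `one = ⟦t1⟧`, `t = ⟦tt⟧`.
Put `env e w = ⟦lk e w⟧`; `env 0 = fun _ => zero`, `env (ec v a e) = update (env e) v ⟦a⟧`; every
`e` is `0` or some `ec v a e'` with `e' < e`. First `f (aV (tv w) e (lk e w)) = true` by strong induction on
`e`; then by `tm_ind`: `∃ d, f (aV τ e d) = true ∧ S.ev (env e) τ = ⟦d⟧`; then the truth lemma by `fm_ind`: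
`∀ e, f (aS ψ e) = true ↔ S.Sat ψ (env e)`.
-/

namespace Pool.Agent.PH

/-- The clauses as implications. -/
structure HT_Cl (T : ℕ → ℕ) (φ : ℕ) (p : ℕ → Prop) : Prop where
  ax : ∀ a, p (aS (T a) 0)
  goal : ¬ p (aS φ 0)
  bot : ∀ a b, ¬ p (aS (5 * a) b)
  imp : ∀ a b c, p (aS (fi a b) c) ↔ (p (aS a c) → p (aS b c))
  all1 : ∀ a b c d, p (aS (fa a b) c) → p (aS b (ec a d c))
  all2 : ∀ a b c, p (aS b (ec a (sk a b c) c)) → p (aS (fa a b) c)
  eq : ∀ a b c d u, p (aV a c d) → p (aV b c u) → (p (aS (fe a b) c) ↔ p (aE d u))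
  rel : ∀ a b c d u, p (aV a c d) → p (aV b c u) → (p (aS (fr a b) c) ↔ p (aR d u))
  v0 : ∀ a, p (aV (tv a) 0 tz)
  v1 : ∀ a b c d u, p (aV (tv a) c b) → p (aV (tv a) (ec d u c) (if a = d then u else b))
  c1 : ∀ a c, p (aV (7 * a + 1) c tz)
  c2 : ∀ a c, p (aV (7 * a + 2) c t1)
  c3 : ∀ a c, p (aV (7 * a + 3) c tt)
  vn : ∀ a c d, p (aV a c d) → p (aV (tn a) c (tn d))
  va : ∀ a b c d u, p (aV a c d) → p (aV b c u) → p (aV (ta a b) c (ta d u))
  vm : ∀ a b c d u, p (aV a c d) → p (aV b c u) → p (aV (tm a b) c (tm d u))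
  rfl : ∀ a, p (aE a a)
  symm : ∀ a b, p (aE a b) → p (aE b a)
  trans : ∀ a b c, p (aE a b) → p (aE b c) → p (aE a c)
  en : ∀ a b, p (aE a b) → p (aE (tn a) (tn b))
  ea : ∀ a b c d, p (aE a b) → p (aE c d) → p (aE (ta a c) (ta b d))
  em : ∀ a b c d, p (aE a b) → p (aE c d) → p (aE (tm a c) (tm b d))
  er : ∀ a b c d, p (aE a b) → p (aE c d) → p (aR a c) → p (aR b d)

theorem HT_cl {T : ℕ → ℕ} {φ : ℕ} {f : ℕ → Bool} (hf : Sol T φ f) :
    HT_Cl T φ fun x => f x = true := by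
  simp only [Sol, cls, List.mem_cons, List.not_mem_nil, or_false, forall_eq_or_imp, forall_eq,
    exists_eq_or_imp, exists_eq_left, Bool.eq_false_iff, forall_and, ne_eq,
    ← imp_iff_not_or] at hf
  obtain ⟨h1, h2, h3, h4, h5, h6, h7, h8, h9, h10, h11, h12, h13, -, h15, h16, h17, h18, h19, h20,
    h21, h22, h23, h24, h25, h26, h27, h28⟩ := hf
  exact
    { ax := fun a => h1 a 0 0 0 0
      goal := h2 0 0 0 0 0
      bot := fun a b => h3 a b 0 0 0
      imp := fun a b c => ⟨h4 a b c 0 0, fun k =>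
        (h5 a b c 0 0).elim (fun k' => h6 a b c 0 0 (k k')) id⟩
      all1 := fun a b c d => h7 a b c d 0
      all2 := fun a b c k => (h8 a b c 0 0).resolve_right fun k' => k' k
      eq := fun a b c d u k k' => ⟨h9 a b c d u k k', fun j =>
        (h10 a b c d u k k').resolve_right fun j' => j' j⟩
      rel := fun a b c d u k k' => ⟨h11 a b c d u k k', fun j =>
        (h12 a b c d u k k').resolve_right fun j' => j' j⟩
      v0 := fun a => h13 a 0 0 0 0
      v1 := h15
      c1 := fun a c => h16 a 0 c 0 0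
      c2 := fun a c => h17 a 0 c 0 0
      c3 := fun a c => h18 a 0 c 0 0
      vn := fun a c d => h19 a 0 c d 0
      va := h20
      vm := h21
      rfl := fun a => h22 a 0 0 0 0
      symm := fun a b => h23 a b 0 0 0
      trans := fun a b c => h24 a b c 0 0
      en := fun a b => h25 a b 0 0 0
      ea := fun a b c d => h26 a b c d 0
      em := fun a b c d => h27 a b c d 0
      er := fun a b c d => h28 a b c d 0 }

section
variable {T : ℕ → ℕ} {φ : ℕ} {p : ℕ → Prop} (h : HT_Cl T φ p)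

/-- Equality of closed terms. -/
def HT_st : Setoid ℕ := ⟨fun a b => p (aE a b), h.rfl, h.symm _ _, h.trans _ _ _⟩

/-- The term model. -/
def HT_str : Str where
  A := Quotient (HT_st h)
  D := fun _ => True
  zero := Quotient.mk _ tz
  one := Quotient.mk _ t1
  t := Quotient.mk _ tt
  neg := Quotient.map tn h.en
  add := Quotient.map₂ ta fun a b k c d k' => h.ea a b c d k k'
  mul := Quotient.map₂ tm fun a b k c d k' => h.em a b c d k k'
  R := Quotient.lift₂ (fun a b => p (aR a b)) fun a c b d k k' =>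
    propext ⟨h.er a b c d k k', h.er b a d c (h.symm _ _ k) (h.symm _ _ k')⟩

/-- The valuation given by an environment. -/
def HT_env (e w : ℕ) : (HT_str h).A := Quotient.mk _ (lk e w)

theorem HT_env_zero : HT_env h 0 = fun _ => (HT_str h).zero := by
  funext w
  rw [HT_env, lk_zero]
  rfl

theorem HT_env_ec (v a e : ℕ) :
    HT_env h (ec v a e) = Function.update (HT_env h e) v (Quotient.mk _ a) := by
  funext w
  refine Eq.trans ?_ (Function.update_apply _ _ _ _).symm
  by_cases k : v = w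
  · exact (congrArg (Quotient.mk _) ((lk_ec v a e w).trans (if_pos k))).trans (if_pos k.symm).symm
  · exact (congrArg (Quotient.mk _) ((lk_ec v a e w).trans (if_neg k))).trans
      (if_neg (Ne.symm k)).symm

include h in
theorem HT_var (w e : ℕ) : p (aV (tv w) e (lk e w)) := by
  induction e using Nat.strong_induction_on with
  | _ e ih =>
    rcases e with _ | e
    · rw [lk_zero]
      exact h.v0 w
    · have k := h.v1 w _ _ e.unpair.1.unpair.1 e.unpair.1.unpair.2
        (ih _ (Nat.lt_succ_of_le (Nat.unpair_right_le e)))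
      simp only [ec, Nat.pair_unpair, @eq_comm _ w] at k
      rw [lk]
      exact k

theorem HT_term (e τ : ℕ) :
    ∃ d, p (aV τ e d) ∧ (HT_str h).ev (HT_env h e) τ = Quotient.mk _ d := by
  induction τ using tm_ind with
  | hv n => exact ⟨_, HT_var h n e, ev_tv _ _ n⟩
  | h1 n k => exact ⟨_, by simpa only [← k, Nat.div_add_mod] using h.c1 (n / 7) e, ev_1 _ _ k⟩
  | h2 n k => exact ⟨_, by simpa only [← k, Nat.div_add_mod] using h.c2 (n / 7) e, ev_2 _ _ k⟩
  | h3 n k => exact ⟨_, by simpa only [← k, Nat.div_add_mod] using h.c3 (n / 7) e, ev_3 _ _ k⟩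
  | hn a ih =>
    obtain ⟨d, k1, k2⟩ := ih
    exact ⟨_, h.vn a e d k1, by rw [ev_tn, k2]; rfl⟩
  | ha a b ia ib =>
    obtain ⟨d, k1, k2⟩ := ia
    obtain ⟨u, k3, k4⟩ := ib
    exact ⟨_, h.va a b e d u k1 k3, by rw [ev_ta, k2, k4]; rfl⟩
  | hm a b ia ib =>
    obtain ⟨d, k1, k2⟩ := ia
    obtain ⟨u, k3, k4⟩ := ib
    exact ⟨_, h.vm a b e d u k1 k3, by rw [ev_tm, k2, k4]; rfl⟩

theorem HT_truth (ψ : ℕ) : ∀ e, p (aS ψ e) ↔ (HT_str h).Sat ψ (HT_env h e) := by
  induction ψ using fm_ind with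
  | h0 n k =>
    intro e
    rw [sat_0 _ _ k, show n = 5 * (n / 5) by omega]
    exact iff_false_intro (h.bot _ e)
  | he a b =>
    intro e
    obtain ⟨d, k1, k2⟩ := HT_term h e a
    obtain ⟨u, k3, k4⟩ := HT_term h e b
    rw [sat_fe, k2, k4, h.eq a b e d u k1 k3]
    exact (Quotient.eq (r := HT_st h)).symm
  | hr a b =>
    intro e
    obtain ⟨d, k1, k2⟩ := HT_term h e a
    obtain ⟨u, k3, k4⟩ := HT_term h e b
    rw [sat_fr, k2, k4, h.rel a b e d u k1 k3]
    rfl
  | hi a b ia ib =>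
    intro e
    rw [sat_fi, h.imp, ia, ib]
  | ha v a ih =>
    intro e
    rw [sat_fa]
    refine ⟨fun k x _ => ?_, fun k => h.all2 v a e ?_⟩
    · obtain ⟨d, rfl⟩ := Quotient.exists_rep x
      rw [← HT_env_ec, ← ih]
      exact h.all1 v a e d k
    · rw [ih, HT_env_ec]
      exact k _ trivial

end

theorem model_of_sol (T : ℕ → ℕ) (φ : ℕ) (f : ℕ → Bool) (hf : Sol T φ f) : ¬ Valid T φ := by
  intro hv
  have h := HT_cl hf
  refine h.goal ((HT_truth h φ 0).2 ?_)
  rw [HT_env_zero]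
  refine hv _ (fun _ => trivial) fun n => ?_
  rw [← HT_env_zero]
  exact (HT_truth h _ 0).1 (h.ax n)

end Pool.Agent.PH
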