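import Mathlib.Topology.Separation.Hausdorff
import Pool.Agent.Work.MP_db9079_lc.RCm
import Pool.Agent.Work.MP_db9079_lc.PH.HS
import Pool.Agent.Work.MP_db9079_lc.PH.HT

/-!
Consequences of a computable list of sentences are recursively enumerable.

PLAN. `re_unsat`: compactness of `ℕ → Bool` (closed sets, `IsCompact.nonempty_iInter_of_sequence..`, or an
ultrafilter limit): no solution iff `∃ N`, every list `w ∈ allL [true, false] L` fails some clause of
`C a n`, `n < N`, reading `f i = w.getD i false`, where `L` exceeds all atoms in these clauses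
(e.g. `L = 1 + sum of atoms`). The matrix is `CP ∅` (`CP.allMem`, `CP.exMem`, `ci_allL`, `ci_sum`,
`computablePred_of_cp`), and `∃ N, p a N` with `p` computable is `REPred` (domain of `Nat.rfind`,
`Partrec.rfind`, `Partrec.dom_re`). `re_valid`: decode `n` by `Nat.unpair` into `a b c d u`;
`cls` is `CI ∅` by unfolding and `fun_prop` (`CI.cons`, `CI.ite`).
-/

namespace Pool.Agent.PH

open Pool.Agent.Lib.RelComp Pool.Agent.Work.MP_db9079_lc

section

variable {α : Type} [Primcodable α]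

theorem HR_ex {p : α → ℕ → Prop} (hp : CP ∅ fun q : α × ℕ => p q.1 q.2) :
    REPred fun a => ∃ n, p a n := by
  classical
  have h : Partrec fun a => Nat.rfind fun n => Part.some (decide (p a n)) :=
    Partrec.rfind (computablePred_of_cp hp).decide.partrec
  exact h.dom_re.of_eq fun a => by simp [Nat.rfind_dom]

theorem HR_comp {p : ℕ → Prop} (hp : REPred p) {g : α → ℕ} (hg : CI ∅ g) :
    REPred fun a => p (g a) :=
  Partrec.comp hp (recursiveIn_empty_iff.1 hg)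

@[fun_prop] theorem HR_tv {f : α → ℕ} (hf : CI ∅ f) : CI ∅ (fun a => tv (f a)) := by
  unfold tv
  fun_prop

@[fun_prop] theorem HR_tn {f : α → ℕ} (hf : CI ∅ f) : CI ∅ (fun a => tn (f a)) := by
  unfold tn
  fun_prop

@[fun_prop] theorem HR_ta {f g : α → ℕ} (hf : CI ∅ f) (hg : CI ∅ g) :
    CI ∅ (fun a => ta (f a) (g a)) := by
  unfold ta
  fun_prop

@[fun_prop] theorem HR_tm {f g : α → ℕ} (hf : CI ∅ f) (hg : CI ∅ g) :
    CI ∅ (fun a => tm (f a) (g a)) := by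
  unfold tm
  fun_prop

@[fun_prop] theorem HR_fe {f g : α → ℕ} (hf : CI ∅ f) (hg : CI ∅ g) :
    CI ∅ (fun a => fe (f a) (g a)) := by
  unfold fe
  fun_prop

@[fun_prop] theorem HR_fr {f g : α → ℕ} (hf : CI ∅ f) (hg : CI ∅ g) :
    CI ∅ (fun a => fr (f a) (g a)) := by
  unfold fr
  fun_prop

@[fun_prop] theorem HR_fi {f g : α → ℕ} (hf : CI ∅ f) (hg : CI ∅ g) :
    CI ∅ (fun a => fi (f a) (g a)) := by
  unfold fi
  fun_prop

@[fun_prop] theorem HR_fa {f g : α → ℕ} (hf : CI ∅ f) (hg : CI ∅ g) :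
    CI ∅ (fun a => fa (f a) (g a)) := by
  unfold fa
  fun_prop

@[fun_prop] theorem HR_aS {f g : α → ℕ} (hf : CI ∅ f) (hg : CI ∅ g) :
    CI ∅ (fun a => aS (f a) (g a)) := by
  unfold aS
  fun_prop

@[fun_prop] theorem HR_aE {f g : α → ℕ} (hf : CI ∅ f) (hg : CI ∅ g) :
    CI ∅ (fun a => aE (f a) (g a)) := by
  unfold aE
  fun_prop

@[fun_prop] theorem HR_aR {f g : α → ℕ} (hf : CI ∅ f) (hg : CI ∅ g) :
    CI ∅ (fun a => aR (f a) (g a)) := by
  unfold aR
  fun_prop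

@[fun_prop] theorem HR_aV {f g k : α → ℕ} (hf : CI ∅ f) (hg : CI ∅ g) (hk : CI ∅ k) :
    CI ∅ (fun a => aV (f a) (g a) (k a)) := by
  unfold aV
  fun_prop

@[fun_prop] theorem HR_ec {f g k : α → ℕ} (hf : CI ∅ f) (hg : CI ∅ g) (hk : CI ∅ k) :
    CI ∅ (fun a => ec (f a) (g a) (k a)) := by
  unfold ec
  fun_prop

@[fun_prop] theorem HR_sk {f g k : α → ℕ} (hf : CI ∅ f) (hg : CI ∅ g) (hk : CI ∅ k) :
    CI ∅ (fun a => sk (f a) (g a) (k a)) := by
  unfold sk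
  fun_prop

theorem HR_cls {T : ℕ → ℕ} (hT : CI ∅ T) {φ a b c d u : α → ℕ} (hφ : CI ∅ φ) (ha : CI ∅ a)
    (hb : CI ∅ b) (hc : CI ∅ c) (hd : CI ∅ d) (hu : CI ∅ u) :
    CI ∅ fun x => cls T (φ x) (a x) (b x) (c x) (d x) (u x) := by
  unfold cls
  repeat' apply CI.cons
  all_goals fun_prop

end

theorem HR_closed (N : ℕ) (x : List (ℕ × Bool)) :
    IsClosed {f : ℕ → Bool | ∃ l ∈ x, N ≤ l.1 ∨ f l.1 = l.2} := by
  induction x with
  | nil => simp
  | cons l x ih =>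
    simp only [List.mem_cons, exists_eq_or_imp, Set.setOf_or]
    exact (isClosed_const.union (isClosed_eq (continuous_apply _) continuous_const)).union ih

theorem HR_compact (C : ℕ → List (List (ℕ × Bool)))
    (h : ∀ N, ∃ f : ℕ → Bool, ∀ n < N, ∀ x ∈ C n, ∃ l ∈ x, N ≤ l.1 ∨ f l.1 = l.2) :
    ∃ f : ℕ → Bool, ∀ n, ∀ x ∈ C n, ∃ l ∈ x, f l.1 = l.2 := by
  have hc : ∀ N, IsClosed {f : ℕ → Bool | ∀ n < N, ∀ x ∈ C n, ∃ l ∈ x, N ≤ l.1 ∨ f l.1 = l.2} := by
    intro N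
    simp only [Set.setOf_forall]
    exact isClosed_iInter fun n => isClosed_iInter fun _ => isClosed_iInter fun x =>
      isClosed_iInter fun _ => HR_closed N x
  obtain ⟨f, hf⟩ := IsCompact.nonempty_iInter_of_sequence_nonempty_isCompact_isClosed
    (fun N => {f : ℕ → Bool | ∀ n < N, ∀ x ∈ C n, ∃ l ∈ x, N ≤ l.1 ∨ f l.1 = l.2})
    (fun N f hf n hn x hx => (hf n (Nat.lt_succ_of_lt hn) x hx).imp fun l hl =>
      ⟨hl.1, hl.2.imp_left Nat.le_of_succ_le⟩) h (hc 0).isCompact hc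
  refine ⟨f, fun n x hx => ?_⟩
  obtain ⟨l, h1, h2⟩ := Set.mem_iInter.1 hf (n + (x.map Prod.fst).sum + 1) n (by omega) x hx
  have := rcm_le_sum (List.mem_map_of_mem (f := Prod.fst) h1)
  exact ⟨l, h1, h2.resolve_left (by omega)⟩

theorem re_unsat (C : ℕ → ℕ → List (List (ℕ × Bool)))
    (hC : CI ∅ (fun q : ℕ × ℕ => C q.1 q.2)) :
    REPred (fun a => ¬ ∃ f : ℕ → Bool, ∀ n, ∀ x ∈ C a n, ∃ l ∈ x, f l.1 = l.2) := by
  have h : CP ∅ fun q : ℕ × ℕ => ∀ w ∈ allL [true, false] q.2, ∃ n, n < q.2 ∧ ∃ x, x ∈ C q.1 n ∧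
      ∀ l ∈ x, l.1 < q.2 ∧ w.getD l.1 false ≠ l.2 :=
    CP.allMem (by fun_prop) (CP.exLt (by fun_prop) (CP.exMem
      (CI.comp _ (fun y : ((ℕ × ℕ) × List Bool) × ℕ => (y.1.1.1, y.2)) hC (by fun_prop))
      (CP.allMem (by fun_prop) (by fun_prop))))
  refine (HR_ex (p := fun a N => ∀ w ∈ allL [true, false] N, ∃ n, n < N ∧ ∃ x, x ∈ C a n ∧
      ∀ l ∈ x, l.1 < N ∧ w.getD l.1 false ≠ l.2) h).of_eq fun a => ⟨?_, fun hn => ?_⟩
  · rintro ⟨N, hN⟩ ⟨f, hf⟩
    obtain ⟨n, -, x, hx, hl⟩ := hN ((List.range N).map f)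
      (mem_allL.2 ⟨by simp, fun b _ => by cases b <;> simp⟩)
    obtain ⟨l, h1, h2⟩ := hf n x hx
    exact (hl l h1).2 (by simp [(hl l h1).1, h2])
  · by_contra hne
    refine hn (HR_compact (C a) fun N => ?_)
    by_contra h1
    refine hne ⟨N, fun w _ => ?_⟩
    by_contra h2
    refine h1 ⟨fun i => w.getD i false, fun n hn x hx => ?_⟩
    by_contra h3
    exact h2 ⟨n, hn, x, hx, fun l hl =>
      ⟨not_le.1 fun e => h3 ⟨l, hl, Or.inl e⟩, fun e => h3 ⟨l, hl, Or.inr e⟩⟩⟩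

theorem re_valid (T : ℕ → ℕ) (hT : CI ∅ T) : REPred (Valid T) := by
  refine (re_unsat (fun φ n => cls T φ n.unpair.1 n.unpair.2.unpair.1 n.unpair.2.unpair.2.unpair.1
    n.unpair.2.unpair.2.unpair.2.unpair.1 n.unpair.2.unpair.2.unpair.2.unpair.2)
    (HR_cls hT (by fun_prop) (by fun_prop) (by fun_prop) (by fun_prop) (by fun_prop)
      (by fun_prop))).of_eq fun φ => ⟨fun h S hD hS => ?_, ?_⟩
  · by_contra hφ
    obtain ⟨f, hf⟩ := sol_of_model T φ S hD hS hφ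
    exact h ⟨f, fun n => hf _ _ _ _ _⟩
  · rintro h ⟨f, hf⟩
    refine model_of_sol T φ f (fun a b c d u => ?_) h
    have := hf (Nat.pair a (Nat.pair b (Nat.pair c (Nat.pair d u))))
    simpa only [Nat.unpair_pair] using this

/-- If exactly one of `g a`, `fn (g a)` is valid for each `a`, validity of `g a` is decidable. -/
theorem computable_valid (T g : ℕ → ℕ) (hT : CI ∅ T) (hg : CI ∅ g)
    (h : ∀ φ, Valid T (fn φ) ↔ ¬ Valid T φ) : ComputablePred (fun a => Valid T (g a)) := by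
  have h1 : CI ∅ fun a => fn (g a) := by
    unfold fn
    fun_prop
  exact ComputablePred.computable_iff_re_compl_re'.2 ⟨HR_comp (re_valid T hT) hg,
    (HR_comp (re_valid T hT) h1).of_eq fun a => h _⟩

end Pool.Agent.PH
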