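import Pool.Agent.Work.MP_db9079_lc.PH.AxS
import Mathlib.Algebra.Field.MinimalAxioms

/-!
A full structure satisfying the axioms of valued fields comes from a valued field.

PLAN. Specialize `hF` at `n = 0, .., 15` and `simp [axF, al3, hD, sc, Nat.pair_eq_pair, Function.update_apply]` (or the lemmas `update_sc_sc`). Build the field by `Field.ofMinimalAxioms` (inverse by choice), the valuation ring
`{x | S.R x S.one}`, show `S.R x y ↔ valuation x ≤ valuation y` (`ValuationSubring.valuation_le_iff`), then compare `ev` (`tm_ind`) and `Sat` (`fm_ind`, all environments).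
-/

namespace Pool.Agent.PH

theorem TP_al3 (S : Str) (hD : ∀ x, S.D x) (φ : ℕ) (e : ℕ → S.A) (h : S.Sat (al3 φ) e)
    (x y z : S.A) : ∃ e' : ℕ → S.A, e' (sc 0) = x ∧ e' (sc 1) = y ∧ e' (sc 2) = z ∧ S.Sat φ e' := by
  rw [al3, sat_fa] at h
  have h1 := h x (hD x)
  rw [sat_fa] at h1
  have h2 := h1 y (hD y)
  rw [sat_fa] at h2
  refine ⟨_, ?_, ?_, ?_, h2 z (hD z)⟩
  · rw [update_sc_sc _ _ (by decide), update_sc_sc _ _ (by decide), Function.update_self]
  · rw [update_sc_sc _ _ (by decide), Function.update_self]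
  · rw [Function.update_self]

theorem TP_congr (S : Str) (D' : S.A → Prop) (R' : S.A → S.A → Prop) (hD : ∀ x, D' x ↔ S.D x)
    (hR : ∀ x y, R' x y ↔ S.R x y) (φ : ℕ) (e : ℕ → S.A) :
    Str.Sat ⟨S.A, D', S.zero, S.one, S.t, S.neg, S.add, S.mul, R'⟩ φ e ↔ S.Sat φ e := by
  obtain rfl : D' = S.D := funext fun x => propext (hD x)
  obtain rfl : R' = S.R := funext fun x => funext fun y => propext (hR x y)
  rfl

theorem exists_pm (S : Str) (hD : ∀ x, S.D x)
    (hF : ∀ n, S.Sat (axF.getD n (fn ff)) (fun _ => S.zero)) :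
    ∃ A : PM, A.M = ⊤ ∧ ∀ φ, A.str.Sat φ (fun _ => 0) ↔ S.Sat φ (fun _ => S.zero) := by
  classical
  have u0 : ∀ (e : ℕ → S.A) x, Function.update e (sc 3) x (sc 0) = e (sc 0) := fun e x =>
    update_sc_sc _ _ (by decide)
  have u1 : ∀ (e : ℕ → S.A) x, Function.update e (sc 3) x (sc 1) = e (sc 1) := fun e x =>
    update_sc_sc _ _ (by decide)
  have a0 : ∀ x y z, S.add (S.add x y) z = S.add x (S.add y z) := fun x y z => by
    obtain ⟨e, rfl, rfl, rfl, h⟩ := TP_al3 S hD _ _ (hF 0) x y z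
    simpa using h
  have a1 : ∀ x, S.add S.zero x = x := fun x => by
    obtain ⟨e, rfl, -, -, h⟩ := TP_al3 S hD _ _ (hF 1) x x x
    simpa using h
  have a2 : ∀ x, S.add (S.neg x) x = S.zero := fun x => by
    obtain ⟨e, rfl, -, -, h⟩ := TP_al3 S hD _ _ (hF 2) x x x
    simpa using h
  have a3 : ∀ x y z, S.mul (S.mul x y) z = S.mul x (S.mul y z) := fun x y z => by
    obtain ⟨e, rfl, rfl, rfl, h⟩ := TP_al3 S hD _ _ (hF 3) x y z
    simpa using h
  have a4 : ∀ x y, S.mul x y = S.mul y x := fun x y => by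
    obtain ⟨e, rfl, rfl, -, h⟩ := TP_al3 S hD _ _ (hF 4) x y x
    simpa using h
  have a5 : ∀ x, S.mul S.one x = x := fun x => by
    obtain ⟨e, rfl, -, -, h⟩ := TP_al3 S hD _ _ (hF 5) x x x
    simpa using h
  have a6 : ∀ x y z, S.mul x (S.add y z) = S.add (S.mul x y) (S.mul x z) := fun x y z => by
    obtain ⟨e, rfl, rfl, rfl, h⟩ := TP_al3 S hD _ _ (hF 6) x y z
    simpa using h
  have a7 : S.zero ≠ S.one := by
    have h : S.Sat (fn (fe tz t1)) _ := hF 7
    simpa using h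
  have a8 : ∀ x, x ≠ S.zero → ∃ y, S.mul x y = S.one := fun x => by
    obtain ⟨e, rfl, -, -, h⟩ := TP_al3 S hD _ _ (hF 8) x x x
    simpa [u0, hD] using h
  have a9 : S.R S.one S.one := by
    have h : S.Sat (fr t1 t1) _ := hF 9
    simpa using h
  have a10 : ∀ x, S.R x S.one → S.R (S.neg x) S.one := fun x => by
    obtain ⟨e, rfl, -, -, h⟩ := TP_al3 S hD _ _ (hF 10) x x x
    simpa using h
  have a11 : ∀ x y, S.R x S.one → S.R y S.one → S.R (S.add x y) S.one := fun x y => by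
    obtain ⟨e, rfl, rfl, -, h⟩ := TP_al3 S hD _ _ (hF 11) x y x
    simpa using h
  have a12 : ∀ x y, S.R x S.one → S.R y S.one → S.R (S.mul x y) S.one := fun x y => by
    obtain ⟨e, rfl, rfl, -, h⟩ := TP_al3 S hD _ _ (hF 12) x y x
    simpa using h
  have a13 : ∀ x, S.R x S.one ∨ ∃ y, S.R y S.one ∧ S.mul x y = S.one := fun x => by
    obtain ⟨e, rfl, -, -, h⟩ := TP_al3 S hD _ _ (hF 13) x x x
    simpa [u0, hD] using h
  have a14 : ∀ x y, S.R x y → ∃ z, S.R z S.one ∧ S.mul z y = x := fun x y => by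
    obtain ⟨e, rfl, rfl, -, h⟩ := TP_al3 S hD _ _ (hF 14) x y x
    simpa [u0, u1, hD] using h
  have a15 : ∀ x y, S.R x S.one → S.R (S.mul x y) y := fun x y => by
    obtain ⟨e, rfl, rfl, -, h⟩ := TP_al3 S hD _ _ (hF 15) x y x
    simpa using h
  let : Add S.A := ⟨S.add⟩
  let : Mul S.A := ⟨S.mul⟩
  let : Neg S.A := ⟨S.neg⟩
  let : Zero S.A := ⟨S.zero⟩
  let : One S.A := ⟨S.one⟩
  let : Inv S.A := ⟨fun x => if h : x = S.zero then S.zero else (a8 x h).choose⟩
  let fld : Field S.A := Field.ofMinimalAxioms S.A a0 a1 a2 a3 a4 a5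
    (fun x hx => by
      change S.mul x (if h : x = S.zero then S.zero else (a8 x h).choose) = S.one
      have hx' : ¬x = S.zero := hx
      rw [dif_neg hx']
      exact (a8 x hx').choose_spec)
    (dif_pos rfl) a6 ⟨_, _, a7⟩
  let O : ValuationSubring S.A :=
    { carrier := {x | S.R x S.one}
      mul_mem' := fun {x y} hx hy => a12 x y hx hy
      one_mem' := a9
      add_mem' := fun {x y} hx hy => a11 x y hx hy
      zero_mem' := by
        have := a11 _ _ (a10 _ a9) a9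
        rwa [a2] at this
      neg_mem' := fun {x} hx => a10 x hx
      mem_or_inv_mem' := fun x => (a13 x).imp id fun ⟨y, hy, h⟩ => by
        have h' : x * y = 1 := h
        rw [← eq_inv_of_mul_eq_one_right h']
        exact hy }
  refine ⟨PM.mk S.A ⊤ O S.t, rfl, fun φ => ?_⟩
  refine TP_congr S (fun x => x ∈ (⊤ : Subfield S.A)) (fun x y => O.valuation x ≤ O.valuation y)
    (fun x => iff_of_true (Subfield.mem_top x) (hD x)) (fun x y => ?_) φ _
  rw [ValuationSubring.valuation_le_iff]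
  constructor
  · rintro ⟨⟨z, hz⟩, rfl⟩
    exact a15 z y hz
  · intro h
    obtain ⟨z, hz, h'⟩ := a14 x y h
    exact ⟨⟨z, hz⟩, h'⟩

end Pool.Agent.PH
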