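import Pool.Agent.Work.MP_db9079_lc.PH.STEP
import Pool.Agent.Work.MP_db9079_lc.PH.BASE
import Pool.Agent.Work.MP_db9079_lc.PH.K1
import Pool.Agent.Work.MP_db9079_lc.PH.K2
import Pool.Agent.Work.MP_db9079_lc.PH.K4
import Pool.Agent.Work.MP_db9079_lc.PH.TR
import Pool.Agent.Work.MP_db9079_lc.PH.TP
import Pool.Agent.Work.MP_db9079_lc.PH.HR
import Pool.Agent.Work.MP_db9079_lc.PH.AxC

/-!
Completeness and decidability.
-/

namespace Pool.Agent.PH

open FirstOrder

variable {p : ℕ} [Fact p.Prime]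

theorem st_ev {A B : PM} (s : St A B) (env : ℕ → s.k) (n : ℕ) : ∃ a : s.k,
    A.str.ev (fun v => s.i (env v)) n = s.i a ∧ B.str.ev (fun v => s.j (env v)) n = s.j a := by
  let C : PM := ⟨s.k, ⊤, ⊤, s.t⟩
  exact ⟨C.str.ev env n, ev_map (A := C) (B := A) s.i s.ti env n,
    ev_map (A := C) (B := B) s.j s.tj env n⟩

theorem st_equiv (φ : ℕ) : ∀ (A B : PM), AG p A → AG p B → ∀ (s : St A B) (env : ℕ → s.k),
    A.str.Sat φ (fun v => s.i (env v)) ↔ B.str.Sat φ (fun v => s.j (env v)) := by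
  induction φ using fm_ind with
  | h0 n h => intro A B _ _ s env; rw [sat_0 _ _ h, sat_0 _ _ h]
  | he a b =>
    intro A B _ _ s env
    obtain ⟨x, h1, h2⟩ := st_ev s env a
    obtain ⟨y, h3, h4⟩ := st_ev s env b
    rw [sat_fe, sat_fe, h1, h2, h3, h4, s.i.injective.eq_iff, s.j.injective.eq_iff]
  | hr a b =>
    intro A B _ _ s env
    obtain ⟨x, h1, h2⟩ := st_ev s env a
    obtain ⟨y, h3, h4⟩ := st_ev s env b
    rw [sat_fr, sat_fr, h1, h2, h3, h4]
    have hj : VP (A.O.comap s.i) B.O s.j := fun a => (s.hO a).symm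
    exact ((vp_comap A.O s.i).le x y).trans (hj.le x y).symm
  | hi a b iha ihb =>
    intro A B hA hB s env
    rw [sat_fi, sat_fi, iha A B hA hB s env, ihb A B hA hB s env]
  | ha v a ih =>
    have key : ∀ (A B : PM), AG p A → AG p B → ∀ (s : St A B) (env : ℕ → s.k),
        B.str.Sat (fa v a) (fun v => s.j (env v)) → A.str.Sat (fa v a) (fun v => s.i (env v)) := by
      intro A B hA hB s env h
      rw [sat_fa]
      intro x hx
      obtain ⟨B', e, hB', he, s', κ, h1, h2, y, rfl⟩ := step hA hB s hx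
      have h3 := (sat_fa _ _ _ _).1 ((he _ _).2 h) (s'.j y) ((s'.hM y).1 hx)
      have h4 := (ih A B' hA hB' s' (Function.update (fun w => κ (env w)) v y)).2 (by
        rw [comp_update]; simpa only [h2] using h3)
      rw [comp_update] at h4
      simpa only [h1] using h4
    intro A B hA hB s env
    exact ⟨key B A hB hA s.symm env, key A B hA hB s env⟩

theorem complete {A B : PM} (hA : Good p A) (hB : Good p B) (hA' : A.M = ⊤) (hB' : B.M = ⊤)
    (φ : ℕ) : A.str.Sat φ (fun _ => 0) ↔ B.str.Sat φ (fun _ => 0) := by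
  obtain ⟨A', e, h1, h2, h3⟩ := exists_up A hA'
  obtain ⟨B', e', h4, h5, h6⟩ := exists_up B hB'
  have hA2 : AG p A' := ⟨h3.good.2 hA, h1, h2⟩
  have hB2 : AG p B' := ⟨h6.good.2 hB, h4, h5⟩
  obtain ⟨s⟩ := base_state hA2 hB2
  have := st_equiv φ A' B' hA2 hB2 s fun _ => 0
  simp only [map_zero] at this
  rw [← h3.sat0, ← h6.sat0, this]

theorem good_KPM : Good p (KPM p) where
  char := CharP.cast_eq_zero (KP p) p
  tM := trivial
  t0 := k_t0
  t1 := k_t1
  perf := fun x _ => ⟨(frobeniusEquiv (KP p) p).symm x, trivial,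
    (frobeniusEquiv (KP p) p).apply_symm_apply x⟩
  res := fun x _ hx => (k_res x hx).imp fun _ h => ⟨trivial, h⟩
  hen := k_hen
  vmod := fun _ => k_vmod
  den := k_den
  tame := k_tame
  lines := k_lines
  alg := k_alg

theorem valid_iff (φ : ℕ) : Valid (ax p) φ ↔ (KPM p).str.Sat φ (fun _ => 0) := by
  refine ⟨fun h => h (KPM p).str (fun _ => trivial) ((good_iff _ p).1 good_KPM), fun h S hD hT => ?_⟩
  obtain ⟨A, h1, h2⟩ := exists_pm S hD fun n => by
    have := hT (8 * n)
    rwa [ax, if_pos (by omega), show 8 * n / 8 = n by omega] at this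
  have hA : Good p A := (good_iff A p).2 fun n => (h2 _).2 (hT n)
  exact (h2 φ).1 ((complete good_KPM hA rfl h1 φ).1 h)

theorem ph_decidable (p : ℕ) [Fact p.Prime] : ∃ Q : ℕ → Prop, ComputablePred Q ∧
    ∀ σ : Lang.Sentence, Q (Encodable.encode (Language.BoundedFormula.listEncode σ)) ↔
      Language.Sentence.Realize (KP p) σ := by
  obtain ⟨g, hg, h⟩ := exists_tr
  refine ⟨fun a => Valid (ax p) (g a), computable_valid _ _ (ci_ax p) hg fun φ => ?_, fun σ => ?_⟩
  · rw [valid_iff, valid_iff, sat_fn]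
  · exact (valid_iff _).trans (h p σ)

end Pool.Agent.PH
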