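import Pool.Agent.Work.MP_db9079_lc.PH.FL
import Pool.Agent.Work.MP_db9079_lc.PH.SD

/-!
The extension step.

PLAN. `step_hom`: `letI := s.i.toAlgebra`; `T, x₁` from `exists_acl1`; `ι = T.val`, `L₁ = A.M.comap ι`, `O₁ = A.O.comap ι`. `T` is algebraic over `L₁` (it is algebraic over `k⟮x₁⟯`, whose elements are algebraic over `L₁` as `k` is algebraic over
`A.M.comap i` and `x₁ ∈ L₁`), `L₁` is perfect; every `τ ∈ Aut(T/L₁)` comes from some `σ` (`res_hom`), so `AG.hensel`, `AG.tame`, `AG.resk` give the hypotheses of `fl`; `fr_step`. Enumerate `T` by `g n`; `S N = {g n | n < N}`; `Φ N` contains for `n < N` either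
`g n - a n` (`g n ∈ O₁`, `a n` from `resk`, then `a n ∈ O₁`) or the inverse of `g n`. `J = ultHom (J N)`; each condition holds for all large `N` (`hyperfilter_le_cofinite`, `Nat.cofinite_eq_atTop`), `mem_ultM`, `mem_ultO`.
`step`: if `x ∈ range s.i` take `B' = B`. Else `exists_sat` for `B` gives `C, e`; the state `St A C` with `j = e ∘ s.j` (`Elem.mem`, `Elem.vp`, `Elem.map_t`); `step_hom`; `exists_sat` for `C` gives `C', e₂, e₂'`; `J` factors through `e₂'`
(its values are algebraic over `ultM`, as `k₁` is algebraic over `A.M.comap ι`, which `J` maps into `ultM`).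
-/

namespace Pool.Agent.PH

open IntermediateField Filter

theorem STEP_map {k F : Type*} [Field k] [Field F] {L : Subfield k} {M : Subfield F}
    (J : k →+* F) (h : ∀ a ∈ L, J a ∈ M) {a : k} (ha : IsAlgebraic L a) : IsAlgebraic M (J a) := by
  let j : L →+* M := (J.comp L.subtype).codRestrict M fun a => h a a.2
  exact ha.ringHom_of_comp_eq j J j.injective rfl

theorem STEP_alg {k F : Type*} [Field k] [Field F] [Algebra k F] (L : Subfield F) {x : F}
    (hx : x ∈ L) (hk : Algebra.IsAlgebraic (L.comap (algebraMap k F)) k)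
    (hF : Algebra.IsAlgebraic k⟮x⟯ F) : Algebra.IsAlgebraic L F := by
  have h1 : ∀ a : k, algebraMap k F a ∈ (algebraicClosure L F).toSubfield := fun a =>
    mem_algebraicClosure_iff.2
      (STEP_map (algebraMap k F) (fun _ h => h) (hk.isAlgebraic a))
  have h2 : k⟮x⟯ ≤ (algebraicClosure L F).toSubfield.toIntermediateField h1 :=
    adjoin_simple_le_iff.2 ((algebraicClosure L F).algebraMap_mem ⟨x, hx⟩)
  refine ⟨fun g => ?_⟩
  have h3 : IsAlgebraic (algebraicClosure L F) g :=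
    STEP_map (L := k⟮x⟯.toSubfield) (M := (algebraicClosure L F).toSubfield) (RingHom.id F)
      (fun a ha => h2 ha) (hF.isAlgebraic g)
  exact h3.restrictScalars L

theorem STEP_perf {p : ℕ} [Fact p.Prime] {A : PM} (h : Good p A) {T : Type*} [Field T]
    [IsAlgClosed T] (ι : T →+* A.Ω) : PerfectField (A.M.comap ι) := by
  have := h.charP
  have : CharP T p := ι.charP ι.injective p
  have hp : p.Prime := Fact.out
  have : PerfectRing (A.M.comap ι) p := by
    refine PerfectRing.ofSurjective _ p fun a => ?_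
    obtain ⟨y, hy, hya⟩ := h.perf _ a.2
    obtain ⟨z, hz⟩ := IsAlgClosed.exists_pow_nat_eq (a : T) hp.pos
    have h1 : ι z = y := by
      apply frobenius_inj A.Ω p
      rw [frobenius_def, frobenius_def, ← map_pow, hz, hya]
    refine ⟨⟨z, ?_⟩, Subtype.ext hz⟩
    rw [Subfield.mem_comap, h1]
    exact hy
  exact PerfectRing.toPerfectField _ p

theorem STEP_phi {k T E : Type*} [Field k] [Field T] [Field E] [Algebra k T]
    {O : ValuationSubring T} (hres : Res k O Set.univ) (O' : ValuationSubring E) (j : k →+* E)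
    (hj : ∀ a, algebraMap k T a ∈ O ↔ j a ∈ O') (g : T) :
    ∃ f : T, O.valuation f < 1 ∧ ∀ J : T →+* E, (∀ a, J (algebraMap k T a) = j a) →
      O'.valuation (J f) < 1 → (J g ∈ O' ↔ g ∈ O) := by
  by_cases hg : g ∈ O
  · obtain ⟨a, ha⟩ := hres g trivial hg
    refine ⟨_, ha, fun J hJ h => iff_of_true ?_ hg⟩
    have h1 : algebraMap k T a ∈ O := by
      have h2 := sub_mem hg ((O.valuation_le_one_iff _).1 ha.le)
      rwa [sub_sub_cancel] at h2
    have h3 := add_mem ((O'.valuation_le_one_iff _).1 h.le) ((hj a).1 h1)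
    rwa [map_sub, hJ, sub_add_cancel] at h3
  · have h0 : g ≠ 0 := by
      rintro rfl
      exact hg (zero_mem _)
    have h1 : 1 < O.valuation g := by rwa [← not_le, O.valuation_le_one_iff]
    refine ⟨g⁻¹, ?_, fun J _ h => iff_of_false ?_ hg⟩
    · rw [map_inv₀]
      exact inv_lt_one_of_one_lt₀ h1
    · rw [map_inv₀, map_inv₀,
        inv_lt_one₀ ((Valuation.pos_iff _).2 ((map_ne_zero J).2 h0))] at h
      rwa [← O'.valuation_le_one_iff, not_le]

theorem STEP_fac {K D E : Type*} [Field K] [Field D] [Field E] (J : K →+* E) (e : D →+* E)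
    (h : ∀ a, J a ∈ e.range) : ∃ J' : K →+* D, ∀ a, e (J' a) = J a := by
  choose f hf using h
  exact ⟨{ toFun := f
           map_one' := e.injective (by rw [hf, map_one, map_one])
           map_mul' := fun a b => e.injective (by rw [hf, map_mul, map_mul, hf, hf])
           map_zero' := e.injective (by rw [hf, map_zero, map_zero])
           map_add' := fun a b => e.injective (by rw [hf, map_add, map_add, hf, hf]) }, hf⟩

variable {p : ℕ} [Fact p.Prime] {A B : PM}

theorem step_hom (hA : AG p A) (hB : AG p B) (hs : Satur B.M B.O) (s : St A B) {x : A.Ω}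
    (hx : x ∈ A.M) (hx' : x ∉ s.i.range) :
    ∃ (s' : St A B.ult) (κ : s.k →+* s'.k), (∀ a, s'.i (κ a) = s.i a) ∧
      (∀ a, s'.j (κ a) = B.diag (s.j a)) ∧ x ∈ s'.i.range := by
  classical
  let := s.i.toAlgebra
  have := hA.ac
  have := hA.alg
  have := hA.good.perfect
  obtain ⟨T, x₁, hx₁, hac, halg, -, hcnt⟩ := exists_acl1 (k := s.k) x
  have := hcnt inferInstance
  let ι : T →+* A.Ω := algebraMap T A.Ω
  have hι : ∀ a, ι (algebraMap s.k T a) = s.i a := fun _ => rfl
  have hkalg : Algebra.IsAlgebraic ((A.M.comap ι).comap (algebraMap s.k T)) s.k := s.alg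
  have hxL : x₁ ∈ A.M.comap ι := by
    rw [← hx₁] at hx
    exact hx
  have hL := STEP_alg (A.M.comap ι) hxL hkalg halg
  have := STEP_perf hA.good ι
  obtain ⟨r, hr, hri⟩ := res_hom A.M ι (A.M.comap ι) fun _ => Iff.rfl
  have hres : Res s.k (A.O.comap ι) Set.univ := fun g _ hg => by
    obtain ⟨a, ha⟩ := hA.resk s.i (g := ι g) hg
    refine ⟨a, ((vp_comap A.O ι).lt_one _).1 ?_⟩
    rwa [map_sub, hι]
  have hfr : FR (A.O.comap ι) := fr_step halg s.fr
  obtain ⟨g, hg⟩ := exists_surjective_nat T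
  choose φ hφ hφ' using STEP_phi hres B.O s.j s.hO
  have key : ∀ N : ℕ, ∃ J : T →+* B.Ω, (∀ a, J (algebraMap s.k T a) = s.j a) ∧
      (∀ a ∈ (Finset.range N).image g, J a ∈ B.M ↔ a ∈ A.M.comap ι) ∧
      ∀ a ∈ (Finset.range N).image (φ ∘ g), B.O.valuation (J a) < 1 := fun N => by
    refine fl (A.M.comap ι) (A.O.comap ι) hxL (fun a ha => hx' ⟨a, ?_⟩) halg hkalg (fun τ a => ?_)
      (fun τ hτ a => ?_) hres hfr hB hs s.j s.hM s.hO ⟨s.t, s.tj⟩ _ _ fun a ha => ?_
    · rw [← hι, ← ha]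
      exact hx₁
    · obtain ⟨σ, rfl⟩ := hr τ
      change ι (r σ a) ∈ A.O ↔ ι a ∈ A.O
      rw [hri]
      exact hA.hensel σ _
    · obtain ⟨σ, rfl⟩ := hr τ
      obtain ⟨m, hm⟩ := hA.tame s.i ⟨s.t, s.ti⟩ σ (fun b => by rw [← hι, ← hri, hτ]) (ι a)
      exact ⟨m, ι.injective
        ((Function.Semiconj.iterate_right (f := ι) (hri σ) (p ^ m) a).trans hm)⟩
    · obtain ⟨n, -, rfl⟩ := Finset.mem_image.1 ha
      exact hφ _
  choose J hJ hJM hJO using key
  have hev : ∀ n : ℕ, ∀ᶠ N in (hyperfilter ℕ : Filter ℕ), n ∈ Finset.range N := fun n =>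
    ((eventually_gt_atTop n).filter_mono Nat.hyperfilter_le_atTop).mono fun _ h =>
      Finset.mem_range.2 h
  have hd : ∀ a, ultHom J (algebraMap s.k T a) = B.diag (s.j a) := fun a =>
    congrArg (fun f : ℕ → B.Ω => (f : UP B.Ω)) (funext fun N => hJ N a)
  refine ⟨{ k := T, i := ι, j := ultHom J, hM := fun a => ?_, hO := fun a => ?_,
            t := algebraMap s.k T s.t, ti := s.ti, tj := ?_, alg := hL, fr := hfr },
    algebraMap s.k T, hι, hd, x₁, hx₁⟩
  · obtain ⟨n, rfl⟩ := hg a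
    exact ((mem_ultM _ _).trans ((eventually_congr ((hev n).mono fun N h =>
      hJM N _ (Finset.mem_image_of_mem _ h))).trans eventually_const)).symm
  · obtain ⟨n, rfl⟩ := hg a
    exact ((mem_ultO _ _).trans ((eventually_congr ((hev n).mono fun N h =>
      hφ' _ (J N) (hJ N) (hJO N _ (Finset.mem_image_of_mem _ h)))).trans eventually_const)).symm
  · rw [hd, s.tj]
    rfl

theorem step (hA : AG p A) (hB : AG p B) (s : St A B) {x : A.Ω} (hx : x ∈ A.M) :
    ∃ (B' : PM) (e : B.Ω →+* B'.Ω), AG p B' ∧ Elem B B' e ∧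
      ∃ (s' : St A B') (κ : s.k →+* s'.k), (∀ a, s'.i (κ a) = s.i a) ∧
        (∀ a, s'.j (κ a) = e (s.j a)) ∧ x ∈ s'.i.range := by
  by_cases hx' : x ∈ s.i.range
  · exact ⟨B, RingHom.id _, hB, fun _ _ => Iff.rfl, s, RingHom.id _, fun _ => rfl, fun _ => rfl,
      hx'⟩
  obtain ⟨C, e, -, hC, he, -, -, -, hsat⟩ := exists_sat hB
  let s₁ : St A C :=
    { k := s.k, i := s.i, j := e.comp s.j, hM := fun a => (s.hM a).trans (he.mem _).symm,
      hO := fun a => (s.hO a).trans (he.vp _).symm, t := s.t, ti := s.ti,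
      tj := (congrArg e s.tj).trans he.map_t, alg := s.alg, fr := s.fr }
  obtain ⟨s₂, κ, hi, hj, hx₂⟩ := step_hom hA hC hsat s₁ hx hx'
  obtain ⟨D, e₂, e₃, hD, he₂, he₃, hd, hrg, -⟩ := exists_sat hC
  obtain ⟨J, hJ⟩ := STEP_fac s₂.j e₃ fun a =>
    hrg _ (STEP_map s₂.j (fun b hb => (s₂.hM b).1 hb) (s₂.alg.isAlgebraic a))
  refine ⟨D, e₂.comp e, hD, he.comp he₂,
    { k := s₂.k, i := s₂.i, j := J, hM := fun a => (s₂.hM a).trans ?_,
      hO := fun a => (s₂.hO a).trans ?_, t := s₂.t, ti := s₂.ti, tj := e₃.injective ?_,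
      alg := s₂.alg, fr := s₂.fr }, κ, hi, fun a => e₃.injective ?_, hx₂⟩
  · rw [← hJ]
    exact he₃.mem _
  · rw [← hJ]
    exact he₃.vp _
  · rw [hJ, s₂.tj, he₃.map_t]
  · exact (hJ _).trans ((hj a).trans (RingHom.congr_fun hd _).symm)

end Pool.Agent.PH
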