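import Pool.Agent.Work.MP_db9079_lc.PH.Ax

/-!
Semantics of the term and formula builders.
-/

namespace Pool.Agent.PH

open Polynomial

/-- Update of the first `n` variables of block `j`. -/
def updB {α : Type} (e : ℕ → α) (j n : ℕ) (c : ℕ → α) (v : ℕ) : α :=
  if v.unpair.1 = j ∧ v.unpair.2 < n then c v.unpair.2 else e v

/-- The polynomial given by the first `n` variables of block `j`. -/
noncomputable def pol {Ω : Type} [Field Ω] (e : ℕ → Ω) (j n : ℕ) : Ω[X] :=
  ∑ i ∈ Finset.range n, monomial i (e (Nat.pair j i))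

theorem updB_pair {α : Type} (e : ℕ → α) (j n : ℕ) (c : ℕ → α) (j' i : ℕ) :
    updB e j n c (Nat.pair j' i) = if j' = j ∧ i < n then c i else e (Nat.pair j' i) := by
  simp only [updB, Nat.unpair_pair]

theorem updB_ne {α : Type} (e : ℕ → α) {j j' : ℕ} (n : ℕ) (c : ℕ → α) (i : ℕ) (h : j' ≠ j) :
    updB e j n c (Nat.pair j' i) = e (Nat.pair j' i) := by
  rw [updB_pair, if_neg fun h' => h h'.1]

theorem updB_sc {α : Type} (e : ℕ → α) {j j' : ℕ} (n : ℕ) (c : ℕ → α) (h : j' ≠ j) :
    updB e j n c (sc j') = e (sc j') := updB_ne e n c 0 h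

theorem updB_self {α : Type} (e : ℕ → α) (j : ℕ) {n : ℕ} (c : ℕ → α) {i : ℕ} (h : i < n) :
    updB e j n c (Nat.pair j i) = c i := by
  rw [updB_pair, if_pos ⟨rfl, h⟩]

theorem update_sc_pair {α : Type} (e : ℕ → α) {j j' : ℕ} (x : α) (i : ℕ) (h : j' ≠ j) :
    Function.update e (sc j) x (Nat.pair j' i) = e (Nat.pair j' i) :=
  Function.update_of_ne (fun h' => h (Nat.pair_eq_pair.1 h').1) _ _

theorem update_sc_sc {α : Type} (e : ℕ → α) {j j' : ℕ} (x : α) (h : j' ≠ j) :
    Function.update e (sc j) x (sc j') = e (sc j') := update_sc_pair e x 0 h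

section
variable {Ω : Type} [Field Ω] (e : ℕ → Ω)

theorem pol_updB_ne {j j' : ℕ} (n n' : ℕ) (c : ℕ → Ω) (h : j' ≠ j) :
    pol (updB e j n c) j' n' = pol e j' n' :=
  Finset.sum_congr rfl fun i _ => by rw [updB_ne e n c i h]

theorem pol_update {j j' : ℕ} (n' : ℕ) (x : Ω) (h : j' ≠ j) :
    pol (Function.update e (sc j) x) j' n' = pol e j' n' :=
  Finset.sum_congr rfl fun i _ => by rw [update_sc_pair e x i h]

theorem pol_updB_self (j : ℕ) {n : ℕ} {f : Ω[X]} (h : f.degree < n) :
    pol (updB e j n f.coeff) j n = f := by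
  rw [pol, Finset.sum_congr rfl fun i hi => by rw [updB_self e j _ (Finset.mem_range.1 hi)]]
  ext m
  rw [finsetSum_coeff]
  simp only [coeff_monomial, Finset.sum_ite_eq', Finset.mem_range]
  split_ifs with hm
  · rfl
  · exact (coeff_eq_zero_of_degree_lt (h.trans_le (by exact_mod_cast not_lt.1 hm))).symm

end

section
variable (S : Str) (e : ℕ → S.A)

@[simp] theorem ev_vr (j i : ℕ) : S.ev e (vr j i) = e (Nat.pair j i) := ev_tv S e _

@[simp] theorem ev_vs (j : ℕ) : S.ev e (vs j) = e (sc j) := ev_tv S e _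

@[simp] theorem sat_andR (f : ℕ → ℕ) (n : ℕ) : S.Sat (andR f n) e ↔ ∀ i < n, S.Sat (f i) e := by
  induction n with
  | zero => simp [andR]
  | succ n ih => rw [andR, sat_fc, ih, Nat.forall_lt_succ_right]

@[simp] theorem sat_orR (f : ℕ → ℕ) (n : ℕ) : S.Sat (orR f n) e ↔ ∃ i < n, S.Sat (f i) e := by
  induction n with
  | zero => simp [orR]
  | succ n ih => rw [orR, sat_fo, ih, Nat.exists_lt_succ_right]

theorem sat_allB' (j φ n : ℕ) :
    S.Sat (allB j φ n) e ↔ ∀ c : ℕ → S.A, (∀ i < n, S.D (c i)) → S.Sat φ (updB e j n c) := by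
  induction n generalizing e with
  | zero =>
    have : ∀ c, updB e j 0 c = e := fun c => funext fun v => by simp [updB]
    simp only [allB, this]
    exact ⟨fun h _ _ => h, fun h => h (fun _ => S.zero) (by simp)⟩
  | succ n ih =>
    have key : ∀ (x : S.A) (c : ℕ → S.A), updB (Function.update e (Nat.pair j n) x) j n c =
        updB e j (n + 1) (Function.update c n x) := fun x c => funext fun v => by
      obtain ⟨⟨a, b⟩, rfl⟩ := Nat.pairEquiv.surjective v
      change updB _ _ _ _ (Nat.pair a b) = updB _ _ _ _ (Nat.pair a b)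
      rw [updB_pair, updB_pair]
      by_cases ha : a = j
      · subst ha
        rcases lt_trichotomy b n with hb | hb | hb
        · rw [if_pos ⟨rfl, hb⟩, if_pos ⟨rfl, by omega⟩, Function.update_of_ne hb.ne]
        · subst hb
          rw [if_neg (by simp), if_pos ⟨rfl, by omega⟩, Function.update_self, Function.update_self]
        · rw [if_neg (by omega), if_neg (by omega),
            Function.update_of_ne fun h => hb.ne' (Nat.pair_eq_pair.1 h).2]
      · rw [if_neg fun h => ha h.1, if_neg fun h => ha h.1,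
          Function.update_of_ne fun h => ha (Nat.pair_eq_pair.1 h).1]
    rw [allB, sat_fa]
    simp only [ih, key]
    constructor
    · intro h c hc
      have := h (c n) (hc n (by omega)) c fun i hi => hc i (by omega)
      rwa [Function.update_eq_self] at this
    · intro h x hx c hc
      refine h _ fun i hi => ?_
      by_cases hin : i = n
      · subst hin; rwa [Function.update_self]
      · rw [Function.update_of_ne hin]; exact hc i (by omega)

end

section
variable (A : PM) (e : ℕ → A.Ω)

@[simp] theorem ev_num (n : ℕ) : A.str.ev e (num n) = (n : A.Ω) := by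
  induction n with
  | zero => simp [num]
  | succ n ih => rw [num, ev_ta, ih, ev_t1, Nat.cast_succ]

@[simp] theorem ev_tp (a n : ℕ) : A.str.ev e (tp a n) = A.str.ev e a ^ n := by
  induction n with
  | zero => simp [tp]
  | succ n ih => rw [tp, ev_tm, ih, pow_succ]

@[simp] theorem ev_hor (j x n : ℕ) :
    A.str.ev e (hor j x n) = (pol e j n).eval (A.str.ev e x) := by
  induction n with
  | zero => simp [hor, pol]
  | succ n ih =>
    rw [hor, ev_ta, ih, ev_tm, ev_vr, ev_tp, pol, pol, Finset.sum_range_succ, eval_add,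
      eval_monomial]

theorem ev_dho (j x n : ℕ) :
    A.str.ev e (dho j x n) = (derivative (pol e j n)).eval (A.str.ev e x) := by
  induction n with
  | zero => simp [dho, pol]
  | succ n ih =>
    rw [dho, ev_ta, ih, ev_tm, ev_tm, ev_vr, ev_tp, ev_num, pol, pol, Finset.sum_range_succ,
      derivative_add, eval_add, derivative_monomial, eval_monomial]

@[simp] theorem ev_mon (j x d : ℕ) :
    A.str.ev e (mon j x d) = (X ^ d + pol e j d).eval (A.str.ev e x) := by
  rw [mon, ev_ta, ev_tp, ev_hor, eval_add, eval_pow, eval_X]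

@[simp] theorem ev_dmo (j x d : ℕ) :
    A.str.ev e (dmo j x d) = (derivative (X ^ d + pol e j d)).eval (A.str.ev e x) := by
  rw [dmo, ev_ta, ev_tm, ev_tp, ev_num, ev_dho, derivative_add, eval_add, derivative_X_pow]
  simp

@[simp] theorem sat_flt (a b : ℕ) : A.str.Sat (flt a b) e ↔
    A.O.valuation (A.str.ev e a) < A.O.valuation (A.str.ev e b) := by
  rw [flt, sat_fn, sat_fr, not_le]

@[simp] theorem sat_fqv (a b : ℕ) : A.str.Sat (fqv a b) e ↔
    A.O.valuation (A.str.ev e a) = A.O.valuation (A.str.ev e b) := by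
  rw [fqv, sat_fc, sat_fr, sat_fr, le_antisymm_iff]

theorem updB_congr {α : Type} (e : ℕ → α) (j n : ℕ) {c c' : ℕ → α} (h : ∀ i < n, c i = c' i) :
    updB e j n c = updB e j n c' := funext fun v => by
  unfold updB
  split_ifs with hv
  · exact h _ hv.2
  · rfl

theorem sat_allB (j φ n : ℕ) : A.str.Sat (allB j φ n) e ↔
    ∀ f : A.Ω[X], Cf (· ∈ A.M) n f → A.str.Sat φ (updB e j n f.coeff) := by
  rw [sat_allB']
  refine ⟨fun h f hf => h _ fun i _ => hf.2 i, fun h c hc => ?_⟩
  have hco : ∀ i, (∑ m ∈ Finset.range n, monomial m (c m)).coeff i = if i < n then c i else 0 :=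
    fun i => by
      rw [finsetSum_coeff]
      simp only [coeff_monomial, Finset.sum_ite_eq', Finset.mem_range]
  have := h (∑ m ∈ Finset.range n, monomial m (c m)) ⟨?_, fun i => ?_⟩
  · rwa [updB_congr e j n (c' := c) fun i hi => by rw [hco, if_pos hi]] at this
  · exact (degree_lt_iff_coeff_zero _ _).2 fun m hm => by rw [hco, if_neg (by omega)]
  · rw [hco]
    split_ifs with hi
    · exact hc i hi
    · exact A.M.zero_mem

theorem sat_exB (j φ n : ℕ) : A.str.Sat (exB j φ n) e ↔
    ∃ f : A.Ω[X], Cf (· ∈ A.M) n f ∧ A.str.Sat φ (updB e j n f.coeff) := by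
  rw [exB, sat_fn, sat_allB]
  simp only [sat_fn, not_forall, not_not, exists_prop]

theorem sat_intB (j n : ℕ) : A.str.Sat (intB j n) e ↔ ∀ i < n, e (Nat.pair j i) ∈ A.O := by
  simp [intB, ValuationSubring.valuation_le_one_iff]

theorem sat_fixB (p j n : ℕ) :
    A.str.Sat (fixB p j n) e ↔ ∀ i < n, e (Nat.pair j i) ^ p = e (Nat.pair j i) := by
  simp [fixB]

end

end Pool.Agent.PH
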