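import Pool.Agent.Work.MP_db9079_lc.PH.VD
import Mathlib.Algebra.Polynomial.Taylor

/-!
Cartier reduction of Artin-Schreier classes.

PLAN. Write `a` and the `e l` as combinations of the `e j ^ p` with coefficients in `k⟮x⟯`
(`IntermediateField.mem_adjoin_simple_iff`; a quotient with vanishing denominator is `0`), `Q` a common denominator:
`Q * e l = ∑ s l j * e j ^ p`, `Q * a = ∑ r j * e j ^ p` with polynomials in `x`. Fix `c`, `y = x - c`. Every `P : k[X]` is
`∑ i < p, P_i ^ p * (X - C c) ^ i` with `natDegree P_i ≤ natDegree P / p` (`CR_split`; reduce to `c = 0` by `taylor`/`comp`,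
take `p`-th roots of the coefficients). Let `U` be the set of sums `∑ i ∈ Ico 1 p, d i ^ p * y ^ i` with `d i ∈ T` (an additive
subgroup stable under multiplication by `λ ^ p`, `λ ∈ k`), `V` the `k`-span of the `x ^ i * e l / Q`, `i ≤ m`,
`m = p * natDegree Q + sup natDegree (s, r)`. For `b = a` or `b ∈ V` there is `b' ∈ V` with `b - b' ^ p ∈ U`
(`P * e l / Q = ∑ P * s l j * Q ^ (p - 2) * (e j / Q) ^ p`). Choose `u 0 = a`, `u (n + 1) = (u n)'`; `V` is finite dimensional, so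
`∑ i ∈ range N, q i * u (i + 1) = 0` with some `q i ≠ 0`. For `ξ ∈ k` put `x_(N+1) = 0`, `x_i = ξ q_(i-1) + x_(i+1) ^ p`; `x_1 ^ p` is the
nonconstant polynomial `∑ (ξ q_i) ^ p ^ (i+1)` in `ξ`; solve `x_1 ^ p = 1`; `f = ∑ x_i u_i`.
-/

namespace Pool.Agent.PH

open Polynomial IntermediateField

theorem CR_den {k F : Type*} [Field k] [Field F] [Algebra k F] {x : F} {κ : Type} [Fintype κ]
    (r : κ → F) (hr : ∀ i, r i ∈ k⟮x⟯) :
    ∃ Q : k[X], aeval x Q ≠ 0 ∧ ∃ s : κ → k[X], ∀ i, aeval x Q * r i = aeval x (s i) := by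
  classical
  have h : ∀ i, ∃ n d : k[X], aeval x d ≠ 0 ∧ aeval x d * r i = aeval x n := fun i => by
    obtain ⟨n, d, h⟩ := (mem_adjoin_simple_iff k (r i)).1 (hr i)
    by_cases hd : aeval x d = 0
    · exact ⟨0, 1, by simp, by simp [h, hd]⟩
    · exact ⟨n, d, hd, by rw [h]; field_simp⟩
  choose n d hd hn using h
  refine ⟨∏ i, d i, ?_, fun i => n i * ∏ j ∈ Finset.univ.erase i, d j, fun i => ?_⟩
  · rw [map_prod]
    exact Finset.prod_ne_zero_iff.2 fun i _ => hd i
  · rw [← Finset.mul_prod_erase _ _ (Finset.mem_univ i), map_mul, map_mul, ← hn]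
    ring

theorem CR_root {k : Type*} [Field k] [IsAlgClosed k] {p : ℕ} (hp : 1 < p) (s : Finset ℕ)
    (q : ℕ → k) (h : ∃ i ∈ s, q i ≠ 0) : ∃ ξ : k, ∑ i ∈ s, (ξ * q i) ^ p ^ (i + 1) = 1 := by
  obtain ⟨i, hi, hq⟩ := h
  have hc : (∑ j ∈ s, monomial (p ^ (j + 1)) (q j ^ p ^ (j + 1)) - C 1 : k[X]).coeff
      (p ^ (i + 1)) = q i ^ p ^ (i + 1) := by
    rw [coeff_sub, finsetSum_coeff, Finset.sum_eq_single_of_mem i hi, coeff_monomial, if_pos rfl,
      coeff_C, if_neg (by positivity), sub_zero]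
    intro j _ hj
    rw [coeff_monomial, if_neg]
    intro h
    exact hj (by simpa using Nat.pow_right_injective hp h)
  obtain ⟨ξ, hξ⟩ := IsAlgClosed.exists_root
    (∑ j ∈ s, monomial (p ^ (j + 1)) (q j ^ p ^ (j + 1)) - C 1 : k[X]) fun h0 => by
      rw [coeff_eq_zero_of_degree_lt (by
        rw [h0]
        exact_mod_cast (by positivity : 0 < p ^ (i + 1)))] at hc
      exact pow_ne_zero _ hq hc.symm
  refine ⟨ξ, ?_⟩
  rw [IsRoot.def, eval_sub, eval_finsetSum, eval_C, sub_eq_zero] at hξ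
  rw [← hξ]
  refine Finset.sum_congr rfl fun j _ => ?_
  rw [eval_monomial, mul_pow, mul_comm]

theorem CR_abs {k F : Type*} [Field k] [IsAlgClosed k] [Field F] [Algebra k F] (p : ℕ)
    [Fact p.Prime] [CharP F p] (V : Submodule k F) [FiniteDimensional k V] (U : AddSubgroup F)
    (hU : ∀ (c : k), ∀ u ∈ U, algebraMap k F c ^ p * u ∈ U)
    (hV : ∀ b ∈ V, ∃ b' ∈ V, b - b' ^ p ∈ U) {a : F} (ha : ∃ b' ∈ V, a - b' ^ p ∈ U) :
    ∃ f ∈ V, a - f ^ p + f ∈ U := by
  have hp : p.Prime := Fact.out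
  obtain ⟨a', ha', haa⟩ := ha
  choose g hg hgg using hV
  let G : V → V := fun b => ⟨g b b.2, hg b b.2⟩
  let u : ℕ → V := fun n => G^[n] ⟨a', ha'⟩
  have hu : ∀ n, (u n : F) - (u (n + 1) : F) ^ p ∈ U := fun n => by
    simp only [u, Function.iterate_succ_apply']
    exact hgg _ _
  have key : ∀ (i : ℕ) (q : k), ∃ f ∈ V,
      f - f ^ p - q • (u i : F) + algebraMap k F (q ^ p ^ (i + 1)) * a ∈ U := by
    intro i
    induction i with
    | zero =>
      intro q
      refine ⟨q • (u 0 : F), V.smul_mem _ (u 0).2, ?_⟩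
      convert hU q _ haa using 1
      simp only [u, Function.iterate_zero, id, Algebra.smul_def, map_pow]
      ring
    | succ i ih =>
      intro q
      obtain ⟨f, hf, h⟩ := ih (q ^ p)
      refine ⟨q • (u (i + 1) : F) + f, V.add_mem (V.smul_mem _ (u _).2) hf, ?_⟩
      convert U.add_mem h (hU q _ (hu i)) using 1
      rw [add_pow_char, ← pow_mul, ← pow_succ' p (i + 1)]
      simp only [Algebra.smul_def, map_pow]
      ring
  obtain ⟨s, q, hs, hq⟩ := not_linearIndependent_iff.1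
    (Module.Finite.not_linearIndependent_of_infinite (R := k) u)
  obtain ⟨ξ, hξ⟩ := CR_root hp.one_lt s q hq
  choose f hf hfU using fun i => key i (ξ * q i)
  refine ⟨∑ i ∈ s, f i, V.sum_mem fun i _ => hf i, ?_⟩
  have h0 : ∑ i ∈ s, (ξ * q i) • (u i : F) = 0 := by
    have := congrArg (fun v : V => ξ • (v : F)) hs
    simpa [Finset.smul_sum, mul_smul] using this
  convert U.sum_mem fun i (_ : i ∈ s) => hfU i using 1
  rw [Finset.sum_add_distrib, Finset.sum_sub_distrib, Finset.sum_sub_distrib, h0, ← Finset.sum_mul,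
    ← map_sum, hξ, sum_pow_char, map_one]
  ring

/-- Sums of `d ^ p * y ^ i` with `1 ≤ i < p` and `d ∈ T`. -/
def CR_U {F : Type*} [Field F] (p : ℕ) [Fact p.Prime] [CharP F p] (T : Subfield F) (y : F) :
    AddSubgroup F where
  carrier := {u | ∃ d : ℕ → F, (∀ i, d i ∈ T) ∧ u = ∑ i ∈ Finset.Ico 1 p, d i ^ p * y ^ i}
  zero_mem' := ⟨0, fun _ => T.zero_mem, by simp [(Fact.out : p.Prime).ne_zero]⟩
  add_mem' := by
    rintro _ _ ⟨d, hd, rfl⟩ ⟨d', hd', rfl⟩
    exact ⟨d + d', fun i => T.add_mem (hd i) (hd' i), by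
      simp [add_pow_char, add_mul, Finset.sum_add_distrib]⟩
  neg_mem' := by
    rintro _ ⟨d, hd, rfl⟩
    have h : ∀ b : F, (-b) ^ p = -b ^ p := fun b => by
      rw [neg_pow, neg_one_pow_char, neg_one_mul]
    exact ⟨-d, fun i => T.neg_mem (hd i), by simp [h]⟩

theorem CR_single {F : Type*} [Field F] (p : ℕ) [Fact p.Prime] [CharP F p] (T : Subfield F)
    (y : F) {d : F} (hd : d ∈ T) {i : ℕ} (hi : i ∈ Finset.Ico 1 p) :
    d ^ p * y ^ i ∈ CR_U p T y := by
  refine ⟨fun j => if j = i then d else 0, fun j => ?_, ?_⟩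
  · dsimp only
    split_ifs
    exacts [hd, T.zero_mem]
  · rw [Finset.sum_eq_single_of_mem i hi]
    · simp
    · intro j _ hj
      simp [hj, (Fact.out : p.Prime).ne_zero]

theorem cartier {k F : Type*} [Field k] [IsAlgClosed k] [Field F] [Algebra k F] (p : ℕ)
    [Fact p.Prime] [CharP k p] (T : Subfield F) (hk : ∀ a : k, algebraMap k F a ∈ T) {x : F}
    (hx : x ∈ T) {ι : Type} [Fintype ι] (e : ι → F) (he : ∀ l, e l ∈ T)
    (hspan : ∀ g ∈ T, ∃ r : ι → F, (∀ l, r l ∈ k⟮x⟯) ∧ g = ∑ l, r l * e l ^ p) {a : F}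
    (ha : a ∈ T) :
    ∃ Q : k[X], aeval x Q ≠ 0 ∧ ∀ c : k, ∃ (P : ι → k[X]) (d : ℕ → F) (f : F), (∀ i, d i ∈ T) ∧
      f = (∑ l, aeval x (P l) * e l) / aeval x Q ∧
      a - f ^ p + f = ∑ i ∈ Finset.Ico 1 p, d i ^ p * (x - algebraMap k F c) ^ i := by
  classical
  have hp : p.Prime := Fact.out
  have : CharP F p := charP_of_injective_algebraMap (algebraMap k F).injective p
  choose ρ hρ hρe using fun o : Option ι => hspan (o.elim a e) (by cases o <;> simp [ha, he])
  obtain ⟨Q, hQ, s, hs⟩ := CR_den (k := k) (fun z : Option ι × ι => ρ z.1 z.2) fun z => hρ _ _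
  refine ⟨Q, hQ, fun c => ?_⟩
  have hT : ∀ P : k[X], aeval x P ∈ T := fun P => by
    rw [aeval_eq_sum_range]
    exact T.sum_mem fun i _ => by
      rw [Algebra.smul_def]
      exact T.mul_mem (hk _) (T.pow_mem hx _)
  obtain ⟨y, hy⟩ : ∃ y, y = x - algebraMap k F c := ⟨_, rfl⟩
  have hyT : y ∈ T := hy ▸ T.sub_mem hx (hk c)
  have hy' : aeval x (X - C c) = y := by simp [hy]
  rw [← hy]
  obtain ⟨σ, hσ⟩ : ∃ σ, ∀ z, (s z).natDegree ≤ σ :=
    ⟨Finset.univ.sup fun z => (s z).natDegree, fun z =>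
      Finset.le_sup (f := fun z => (s z).natDegree) (Finset.mem_univ z)⟩
  obtain ⟨m, hm⟩ : ∃ m, m = σ + p * Q.natDegree := ⟨_, rfl⟩
  let V : Submodule k F := Submodule.span k
    (Set.range fun z : Fin (m + 1) × ι => y ^ (z.1 : ℕ) * (e z.2 / aeval x Q))
  have : FiniteDimensional k V := FiniteDimensional.span_of_finite k (Set.finite_range _)
  have hU : ∀ (c : k), ∀ u ∈ CR_U p T y, algebraMap k F c ^ p * u ∈ CR_U p T y := by
    rintro c _ ⟨d, hd, rfl⟩
    exact ⟨fun i => algebraMap k F c * d i, fun i => T.mul_mem (hk c) (hd i), by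
      simp [Finset.mul_sum, mul_pow, mul_assoc]⟩
  let Z : Submodule k F :=
    { carrier := {b | ∃ b' ∈ V, b - b' ^ p ∈ CR_U p T y}
      zero_mem' := ⟨0, V.zero_mem, by simp [hp.ne_zero]⟩
      add_mem' := by
        rintro b₁ b₂ ⟨v₁, h₁, g₁⟩ ⟨v₂, h₂, g₂⟩
        refine ⟨v₁ + v₂, V.add_mem h₁ h₂, ?_⟩
        convert (CR_U p T y).add_mem g₁ g₂ using 1
        rw [add_pow_char]
        ring
      smul_mem' := by
        rintro c b ⟨v, h, g⟩
        obtain ⟨μ, rfl⟩ := IsAlgClosed.exists_pow_nat_eq c hp.pos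
        refine ⟨μ • v, V.smul_mem _ h, ?_⟩
        convert hU μ _ g using 1
        simp only [Algebra.smul_def, map_pow]
        ring }
  have hpoly : ∀ (W : k[X]) (j : ι), W.natDegree ≤ p * m →
      aeval x W * (e j / aeval x Q) ^ p ∈ Z := by
    intro W j hW
    rw [← sum_taylor_eq W c, Polynomial.sum, map_sum, Finset.sum_mul]
    refine Z.sum_mem fun n hn => ?_
    have hn' : n ≤ p * m := (le_natDegree_of_mem_supp n hn).trans ((natDegree_taylor W c).le.trans hW)
    rw [map_mul, aeval_C, map_pow, hy', mul_assoc, ← Algebra.smul_def]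
    refine Z.smul_mem _ ?_
    have hdec : y ^ n * (e j / aeval x Q) ^ p =
        (y ^ (n / p) * (e j / aeval x Q)) ^ p * y ^ (n % p) := by
      conv_lhs => rw [← Nat.div_add_mod' n p]
      ring
    by_cases h0 : n % p = 0
    · refine ⟨y ^ (n / p) * (e j / aeval x Q), Submodule.subset_span
        ⟨(⟨n / p, Nat.lt_succ_of_le (Nat.div_le_of_le_mul hn')⟩, j), rfl⟩, ?_⟩
      rw [hdec, h0, pow_zero, mul_one, sub_self]
      exact zero_mem _
    · refine ⟨0, V.zero_mem, ?_⟩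
      rw [hdec, zero_pow hp.ne_zero, sub_zero]
      exact CR_single p T y (T.mul_mem (T.pow_mem hyT _) (T.div_mem (he j) (hT Q)))
        (Finset.mem_Ico.2 ⟨Nat.pos_of_ne_zero h0, Nat.mod_lt _ hp.pos⟩)
  obtain ⟨p', rfl⟩ : ∃ p', p = p' + 2 := ⟨p - 2, by have := hp.two_le; omega⟩
  have hρ' : ∀ o j, ρ o j = aeval x (s (o, j)) / aeval x Q := fun o j => by
    rw [← hs (o, j)]
    field_simp
  have hV : V ≤ Z := by
    refine Submodule.span_le.2 ?_
    rintro _ ⟨⟨i, l⟩, rfl⟩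
    have h1 : e l = ∑ j, ρ (some l) j * e j ^ (p' + 2) := hρe (some l)
    have h2 : y ^ (i : ℕ) * (e l / aeval x Q) =
        ∑ j, aeval x ((X - C c) ^ (i : ℕ) * s (some l, j) * Q ^ p') *
          (e j / aeval x Q) ^ (p' + 2) := by
      conv_lhs => rw [h1, div_eq_mul_inv, Finset.sum_mul, Finset.mul_sum]
      refine Finset.sum_congr rfl fun j _ => ?_
      rw [map_mul, map_mul, map_pow, map_pow, hy', hρ', div_pow]
      field_simp
      ring
    show y ^ (i : ℕ) * (e l / aeval x Q) ∈ Z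
    rw [h2]
    refine Z.sum_mem fun j _ => hpoly _ j ?_
    have a1 := natDegree_mul_le (p := (X - C c) ^ (i : ℕ) * s (some l, j)) (q := Q ^ p')
    have a2 := natDegree_mul_le (p := (X - C c) ^ (i : ℕ)) (q := s (some l, j))
    have a3 := natDegree_pow_le (p := (X - C c : k[X])) (n := (i : ℕ))
    have a4 := natDegree_pow_le (p := Q) (n := p')
    have a5 := hσ (some l, j)
    have a6 := Nat.lt_succ_iff.1 i.2
    rw [natDegree_X_sub_C] at a3
    nlinarith [Nat.zero_le (p' * m), Nat.zero_le Q.natDegree]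
  have haZ : a ∈ Z := by
    have h1 : a = ∑ j, ρ none j * e j ^ (p' + 2) := hρe none
    have h2 : a = ∑ j, aeval x (s (none, j) * Q ^ (p' + 1)) * (e j / aeval x Q) ^ (p' + 2) := by
      rw [h1]
      refine Finset.sum_congr rfl fun j _ => ?_
      rw [map_mul, map_pow, hρ', div_pow]
      field_simp
      ring
    rw [h2]
    refine Z.sum_mem fun j _ => hpoly _ j ?_
    have a1 := natDegree_mul_le (p := s (none, j)) (q := Q ^ (p' + 1))
    have a4 := natDegree_pow_le (p := Q) (n := p' + 1)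
    have a5 := hσ (none, j)
    nlinarith [Nat.zero_le (p' * m), Nat.zero_le Q.natDegree, Nat.zero_le m]
  obtain ⟨f, hf, d, hd, hfd⟩ := CR_abs (p' + 2) V (CR_U (p' + 2) T y) hU (fun b hb => hV hb) haZ
  have hP : ∃ P : ι → k[X], f = (∑ l, aeval x (P l) * e l) / aeval x Q := by
    clear hfd
    induction hf using Submodule.span_induction with
    | mem _ h =>
      obtain ⟨⟨i, l⟩, rfl⟩ := h
      refine ⟨Pi.single l ((X - C c) ^ (i : ℕ)), ?_⟩
      rw [Finset.sum_eq_single_of_mem l (Finset.mem_univ l), Pi.single_eq_same, map_pow, hy',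
        mul_div_assoc]
      intro j _ hj
      simp [Pi.single_eq_of_ne hj]
    | zero => exact ⟨0, by simp⟩
    | add _ _ _ _ h₁ h₂ =>
      obtain ⟨P₁, rfl⟩ := h₁
      obtain ⟨P₂, rfl⟩ := h₂
      exact ⟨P₁ + P₂, by simp [add_mul, Finset.sum_add_distrib, add_div]⟩
    | smul r _ _ h =>
      obtain ⟨P, rfl⟩ := h
      exact ⟨fun l => C r * P l, by
        rw [Algebra.smul_def, ← mul_div_assoc, Finset.mul_sum]
        simp [mul_assoc]⟩
  obtain ⟨P, hP⟩ := hP
  exact ⟨P, d, f, hd, hP, hfd⟩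

end Pool.Agent.PH
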