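import Pool.Agent.Work.MP_db9079_lc.PH.V3

/-!
Independence of `p`-th powers at a value-transcendental generator.

PLAN. `vt_sum`: the nonzero terms `d i ^ p * y ^ i`, `i < p`, have pairwise distinct values (`vt_zpow`), so the sum has the
value of one of them. `as_dich`: put `B = z ^ p - z`; if `B ≠ 0`, `v B = v (d i ^ p * y ^ i)` with `1 ≤ i < p`, which is not `1`; if
`1 < v B` then `v z ^ p = v B`, impossible by `vt_zpow`. `ind_li`: clear denominators, split each polynomial coefficient as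
`∑ i < p, r_i ^ p * X ^ i` (`k` is perfect), regroup and use `vt_sum`. `sep_of_gen`: if the minpoly `μ` is not separable then
`μ = expand p ν`; apply `ind_li` to the powers `g ^ j`, `j ≤ natDegree ν < natDegree μ` (`linearIndependent_pow` or
`minpoly.min`). `span_pow`: a basis `e` of `T` over `k⟮y⟯`; the `e l ^ p` are independent, hence a basis.
-/

namespace Pool.Agent.PH

open Polynomial IntermediateField

variable {k F : Type*} [Field k] [IsAlgClosed k] [Field F] [Algebra k F] (p : ℕ) [Fact p.Prime]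
  [CharP k p] {O : ValuationSubring F} {y : F}

omit [Fact p.Prime] [CharP k p] in
theorem CRb_dvd (hy : VT k O y) {g h : F} (hg : GenV k O y {g}) (hh : GenV k O y {h})
    (g0 : g ≠ 0) (h0 : h ≠ 0) {i j : ℕ}
    (e : O.valuation (g ^ p * y ^ i) = O.valuation (h ^ p * y ^ j)) :
    (p : ℤ) ∣ (i : ℤ) - j := by
  obtain ⟨a, m, ha⟩ := hg g rfl g0
  obtain ⟨b, n, hb⟩ := hh h rfl h0
  have y0 : O.valuation y ≠ 0 := by simpa using hy.ne_zero
  have a0 : O.valuation (algebraMap k F a) ≠ 0 := by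
    intro h1
    rw [map_mul, h1, zero_mul] at ha
    exact g0 (by simpa using ha)
  by_contra hne
  have hj : (m * p + i - (n * p + j) : ℤ) ≠ 0 := by
    intro h1
    exact hne ⟨n - m, by linear_combination h1⟩
  refine vt_zpow hy hj (b ^ p / a ^ p) ?_
  simp only [map_mul, map_pow, ha, hb, map_zpow₀, mul_pow] at e
  simp only [map_zpow₀, map_div₀, map_pow]
  rw [zpow_sub₀ y0, zpow_add₀ y0, zpow_add₀ y0, zpow_mul, zpow_mul, zpow_natCast, zpow_natCast,
    zpow_natCast, zpow_natCast,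
    div_eq_div_iff (mul_ne_zero (pow_ne_zero _ (zpow_ne_zero _ y0)) (pow_ne_zero _ y0))
      (pow_ne_zero _ a0), mul_comm, ← mul_assoc, e, mul_assoc]

omit [IsAlgClosed k] [Fact p.Prime] [CharP k p] in
theorem CRb_mono {S S' : Set F} (h : GenV k O y S') (hS : S ⊆ S') : GenV k O y S :=
  fun g hg => h g (hS hg)

theorem CRb_poly (y : F) (f : k[X]) :
    ∃ r : ℕ → F, (∀ i, r i ∈ k⟮y⟯) ∧ aeval y f = ∑ i ∈ Finset.range p, r i ^ p * y ^ i := by
  have hp : p.Prime := Fact.out
  have : CharP F p := charP_of_injective_algebraMap (algebraMap k F).injective p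
  induction f using Polynomial.induction_on' with
  | add f g hf hg =>
    obtain ⟨r, hr, e⟩ := hf
    obtain ⟨t, ht, e'⟩ := hg
    refine ⟨fun i => r i + t i, fun i => add_mem (hr i) (ht i), ?_⟩
    rw [map_add, e, e', ← Finset.sum_add_distrib]
    refine Finset.sum_congr rfl fun i _ => ?_
    rw [add_pow_char, add_mul]
  | monomial n a =>
    obtain ⟨b, hb⟩ := IsAlgClosed.exists_pow_nat_eq a hp.pos
    refine ⟨fun i => if i = n % p then algebraMap k F b * y ^ (n / p) else 0, fun i => ?_, ?_⟩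
    · dsimp only
      split_ifs
      · exact mul_mem (IntermediateField.algebraMap_mem _ b)
          (pow_mem (mem_adjoin_simple_self k y) _)
      · exact zero_mem _
    · dsimp only
      rw [Finset.sum_eq_single (n % p)]
      · rw [if_pos rfl, aeval_monomial, mul_pow, ← map_pow, hb, ← pow_mul, mul_assoc, ← pow_add,
          Nat.div_add_mod']
      · intro i _ hi
        rw [if_neg hi, zero_pow hp.ne_zero, zero_mul]
      · intro h
        exact absurd (Finset.mem_range.mpr (Nat.mod_lt _ hp.pos)) h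

theorem CRb_split {c : F} (hc : c ∈ k⟮y⟯) :
    ∃ r : ℕ → F, (∀ i, r i ∈ k⟮y⟯) ∧ c = ∑ i ∈ Finset.range p, r i ^ p * y ^ i := by
  have hp : p.Prime := Fact.out
  obtain ⟨f, g, rfl⟩ := (IntermediateField.mem_adjoin_simple_iff k c).mp hc
  by_cases hg : aeval y g = 0
  · refine ⟨fun _ => 0, fun _ => zero_mem _, ?_⟩
    simp [hg, hp.ne_zero]
  obtain ⟨r, hr, e⟩ := CRb_poly p y (f * g ^ (p - 1))
  have hgm : aeval y g ∈ k⟮y⟯ :=
    (IntermediateField.mem_adjoin_simple_iff k _).mpr ⟨g, 1, by simp⟩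
  refine ⟨fun i => r i / aeval y g, fun i => div_mem (hr i) hgm, ?_⟩
  have e2 : ∑ i ∈ Finset.range p, (r i / aeval y g) ^ p * y ^ i =
      (∑ i ∈ Finset.range p, r i ^ p * y ^ i) / aeval y g ^ p := by
    rw [Finset.sum_div]
    refine Finset.sum_congr rfl fun i _ => ?_
    rw [div_pow, div_mul_eq_mul_div]
  rw [e2, ← e, map_mul, map_pow, div_eq_div_iff hg (pow_ne_zero _ hg), mul_assoc, ← pow_succ,
    Nat.sub_add_cancel hp.pos]

theorem vt_sum (hy : VT k O y) (s : Finset ℕ) (hs : ∀ i ∈ s, i < p) (d : ℕ → F)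
    (hd : GenV k O y (Set.range d)) (h : ∃ i ∈ s, d i ≠ 0) :
    ∃ i ∈ s, d i ≠ 0 ∧ O.valuation (∑ i ∈ s, d i ^ p * y ^ i) = O.valuation (d i ^ p * y ^ i) := by
  classical
  have hp : p.Prime := Fact.out
  obtain ⟨i₀, hi₀, h₀⟩ := h
  obtain ⟨i, hi, hmax⟩ := Finset.exists_max_image (s.filter fun i => d i ≠ 0)
    (fun i => O.valuation (d i ^ p * y ^ i)) ⟨i₀, Finset.mem_filter.mpr ⟨hi₀, h₀⟩⟩
  obtain ⟨his, hi0⟩ := Finset.mem_filter.mp hi
  refine ⟨i, his, hi0, O.valuation.map_sum_eq_of_lt (f := fun i => d i ^ p * y ^ i) his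
    fun j hj => ?_⟩
  obtain ⟨hjs, hji⟩ := Finset.mem_sdiff.mp hj
  have hji' : j ≠ i := by simpa using hji
  by_cases hj0 : d j = 0
  · rw [hj0, zero_pow hp.ne_zero, zero_mul, map_zero, zero_lt_iff]
    simpa using mul_ne_zero (pow_ne_zero p hi0) (pow_ne_zero i hy.ne_zero)
  · refine lt_of_le_of_ne (hmax j (Finset.mem_filter.mpr ⟨hjs, hj0⟩)) fun e => hji' ?_
    have h1 := CRb_dvd p hy (CRb_mono hd (by simp)) (CRb_mono hd (by simp)) hj0 hi0 e
    have h2 := hs j hjs
    have h3 := hs i his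
    have h4 := Int.eq_zero_of_abs_lt_dvd h1 (by rw [abs_lt]; constructor <;> omega)
    omega

theorem as_dich (hy : VT k O y) (d : ℕ → F) (hd : GenV k O y (Set.range d)) {z : F}
    (hz : z ^ p - z = ∑ i ∈ Finset.Ico 1 p, d i ^ p * y ^ i) (hzv : GenV k O y {z}) :
    O.valuation (z ^ p - z) < 1 := by
  have hp : p.Prime := Fact.out
  by_cases h : ∃ i ∈ Finset.Ico 1 p, d i ≠ 0
  · obtain ⟨i, hi, hi0, e⟩ := vt_sum p hy _ (fun i hi => (Finset.mem_Ico.mp hi).2) d hd h
    rw [← hz] at e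
    obtain ⟨h1, h2⟩ := Finset.mem_Ico.mp hi
    have key : ∀ g : F, GenV k O y {g} → g ≠ 0 →
        O.valuation (z ^ p - z) ≠ O.valuation (g ^ p) := by
      intro g hg g0 e'
      have h3 := CRb_dvd p hy (CRb_mono hd (by simp)) hg hi0 g0 (i := i) (j := 0)
        (by rw [← e, e', pow_zero, mul_one])
      have h4 := Int.eq_zero_of_abs_lt_dvd h3 (by rw [abs_lt]; constructor <;> omega)
      omega
    by_contra hlt
    rcases (not_lt.mp hlt).eq_or_lt with h3 | h3
    · refine key 1 ?_ one_ne_zero (by rw [← h3, one_pow, map_one])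
      rintro g rfl _
      exact ⟨1, 0, by simp⟩
    · have hz1 : 1 < O.valuation z := by
        by_contra h4
        have h5 := not_lt.mp h4
        have h6 : O.valuation (z ^ p - z) ≤ 1 :=
          O.valuation.map_sub_le (by rw [map_pow]; exact pow_le_one₀ zero_le h5) h5
        exact absurd h3 (not_lt.mpr h6)
      have z0 : z ≠ 0 := by
        rintro rfl
        simp at hz1
      refine key z hzv z0 (O.valuation.map_sub_eq_of_lt_left ?_)
      rw [map_pow]
      exact lt_self_pow₀ hz1 hp.one_lt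
  · push Not at h
    rw [hz, Finset.sum_eq_zero fun i hi => by rw [h i hi, zero_pow hp.ne_zero, zero_mul]]
    simp

theorem ind_li (hy : VT k O y) (T : IntermediateField k⟮y⟯ F) (hT : GenV k O y T) {ι : Type*}
    (e : ι → F) (he : ∀ l, e l ∈ T) (h : LinearIndependent k⟮y⟯ e) :
    LinearIndependent k⟮y⟯ fun l => e l ^ p := by
  have hp : p.Prime := Fact.out
  have : CharP F p := charP_of_injective_algebraMap (algebraMap k F).injective p
  rw [linearIndependent_iff'] at h ⊢
  intro s c hc l hl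
  choose r hr e' using fun l => CRb_split p (c l).2
  let d : ℕ → F := fun i => ∑ l ∈ s, r l i * e l
  have hd : ∀ i, d i ∈ T := fun i => sum_mem fun l _ =>
    mul_mem (T.algebraMap_mem ⟨r l i, hr l i⟩) (he l)
  have hsum : ∑ i ∈ Finset.range p, d i ^ p * y ^ i = 0 := by
    rw [← hc]
    simp only [d, sum_pow_char, Finset.sum_mul]
    rw [Finset.sum_comm]
    refine Finset.sum_congr rfl fun l _ => ?_
    have : c l • e l ^ p = (c l : F) * e l ^ p := rfl
    rw [this, e' l, Finset.sum_mul]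
    refine Finset.sum_congr rfl fun i _ => ?_
    ring
  have hd0 : ∀ i ∈ Finset.range p, d i = 0 := by
    by_contra hne
    push Not at hne
    obtain ⟨i, -, hi0, e⟩ := vt_sum p hy _ (fun i hi => Finset.mem_range.mp hi) d
      (CRb_mono hT (by rintro _ ⟨i, rfl⟩; exact hd i)) hne
    rw [hsum, map_zero] at e
    exact mul_ne_zero (pow_ne_zero p hi0) (pow_ne_zero i hy.ne_zero) (by simpa using e.symm)
  have hr0 : ∀ i ∈ Finset.range p, r l i = 0 := fun i hi =>
    congrArg Subtype.val (h s (fun l => ⟨r l i, hr l i⟩) (hd0 i hi) l hl)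
  apply Subtype.ext
  rw [e' l, Finset.sum_eq_zero fun i hi => by rw [hr0 i hi, zero_pow hp.ne_zero, zero_mul]]
  rfl

theorem sep_of_gen (hy : VT k O y) {g : F} (hg : IsAlgebraic k⟮y⟯ g)
    (hT : GenV k O y (k⟮y⟯⟮g⟯ : IntermediateField k⟮y⟯ F)) : IsSeparable k⟮y⟯ g := by
  obtain ⟨p, hchar⟩ := CharP.exists k
  have : CharP k⟮y⟯ p := charP_of_injective_algebraMap (algebraMap k k⟮y⟯).injective p
  have hi := hg.isIntegral
  rcases separable_or p (minpoly.irreducible hi) with h | ⟨-, ν, hν, e⟩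
  · exact h
  exfalso
  have hp : p.Prime := by
    refine (CharP.char_is_prime_or_zero k p).resolve_right fun h0 => ?_
    have h1 := natDegree_expand p ν
    rw [e, h0, mul_zero] at h1
    exact (minpoly.natDegree_pos hi).ne' h1
  have : Fact p.Prime := ⟨hp⟩
  have hli := ind_li p hy _ hT (fun i : Fin (minpoly k⟮y⟯ g).natDegree => g ^ (i : ℕ))
    (fun i => pow_mem (mem_adjoin_simple_self _ g) _) (linearIndependent_pow g)
  have hpos := minpoly.natDegree_pos hi
  have hdeg : ν.natDegree < (minpoly k⟮y⟯ g).natDegree := by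
    have h1 := natDegree_expand p ν
    rw [e] at h1
    have h2 := hp.one_lt
    rw [h1] at hpos ⊢
    exact lt_mul_of_one_lt_right (Nat.pos_of_mul_pos_right hpos) h2
  have h0 : aeval (g ^ p) ν = 0 := by rw [← expand_aeval, e, minpoly.aeval]
  rw [aeval_eq_sum_range' hdeg, Finset.sum_range] at h0
  have h1 := Fintype.linearIndependent_iff.mp hli (fun i => ν.coeff i)
    (by simpa only [← pow_mul, mul_comm p] using h0)
  exact hν.ne_zero (leadingCoeff_eq_zero.mp (h1 ⟨_, hdeg⟩))

theorem span_pow (hy : VT k O y) (T : IntermediateField k⟮y⟯ F) [FiniteDimensional k⟮y⟯ T]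
    (hT : GenV k O y T) : ∃ (n : ℕ) (e : Fin n → F), (∀ l, e l ∈ T) ∧
      ∀ g ∈ T, ∃ r : Fin n → F, (∀ l, r l ∈ k⟮y⟯) ∧ g = ∑ l, r l * e l ^ p := by
  let b := Module.finBasis k⟮y⟯ T
  have h1 : LinearIndependent k⟮y⟯ fun l => (b l : F) :=
    b.linearIndependent.map' T.val.toLinearMap (LinearMap.ker_eq_bot.mpr Subtype.val_injective)
  have h2 := ind_li p hy T hT _ (fun l => (b l).2) h1
  have h3 : LinearIndependent k⟮y⟯ fun l => b l ^ p :=
    LinearIndependent.of_comp T.val.toLinearMap h2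
  have h4 := h3.span_eq_top_of_card_eq_finrank' (by simp)
  refine ⟨_, fun l => (b l : F), fun l => (b l).2, fun g hg => ?_⟩
  have h5 : (⟨g, hg⟩ : T) ∈ Submodule.span k⟮y⟯ (Set.range fun l => b l ^ p) := by
    rw [h4]; trivial
  obtain ⟨c, hc⟩ := (Submodule.mem_span_range_iff_exists_fun _).mp h5
  refine ⟨fun l => c l, fun l => (c l).2, ?_⟩
  have h6 := congrArg T.val hc
  rw [map_sum] at h6
  exact h6.symm

end Pool.Agent.PH
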