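import Pool.Agent.Work.MP_db9079_lc.PH.DD
import Pool.Agent.Work.MP_db9079_lc.PH.V3

/-!
Rational functions near an immediate place.

PLAN. `y = x - c`. Values of constants compare in the same way for `O` and `O₁` (`VP.le` for `O.comap`, `algebraMap`). For `a : k`:
if `v y < v (x - a)` (far) then `v (c - a) = v (x - a) > v r`, so `(x - a) / (c - a) - 1 = y / (c - a)` is small for `O` and `O₁`; otherwise
`v (c - a) ≤ v r`, so `v₁ (x - a) = v₁ y`. All statements follow by `rat_ind` (for `near_mp` factor `P` and `Q` over `k`: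
`v (P x) = v μ` with `v₁ μ ≤ v₁ (P x)` by `himm`, and `v (Q x) = v ν`, `v₁ (Q x) = v₁ ν`). `near_rat`: property
`∃ A, ∀ c r O₁, Near → Far A → ∃ λ ≠ 0, v (h / λ - 1) < 1 ∧ v₁ (h / λ - 1) < 1`. `near_loc`: property
`∃ λ ≠ 0, ∃ n, π ^ n * h / λ` and `π ^ n * λ / h` lie in `O` and in `O₁` (near `a`: `λ = r`, `v₁ y < v₁ (r / π)` by `hi`).
`near_inv`: `τ (x - a) = x - b` where `τ a = b`, `v (x - b) = v (x - a)`. `exists_far`: take `a₀ ∈ A` minimizing `v (x - a)` and apply `himm` to
`x - a₀`; `r` from `himm` again.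
-/

namespace Pool.Agent.PH

open Polynomial IntermediateField

variable {k E : Type*} [Field k] [IsAlgClosed k] [Field E] [Algebra k E] {O : ValuationSubring E}
  {x : E}

omit [IsAlgClosed k] in
theorem D1_le {O₁ : ValuationSubring E} {c r : k} (h : Near O O₁ x c r) (a b : k) :
    O₁.valuation (algebraMap k E a) ≤ O₁.valuation (algebraMap k E b) ↔
      O.valuation (algebraMap k E a) ≤ O.valuation (algebraMap k E b) :=
  (VP.le (O := O.comap (algebraMap k E)) (O' := O₁) (φ := algebraMap k E) h.agree a b).trans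
    ((vp_comap O (algebraMap k E)).le a b).symm

omit [IsAlgClosed k] in
theorem D1_lt {O₁ : ValuationSubring E} {c r : k} (h : Near O O₁ x c r) (a b : k) :
    O₁.valuation (algebraMap k E a) < O₁.valuation (algebraMap k E b) ↔
      O.valuation (algebraMap k E a) < O.valuation (algebraMap k E b) := by
  rw [← not_le, ← not_le, D1_le h]

omit [IsAlgClosed k] in
theorem D1_eq {O₁ : ValuationSubring E} {c r : k} (h : Near O O₁ x c r) (a b : k) :
    O₁.valuation (algebraMap k E a) = O₁.valuation (algebraMap k E b) ↔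
      O.valuation (algebraMap k E a) = O.valuation (algebraMap k E b) := by
  rw [le_antisymm_iff, le_antisymm_iff, D1_le h, D1_le h]

omit [IsAlgClosed k] in
theorem D1_lt_one {O₁ : ValuationSubring E} {c r : k} (h : Near O O₁ x c r) (a : k) :
    O₁.valuation (algebraMap k E a) < 1 ↔ O.valuation (algebraMap k E a) < 1 := by
  simpa using D1_lt h a 1

omit [IsAlgClosed k] in
theorem D1_pos (O : ValuationSubring E) {a : k} (ha : a ≠ 0) :
    0 < O.valuation (algebraMap k E a) :=
  zero_lt_iff.2 (O.valuation.ne_zero_iff.2 ((_root_.map_ne_zero _).2 ha))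

omit [IsAlgClosed k] in
theorem D1_far {O₁ : ValuationSubring E} {c r a : k} (h : Near O O₁ x c r)
    (ha : O.valuation (x - algebraMap k E c) < O.valuation (x - algebraMap k E a)) :
    O.valuation (x - algebraMap k E a - algebraMap k E (c - a)) <
        O.valuation (x - algebraMap k E a) ∧
      O₁.valuation (x - algebraMap k E a - algebraMap k E (c - a)) <
        O₁.valuation (x - algebraMap k E a) := by
  have e1 : x - algebraMap k E a - algebraMap k E (c - a) = x - algebraMap k E c := by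
    rw [map_sub]; ring
  have h1 : O.valuation (x - algebraMap k E a - algebraMap k E (c - a)) <
      O.valuation (x - algebraMap k E a) := by rwa [e1]
  refine ⟨h1, ?_⟩
  have h2 := V3_eq h1
  have h3 := h.hi (c - a) (by rw [h2, ← h.rad]; exact ha)
  have e2 : x - algebraMap k E a = (x - algebraMap k E c) + algebraMap k E (c - a) := by
    rw [map_sub]; ring
  rw [e1, e2, O₁.valuation.map_add_eq_of_lt_right h3]
  exact h3

omit [IsAlgClosed k] in
theorem D1_near {O₁ : ValuationSubring E} {c r a : k} (h : Near O O₁ x c r)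
    (ha : O.valuation (x - algebraMap k E a) ≤ O.valuation (x - algebraMap k E c)) :
    O₁.valuation (x - algebraMap k E a) = O₁.valuation (x - algebraMap k E c) := by
  have e1 : algebraMap k E (c - a) = (x - algebraMap k E a) - (x - algebraMap k E c) := by
    rw [map_sub]; ring
  have h1 : O.valuation (algebraMap k E (c - a)) ≤ O.valuation (algebraMap k E r) := by
    rw [e1, ← h.rad]
    exact O.valuation.map_sub_le ha le_rfl
  have h2 := ((D1_le h _ _).2 h1).trans_lt h.lo
  have e2 : x - algebraMap k E a = (x - algebraMap k E c) + algebraMap k E (c - a) := by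
    rw [map_sub]; ring
  rw [e2, O₁.valuation.map_add_eq_of_lt_left h2]

theorem D1_poly_ind (P : E → Prop) (hc : ∀ a : k, a ≠ 0 → P (algebraMap k E a))
    (hl : ∀ a : k, x ≠ algebraMap k E a → P (x - algebraMap k E a))
    (hm : ∀ g h, P g → P h → P (g * h)) (p : k[X]) : aeval x p ≠ 0 → P (aeval x p) := by
  have h1 : ∀ s : Multiset k, aeval x (s.map fun a => X - C a).prod ≠ 0 →
      P (aeval x (s.map fun a => X - C a).prod) := by
    intro s
    induction s using Multiset.induction_on with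
    | empty => intro _; simpa using hc 1 one_ne_zero
    | cons a s ih =>
      rw [Multiset.map_cons, Multiset.prod_cons, map_mul, map_sub, aeval_X, aeval_C]
      exact fun h => hm _ _ (hl a (sub_ne_zero.1 (left_ne_zero_of_mul h)))
        (ih (right_ne_zero_of_mul h))
  rw [(IsAlgClosed.splits p).eq_prod_roots, map_mul, aeval_C]
  exact fun h => hm _ _ (hc _ fun e => left_ne_zero_of_mul h (by rw [e, map_zero]))
    (h1 _ (right_ne_zero_of_mul h))

theorem D1_rat {g : E} (hg : g ∈ k⟮x⟯) (h0 : g ≠ 0) :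
    ∃ A : Finset k, ∀ (c r : k) (O₁ : ValuationSubring E), Near O O₁ x c r → Far O x A c →
      ∃ l : k, O.valuation (g - algebraMap k E l) < O.valuation g ∧
        O₁.valuation (g - algebraMap k E l) < O₁.valuation g := by
  classical
  refine rat_ind (fun g => ∃ A : Finset k, ∀ (c r : k) (O₁ : ValuationSubring E),
    Near O O₁ x c r → Far O x A c → ∃ l : k, O.valuation (g - algebraMap k E l) < O.valuation g ∧
      O₁.valuation (g - algebraMap k E l) < O₁.valuation g) ?_ ?_ ?_ ?_ hg h0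
  · intro a ha
    refine ⟨∅, fun c r O₁ _ _ => ⟨a, ?_, ?_⟩⟩
    · rw [sub_self, map_zero]; exact D1_pos O ha
    · rw [sub_self, map_zero]; exact D1_pos O₁ ha
  · intro a _
    exact ⟨{a}, fun c r O₁ h hf => ⟨c - a, D1_far h (hf a (Finset.mem_singleton_self a))⟩⟩
  · rintro g g' ⟨A, hA⟩ ⟨B, hB⟩
    refine ⟨A ∪ B, fun c r O₁ h hf => ?_⟩
    obtain ⟨l, h1, h2⟩ := hA c r O₁ h fun a ha => hf a (Finset.mem_union_left _ ha)
    obtain ⟨m, h3, h4⟩ := hB c r O₁ h fun a ha => hf a (Finset.mem_union_right _ ha)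
    exact ⟨l * m, by rw [map_mul (algebraMap k E)]; exact V3_mul h1 h3,
      by rw [map_mul (algebraMap k E)]; exact V3_mul h2 h4⟩
  · rintro g ⟨A, hA⟩
    refine ⟨A, fun c r O₁ h hf => ?_⟩
    obtain ⟨l, h1, h2⟩ := hA c r O₁ h hf
    exact ⟨l⁻¹, by rw [map_inv₀ (algebraMap k E)]; exact V3_inv h1,
      by rw [map_inv₀ (algebraMap k E)]; exact V3_inv h2⟩

theorem exists_far (hx : ∀ a : k, x ≠ algebraMap k E a) (himm : Imm k O Set.univ) (A : Finset k) :
    ∃ c r : k, Far O x A c ∧ r ≠ 0 ∧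
      O.valuation (x - algebraMap k E c) = O.valuation (algebraMap k E r) := by
  classical
  obtain ⟨a₀, -, hmin⟩ := Finset.exists_min_image (insert 0 A)
    (fun a => O.valuation (x - algebraMap k E a)) (Finset.insert_nonempty _ _)
  obtain ⟨b, hb⟩ := himm _ (Set.mem_univ _) (sub_ne_zero.2 (hx a₀))
  obtain ⟨r, hr⟩ := himm _ (Set.mem_univ _) (sub_ne_zero.2 (hx (a₀ + b)))
  have h1 := V3_eq hr
  refine ⟨a₀ + b, r, fun a ha => ?_, ?_, h1.symm⟩
  · rw [map_add, ← sub_sub]
    exact hb.trans_le (hmin a (Finset.mem_insert_of_mem ha))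
  · rintro rfl
    rw [map_zero, sub_zero] at hr
    exact lt_irrefl _ hr

theorem near_vt {O₁ : ValuationSubring E} {c r : k} (h : Near O O₁ x c r) :
    VT k O₁ (x - algebraMap k E c) := by
  intro a
  rcases lt_or_ge (O.valuation (algebraMap k E r)) (O.valuation (algebraMap k E a)) with h1 | h1
  · exact (h.hi a h1).ne
  · exact (((D1_le h _ _).2 h1).trans_lt h.lo).ne'

theorem near_rat {g : E} (hg : g ∈ k⟮x⟯) (h1 : O.valuation g < 1) :
    ∃ A : Finset k, ∀ (c r : k) (O₁ : ValuationSubring E), Near O O₁ x c r → Far O x A c →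
      O₁.valuation g < 1 := by
  by_cases h0 : g = 0
  · exact ⟨∅, fun c r O₁ _ _ => by rw [h0, map_zero]; exact zero_lt_one⟩
  obtain ⟨A, hA⟩ := D1_rat (O := O) hg h0
  refine ⟨A, fun c r O₁ h hf => ?_⟩
  obtain ⟨l, h2, h3⟩ := hA c r O₁ h hf
  rw [← V3_eq h3, D1_lt_one h, V3_eq h2]
  exact h1

theorem near_mp (himm : Imm k O Set.univ) {Q : k[X]} (hQ : aeval x Q ≠ 0) :
    ∃ A : Finset k, ∀ (c r : k) (O₁ : ValuationSubring E), Near O O₁ x c r → Far O x A c →
      ∀ (P : k[X]) (n : ℕ), O₁.valuation (aeval x P / aeval x Q ^ n) < 1 →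
        O.valuation (aeval x P / aeval x Q ^ n) < 1 := by
  have hmem : aeval x Q ∈ k⟮x⟯ :=
    (mem_adjoin_simple_iff k _).2 ⟨Q, 1, by rw [map_one, div_one]⟩
  obtain ⟨A, hA⟩ := D1_rat (O := O) hmem hQ
  refine ⟨A, fun c r O₁ h hf P n hP => ?_⟩
  obtain ⟨l, h2, h3⟩ := hA c r O₁ h hf
  by_cases h0 : aeval x P = 0
  · rw [h0, zero_div, map_zero]; exact zero_lt_one
  obtain ⟨m, h4, h5⟩ : ∃ m : k, O.valuation (aeval x P) = O.valuation (algebraMap k E m) ∧
      O₁.valuation (algebraMap k E m) ≤ O₁.valuation (aeval x P) := by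
    refine D1_poly_ind (fun g => ∃ m : k, O.valuation g = O.valuation (algebraMap k E m) ∧
      O₁.valuation (algebraMap k E m) ≤ O₁.valuation g) ?_ ?_ ?_ P h0
    · exact fun a _ => ⟨a, rfl, le_rfl⟩
    · intro a ha
      rcases lt_or_ge (O.valuation (x - algebraMap k E c)) (O.valuation (x - algebraMap k E a))
        with h6 | h6
      · obtain ⟨h7, h8⟩ := D1_far h h6
        exact ⟨c - a, (V3_eq h7).symm, (V3_eq h8).le⟩
      · obtain ⟨m, hm⟩ := himm _ (Set.mem_univ _) (sub_ne_zero.2 ha)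
        refine ⟨m, (V3_eq hm).symm, ?_⟩
        rw [D1_near h h6]
        refine (((D1_le h _ _).2 ?_).trans_lt h.lo).le
        rw [V3_eq hm, ← h.rad]
        exact h6
    · rintro g g' ⟨a, a1, a2⟩ ⟨b, b1, b2⟩
      refine ⟨a * b, by simp only [map_mul, a1, b1], ?_⟩
      simp only [map_mul]
      exact mul_le_mul' a2 b2
  have h6 : O₁.valuation (algebraMap k E (m / l ^ n)) < 1 := by
    refine lt_of_le_of_lt ?_ hP
    simp only [map_div₀, map_pow, V3_eq h3]
    exact div_le_div_of_nonneg_right h5 zero_le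
  have h7 := (D1_lt_one h _).1 h6
  simp only [map_div₀, map_pow, V3_eq h2] at h7 ⊢
  rwa [h4]

omit [IsAlgClosed k] in
theorem D1_loc {O O' : ValuationSubring E} {π l : k} {g : E} {n : ℕ} (hπ : algebraMap k E π ∈ O)
    (hπ' : algebraMap k E π ∈ O') (hag : ∀ a : k, algebraMap k E a ∈ O → algebraMap k E a ∈ O')
    (h1 : O.valuation (algebraMap k E π) ^ n * O.valuation (algebraMap k E l) ≤ O.valuation g)
    (h2 : O'.valuation (algebraMap k E π) ^ n * O'.valuation g ≤ O'.valuation (algebraMap k E l))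
    (hg : g ∈ loc O _ hπ) : g ∈ loc O' _ hπ' := by
  obtain ⟨m, hm⟩ := mem_loc.1 hg
  rw [← O.valuation_le_one_iff, map_mul, map_pow] at hm
  have h3 : algebraMap k E (π ^ (m + n) * l) ∈ O := by
    rw [← O.valuation_le_one_iff]
    simp only [map_mul, map_pow]
    rw [pow_add, mul_assoc]
    exact (mul_le_mul' le_rfl h1).trans hm
  have h4 := hag _ h3
  rw [← O'.valuation_le_one_iff] at h4
  simp only [map_mul, map_pow] at h4
  refine mem_loc.2 ⟨m + n + n, ?_⟩
  rw [← O'.valuation_le_one_iff, map_mul, map_pow, pow_add, mul_assoc]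
  exact (mul_le_mul' le_rfl h2).trans h4

theorem near_loc {O₁ : ValuationSubring E} {c r π : k} (h : Near O O₁ x c r) (h0 : π ≠ 0)
    (h1 : O.valuation (algebraMap k E π) < 1) (hπ : algebraMap k E π ∈ O)
    (hπ₁ : algebraMap k E π ∈ O₁)
    (hstar : ∀ c' : k, O.valuation (x - algebraMap k E c') ≤ O.valuation (x - algebraMap k E c) →
      ∃ n : ℕ, O.valuation (algebraMap k E π) ^ n * O.valuation (x - algebraMap k E c) ≤
        O.valuation (x - algebraMap k E c'))
    {g : E} (hg : g ∈ k⟮x⟯) : g ∈ loc O _ hπ ↔ g ∈ loc O₁ _ hπ₁ := by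
  by_cases hg0 : g = 0
  · rw [hg0]
    exact iff_of_true (zero_mem _) (zero_mem _)
  have hp := D1_pos O h0
  have hq := D1_pos O₁ h0
  have hq1 : O₁.valuation (algebraMap k E π) ≤ 1 := (O₁.valuation_le_one_iff _).2 hπ₁
  obtain ⟨-, l, -, n, a1, a2, a3, a4⟩ : g ≠ 0 ∧ ∃ l : k, l ≠ 0 ∧ ∃ n : ℕ,
      O.valuation (algebraMap k E π) ^ n * O.valuation g ≤ O.valuation (algebraMap k E l) ∧
      O.valuation (algebraMap k E π) ^ n * O.valuation (algebraMap k E l) ≤ O.valuation g ∧
      O₁.valuation (algebraMap k E π) ^ n * O₁.valuation g ≤ O₁.valuation (algebraMap k E l) ∧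
      O₁.valuation (algebraMap k E π) ^ n * O₁.valuation (algebraMap k E l) ≤ O₁.valuation g := by
    refine rat_ind (fun g => g ≠ 0 ∧ ∃ l : k, l ≠ 0 ∧ ∃ n : ℕ,
      O.valuation (algebraMap k E π) ^ n * O.valuation g ≤ O.valuation (algebraMap k E l) ∧
      O.valuation (algebraMap k E π) ^ n * O.valuation (algebraMap k E l) ≤ O.valuation g ∧
      O₁.valuation (algebraMap k E π) ^ n * O₁.valuation g ≤ O₁.valuation (algebraMap k E l) ∧
      O₁.valuation (algebraMap k E π) ^ n * O₁.valuation (algebraMap k E l) ≤ O₁.valuation g)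
      ?_ ?_ ?_ ?_ hg hg0
    · intro a ha
      exact ⟨(_root_.map_ne_zero _).2 ha, a, ha, 0, by simp, by simp, by simp, by simp⟩
    · intro a ha
      refine ⟨sub_ne_zero.2 ha, ?_⟩
      rcases lt_or_ge (O.valuation (x - algebraMap k E c)) (O.valuation (x - algebraMap k E a))
        with h6 | h6
      · obtain ⟨h7, h8⟩ := D1_far h h6
        refine ⟨c - a, ?_, 0, ?_, ?_, ?_, ?_⟩
        · intro e
          rw [e, map_zero, sub_zero] at h7
          exact lt_irrefl _ h7
        all_goals rw [pow_zero, one_mul]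
        exacts [(V3_eq h7).ge, (V3_eq h7).le, (V3_eq h8).ge, (V3_eq h8).le]
      · obtain ⟨n, hn⟩ := hstar a h6
        have hr := D1_pos O h.r0
        have h7 : O.valuation (algebraMap k E r) < O.valuation (algebraMap k E (r / π)) := by
          rw [map_div₀, map_div₀, lt_div_iff₀ hp]
          exact mul_lt_of_lt_one_right hr h1
        have h8 := h.hi _ h7
        rw [map_div₀, map_div₀, lt_div_iff₀ hq] at h8
        refine ⟨r, h.r0, n + 1, ?_, ?_, ?_, ?_⟩
        · rw [← h.rad]
          exact (mul_le_of_le_one_left' (pow_le_one' h1.le _)).trans h6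
        · rw [← h.rad, pow_succ', mul_assoc]
          exact (mul_le_of_le_one_left' h1.le).trans hn
        · rw [D1_near h h6, pow_succ, mul_assoc, mul_comm _ (O₁.valuation (x - _))]
          exact (mul_le_of_le_one_left' (pow_le_one' hq1 _)).trans h8.le
        · rw [D1_near h h6]
          exact (mul_le_of_le_one_left' (pow_le_one' hq1 _)).trans h.lo.le
    · rintro g g' ⟨g0, l, l0, n, a1, a2, a3, a4⟩ ⟨g0', m, m0, n', b1, b2, b3, b4⟩
      refine ⟨mul_ne_zero g0 g0', l * m, mul_ne_zero l0 m0, n + n', ?_, ?_, ?_, ?_⟩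
      all_goals simp only [map_mul, pow_add]
      all_goals rw [mul_mul_mul_comm]
      exacts [mul_le_mul' a1 b1, mul_le_mul' a2 b2, mul_le_mul' a3 b3, mul_le_mul' a4 b4]
    · rintro g ⟨g0, l, l0, n, a1, a2, a3, a4⟩
      have p1 := D1_pos O l0
      have p2 := D1_pos O₁ l0
      have p3 : 0 < O.valuation g := zero_lt_iff.2 (O.valuation.ne_zero_iff.2 g0)
      have p4 : 0 < O₁.valuation g := zero_lt_iff.2 (O₁.valuation.ne_zero_iff.2 g0)
      refine ⟨inv_ne_zero g0, l⁻¹, inv_ne_zero l0, n, ?_, ?_, ?_, ?_⟩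
      all_goals simp only [map_inv₀]
      · rw [mul_inv_le_iff₀ p3, le_inv_mul_iff₀ p1, mul_comm]; exact a2
      · rw [mul_inv_le_iff₀ p1, le_inv_mul_iff₀ p3, mul_comm]; exact a1
      · rw [mul_inv_le_iff₀ p4, le_inv_mul_iff₀ p2, mul_comm]; exact a4
      · rw [mul_inv_le_iff₀ p2, le_inv_mul_iff₀ p4, mul_comm]; exact a3
  exact ⟨D1_loc hπ hπ₁ (fun a => (h.agree a).2) a2 a3, D1_loc hπ₁ hπ (fun a => (h.agree a).1) a4 a1⟩

theorem near_inv {O₁ : ValuationSubring E} {c r : k} (h : Near O O₁ x c r) (τ : E →+* E)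
    (hx : τ x = x) (hk : ∀ a : k, ∃ b : k, τ (algebraMap k E a) = algebraMap k E b)
    (hv : ∀ g, O.valuation (τ g) = O.valuation g) {g : E} (hg : g ∈ k⟮x⟯) :
    O₁.valuation (τ g) = O₁.valuation g := by
  by_cases hg0 : g = 0
  · rw [hg0, map_zero]
  refine rat_ind (fun g => O₁.valuation (τ g) = O₁.valuation g) ?_ ?_ ?_ ?_ hg hg0
  · intro a _
    obtain ⟨b, hb⟩ := hk a
    have h1 := hv (algebraMap k E a)
    rw [hb] at h1 ⊢
    exact (D1_eq h _ _).2 h1
  · intro a _
    obtain ⟨b, hb⟩ := hk a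
    have h1 := hv (x - algebraMap k E a)
    rw [map_sub τ, hx, hb] at h1 ⊢
    rcases lt_or_ge (O.valuation (x - algebraMap k E c)) (O.valuation (x - algebraMap k E a))
      with h6 | h6
    · obtain ⟨h7, h8⟩ := D1_far h h6
      obtain ⟨h9, h10⟩ := D1_far h (h6.trans_eq h1.symm)
      rw [← V3_eq h8, ← V3_eq h10, D1_eq h, V3_eq h7, V3_eq h9, h1]
    · rw [D1_near h h6, D1_near h (h1.le.trans h6)]
  · intro g g' h1 h2
    simp only [map_mul, h1, h2]
  · intro g h1
    simp only [map_inv₀, h1]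

end Pool.Agent.PH
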