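import Pool.Agent.Work.MP_db9079_lc.PH.DD
import Pool.Agent.Work.MP_db9079_lc.PH.V3b
import Pool.Agent.Work.MP_db9079_lc.PH.V4
import Pool.Agent.Work.MP_db9079_lc.PH.V2
import Mathlib.RingTheory.RootsOfUnity.AlgebraicallyClosed
import Mathlib.RingTheory.Polynomial.RationalRoot
import Mathlib.RingTheory.Localization.Integral

/-!
The separating element, the radii, the decomposition group, regular elements.

PLAN. `def_beta`: for `τ ∉ Dec`, the set of `τ g / g` (`g ≠ 0`) of value `< 1` is nonempty (else `τ ∈ Dec`; use `g⁻¹`); `fr_max` gives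
`δ = τ g / g`; `μ ∈ k` with `v μ ^ 2 = v (g * τ g)` (`himm`, square root in `k`); `c τ = μ / g` has `v (c τ) ^ 2 = v δ` and
`v (τ (c τ)) ^ 2 = (v δ)⁻¹`; `exists_beta`; `π τ` with `v (π τ) ^ 2 = v (τ β)`, so `v (π τ) ^ 4 ≤ v δ`. `def_star`: otherwise every `x - a` is
congruent to a constant for `W = loc O π` (`loc_le`, `loc_lt_one`), so `Imm k W` on `k⟮x⟯` (`rat_ind`) and on `E` (`alg_imm`); `σ` preserves the
nonunits of `W` by `dom`; hence `v (σ g) = v λ = v g` (`lt_of_le_ring`) and `σ ∈ Dec`. `dec_pgroup`: `ppow` (roots of unity in `k`: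
`HasEnoughRootsOfUnity`, or a root of the cyclotomic polynomial) for each element of a `K`-basis; elements have finite order.
`reg_rat`: `Algebra.adjoin k {x} ≃ k[X]` is integrally closed (`x` transcendental), or argue with a coprime fraction.
-/

namespace Pool.Agent.PH

open Polynomial IntermediateField

variable {k K E : Type*} [Field k] [IsAlgClosed k] [Field K] [Field E] [Algebra k E] [Algebra K E]
  {O : ValuationSubring E} {x : E}

theorem D2_sqrt (himm : Imm k O Set.univ) {g : E} (hg : g ≠ 0) :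
    ∃ μ : k, O.valuation g = O.valuation (algebraMap k E μ) ^ 2 := by
  obtain ⟨a, ha⟩ := himm g (Set.mem_univ _) hg
  obtain ⟨μ, rfl⟩ := IsAlgClosed.exists_pow_nat_eq a two_pos
  exact ⟨μ, by rw [← V3_eq ha, map_pow, map_pow]⟩

omit [IsAlgClosed k] in
theorem D2_fix (hk : ∀ a : k, algebraMap k E a ∈ (algebraMap K E).range) (τ : E ≃ₐ[K] E) (a : k) :
    τ (algebraMap k E a) = algebraMap k E a := by
  obtain ⟨b, hb⟩ := hk a
  rw [← hb, AlgEquiv.commutes]

theorem D2_pos (O : ValuationSubring E) {g : E} (hg : g ≠ 0) : 0 < O.valuation g :=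
  zero_lt_iff.2 ((Valuation.ne_zero_iff _).2 hg)

theorem D2_sep [FiniteDimensional K E] (hk : ∀ a : k, algebraMap k E a ∈ (algebraMap K E).range)
    (himm : Imm k O Set.univ) (hfr : FR O) (τ : E ≃ₐ[K] E) : ∃ c : E, τ ∉ Dec K O →
      (O.valuation c < 1 ∧ 1 < O.valuation (τ c)) ∧ ∀ g : E, g ≠ 0 →
        O.valuation (τ g) < O.valuation g →
          ∃ n : ℕ, O.valuation g ≤ O.valuation (τ c) ^ n * O.valuation (τ g) := by
  by_cases hτ : τ ∈ Dec K O
  · exact ⟨0, fun h => absurd hτ h⟩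
  have hne : ∀ g : E, g ≠ 0 → τ g ≠ 0 := fun g hg => (map_ne_zero τ).2 hg
  obtain ⟨c, h1, h2⟩ := exists_sep O hτ
  have hc : c ≠ 0 := by
    rintro rfl
    rw [map_zero, map_zero] at h2
    exact not_lt_zero h2
  obtain ⟨_, ⟨g, hg, hlt, rfl⟩, hmax⟩ := fr_max hfr
    (S := {d | ∃ g : E, g ≠ 0 ∧ O.valuation (τ g) < O.valuation g ∧ d = τ g / g})
    ⟨_, c⁻¹, inv_ne_zero hc, by
      rw [map_inv₀, map_inv₀, map_inv₀]
      exact (inv_lt_inv₀ (D2_pos O (hne c hc)) (D2_pos O hc)).2 (h1.trans h2), rfl⟩ (by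
      rintro _ ⟨g, hg, hlt, rfl⟩
      exact ⟨div_ne_zero (hne g hg) hg, by
        rw [map_div₀]; exact (div_lt_one₀ (D2_pos O hg)).2 hlt⟩)
  obtain ⟨μ, hμ⟩ := D2_sqrt himm (mul_ne_zero hg (hne g hg))
  have hA := D2_pos O hg
  have hB := D2_pos O (hne g hg)
  rw [map_mul] at hμ
  refine ⟨algebraMap k E μ / g, fun _ => ?_⟩
  rw [map_div₀ τ, D2_fix hk, map_div₀, map_div₀]
  refine ⟨⟨(div_lt_one₀ hA).2 (lt_of_pow_lt_pow_left₀ 2 hA.le ?_),
    (one_lt_div₀ hB).2 (lt_of_pow_lt_pow_left₀ 2 zero_le ?_)⟩, fun g' hg' hlt' => ?_⟩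
  · rw [← hμ, sq]
    exact mul_lt_mul_of_pos_left hlt hA
  · rw [← hμ, sq]
    exact mul_lt_mul_of_pos_right hlt hB
  · obtain ⟨n, hn⟩ := hmax _ ⟨g', hg', hlt', rfl⟩
    refine ⟨2 * n, ?_⟩
    have e : (O.valuation (algebraMap k E μ) / O.valuation (τ g)) ^ 2 =
        (O.valuation (τ g) / O.valuation g)⁻¹ := by
      rw [div_pow, ← hμ, inv_div, sq, mul_div_mul_right _ _ hB.ne']
    rw [map_div₀, map_div₀, le_div_iff₀ (D2_pos O hg')] at hn
    rw [pow_mul, e, inv_pow, le_inv_mul_iff₀ (pow_pos (div_pos hB hA) n)]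
    exact hn

theorem def_beta [FiniteDimensional K E] (hk : ∀ a : k, algebraMap k E a ∈ (algebraMap K E).range)
    (himm : Imm k O Set.univ) (hfr : FR O) : ∃ (β : E) (π : (E ≃ₐ[K] E) → k), Beta K O β π := by
  choose c hc using D2_sep hk himm hfr
  obtain ⟨β, h1, h2, h3, h4⟩ := exists_beta O c fun τ hτ => (hc τ hτ).1
  have hβ : β ≠ 0 := by
    rintro rfl
    rw [zero_sub, Valuation.map_neg, map_one] at h2
    exact lt_irrefl _ h2
  have hne : ∀ τ : E ≃ₐ[K] E, τ β ≠ 0 := fun τ => (map_ne_zero τ).2 hβ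
  choose π hπ using fun τ : E ≃ₐ[K] E => D2_sqrt himm (hne τ)
  have hlt : ∀ τ, τ ∉ Dec K O → O.valuation (algebraMap k E (π τ)) < 1 := by
    intro τ hτ
    refine lt_of_pow_lt_pow_left₀ 2 zero_le ?_
    rw [one_pow, ← hπ]
    exact (lt_mul_of_one_lt_right (D2_pos O (hne τ)) (hc τ hτ).1.2).trans_le (h4 τ hτ)
  have key : ∀ τ, τ ∉ Dec K O → ∀ g : E, g ≠ 0 → O.valuation (τ g) < O.valuation g → ∃ n : ℕ,
      O.valuation (algebraMap k E (π τ)) ^ n * O.valuation g ≤ O.valuation (τ g) := by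
    intro τ hτ g hg hlt
    obtain ⟨n, hn⟩ := (hc τ hτ).2 g hg hlt
    refine ⟨2 * n, (mul_le_mul_right hn _).trans ?_⟩
    rw [pow_mul, ← hπ, ← mul_assoc, ← mul_pow]
    exact mul_le_of_le_one_left' (pow_le_one' (h4 τ hτ) n)
  refine ⟨β, π, h1, h2, h3, fun τ _ h0 => ?_, hlt, fun τ _ => hπ τ, fun τ hτ g => ?_⟩
  · have := hπ τ
    rw [h0, map_zero, map_zero, zero_pow two_ne_zero] at this
    exact (D2_pos O (hne τ)).ne' this
  · have hle : ∀ (n : ℕ) (a : O.ValueGroup), O.valuation (algebraMap k E (π τ)) ^ n * a ≤ a :=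
      fun n a => mul_le_of_le_one_left' (pow_le_one' (hlt τ hτ).le n)
    rcases eq_or_ne g 0 with rfl | hg
    · exact ⟨0, by simp⟩
    rcases lt_trichotomy (O.valuation (τ g)) (O.valuation g) with h | h | h
    · obtain ⟨n, hn⟩ := key τ hτ g hg h
      exact ⟨n, (hle n _).trans h.le, hn⟩
    · exact ⟨0, by simp [h]⟩
    · have hA := D2_pos O hg
      have hB := D2_pos O ((map_ne_zero τ).2 hg)
      obtain ⟨n, hn⟩ := key τ hτ g⁻¹ (inv_ne_zero hg) (by
        rw [map_inv₀, map_inv₀, map_inv₀]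
        exact (inv_lt_inv₀ hB hA).2 h)
      refine ⟨n, ?_, (hle n _).trans h.le⟩
      rw [map_inv₀, map_inv₀, map_inv₀, mul_inv_le_iff₀ hA, le_inv_mul_iff₀ hB, mul_comm] at hn
      exact hn

theorem def_star [FiniteDimensional K E] (hK : ∀ g : E, g ∈ k⟮x⟯ ↔ g ∈ (algebraMap K E).range)
    (hx : ∀ a : k, x ≠ algebraMap k E a) (himm : Imm k O Set.univ) {β : E}
    {π : (E ≃ₐ[K] E) → k} (hβ : Beta K O β π) {σ : E ≃ₐ[K] E} (hσ : σ ∉ Dec K O) :
    ∃ c₀ : k, ∀ c : k, O.valuation (x - algebraMap k E c) ≤ O.valuation (x - algebraMap k E c₀) →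
      ∃ n : ℕ, O.valuation (algebraMap k E (π σ)) ^ n * O.valuation (x - algebraMap k E c₀) ≤
        O.valuation (x - algebraMap k E c) := by
  by_contra hcon
  push Not at hcon
  have hk : ∀ a : k, algebraMap k E a ∈ (algebraMap K E).range := fun a =>
    (hK _).1 (IntermediateField.algebraMap_mem _ a)
  have h0 : algebraMap k E (π σ) ≠ 0 := (_root_.map_ne_zero _).2 (hβ.pi0 σ hσ)
  have hm : algebraMap k E (π σ) ∈ O := (O.valuation_le_one_iff _).1 (hβ.pi1 σ hσ).le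
  have h1 : Imm k (loc O _ hm) (Set.range (algebraMap K E)) := by
    intro g hg hg0
    refine rat_ind (fun g => ∃ a : k, (loc O _ hm).valuation (g - algebraMap k E a) <
      (loc O _ hm).valuation g) (fun a ha => ⟨a, ?_⟩) (fun a _ => ?_) ?_ ?_ ((hK g).2 hg) hg0
    · rw [sub_self, map_zero]
      exact D2_pos _ ((_root_.map_ne_zero _).2 ha)
    · obtain ⟨c, -, hc⟩ := hcon a
      refine ⟨c - a, ?_⟩
      rw [map_sub (algebraMap k E), sub_sub_sub_cancel_right]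
      refine lt_of_not_ge fun h => ?_
      obtain ⟨n, hn⟩ := (loc_le h0 _ _).1 h
      exact absurd hn (hc n).not_ge
    · rintro g h ⟨a, ha⟩ ⟨b, hb⟩
      exact ⟨a * b, by rw [map_mul (algebraMap k E)]; exact V3_mul ha hb⟩
    · rintro g ⟨a, ha⟩
      exact ⟨a⁻¹, by rw [map_inv₀ (algebraMap k E)]; exact V3_inv ha⟩
  have h2 : Imm k (loc O _ hm) Set.univ :=
    alg_imm _ h1 fun g _ => Algebra.IsAlgebraic.isAlgebraic g
  have h3 : ∀ g : E, O.valuation (σ g) = O.valuation g := by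
    intro g
    rcases eq_or_ne g 0 with rfl | hg
    · rw [map_zero]
    obtain ⟨a, ha⟩ := h2 g (Set.mem_univ _) hg
    obtain ⟨n, hn, -⟩ := hβ.dom σ hσ (g - algebraMap k E a)
    obtain ⟨m, -, hm'⟩ := hβ.dom σ hσ g
    have h4 := (((loc_le (hc := hm) h0 _ _).2 ⟨n, hn⟩).trans_lt ha).trans_le
      ((loc_le (hc := hm) h0 _ _).2 ⟨m, hm'⟩)
    rw [map_sub σ, D2_fix hk] at h4
    rw [← V3_eq (lt_of_le_ring (le_loc O _ hm) h4), V3_eq (lt_of_le_ring (le_loc O _ hm) ha)]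
  exact hσ fun a => by rw [← O.valuation_le_one_iff, ← O.valuation_le_one_iff, h3]

theorem dec_pgroup [FiniteDimensional K E] (p : ℕ) [Fact p.Prime] [CharP k p]
    (hk : ∀ a : k, algebraMap k E a ∈ (algebraMap K E).range) (himm : Imm k O Set.univ) :
    IsPGroup p (Dec K O) := by
  rintro ⟨σ, hσ⟩
  have : CharP E p := charP_of_injective_algebraMap (algebraMap k E).injective p
  have key : ∀ a : E, ∃ m, σ^[p ^ m] a = a := by
    intro a
    obtain ⟨n, hn, ha⟩ := periodic_of_alg σ (Algebra.IsAlgebraic.isAlgebraic (R := K) a)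
    refine ppow O (σ : E →+* E) hσ (fun z hz => ?_) (fun l hl hne => ?_) hn ha
    · obtain ⟨u, hu⟩ := himm z (Set.mem_univ _) hz
      exact ⟨_, D2_fix hk σ u, hu⟩
    · have : NeZero (l : k) := ⟨fun h => hne ((Nat.prime_dvd_prime_iff_eq Fact.out hl).1
        ((CharP.cast_eq_zero_iff k p l).1 h)).symm⟩
      obtain ⟨ζ, hζ⟩ := HasEnoughRootsOfUnity.exists_primitiveRoot k l
      exact ⟨_, hζ.map_of_injective (algebraMap k E).injective, D2_fix hk σ ζ⟩
  choose m hm using key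
  let b := Module.finBasis K E
  refine ⟨Finset.univ.sup fun i => m (b i), Subtype.ext ?_⟩
  refine AlgEquiv.toLinearMap_injective (b.ext fun i => ?_)
  obtain ⟨j, hj⟩ := Nat.exists_eq_add_of_le
    (Finset.le_sup (f := fun i => m (b i)) (Finset.mem_univ i))
  change (σ ^ (p ^ _)) (b i) = b i
  rw [AlgEquiv.coe_pow, hj, pow_add, Function.iterate_mul]
  exact Function.IsFixedPt.iterate (hm (b i)) _

omit [IsAlgClosed k] in
theorem D2_int (x : E) (P : k[X]) : IsIntegral (Algebra.adjoin k {x}) (aeval x P) :=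
  isIntegral_algebraMap (x := (⟨_, aeval_mem_adjoin_singleton k x⟩ : Algebra.adjoin k {x}))

omit [IsAlgClosed k] in
theorem exists_regRing (x : E) (Q : k[X]) (hQ : aeval x Q ≠ 0) : ∃ R : Subring E,
    (∀ b, b ∈ R ↔ Reg x Q b) ∧ (∀ P : k[X], aeval x P ∈ R) ∧ (aeval x Q)⁻¹ ∈ R := by
  have hq := D2_int x Q
  refine ⟨{ carrier := {b | Reg x Q b}
            mul_mem' := ?_
            one_mem' := ⟨0, by simpa using isIntegral_one⟩
            add_mem' := ?_
            zero_mem' := ⟨0, by simpa using isIntegral_zero⟩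
            neg_mem' := ?_ }, fun _ => Iff.rfl, fun P => ⟨0, ?_⟩, ⟨1, ?_⟩⟩
  · rintro a b ⟨n, hn⟩ ⟨m, hm⟩
    refine ⟨n + m, ?_⟩
    rw [pow_add, mul_mul_mul_comm]
    exact hn.mul hm
  · rintro a b ⟨n, hn⟩ ⟨m, hm⟩
    refine ⟨n + m, ?_⟩
    rw [show aeval x Q ^ (n + m) * (a + b) =
      aeval x Q ^ m * (aeval x Q ^ n * a) + aeval x Q ^ n * (aeval x Q ^ m * b) by ring]
    exact ((hq.pow m).mul hn).add ((hq.pow n).mul hm)
  · rintro a ⟨n, hn⟩
    exact ⟨n, by rw [mul_neg]; exact hn.neg⟩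
  · rw [pow_zero, one_mul]
    exact D2_int x P
  · rw [pow_one, mul_inv_cancel₀ hQ]
    exact isIntegral_one

omit [IsAlgClosed k] in
theorem reg_map (hK : ∀ g : E, g ∈ k⟮x⟯ ↔ g ∈ (algebraMap K E).range) {Q : k[X]} {b : E}
    (hb : Reg x Q b) (σ : E ≃ₐ[K] E) : Reg x Q (σ b) := by
  obtain ⟨n, hn⟩ := hb
  have hfix : ∀ a ∈ Algebra.adjoin k {x}, σ a = a := by
    intro a ha
    obtain ⟨c, rfl⟩ := (hK a).1 (algebra_adjoin_le_adjoin k {x} ha)
    exact σ.commutes c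
  have h1 := IsIntegral.map_of_comp_eq (RingHom.id (Algebra.adjoin k {x})) (σ : E →+* E)
    (RingHom.ext fun a => (hfix a a.2).symm) hn
  refine ⟨n, ?_⟩
  rwa [map_mul, map_pow, RingHom.coe_coe, hfix _ (aeval_mem_adjoin_singleton k x)] at h1

open scoped IntermediateField.algebraAdjoinAdjoin in
theorem reg_rat (hx : ∀ a : k, x ≠ algebraMap k E a) {Q : k[X]} (hQ : aeval x Q ≠ 0) {b : E}
    (hb : Reg x Q b) (hb' : b ∈ k⟮x⟯) : ∃ (P : k[X]) (n : ℕ), b = aeval x P / aeval x Q ^ n := by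
  obtain ⟨n, hn⟩ := hb
  have : IsIntegrallyClosed (Algebra.adjoin k {x}) :=
    IsIntegrallyClosed.of_equiv (algEquivOfTranscendental k x (transc_of_ne hx)).toRingEquiv
  have hm : aeval x Q ^ n * b ∈ k⟮x⟯ :=
    mul_mem (pow_mem (algebra_adjoin_le_adjoin k {x} (aeval_mem_adjoin_singleton k x)) n) hb'
  have h1 : IsIntegral (Algebra.adjoin k {x}) (⟨_, hm⟩ : k⟮x⟯) :=
    (isIntegral_algebraMap_iff (algebraMap k⟮x⟯ E).injective).1 hn
  obtain ⟨⟨y, hy⟩, h2⟩ := IsIntegrallyClosed.isIntegral_iff.1 h1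
  have h3 : y = aeval x Q ^ n * b := congrArg Subtype.val h2
  rw [Algebra.adjoin_singleton_eq_range_aeval] at hy
  obtain ⟨P, rfl⟩ := hy
  exact ⟨P, n, by rw [eq_div_iff (pow_ne_zero n hQ), mul_comm]; exact h3.symm⟩

omit [IsAlgClosed k] in
open scoped IntermediateField.algebraAdjoinAdjoin in
theorem D2_reg [Algebra.IsAlgebraic K E] (hK : ∀ g : E, g ∈ k⟮x⟯ ↔ g ∈ (algebraMap K E).range)
    (b : E) : ∃ Q : k[X], aeval x Q ≠ 0 ∧ Reg x Q b := by
  have h1 : IsIntegral k⟮x⟯ b := IsIntegral.map_of_comp_eq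
    ((algebraMap K E).codRestrict k⟮x⟯ fun a => (hK _).2 ⟨a, rfl⟩) (RingHom.id E) rfl
    (Algebra.IsIntegral.isIntegral (R := K) b)
  have h2 := (IsFractionRing.isAlgebraic_iff (Algebra.adjoin k {x}) k⟮x⟯ E).2 h1.isAlgebraic
  obtain ⟨⟨y, hy⟩, h0, h3⟩ := h2.exists_integral_multiple
  have hy' := hy
  rw [Algebra.adjoin_singleton_eq_range_aeval] at hy'
  obtain ⟨Q, rfl⟩ := hy'
  exact ⟨Q, fun h => h0 (Subtype.ext h), 1, by rw [pow_one]; exact h3⟩

omit [IsAlgClosed k] in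
theorem D2_mul {Q Q' : k[X]} {b : E} (h : Reg x Q b) : Reg x (Q * Q') b := by
  obtain ⟨n, hn⟩ := h
  refine ⟨n, ?_⟩
  rw [map_mul, mul_pow, mul_comm (aeval x Q ^ n), mul_assoc]
  exact ((D2_int x Q').pow n).mul hn

omit [IsAlgClosed k] in
theorem exists_reg [Algebra.IsAlgebraic K E] (hK : ∀ g : E, g ∈ k⟮x⟯ ↔ g ∈ (algebraMap K E).range)
    (S : Finset E) : ∃ Q : k[X], aeval x Q ≠ 0 ∧ ∀ b ∈ S, Reg x Q b := by
  classical
  induction S using Finset.induction_on with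
  | empty => exact ⟨1, by simp, by simp⟩
  | insert a S _ ih =>
    obtain ⟨Q, hQ, h⟩ := ih
    obtain ⟨Q', hQ', h'⟩ := D2_reg hK a
    refine ⟨Q * Q', by rw [map_mul]; exact mul_ne_zero hQ hQ', fun b hb => ?_⟩
    rcases Finset.mem_insert.1 hb with rfl | hb
    · rw [mul_comm]
      exact D2_mul h'
    · exact D2_mul (h b hb)

end Pool.Agent.PH
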