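import Pool.Agent.Work.MP_db9079_lc.PH.D1
import Pool.Agent.Work.MP_db9079_lc.PH.D2
import Pool.Agent.Work.MP_db9079_lc.PH.V4b

/-!
Choice of the extension of the deformed valuation; nearness; maximum principle.

PLAN. `def_near`: for `n` large all conjugates of `β ^ n * g` have value `< 1` (`dec_val`, `val`, `dom`); `minpoly_coeff_mem` with `O.nonunits`;
the coefficients lie in `k⟮x⟯`, `near_rat` for each, union of the sets `A`; `root_lt_one` for `O₁`. `def_conj`: if `Dec = ⊤` take `γ = 1` and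
`def_near`-like reasoning for `β - 1` (all its conjugates are small). Else `τ₀ ∉ Dec` maximizing `v (π τ)`, `π₀ = π τ₀`, `c₀` from `def_star`,
`A ∋ c₀` and the set of `near_rat` for the norm `∏ τ, τ (β - 1)` (fixed by the group, so in the range of `K`). `near_loc` and `conj_fin` give `γ₁` with
`g ∈ Ob ↔ γ₁ g ∈ loc O₁ π₀`, `Ob = loc O π₀`. Some `τ₁ (β - 1)` is small for `O₁.comap γ₁ ≤ Ob`. If `τ` does not preserve `Ob` then `τ β` is a nonunit of `Ob`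
(else `π τ` is a unit of `Ob` and `dom` shows that `τ` preserves `Ob`), so small for `O₁.comap γ₁`; hence `τ₁` preserves `Ob`; `γ = γ₁ * τ₁`.
Last part: `γ g ∈ O₁ → g ∈ Ob → π τ ^ n * τ g ∈ O ≤ Ob → π₀ ^ m * π τ ^ n * γ (τ g) ∈ O₁`, and `π τ / π₀ ∈ O`.
`def_mp`: `A` contains the sets of `def_near` for the `τ β / π τ` and of `near_mp`; `R` from `exists_regRing`; the hypotheses make all conjugates of `β ^ n * b` small for `O₁`; coefficients of the minpoly are in `O₁.nonunits`, in `R`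
(`R.toNonUnitalSubring`, `reg_map`) and in `k⟮x⟯`; `reg_rat`, `near_mp`, `root_lt_one`.
-/

namespace Pool.Agent.PH

open Polynomial IntermediateField

variable {k K E : Type*} [Field k] [IsAlgClosed k] [Field K] [Field E] [Algebra k E] [Algebra K E]
  [FiniteDimensional K E] [IsGalois K E] {O : ValuationSubring E} {x β : E}
  {π : (E ≃ₐ[K] E) → k}

omit [IsAlgClosed k] [FiniteDimensional K E] [IsGalois K E] in
theorem D3_fixk (hK : ∀ g : E, g ∈ k⟮x⟯ ↔ g ∈ (algebraMap K E).range) (σ : E ≃ₐ[K] E) (a : k) :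
    σ (algebraMap k E a) = algebraMap k E a := by
  obtain ⟨b, hb⟩ := (hK _).1 (IntermediateField.algebraMap_mem k⟮x⟯ a)
  rw [← hb, AlgEquiv.commutes]

omit [IsAlgClosed k] [Algebra k E] [FiniteDimensional K E] [IsGalois K E] [Algebra K E] in
theorem D3_one {O : ValuationSubring E} {b : E} (h : O.valuation (b - 1) < 1) :
    O.valuation b = 1 := by
  have : b = 1 + (b - 1) := by ring
  rw [this]
  exact O.valuation.map_one_add_of_lt h

omit [IsAlgClosed k] [Algebra k E] [IsGalois K E] in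
theorem D3_root (O : ValuationSubring E) {y : E}
    (h : ∀ i < (minpoly K y).natDegree, O.valuation (algebraMap K E ((minpoly K y).coeff i)) < 1) :
    O.valuation y < 1 := by
  have hy : IsIntegral K y := Algebra.IsIntegral.isIntegral y
  refine root_lt_one O (f := (minpoly K y).map (algebraMap K E)) ((minpoly.monic hy).map _)
    (fun i hi => ?_) ?_
  · rw [coeff_map]
    exact h i (by rwa [natDegree_map] at hi)
  · rw [eval_map_algebraMap, minpoly.aeval]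

theorem D3_all (hK : ∀ g : E, g ∈ k⟮x⟯ ↔ g ∈ (algebraMap K E).range) {y : E}
    (hy : ∀ σ : E ≃ₐ[K] E, O.valuation (σ y) < 1) :
    ∃ A : Finset k, ∀ (c r : k) (O₁ : ValuationSubring E), Near O O₁ x c r → Far O x A c →
      O₁.valuation y < 1 := by
  classical
  have key : ∀ i : Fin (minpoly K y).natDegree, ∃ A : Finset k,
      ∀ (c r : k) (O₁ : ValuationSubring E), Near O O₁ x c r → Far O x A c →
        O₁.valuation (algebraMap K E ((minpoly K y).coeff i)) < 1 := fun i =>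
    near_rat ((hK _).2 ⟨_, rfl⟩) (O.mem_nonunits_iff.1
      (minpoly_coeff_mem O.nonunits (fun σ => O.mem_nonunits_iff.2 (hy σ)) i.2))
  choose A hA using key
  refine ⟨Finset.univ.biUnion A, fun c r O₁ hn hf => D3_root (K := K) O₁ fun i hi => ?_⟩
  exact hA ⟨i, hi⟩ c r O₁ hn fun a ha =>
    hf a (Finset.mem_biUnion.2 ⟨⟨i, hi⟩, Finset.mem_univ _, ha⟩)

theorem D3_ev {ι : Type*} [Finite ι] {P : ι → ℕ → Prop} (h : ∀ i, ∃ m, ∀ n, m ≤ n → P i n) :
    ∃ n, ∀ i, P i n := by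
  have h1 : ∀ i, ∀ᶠ n in Filter.atTop, P i n := fun i => Filter.eventually_atTop.2 (h i)
  exact (Filter.eventually_all.2 h1).exists

omit [IsAlgClosed k] [FiniteDimensional K E] [IsGalois K E] in
theorem D3_pres (hβ : Beta K O β π) {τ : E ≃ₐ[K] E} (hτ : τ ∉ Dec K O) {p : E} (hp : p ∈ O)
    {m : ℕ} (hm : O.valuation p ^ m ≤ O.valuation (algebraMap k E (π τ))) (a : E) :
    τ a ∈ loc O p hp ↔ a ∈ loc O p hp := by
  obtain ⟨j, h1, h2⟩ := hβ.dom τ hτ a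
  have aux : ∀ u w : E, O.valuation (algebraMap k E (π τ)) ^ j * O.valuation u ≤ O.valuation w →
      w ∈ loc O p hp → u ∈ loc O p hp := by
    rintro u w huw ⟨n, hn⟩
    refine ⟨n + m * j, ?_⟩
    rw [← ValuationSubring.valuation_le_one_iff, map_mul, map_pow] at hn ⊢
    refine le_trans ?_ hn
    rw [pow_add, mul_assoc, pow_mul]
    refine mul_le_mul_right (le_trans (mul_le_mul_left ?_ _) huw) _
    exact pow_le_pow_left₀ zero_le hm j
  exact ⟨aux _ _ h2, aux _ _ h1⟩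

theorem def_near (hK : ∀ g : E, g ∈ k⟮x⟯ ↔ g ∈ (algebraMap K E).range) (hβ : Beta K O β π)
    {g : E} (hg : O.valuation g < 1) :
    ∃ A : Finset k, ∀ (c r : k) (O₁ : ValuationSubring E), Near O O₁ x c r → Far O x A c →
      O₁.valuation (β - 1) < 1 → O₁.valuation g < 1 := by
  have key : ∀ σ : E ≃ₐ[K] E, ∃ m, ∀ n, m ≤ n → O.valuation (σ (β ^ n * g)) < 1 := by
    intro σ
    by_cases hσ : σ ∈ Dec K O
    · refine ⟨0, fun n _ => ?_⟩
      rw [dec_val hσ, map_mul, map_pow, D3_one hβ.one, one_pow, one_mul]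
      exact hg
    · obtain ⟨m, hm, -⟩ := hβ.dom σ hσ g
      refine ⟨m, fun n hn => lt_of_le_of_lt (le_trans ?_ hm) hg⟩
      rw [map_mul, map_pow, map_mul, map_pow, hβ.val σ hσ, ← pow_mul]
      exact mul_le_mul_left (pow_le_pow_right_of_le_one' (hβ.pi1 σ hσ).le (by omega)) _
  obtain ⟨n, hn⟩ := D3_ev key
  obtain ⟨A, hA⟩ := D3_all hK hn
  refine ⟨A, fun c r O₁ h1 h2 h3 => ?_⟩
  have h4 := hA c r O₁ h1 h2
  rwa [map_mul, map_pow, D3_one h3, one_pow, one_mul] at h4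

theorem def_conj (hK : ∀ g : E, g ∈ k⟮x⟯ ↔ g ∈ (algebraMap K E).range)
    (hx : ∀ a : k, x ≠ algebraMap k E a) (himm : Imm k O Set.univ) (hβ : Beta K O β π) :
    ∃ A : Finset k, ∀ (c r : k) (O₁ : ValuationSubring E), Near O O₁ x c r → Far O x A c →
      ∃ γ : E ≃ₐ[K] E, O₁.valuation (γ (β - 1)) < 1 ∧ ∀ τ, τ ∉ Dec K O → ∀ g : E, γ g ∈ O₁ →
        ∃ n : ℕ, γ (algebraMap k E (π τ) ^ n * τ g) ∈ O₁ := by
  classical
  by_cases htop : ∀ τ : E ≃ₐ[K] E, τ ∈ Dec K O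
  · obtain ⟨A, hA⟩ := D3_all (O := O) hK (y := β - 1) fun σ => by
      rw [dec_val (htop σ)]; exact hβ.one
    exact ⟨A, fun c r O₁ h1 h2 => ⟨1, hA c r O₁ h1 h2, fun τ hτ => absurd (htop τ) hτ⟩⟩
  push Not at htop
  obtain ⟨τ₀, hτ₀, hmax⟩ := Set.exists_max_image {τ : E ≃ₐ[K] E | τ ∉ Dec K O}
    (fun τ => O.valuation (algebraMap k E (π τ))) (Set.toFinite _) htop
  have hp0 : π τ₀ ≠ 0 := hβ.pi0 τ₀ hτ₀
  have hp0' : algebraMap k E (π τ₀) ≠ 0 := (_root_.map_ne_zero _).2 hp0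
  have hp1 := hβ.pi1 τ₀ hτ₀
  have hp : algebraMap k E (π τ₀) ∈ O := (O.valuation_le_one_iff _).1 hp1.le
  obtain ⟨c₀, hc₀⟩ := def_star hK hx himm hβ hτ₀
  have hfixN : ∀ σ : E ≃ₐ[K] E, ∏ τ : E ≃ₐ[K] E, σ (τ (β - 1)) = ∏ τ : E ≃ₐ[K] E, τ (β - 1) :=
    fun σ => Fintype.prod_equiv (Equiv.mulLeft σ) _ _ fun τ => rfl
  have hN : ∏ τ : E ≃ₐ[K] E, τ (β - 1) ∈ k⟮x⟯ := by
    refine (hK _).2 ((IsGalois.mem_range_algebraMap_iff_fixed _).2 fun σ => ?_)
    rw [map_prod, hfixN]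
  have hN1 : O.valuation (∏ τ : E ≃ₐ[K] E, τ (β - 1)) < 1 := by
    refine lt_of_le_of_lt (V4_prod_le O.valuation _ (fun τ : E ≃ₐ[K] E => τ (β - 1))
      (fun τ _ => (O.valuation_le_one_iff _).2 ?_) (Finset.mem_univ 1)) hβ.one
    rw [map_sub, map_one]
    exact sub_mem (hβ.int τ) O.one_mem
  obtain ⟨A, hA⟩ := near_rat hN hN1
  refine ⟨insert c₀ A, fun c r O₁ h1 h2 => ?_⟩
  have hp' : algebraMap k E (π τ₀) ∈ O₁ := (h1.agree _).2 hp
  have hc := (h2 c₀ (Finset.mem_insert_self _ _)).le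
  have hloc : ∀ g ∈ k⟮x⟯, g ∈ loc O _ hp ↔ g ∈ loc O₁ _ hp' := fun g hg =>
    near_loc h1 hp0 hp1 hp hp' (fun c' hc' => by
      obtain ⟨n, hn⟩ := hc₀ c' (hc'.trans hc)
      exact ⟨n, le_trans (mul_le_mul_right hc _) hn⟩) hg
  obtain ⟨γ₁, hγ₁⟩ := conj_fin (K := K) (loc O _ hp) (loc O₁ _ hp')
    fun a => hloc _ ((hK _).2 ⟨a, rfl⟩)
  have hN2 := hA c r O₁ h1 fun a ha => h2 a (Finset.mem_insert_of_mem ha)
  have hex : ∃ τ₁ : E ≃ₐ[K] E, O₁.valuation (γ₁ (τ₁ (β - 1))) < 1 := by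
    by_contra hcon
    push Not at hcon
    rw [← hfixN γ₁, map_prod] at hN2
    exact absurd hN2 (not_lt.2 (Finset.one_le_prod' fun τ _ => hcon τ))
  obtain ⟨τ₁, hτ₁⟩ := hex
  have hpres : ∀ a, τ₁ a ∈ loc O _ hp ↔ a ∈ loc O _ hp := by
    by_cases hd : τ₁ ∈ Dec K O
    · intro a
      refine exists_congr fun n => ?_
      rw [← (mem_Dec K).1 hd (_ * a), map_mul, map_pow, D3_fixk hK]
    by_cases hm : ∃ m : ℕ, O.valuation (algebraMap k E (π τ₀)) ^ m ≤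
        O.valuation (algebraMap k E (π τ₁))
    · obtain ⟨m, hm⟩ := hm
      exact D3_pres hβ hd hp hm
    exfalso
    push Not at hm
    have h3 : (loc O _ hp).valuation (τ₁ β) < 1 := by
      refine (loc_lt_one hp0' _).2 fun n => lt_of_le_of_lt ?_ (hm n)
      rw [hβ.val τ₁ hd, pow_two]
      exact mul_le_of_le_one_left' (hβ.pi1 τ₁ hd).le
    have hvp : VP (loc O _ hp) (loc O₁ _ hp') (γ₁ : E →+* E) := hγ₁
    have h4 : O₁.valuation (γ₁ (τ₁ β)) < O₁.valuation 1 :=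
      lt_of_le_ring (le_loc O₁ _ hp') (by rw [map_one]; exact (hvp.lt_one _).2 h3)
    rw [map_sub, map_sub, map_one, map_one] at hτ₁
    rw [D3_one hτ₁, map_one] at h4
    exact lt_irrefl _ h4
  have hγ : ∀ a, (γ₁ * τ₁) a ∈ loc O₁ _ hp' ↔ a ∈ loc O _ hp := fun a =>
    (hγ₁ (τ₁ a)).trans (hpres a)
  refine ⟨γ₁ * τ₁, hτ₁, fun τ hτ g hg => ?_⟩
  obtain ⟨n, hn⟩ := (hγ g).1 (le_loc O₁ _ hp' hg)
  obtain ⟨m, hm, -⟩ := hβ.dom τ hτ g
  have h5 : algebraMap k E (π τ) ^ m * τ g ∈ loc O _ hp := by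
    refine ⟨n, ?_⟩
    rw [← ValuationSubring.valuation_le_one_iff, map_mul, map_pow] at hn ⊢
    refine le_trans (mul_le_mul_right ?_ _) hn
    rw [map_mul, map_pow]
    exact hm
  obtain ⟨l, hl⟩ := (hγ _).2 h5
  have h6 : algebraMap k E (π τ / π τ₀) ∈ O₁ := by
    rw [h1.agree, map_div₀, ← V1_le O _ hp0']
    exact hmax τ hτ
  refine ⟨l + m, ?_⟩
  have e : (γ₁ * τ₁) (algebraMap k E (π τ) ^ (l + m) * τ g) = algebraMap k E (π τ / π τ₀) ^ l *
      (algebraMap k E (π τ₀) ^ l * (γ₁ * τ₁) (algebraMap k E (π τ) ^ m * τ g)) := by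
    rw [← mul_assoc, ← mul_pow, map_div₀, div_mul_cancel₀ _ hp0', pow_add, mul_assoc,
      map_mul (γ₁ * τ₁) (_ ^ l), map_pow, D3_fixk hK]
  rw [e]
  exact mul_mem (pow_mem h6 l) hl

theorem def_mp (hK : ∀ g : E, g ∈ k⟮x⟯ ↔ g ∈ (algebraMap K E).range)
    (hx : ∀ a : k, x ≠ algebraMap k E a) (himm : Imm k O Set.univ) (hβ : Beta K O β π)
    {Q : k[X]} (hQ : aeval x Q ≠ 0) (hQβ : Reg x Q β) :
    ∃ A : Finset k, ∀ (c r : k) (O₁ : ValuationSubring E), Near O O₁ x c r → Far O x A c →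
      O₁.valuation (β - 1) < 1 →
      (∀ τ, τ ∉ Dec K O → ∀ g ∈ O₁, ∃ n : ℕ, algebraMap k E (π τ) ^ n * τ g ∈ O₁) →
      ∀ b : E, Reg x Q b → (∀ σ ∈ Dec K O, σ b = b) → O₁.valuation b < 1 → O.valuation b < 1 := by
  classical
  have key : ∀ τ : E ≃ₐ[K] E, ∃ A : Finset k, ∀ (c r : k) (O₁ : ValuationSubring E),
      Near O O₁ x c r → Far O x A c → O₁.valuation (β - 1) < 1 → τ ∉ Dec K O →
        O₁.valuation (τ β / algebraMap k E (π τ)) < 1 := by
    intro τ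
    by_cases hτ : τ ∈ Dec K O
    · exact ⟨∅, fun _ _ _ _ _ _ h => absurd hτ h⟩
    have h0 : O.valuation (algebraMap k E (π τ)) ≠ 0 :=
      (Valuation.ne_zero_iff _).2 ((_root_.map_ne_zero _).2 (hβ.pi0 τ hτ))
    obtain ⟨A, hA⟩ := def_near hK hβ (g := τ β / algebraMap k E (π τ)) (by
      rw [map_div₀, hβ.val τ hτ, pow_two, mul_div_cancel_right₀ _ h0]
      exact hβ.pi1 τ hτ)
    exact ⟨A, fun c r O₁ h1 h2 h3 _ => hA c r O₁ h1 h2 h3⟩
  choose A hA using key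
  obtain ⟨B, hB⟩ := near_mp (O := O) (x := x) himm hQ
  obtain ⟨R, hR, -, -⟩ := exists_regRing x Q hQ
  refine ⟨B ∪ Finset.univ.biUnion A, fun c r O₁ h1 h2 h3 h4 b hb hfix hb1 => ?_⟩
  have hsm : ∀ σ : E ≃ₐ[K] E, ∃ m, ∀ n, m ≤ n → O₁.valuation (σ (β ^ n * b)) < 1 := by
    intro σ
    by_cases hσ : σ ∈ Dec K O
    · refine ⟨0, fun n _ => ?_⟩
      rw [map_mul, map_pow, hβ.fix σ hσ, hfix σ hσ, map_mul, map_pow, D3_one h3, one_pow, one_mul]
      exact hb1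
    obtain ⟨m, hm⟩ := h4 σ hσ b ((O₁.valuation_le_one_iff _).1 hb1.le)
    have h0 : algebraMap k E (π σ) ≠ 0 := (_root_.map_ne_zero _).2 (hβ.pi0 σ hσ)
    have h5 := hA σ c r O₁ h1 (fun a ha => h2 a (Finset.mem_union_right _
      (Finset.mem_biUnion.2 ⟨σ, Finset.mem_univ _, ha⟩))) h3 hσ
    have h6 : algebraMap k E (π σ) ∈ O₁ :=
      (h1.agree _).2 ((O.valuation_le_one_iff _).1 (hβ.pi1 σ hσ).le)
    refine ⟨m + 1, fun n hn => ?_⟩
    obtain ⟨j, rfl⟩ : ∃ j, n = m + j := ⟨n - m, by omega⟩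
    have e : σ (β ^ (m + j) * b) = (σ β / algebraMap k E (π σ)) ^ (m + j) *
        (algebraMap k E (π σ) ^ j * (algebraMap k E (π σ) ^ m * σ b)) := by
      rw [map_mul, map_pow, div_pow]
      field_simp
      ring
    rw [e, map_mul, map_pow]
    refine lt_of_le_of_lt (mul_le_of_le_one_right' ((O₁.valuation_le_one_iff _).2
      (mul_mem (pow_mem h6 j) hm))) (pow_lt_one₀ zero_le h5 (by omega))
  obtain ⟨n, hn⟩ := D3_ev hsm
  have hy : β ^ n * b ∈ R := mul_mem (pow_mem ((hR β).2 hQβ) n) ((hR b).2 hb)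
  have h7 : O.valuation (β ^ n * b) < 1 := by
    refine D3_root (K := K) O fun i hi => ?_
    have h8 := O₁.mem_nonunits_iff.1
      (minpoly_coeff_mem O₁.nonunits (fun σ => O₁.mem_nonunits_iff.2 (hn σ)) hi)
    have h9 : algebraMap K E ((minpoly K (β ^ n * b)).coeff i) ∈ R :=
      minpoly_coeff_mem R.toNonUnitalSubring
        (fun σ => (hR _).2 (reg_map hK ((hR _).1 hy) σ)) hi
    obtain ⟨P, j, hP⟩ := reg_rat hx hQ ((hR _).1 h9) ((hK _).2 ⟨_, rfl⟩)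
    rw [hP] at h8 ⊢
    exact hB c r O₁ h1 (fun a ha => h2 a (Finset.mem_union_left _ ha)) P j h8
  rwa [map_mul, map_pow, D3_one hβ.one, one_pow, one_mul] at h7

end Pool.Agent.PH
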