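import Pool.Agent.Work.MP_db9079_lc.PH.VD
import Mathlib.GroupTheory.Sylow
import Mathlib.GroupTheory.Nilpotent

/-!
Eigenvectors, Artin-Schreier elements, Lagrange interpolation, finite `p`-groups.

PLAN. `kum`: `v (z / u - 1) < 1`, apply `σ` (`VP.lt_one`), so `v (ζ - 1) < 1`, and `0 = ∑ i < l, ζ ^ i` is
congruent to `l`, a unit (`(l : F) * m = 1` for some natural `m`). `exists_eig`: with `z_j = ∑ i < l, (ζ⁻¹) ^ (i * j) * σ^[i] a`
one has `σ z_j = ζ ^ j * z_j` and `∑ j < l, z_j = l * a`; if `z_j = 0` for `0 < j < l` then `σ` fixes `a`.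
`ppow`: take the minimal period `d` of `a` (`Function.minimalPeriod`); a prime `l ≠ p` dividing `d` gives with
`σ ^ (d / l)` an eigenvector, against `kum`. `exists_as`: Dedekind (`linearIndependent_monoidHom`) gives `θ` with
`T = ∑ g, g θ ≠ 0`; `z = - (∑ g, χ g * g θ) / T`. `as_split`: `∏ i < p, (z - i) = z ^ p - z`, so some `z - i` has value
`< 1`, and so has its image `z - i + j`. `lag`: with `h = ∏ i ≠ i₀, (X - C (θ i))`, `∑ h(θ i) u i = h(θ i₀) u i₀` is a
unit and an integral combination of the sums for `n ≤ card`. `exists_chi`: `H` lies in a coatom, normal by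
`IsPGroup.isNilpotent` and the normalizer condition; the quotient has prime order. `exists_min_normal`: take a
nontrivial normal subgroup inside `N` of minimal cardinality; use its center and the `p`-torsion of it.
-/

namespace Pool.Agent.PH

variable {F : Type*} [Field F]

theorem V2b_lag {ι : Type*} [Fintype ι] [DecidableEq ι] (θ u : ι → F) (Q : F → Prop)
    (hsub : ∀ j a b, Q a → Q b → Q (a - θ j * b)) (h : ∀ n : ℕ, Q (∑ i, θ i ^ n * u i))
    (i₀ : ι) : Q ((∏ j ∈ Finset.univ.erase i₀, (θ i₀ - θ j)) * u i₀) := by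
  have key : ∀ s : Finset ι, ∀ n : ℕ, Q (∑ i, θ i ^ n * ((∏ j ∈ s, (θ i - θ j)) * u i)) := by
    intro s
    induction s using Finset.induction_on with
    | empty => intro n; simpa using h n
    | insert j s hj ih =>
      intro n
      have e : ∑ i, θ i ^ n * ((∏ k ∈ insert j s, (θ i - θ k)) * u i)
          = ∑ i, θ i ^ (n + 1) * ((∏ k ∈ s, (θ i - θ k)) * u i)
            - θ j * ∑ i, θ i ^ n * ((∏ k ∈ s, (θ i - θ k)) * u i) := by
        rw [Finset.mul_sum, ← Finset.sum_sub_distrib]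
        refine Finset.sum_congr rfl fun i _ => ?_
        rw [Finset.prod_insert hj]
        ring
      rw [e]
      exact hsub j _ _ (ih (n + 1)) (ih n)
  have h1 := key (Finset.univ.erase i₀) 0
  rw [Finset.sum_eq_single i₀] at h1
  · simpa using h1
  · intro i _ hi
    rw [Finset.prod_eq_zero (i := i) (Finset.mem_erase.mpr ⟨hi, Finset.mem_univ _⟩) (sub_self _)]
    simp
  · intro hi
    exact absurd (Finset.mem_univ _) hi

theorem lag {ι : Type*} [Fintype ι] (O : ValuationSubring F) (θ u : ι → F) (hθ : ∀ i, θ i ∈ O)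
    (hd : ∀ i j, i ≠ j → O.valuation (θ i - θ j) = 1) (hu : ∀ i, u i ∈ O) {i₀ : ι}
    (h0 : O.valuation (u i₀) = 1) : ∃ n : ℕ, O.valuation (∑ i, θ i ^ n * u i) = 1 := by
  classical
  by_contra hcon
  push Not at hcon
  have h1 : ∀ n : ℕ, O.valuation (∑ i, θ i ^ n * u i) < 1 := by
    intro n
    refine lt_of_le_of_ne ?_ (hcon n)
    rw [ValuationSubring.valuation_le_one_iff]
    exact sum_mem fun i _ => mul_mem (pow_mem (hθ i) n) (hu i)
  have h2 := V2b_lag θ u (fun a => O.valuation a < 1) (by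
    intro j a b ha hb
    refine lt_of_le_of_lt (Valuation.map_sub _ _ _) (max_lt ha ?_)
    rw [map_mul]
    exact lt_of_le_of_lt
      (mul_le_of_le_one_left' ((O.valuation_le_one_iff _).mpr (hθ j))) hb) h1 i₀
  simp only [map_mul, map_prod, h0, mul_one] at h2
  rw [Finset.prod_eq_one] at h2
  · exact lt_irrefl _ h2
  · intro j hj
    exact hd i₀ j (Finset.mem_erase.mp hj).1.symm

theorem lag0 {ι : Type*} [Fintype ι] (θ u : ι → F) (hθ : Function.Injective θ) {i₀ : ι}
    (h0 : u i₀ ≠ 0) : ∃ n : ℕ, ∑ i, θ i ^ n * u i ≠ 0 := by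
  classical
  by_contra hcon
  push Not at hcon
  have h2 := V2b_lag θ u (fun a => a = 0) (by
    intro j a b ha hb
    rw [ha, hb]
    simp) hcon i₀
  rcases mul_eq_zero.mp h2 with h3 | h3
  · obtain ⟨j, hj, hj0⟩ := Finset.prod_eq_zero_iff.mp h3
    exact (Finset.mem_erase.mp hj).1 (hθ (sub_eq_zero.mp hj0)).symm
  · exact h0 h3

theorem exists_chi {G : Type*} [Group G] [Finite G] {l : ℕ} [Fact l.Prime] (hG : IsPGroup l G)
    (H : Subgroup G) (hH : H ≠ ⊤) :
    ∃ χ : G →* Multiplicative (ZMod l), (∃ g, χ g ≠ 1) ∧ H ≤ χ.ker := by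
  obtain ⟨M, hM, hHM⟩ := (eq_top_or_exists_le_coatom H).resolve_left hH
  have : Group.IsNilpotent G := hG.isNilpotent
  have : M.Normal :=
    Subgroup.NormalizerCondition.normal_of_coatom M Group.normalizerCondition_of_isNilpotent hM
  have hq : IsPGroup l (G ⧸ M) := hG.to_quotient M
  have hne : Nat.card (G ⧸ M) ≠ 1 := by
    intro h1
    exact hM.1 (Subgroup.index_eq_one.mp h1)
  have hdvd : l ∣ Nat.card (G ⧸ M) := hq.card_eq_or_dvd.resolve_left hne
  obtain ⟨x, hx⟩ := exists_prime_orderOf_dvd_card' l hdvd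
  have hx1 : x ≠ 1 := by
    intro h1
    rw [h1, orderOf_one] at hx
    exact (Fact.out : l.Prime).one_lt.ne hx
  have hK : (Subgroup.zpowers x).comap (QuotientGroup.mk' M) = ⊤ := by
    apply hM.2
    refine lt_of_le_of_ne ?_ ?_
    · intro g hg
      rw [Subgroup.mem_comap, QuotientGroup.mk'_apply, (QuotientGroup.eq_one_iff g).mpr hg]
      exact one_mem _
    · intro he
      obtain ⟨g, rfl⟩ := QuotientGroup.mk'_surjective M x
      have : g ∈ M := by
        rw [he, Subgroup.mem_comap]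
        exact Subgroup.mem_zpowers _
      exact hx1 ((QuotientGroup.eq_one_iff g).mpr this)
  have hz : Subgroup.zpowers x = ⊤ := by
    rw [eq_top_iff]
    intro y _
    obtain ⟨g, rfl⟩ := QuotientGroup.mk'_surjective M y
    have : g ∈ (Subgroup.zpowers x).comap (QuotientGroup.mk' M) := by
      rw [hK]; exact Subgroup.mem_top _
    exact this
  have hcard : Nat.card (G ⧸ M) = l := by
    rw [← hx, ← Nat.card_zpowers, hz, Subgroup.card_top]
  have hcard' : Nat.card (Multiplicative (ZMod l)) = l := by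
    rw [Nat.card_congr Multiplicative.toAdd, Nat.card_zmod]
  let e := mulEquivOfPrimeCardEq hcard hcard'
  refine ⟨e.toMonoidHom.comp (QuotientGroup.mk' M), ?_, ?_⟩
  · obtain ⟨g, rfl⟩ := QuotientGroup.mk'_surjective M x
    refine ⟨g, fun h1 => hx1 ?_⟩
    exact e.injective (h1.trans (map_one e).symm)
  · intro g hg
    rw [MonoidHom.mem_ker, MonoidHom.comp_apply, QuotientGroup.mk'_apply,
      (QuotientGroup.eq_one_iff g).mpr (hHM hg), map_one]

theorem exists_min_normal {B : Type*} [Group B] [Finite B] {p : ℕ} [Fact p.Prime] (N : Subgroup B)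
    [N.Normal] (hN : IsPGroup p N) (h : N ≠ ⊥) :
    ∃ V : Subgroup B, V.Normal ∧ V ≤ N ∧ V ≠ ⊥ ∧ (∀ a ∈ V, ∀ b ∈ V, a * b = b * a) ∧
      (∀ a ∈ V, a ^ p = 1) ∧ ∀ W : Subgroup B, W.Normal → W ≤ V → W = ⊥ ∨ W = V := by
  obtain ⟨V, ⟨hVn, hVN, hV0⟩, hmin⟩ := WellFounded.has_min (wellFounded_lt (α := Subgroup B))
    {V : Subgroup B | V.Normal ∧ V ≤ N ∧ V ≠ ⊥} ⟨N, inferInstance, le_rfl, h⟩
  have hmin' : ∀ W : Subgroup B, W.Normal → W ≤ V → W = ⊥ ∨ W = V := by
    intro W hW hWV
    by_cases h0 : W = ⊥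
    · exact Or.inl h0
    · right
      by_contra hne
      exact hmin W ⟨hW, hWV.trans hVN, h0⟩ (lt_of_le_of_ne hWV hne)
  let W : Subgroup B :=
    { carrier := {a | a ∈ V ∧ (∀ b ∈ V, a * b = b * a) ∧ a ^ p = 1}
      one_mem' := ⟨one_mem _, fun b _ => by simp, one_pow _⟩
      mul_mem' := by
        rintro a b ⟨ha, ha1, ha2⟩ ⟨hb, hb1, hb2⟩
        refine ⟨mul_mem ha hb, fun c hc => ?_, ?_⟩
        · rw [mul_assoc, hb1 c hc, ← mul_assoc, ha1 c hc, mul_assoc]
        · have hc : Commute a b := ha1 b hb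
          rw [hc.mul_pow, ha2, hb2, one_mul]
      inv_mem' := by
        rintro a ⟨ha, ha1, ha2⟩
        refine ⟨inv_mem ha, fun c hc => ?_, by rw [inv_pow, ha2, inv_one]⟩
        have hc' : Commute a c := ha1 c hc
        exact hc'.inv_left }
  have hWn : W.Normal := by
    refine ⟨?_⟩
    rintro a ⟨ha, ha1, ha2⟩ g
    refine ⟨hVn.conj_mem a ha g, fun c hc => ?_, ?_⟩
    · have h1 := ha1 (g⁻¹ * c * g) (hVn.conj_mem' c hc g)
      calc g * a * g⁻¹ * c = g * (a * (g⁻¹ * c * g)) * g⁻¹ := by group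
        _ = g * ((g⁻¹ * c * g) * a) * g⁻¹ := by rw [h1]
        _ = c * (g * a * g⁻¹) := by group
    · rw [conj_pow, ha2, mul_one, mul_inv_cancel]
  have hW0 : W ≠ ⊥ := by
    have hVp : IsPGroup p V := hN.to_le hVN
    have : Nontrivial V := (Subgroup.nontrivial_iff_ne_bot V).mpr hV0
    have := hVp.center_nontrivial
    have hZ : IsPGroup p (Subgroup.center V) := hVp.to_subgroup _
    have hdvd : p ∣ Nat.card (Subgroup.center V) :=
      hZ.card_eq_or_dvd.resolve_left (Finite.one_lt_card (α := Subgroup.center V)).ne'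
    obtain ⟨z, hz⟩ := exists_prime_orderOf_dvd_card' p hdvd
    intro hW
    have hzW : ((z : V) : B) ∈ W := by
      refine ⟨(z : V).2, fun b hb => ?_, ?_⟩
      · have := Subgroup.mem_center_iff.mp z.2 ⟨b, hb⟩
        exact (congrArg Subtype.val this).symm
      · have h1 : z ^ p = 1 := by rw [← hz]; exact pow_orderOf_eq_one z
        have h2 := congrArg (fun t : Subgroup.center V => ((t : V) : B)) h1
        simpa using h2
    rw [hW, Subgroup.mem_bot] at hzW
    have hz1 : z = 1 := Subtype.ext (Subtype.ext hzW)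
    rw [hz1, orderOf_one] at hz
    exact (Fact.out : p.Prime).one_lt.ne hz
  have hWV : W = V := (hmin' W hWn fun a ha => ha.1).resolve_left hW0
  refine ⟨V, hVn, hVN, hV0, fun a ha => ?_, fun a ha => ?_, hmin'⟩
  · rw [← hWV] at ha
    exact ha.2.1
  · rw [← hWV] at ha
    exact ha.2.2

end Pool.Agent.PH
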