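import Pool.Agent.Work.MP_db9079_lc.PH.D3
import Pool.Agent.Work.MP_db9079_lc.PH.V2b
import Pool.Agent.Work.MP_db9079_lc.PH.CR
import Pool.Agent.Work.MP_db9079_lc.PH.CRb
import Mathlib.FieldTheory.PurelyInseparable.PerfectClosure

/-!
The decomposition group does not shrink under the deformation.

PLAN. `def_chi`: `z` from `exists_as`, `a = z ^ p - z ∈ Z = fixedField (Dec K O)`. A `K`-basis `e` of `Z`; the `e l ^ p` span `Z` over `K`
(`Field.span_map_pow_expChar_pow_eq_top_of_isSeparable`); `cartier` gives `Q₀`; `exists_reg` gives `Q` for `β`, `a`, the `e l / Q₀(x)`; `A` from `def_mp`.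
Given `c`, get `f`, `d`; `z' = z - f`, `b = z' ^ p - z' = a - f ^ p + f` is regular and fixed by `Dec K O`. If `χ` killed `Dec K O₁` then `z'` and the `d i` are fixed by
`Dec K O₁`, so by `imm_val` and `vt_genV` (for `y = x - c`, `k⟮y⟯ = k⟮x⟯`, `near_vt`) their values are generated by `y`; `as_dich` gives `v₁ b < 1`, `def_mp` gives
`v b < 1`, `as_split` is a contradiction. `def_core`: union of the sets `A` of `def_conj`, of `def_near` for `Φ` and the `τ β` (`τ ∉ Dec`), of `def_chi` for the finitely many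
`χ ≠ 1`; `O₂ = O₁.comap γ` is again `Near`; `Dec K O₂ ≤ Dec K O`; if not equal `exists_chi` (with `dec_pgroup`, `Subgroup.subgroupOf`) contradicts `def_chi`.
-/

namespace Pool.Agent.PH

open Polynomial IntermediateField

variable {k K E : Type*} [Field k] [IsAlgClosed k] [Field K] [Field E] [Algebra k E] [Algebra K E]
  [FiniteDimensional K E] [IsGalois K E] (p : ℕ) [Fact p.Prime] [CharP k p]
  {O : ValuationSubring E} {x β : E} {π : (E ≃ₐ[K] E) → k}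

omit [IsAlgClosed k] in
theorem D4_cover {ι : Type*} [Finite ι] (O : ValuationSubring E) (x : E) (A : ι → Finset k) :
    ∃ B : Finset k, ∀ c, Far O x B c → ∀ i, Far O x (A i) c := by
  classical
  have := Fintype.ofFinite ι
  exact ⟨Finset.univ.biUnion A, fun c h i a ha =>
    h a (Finset.mem_biUnion.2 ⟨i, Finset.mem_univ i, ha⟩)⟩

omit [IsAlgClosed k] [FiniteDimensional K E] [IsGalois K E] in
theorem D4_fix (hK : ∀ g : E, g ∈ k⟮x⟯ ↔ g ∈ (algebraMap K E).range) (σ : E ≃ₐ[K] E) {g : E}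
    (hg : g ∈ k⟮x⟯) : σ g = g := by
  obtain ⟨a, rfl⟩ := (hK g).1 hg
  exact σ.commutes a

theorem D4_gen (hK : ∀ g : E, g ∈ k⟮x⟯ ↔ g ∈ (algebraMap K E).range) {O₁ : ValuationSubring E}
    {c : k} (hy : VT k O₁ (x - algebraMap k E c)) {S : Set E}
    (hS : ∀ g ∈ S, ∀ σ ∈ Dec K O₁, σ g = g) : GenV k O₁ (x - algebraMap k E c) S := by
  intro g hg h0
  obtain ⟨a, ha⟩ := imm_val O₁ (hS g hg)
  have a1 : k⟮x⟯ ≤ k⟮x - algebraMap k E c⟯ := by
    rw [adjoin_simple_le_iff]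
    have := add_mem (mem_adjoin_simple_self k (x - algebraMap k E c))
      (IntermediateField.algebraMap_mem _ c)
    rwa [sub_add_cancel] at this
  have a2 : algebraMap K E a ≠ 0 := by
    intro h
    rw [h, map_zero] at ha
    exact h0 ((map_eq_zero _).1 ha)
  obtain ⟨b, j, hb⟩ := vt_genV hy _ (a1 ((hK _).2 ⟨a, rfl⟩)) a2
  exact ⟨b, j, ha.trans hb⟩

omit [IsAlgClosed k] in
include p in
theorem D4_span (hK : ∀ g : E, g ∈ k⟮x⟯ ↔ g ∈ (algebraMap K E).range) (Z : IntermediateField K E) :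
    ∃ (n : ℕ) (e : Fin n → E), (∀ l, e l ∈ Z) ∧
      ∀ g ∈ Z, ∃ r : Fin n → E, (∀ l, r l ∈ k⟮x⟯) ∧ g = ∑ l, r l * e l ^ p := by
  have : CharP E p := charP_of_injective_algebraMap (algebraMap k E).injective p
  have : CharP K p := (algebraMap K E).charP (algebraMap K E).injective p
  have : ExpChar K p := ExpChar.prime Fact.out
  let b := Module.finBasis K Z
  refine ⟨_, fun l => (b l : E), fun l => (b l).2, fun g hg => ?_⟩
  have a1 := Field.span_map_pow_expChar_pow_eq_top_of_isSeparable p 1 b.span_eq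
  have a2 : (⟨g, hg⟩ : Z) ∈ Submodule.span K (Set.range fun l => b l ^ p ^ 1) := by
    rw [a1]; exact Submodule.mem_top
  obtain ⟨r, hr⟩ := (Submodule.mem_span_range_iff_exists_fun K).1 a2
  refine ⟨fun l => algebraMap K E (r l), fun l => (hK _).2 ⟨_, rfl⟩, ?_⟩
  have a3 := congrArg Z.val hr
  simp only [map_sum, pow_one, Algebra.smul_def] at a3
  simpa using a3.symm

omit [IsAlgClosed k] [FiniteDimensional K E] [IsGalois K E] in
theorem D4_near (hK : ∀ g : E, g ∈ k⟮x⟯ ↔ g ∈ (algebraMap K E).range) {O₁ : ValuationSubring E}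
    {c r : k} (h : Near O O₁ x c r) (γ : E ≃ₐ[K] E) :
    Near O (O₁.comap (γ : E →+* E)) x c r := by
  have hv := vp_comap O₁ (γ : E →+* E)
  have a1 : ∀ a : k, (γ : E →+* E) (algebraMap k E a) = algebraMap k E a := fun a =>
    D4_fix hK γ (IntermediateField.algebraMap_mem _ a)
  have a2 : (γ : E →+* E) (x - algebraMap k E c) = x - algebraMap k E c :=
    D4_fix hK γ (sub_mem (mem_adjoin_simple_self k x) (IntermediateField.algebraMap_mem _ c))
  refine ⟨fun a => ?_, h.r0, h.rad, ?_, fun a ha => ?_⟩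
  · rw [← hv, a1]
    exact h.agree a
  · rw [← hv.lt, a1, a2]
    exact h.lo
  · rw [← hv.lt, a1, a2]
    exact h.hi a ha

theorem def_chi (hK : ∀ g : E, g ∈ k⟮x⟯ ↔ g ∈ (algebraMap K E).range)
    (hx : ∀ a : k, x ≠ algebraMap k E a) (himm : Imm k O Set.univ) (hβ : Beta K O β π)
    (χ : Dec K O →* Multiplicative (ZMod p)) (hχ : ∃ g, χ g ≠ 1) :
    ∃ A : Finset k, ∀ (c r : k) (O₁ : ValuationSubring E), Near O O₁ x c r → Far O x A c →
      O₁.valuation (β - 1) < 1 →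
      (∀ τ, τ ∉ Dec K O → ∀ g ∈ O₁, ∃ n : ℕ, algebraMap k E (π τ) ^ n * τ g ∈ O₁) →
      Dec K O₁ ≤ Dec K O → ∃ g : Dec K O, (g : E ≃ₐ[K] E) ∈ Dec K O₁ ∧ χ g ≠ 1 := by
  classical
  have : CharP E p := charP_of_injective_algebraMap (algebraMap k E).injective p
  have hp : p.Prime := Fact.out
  obtain ⟨z, hz⟩ := exists_as (Dec K O) χ
  obtain ⟨g₀, hg₀⟩ := hχ
  have hT : ∀ g : E, g ∈ (fixedField (Dec K O)).toSubfield ↔ ∀ σ ∈ Dec K O, σ g = g := fun g =>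
    mem_fixedField_iff _ g
  have hx' : ∀ g ∈ k⟮x⟯, g ∈ (fixedField (Dec K O)).toSubfield := fun g hg =>
    (hT g).2 fun σ _ => D4_fix hK σ hg
  have ha : z ^ p - z ∈ (fixedField (Dec K O)).toSubfield := by
    refine (hT _).2 fun σ hσ => ?_
    have a1 : ∀ j : ℕ, (j : E) ^ p = j := fun j => map_natCast (frobenius E p) j
    rw [map_sub, map_pow, hz ⟨σ, hσ⟩, add_pow_char, a1]
    ring
  obtain ⟨n, e, he, hspan⟩ := D4_span p hK (fixedField (Dec K O))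
  obtain ⟨Q₀, hQ₀, hc⟩ := cartier p (fixedField (Dec K O)).toSubfield
    (fun a => hx' _ (IntermediateField.algebraMap_mem _ a)) (hx' _ (mem_adjoin_simple_self k x)) e
    he hspan ha
  obtain ⟨Q, hQ, hreg⟩ := exists_reg hK
    (insert β (insert (z ^ p - z) (Finset.univ.image fun l => e l / aeval x Q₀)))
  obtain ⟨R, hR, hRP, -⟩ := exists_regRing x Q hQ
  obtain ⟨A, hA⟩ := def_mp hK hx himm hβ hQ (hreg β (Finset.mem_insert_self _ _))
  refine ⟨A, fun c r O₁ hN hF h1 hτ hle => ?_⟩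
  by_contra hcon
  push Not at hcon
  obtain ⟨P, d, f, hd, hf, hb⟩ := hc c
  have hP : ∀ P : k[X], aeval x P ∈ k⟮x⟯ := fun P =>
    algebra_adjoin_le_adjoin k _ (aeval_mem_adjoin_singleton k x)
  have hfT : f ∈ (fixedField (Dec K O)).toSubfield := by
    rw [hf]
    exact div_mem (sum_mem fun l _ => mul_mem (hx' _ (hP _)) (he l)) (hx' _ (hP _))
  have hfR : f ∈ R := by
    rw [hf, Finset.sum_div]
    refine sum_mem fun l _ => ?_
    rw [mul_div_assoc]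
    exact mul_mem (hRP _) ((hR _).2 (hreg _ (by simp)))
  have hz' : (z - f) ^ p - (z - f) = z ^ p - z - f ^ p + f := by
    rw [sub_pow_char]
    ring
  have hy := near_vt hN
  have b1 : O₁.valuation ((z - f) ^ p - (z - f)) < 1 := by
    refine as_dich p hy d (D4_gen hK hy ?_) (hz'.trans hb) (D4_gen hK hy ?_)
    · rintro _ ⟨i, rfl⟩ σ hσ
      exact (hT _).1 (hd i) σ (hle hσ)
    · rintro _ rfl σ hσ
      rw [map_sub, (hT _).1 hfT σ (hle hσ), hz ⟨σ, hle hσ⟩, hcon ⟨σ, hle hσ⟩ hσ]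
      simp
  have b2 : O.valuation ((z - f) ^ p - (z - f)) < 1 := by
    refine hA c r O₁ hN hF h1 hτ _ ((hR _).1 ?_) ((hT _).1 ?_) b1
    · rw [hz']
      exact add_mem (sub_mem ((hR _).2 (hreg _ (by simp))) (pow_mem hfR _)) hfR
    · rw [hz']
      exact add_mem (sub_mem ha (pow_mem hfT _)) hfT
  refine as_split O ((g₀ : E ≃ₐ[K] E) : E →+* E) g₀.2 (j := (Multiplicative.toAdd (χ g₀)).val)
    ?_ ?_ b2
  · rw [Ne, CharP.cast_eq_zero_iff E p]
    intro h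
    have a1 := Nat.eq_zero_of_dvd_of_lt h (ZMod.val_lt _)
    rw [ZMod.val_eq_zero] at a1
    exact hg₀ (toAdd_eq_zero.1 a1)
  · change (g₀ : E ≃ₐ[K] E) (z - f) = _
    rw [map_sub, (hT _).1 hfT _ g₀.2, hz g₀]
    ring

include p in
theorem D4_core (hK : ∀ g : E, g ∈ k⟮x⟯ ↔ g ∈ (algebraMap K E).range)
    (hx : ∀ a : k, x ≠ algebraMap k E a) (himm : Imm k O Set.univ) (hβ : Beta K O β π)
    (Φ : Finset E) (hΦ : ∀ g ∈ Φ, O.valuation g < 1) :
    ∃ A : Finset k, ∀ (c r : k) (O₁ : ValuationSubring E), Near O O₁ x c r → Far O x A c →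
      ∃ γ : E ≃ₐ[K] E, O₁.valuation (γ (β - 1)) < 1 ∧ (∀ g ∈ Φ, O₁.valuation (γ g) < 1) ∧
        ∀ σ ∈ Dec K O, ∀ g : E, γ (σ g) ∈ O₁ ↔ γ g ∈ O₁ := by
  classical
  have hk : ∀ a : k, algebraMap k E a ∈ (algebraMap K E).range := fun a =>
    (hK _).1 (IntermediateField.algebraMap_mem _ a)
  obtain ⟨A₁, h₁⟩ := def_conj hK hx himm hβ
  choose A₂ h₂ using fun g : Φ => def_near hK hβ (hΦ g g.2)
  have hτ : ∀ τ : {τ : E ≃ₐ[K] E // τ ∉ Dec K O}, O.valuation (τ.1 β) < 1 := fun τ => by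
    rw [hβ.val τ τ.2]
    exact pow_lt_one₀ zero_le (hβ.pi1 τ τ.2) two_ne_zero
  choose A₃ h₃ using fun τ => def_near hK hβ (hτ τ)
  choose A₄ h₄ using fun χ : {χ : Dec K O →* Multiplicative (ZMod p) // ∃ g, χ g ≠ 1} =>
    def_chi p hK hx himm hβ χ.1 χ.2
  have : Finite (Dec K O →* Multiplicative (ZMod p)) := Finite.of_injective _ DFunLike.coe_injective
  obtain ⟨B₂, k₂⟩ := D4_cover O x A₂
  obtain ⟨B₃, k₃⟩ := D4_cover O x A₃
  obtain ⟨B₄, k₄⟩ := D4_cover O x A₄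
  obtain ⟨B, hB⟩ := D4_cover O x ![A₁, B₂, B₃, B₄]
  refine ⟨B, fun c r O₁ hN hF => ?_⟩
  obtain ⟨γ, hγ, hγ'⟩ := h₁ c r O₁ hN (hB c hF 0)
  have hv := vp_comap O₁ (γ : E →+* E)
  have hN₂ := D4_near hK hN γ
  have h1 := (hv.lt_one (β - 1)).1 hγ
  have hle : Dec K (O₁.comap (γ : E →+* E)) ≤ Dec K O := by
    intro σ hσ
    by_contra hn
    have a1 := h₃ ⟨σ, hn⟩ c r _ hN₂ (k₃ c (hB c hF 2) _) h1
    have a2 := dec_val hσ (β - 1)
    rw [map_sub σ, map_one σ] at a2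
    have a3 := Valuation.map_sub_lt _ a1 (a2.trans_lt h1)
    simp at a3
  refine ⟨γ, hγ, fun g hg => (hv.lt_one g).2 (h₂ ⟨g, hg⟩ c r _ hN₂ (k₂ c (hB c hF 1) _) h1), ?_⟩
  by_cases hH : (Dec K (O₁.comap (γ : E →+* E))).subgroupOf (Dec K O) = ⊤
  · intro σ hσ g
    exact Subgroup.subgroupOf_eq_top.1 hH hσ g
  · obtain ⟨χ, hχ, hker⟩ := exists_chi (dec_pgroup p hk himm) _ hH
    obtain ⟨g, hg, hg'⟩ := h₄ ⟨χ, hχ⟩ c r _ hN₂ (k₄ c (hB c hF 3) _) h1 hγ' hle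
    exact absurd (hker (Subgroup.mem_subgroupOf.2 hg)) hg'

include p in
theorem def_core (hK : ∀ g : E, g ∈ k⟮x⟯ ↔ g ∈ (algebraMap K E).range)
    (hx : ∀ a : k, x ≠ algebraMap k E a) (himm : Imm k O Set.univ) (hβ : Beta K O β π)
    (Φ : Finset E) (hΦ : ∀ g ∈ Φ, O.valuation g < 1) :
    ∃ A : Finset k, ∀ (c r : k) (O₁ : ValuationSubring E), Near O O₁ x c r → Far O x A c →
      ∃ γ : E ≃ₐ[K] E, O₁.valuation (γ (β - 1)) < 1 ∧ (∀ g ∈ Φ, O₁.valuation (γ g) < 1) ∧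
        ∀ σ ∈ Dec K O, ∀ g : E, γ (σ g) ∈ O₁ ↔ γ g ∈ O₁ :=
  D4_core p hK hx himm hβ Φ hΦ

end Pool.Agent.PH
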