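import Pool.Agent.Work.MP_db9079_lc.PH.VD

/-!
Definitions for the deformation of an immediate place.
-/

namespace Pool.Agent.PH

open Polynomial

/-- `O₁` agrees with `O` on `k` and the value of `x - c` is infinitesimally above that of `r`,
which is the `O`-value of `x - c`. -/
structure Near {k E : Type*} [Field k] [Field E] [Algebra k E] (O O₁ : ValuationSubring E) (x : E)
    (c r : k) : Prop where
  agree : ∀ a : k, algebraMap k E a ∈ O₁ ↔ algebraMap k E a ∈ O
  r0 : r ≠ 0
  rad : O.valuation (x - algebraMap k E c) = O.valuation (algebraMap k E r)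
  lo : O₁.valuation (algebraMap k E r) < O₁.valuation (x - algebraMap k E c)
  hi : ∀ a : k, O.valuation (algebraMap k E r) < O.valuation (algebraMap k E a) →
    O₁.valuation (x - algebraMap k E c) < O₁.valuation (algebraMap k E a)

/-- `c` is closer to `x` than the elements of `A`. -/
def Far {k E : Type*} [Field k] [Field E] [Algebra k E] (O : ValuationSubring E) (x : E)
    (A : Finset k) (c : k) : Prop :=
  ∀ a ∈ A, O.valuation (x - algebraMap k E c) < O.valuation (x - algebraMap k E a)

/-- An element separating `O` from its conjugates, with control. -/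
structure Beta {k E : Type*} (K : Type*) [Field k] [Field K] [Field E] [Algebra k E] [Algebra K E]
    (O : ValuationSubring E) (β : E) (π : (E ≃ₐ[K] E) → k) : Prop where
  fix : ∀ σ ∈ Dec K O, σ β = β
  one : O.valuation (β - 1) < 1
  int : ∀ σ : E ≃ₐ[K] E, σ β ∈ O
  pi0 : ∀ σ, σ ∉ Dec K O → π σ ≠ 0
  pi1 : ∀ σ, σ ∉ Dec K O → O.valuation (algebraMap k E (π σ)) < 1
  val : ∀ σ, σ ∉ Dec K O → O.valuation (σ β) = O.valuation (algebraMap k E (π σ)) ^ 2
  dom : ∀ σ, σ ∉ Dec K O → ∀ g : E, ∃ n : ℕ,
    O.valuation (algebraMap k E (π σ)) ^ n * O.valuation (σ g) ≤ O.valuation g ∧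
    O.valuation (algebraMap k E (π σ)) ^ n * O.valuation g ≤ O.valuation (σ g)

/-- Elements which become integral over `k[x]` after multiplication by a power of `Q(x)`. -/
def Reg {k E : Type*} [Field k] [Field E] [Algebra k E] (x : E) (Q : k[X]) (b : E) : Prop :=
  ∃ n : ℕ, IsIntegral (Algebra.adjoin k {x}) (aeval x Q ^ n * b)

end Pool.Agent.PH
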