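import Mathlib.ModelTheory.Encoding
import Mathlib.ModelTheory.Semantics
import Mathlib.RingTheory.LaurentSeries
import Mathlib.FieldTheory.PerfectClosure
import Mathlib.Algebra.Field.ZMod

/-!
The language of valued fields with a constant `t` and its interpretation in the perfect closure
of the field of Laurent series over a prime field.
-/

namespace Pool.Agent.PH

open FirstOrder

/-- Function symbols: `0`, `1`, `t`, negation, addition, multiplication. -/
inductive Fn : ℕ → Type
  | zero : Fn 0
  | one : Fn 0
  | t : Fn 0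
  | neg : Fn 1
  | add : Fn 2
  | mul : Fn 2

/-- One unary relation symbol, for the valuation ring. -/
inductive Rl : ℕ → Type
  | int : Rl 1

/-- The language of valued fields with a constant `t`. -/
def Lang : Language := ⟨Fn, Rl⟩

/-- Coding of the function symbols. -/
def fnCode : (Σ i, Fn i) → ℕ
  | ⟨_, .zero⟩ => 0
  | ⟨_, .one⟩ => 1
  | ⟨_, .t⟩ => 2
  | ⟨_, .neg⟩ => 3
  | ⟨_, .add⟩ => 4
  | ⟨_, .mul⟩ => 5

/-- Decoding of the function symbols. -/
def fnDec : ℕ → Option (Σ i, Fn i)
  | 0 => some ⟨_, .zero⟩
  | 1 => some ⟨_, .one⟩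
  | 2 => some ⟨_, .t⟩
  | 3 => some ⟨_, .neg⟩
  | 4 => some ⟨_, .add⟩
  | _ => some ⟨_, .mul⟩

instance encFn : Encodable (Σ i, Lang.Functions i) :=
  Encodable.ofLeftInjection (α := ℕ) fnCode fnDec (by rintro ⟨_, f⟩; cases f <;> rfl)

instance encRl : Encodable (Σ i, Lang.Relations i) :=
  Encodable.ofLeftInjection (α := ℕ) (fun _ => 0) (fun _ => some ⟨_, .int⟩)
    (by rintro ⟨_, r⟩; cases r; rfl)

instance charLS (p : ℕ) [Fact p.Prime] : CharP (LaurentSeries (ZMod p)) p :=
  charP_of_injective_ringHom (HahnSeries.C (Γ := ℤ) (R := ZMod p)).injective p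

/-- The perfect closure of the field of Laurent series over `ZMod p`. -/
abbrev KP (p : ℕ) [Fact p.Prime] : Type := PerfectClosure (LaurentSeries (ZMod p)) p

/-- The image of a power series in `KP p`. -/
noncomputable def ofPS (p : ℕ) [Fact p.Prime] (f : PowerSeries (ZMod p)) : KP p :=
  PerfectClosure.of (LaurentSeries (ZMod p)) p (HahnSeries.ofPowerSeries ℤ (ZMod p) f)

/-- The interpretation: field operations, `t` is the variable, and the valuation ring consists of
the elements some `p ^ n`-th power of which is a power series. -/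
noncomputable instance str (p : ℕ) [Fact p.Prime] : Lang.Structure (KP p) where
  funMap := fun {_} f x => match f, x with
    | .zero, _ => 0
    | .one, _ => 1
    | .t, _ => ofPS p PowerSeries.X
    | .neg, x => - x 0
    | .add, x => x 0 + x 1
    | .mul, x => x 0 * x 1
  RelMap := fun {_} r x => match r, x with
    | .int, x => ∃ (n : ℕ) (f : PowerSeries (ZMod p)), x 0 ^ p ^ n = ofPS p f

end Pool.Agent.PH
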