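import Pool.Agent.Work.MP_db9079_lc.PH.FLD
import Pool.Agent.Work.MP_db9079_lc.PH.V2b
import Mathlib.Algebra.Module.ZMod
import Mathlib.FieldTheory.Finite.Basic

/-!
Embedding problems with a `p`-group as kernel.

PLAN for `emb1`. `V = q.ker`; give `Additive V` a `ZMod p`-module structure (`AddCommGroup.zmodModule`), choose a basis: an
injective `ι : V → (Fin n → ZMod p)` (bijective, additive), matrices `ρ b` over `ZMod p` with `ι (b v b⁻¹) = ρ b *ᵥ ι v`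
(`ρ` multiplicative, trivial on `V`). Cast to `Ω` by `ZMod.castHom`. `α` from `prim π`; `α_a = σ α` for `π σ = a`, injective in `a`,
`σ α_a = α_(π σ * a)`; `lag0` gives `θ_a = α_a ^ i / Tr` with `∑ θ_a = 1`. `s` a section of `q`,
`κ b h = b * s h * (s (q b * h))⁻¹ ∈ V`, `β b = ∑ h, θ_(q b * h) • ι (κ b h)`; then for `π σ = q b`:
`β (b * b') = β b + ρ b *ᵥ σ (β b')`, `β v = ι v` on `V`. With `P w = w ^ p - w` componentwise, `a₁ = ∑ h, θ_h • P (β (s h))` has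
`P (β b) = a₁ - ρ b *ᵥ σ a₁`. A nonzero invariant `a₂ = ∑ h, α_h ^ i • ρ (s h) *ᵥ ι v₀` (`lag0` on a coordinate); components of
`a₁, a₂` lie in `M⟮α⟯` (`fix_mem`). Choose `c : M` such that `a = a₁ + c • a₂` is not `P w` with `w` in `M⟮α⟯` (`c = 0`, or `c` from `hc`
for a nonzero component of `a₂`). `γ` with `P γ = a` (`IsAlgClosed`). `ψ σ` = the unique `b` with `q b = π σ` and
`β b = γ - ρ b *ᵥ σ γ` (roots of `X ^ p - X` are the casts of `ZMod p`). Open kernel: `T ∪ {α} ∪ range γ`. Surjective: `range ψ ⊓ V` is normal;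
if it is `⊥` then `γ` is fixed by all `σ` fixing `α`. `emb`: induction on `Nat.card B` with `exists_min_normal` and `B ⧸ V`.
-/

set_option linter.unusedSectionVars false

namespace Pool.Agent.PH

open IntermediateField

theorem EMB_basis (p : ℕ) [Fact p.Prime] (N : Type) [AddCommGroup N] [Module (ZMod p) N]
    [Finite N] : ∃ n : ℕ, Nonempty (N ≃ₗ[ZMod p] Fin n → ZMod p) :=
  have : Module.Finite (ZMod p) N := Module.Finite.of_finite
  ⟨_, ⟨(Module.finBasis (ZMod p) N).equivFun⟩⟩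

open Matrix in
theorem EMB_lin (p : ℕ) [Fact p.Prime] (N : Type) [AddCommGroup N] [Module (ZMod p) N]
    [Finite N] : ∃ (n : ℕ) (e : N → Fin n → ZMod p), (∀ x y, e (x + y) = e x + e y) ∧
      (∀ x, e x = 0 → x = 0) ∧ Function.Surjective e ∧
      ∀ c : N →+ N, ∃ X : Matrix (Fin n) (Fin n) (ZMod p), ∀ x, X *ᵥ e x = e (c x) := by
  obtain ⟨n, ⟨e⟩⟩ := EMB_basis p N
  refine ⟨n, e, map_add e, fun x h => e.injective (h.trans (map_zero e).symm), e.surjective,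
    fun c => ⟨LinearMap.toMatrix'
      (e.toLinearMap ∘ₗ c.toZModLinearMap p ∘ₗ e.symm.toLinearMap), fun x => ?_⟩⟩
  rw [← Matrix.toLin'_apply, Matrix.toLin'_toMatrix']
  simp

open Matrix in
theorem EMB_grp (p : ℕ) [Fact p.Prime] (N : Type) [CommGroup N] [Finite N]
    (h : ∀ x : N, x ^ p = 1) : ∃ (n : ℕ) (e : N → Fin n → ZMod p),
      (∀ x y, e (x * y) = e x + e y) ∧ (∀ x, e x = 0 → x = 1) ∧ Function.Surjective e ∧
      ∀ c : N →* N, ∃ X : Matrix (Fin n) (Fin n) (ZMod p), ∀ x, X *ᵥ e x = e (c x) := by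
  obtain ⟨n, e, h1, h2, h3, h4⟩ := @EMB_lin p _ (Additive N) _
    (AddCommGroup.zmodModule fun x => h x.toMul) _
  exact ⟨n, e, h1, h2, h3, fun c => h4 (MonoidHom.toAdditive c)⟩

open Matrix in
theorem EMB_coord (p : ℕ) [Fact p.Prime] {B : Type} [Group B] [Finite B] (V : Subgroup B)
    [hV : V.Normal] (hcomm : ∀ a ∈ V, ∀ b ∈ V, a * b = b * a) (hexp : ∀ a ∈ V, a ^ p = 1) :
    ∃ (n : ℕ) (ι : B → Fin n → ZMod p) (ρ : B → Matrix (Fin n) (Fin n) (ZMod p)),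
      (∀ v ∈ V, ∀ w ∈ V, ι (v * w) = ι v + ι w) ∧ (∀ v ∈ V, ι v = 0 → v = 1) ∧
      (∀ x, ∃ v ∈ V, ι v = x) ∧ ∀ b, ∀ v ∈ V, ρ b *ᵥ ι v = ι (b * v * b⁻¹) := by
  classical
  obtain ⟨n, e, h1, h2, h3, h4⟩ := @EMB_grp p _ V
    { (inferInstance : Group V) with mul_comm := fun a b => Subtype.ext (hcomm _ a.2 _ b.2) } _
    fun x => Subtype.ext (hexp _ x.2)
  choose ρ hρ using fun b : B => h4 (MulAut.conjNormal (H := V) b).toMonoidHom
  refine ⟨n, fun b => if h : b ∈ V then e ⟨b, h⟩ else 0, ρ,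
    fun v hv w hw => ?_, fun v hv h => ?_, fun x => ?_, fun b v hv => ?_⟩
  · simp only [dif_pos hv, dif_pos hw, dif_pos (V.mul_mem hv hw)]
    exact h1 ⟨v, hv⟩ ⟨w, hw⟩
  · simp only [dif_pos hv] at h
    exact congrArg Subtype.val (h2 _ h)
  · obtain ⟨v, rfl⟩ := h3 x
    exact ⟨v, v.2, by simp only [dif_pos v.2]⟩
  · simp only [dif_pos hv, dif_pos (hV.conj_mem v hv b)]
    exact hρ b ⟨v, hv⟩

variable {M Ω : Type*} [Field M] [PerfectField M] [Field Ω] [IsAlgClosed Ω] [Algebra M Ω]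
  [Algebra.IsAlgebraic M Ω] (p : ℕ) [Fact p.Prime] [CharP Ω p]

theorem EMB_root {y : Ω} (h : y ^ p = y) :
    ∃ x : ZMod p, ZMod.castHom (dvd_refl p) Ω x = y := by
  have h1 : y ∈ (⊥ : Subfield Ω) := (Subfield.mem_bot_iff_pow_eq_self Ω p).mpr h
  have h2 : (⊥ : Subfield Ω) ≤ (ZMod.castHom (dvd_refl p) Ω).fieldRange := bot_le
  exact h2 h1

open Matrix in
theorem EMB_act {B : Type} [Group B] [Finite B] (V : Subgroup B)
    [hV : V.Normal] (hcomm : ∀ a ∈ V, ∀ b ∈ V, a * b = b * a) (hexp : ∀ a ∈ V, a ^ p = 1) :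
    ∃ (n : ℕ) (ι : B → Fin n → Ω) (T : B → (Ω ≃ₐ[M] Ω) → (Fin n → Ω) →+ Fin n → Ω)
      (P : (Fin n → Ω) →+ Fin n → Ω),
      (∀ v ∈ V, ∀ w ∈ V, ι (v * w) = ι v + ι w) ∧ (∀ v ∈ V, ι v = 0 → v = 1) ∧
      (∀ w, P w = 0 → ∃ v ∈ V, ι v = w) ∧ (∀ v, P (ι v) = 0) ∧
      (∀ w j, P w j = w j ^ p - w j) ∧
      (∀ b σ (x : Ω) w, T b σ (x • w) = σ x • T b σ w) ∧
      (∀ b σ b' σ' w, T b σ (T b' σ' w) = T (b * b') (σ * σ') w) ∧
      (∀ v ∈ V, ∀ σ w j, T v σ w j = σ (w j)) ∧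
      (∀ b σ, ∀ v ∈ V, T b σ (ι v) = ι (b * v * b⁻¹)) ∧
      ∀ b σ w, P (T b σ w) = T b σ (P w) := by
  obtain ⟨n, ι, ρ, h1, h2, h3, h4⟩ := EMB_coord p V hcomm hexp
  obtain ⟨f, hf⟩ : ∃ f, f = ZMod.castHom (dvd_refl p) Ω := ⟨_, rfl⟩
  have hext : ∀ X Y : Matrix (Fin n) (Fin n) (ZMod p),
      (∀ v ∈ V, X *ᵥ ι v = Y *ᵥ ι v) → X = Y := fun X Y h =>
    Matrix.toLin'.injective (LinearMap.ext fun x => by
      obtain ⟨v, hv, rfl⟩ := h3 x
      simpa only [Matrix.toLin'_apply] using h v hv)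
  have hmul : ∀ b b', ρ (b * b') = ρ b * ρ b' := fun b b' => hext _ _ fun v hv => by
    rw [← Matrix.mulVec_mulVec, h4 b' v hv, h4 b _ (hV.conj_mem v hv b'), h4 _ v hv]
    congr 1
    group
  have hone : ∀ v ∈ V, ρ v = 1 := fun v hv => hext _ _ fun w hw => by
    rw [h4 v w hw, Matrix.one_mulVec, hcomm v hv w hw, mul_inv_cancel_right]
  have hfix : ∀ (g : Ω →+* Ω) x, g (f x) = f x := fun g x =>
    RingHom.congr_fun (RingHom.ext_zmod (g.comp f) f) x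
  have hg : ∀ (g : Ω →+* Ω) (X : Matrix (Fin n) (Fin n) (ZMod p)) (w : Fin n → Ω),
      (fun j => g ((X.map f *ᵥ w) j)) = X.map f *ᵥ fun j => g (w j) := fun g X w => by
    funext j
    simp only [Matrix.mulVec, dotProduct, map_sum, map_mul, Matrix.map_apply, hfix]
  have hσ : ∀ (σ : Ω ≃ₐ[M] Ω) (X : Matrix (Fin n) (Fin n) (ZMod p)) (w : Fin n → Ω),
      (fun j => σ ((X.map f *ᵥ w) j)) = X.map f *ᵥ fun j => σ (w j) := fun σ X w =>
    hg σ.toAlgHom.toRingHom X w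
  refine ⟨n, fun b j => f (ι b j),
    fun b σ => ⟨⟨fun w => (ρ b).map f *ᵥ fun j => σ (w j), ?_⟩, fun w w' => ?_⟩,
    ⟨⟨fun w j => w j ^ p - w j, ?_⟩, fun w w' => ?_⟩,
    fun v hv w hw => ?_, fun v hv h => ?_, fun w h => ?_, fun v => ?_, fun w j => rfl,
    fun b σ x w => ?_, fun b σ b' σ' w => ?_, fun v hv σ w j => ?_, fun b σ v hv => ?_,
    fun b σ w => ?_⟩
  · simp only [Pi.zero_apply, map_zero]
    exact Matrix.mulVec_zero _
  · simp only [Pi.add_apply, map_add]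
    exact Matrix.mulVec_add _ _ _
  · funext j
    simp [(Fact.out : p.Prime).ne_zero]
  · funext j
    simp only [Pi.add_apply, add_pow_char]
    ring
  · funext j
    simp only [h1 v hv w hw, Pi.add_apply, map_add]
  · refine h2 v hv (funext fun j => f.injective ?_)
    rw [Pi.zero_apply, map_zero]
    exact congrFun h j
  · have h5 : ∀ j, ∃ x, f x = w j := fun j => by
      rw [hf]
      exact EMB_root p (sub_eq_zero.mp (congrFun h j))
    choose x hx using h5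
    obtain ⟨v, hv, rfl⟩ := h3 x
    exact ⟨v, hv, funext hx⟩
  · funext j
    change f (ι v j) ^ p - f (ι v j) = 0
    rw [← map_pow, ZMod.pow_card, sub_self]
  · change ((ρ b).map f *ᵥ fun j => σ ((x • w) j)) = σ x • ((ρ b).map f *ᵥ fun j => σ (w j))
    rw [← Matrix.mulVec_smul]
    congr 1
    funext j
    simp
  · change ((ρ b).map f *ᵥ fun j => σ (((ρ b').map f *ᵥ fun j => σ' (w j)) j)) =
      (ρ (b * b')).map f *ᵥ fun j => (σ * σ') (w j)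
    rw [hσ, Matrix.mulVec_mulVec, hmul, Matrix.map_mul]
    rfl
  · change ((ρ v).map f *ᵥ fun j => σ (w j)) j = σ (w j)
    rw [hone v hv, Matrix.map_one _ (map_zero f) (map_one f), Matrix.one_mulVec]
  · change ((ρ b).map f *ᵥ fun j => σ (f (ι v j))) = fun j => f (ι (b * v * b⁻¹) j)
    have h5 : ∀ x, σ (f x) = f x := hfix σ.toAlgHom.toRingHom
    funext j
    rw [← h4 b v hv]
    simp only [h5, Matrix.mulVec, dotProduct, map_sum, map_mul, Matrix.map_apply]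
  · change (fun j => ((ρ b).map f *ᵥ fun j => σ (w j)) j ^ p - ((ρ b).map f *ᵥ fun j => σ (w j)) j)
      = (ρ b).map f *ᵥ fun j => σ (w j ^ p - w j)
    have h5 := hg (frobenius Ω p) (ρ b) fun j => σ (w j)
    simp only [frobenius_def] at h5
    have h6 : (fun j => σ (w j ^ p - w j)) = (fun j => σ (w j) ^ p) - fun j => σ (w j) := by
      funext j
      simp
    rw [h6, Matrix.mulVec_sub, ← h5]
    rfl

theorem EMB_conj {A : Type} [Group A] (π : (Ω ≃ₐ[M] Ω) →* A) (hπ : Function.Surjective π) {α : Ω}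
    (hα : ∀ σ : Ω ≃ₐ[M] Ω, σ α = α ↔ π σ = 1) :
    ∃ al : A → Ω, Function.Injective al ∧ ∀ σ a, σ (al a) = al (π σ * a) := by
  choose g hg using hπ
  have key : ∀ τ τ' : Ω ≃ₐ[M] Ω, τ α = τ' α ↔ π τ = π τ' := fun τ τ' => by
    have h := hα (τ'⁻¹ * τ)
    rw [map_mul, map_inv, inv_mul_eq_one, AlgEquiv.mul_apply, AlgEquiv.aut_inv,
      AlgEquiv.symm_apply_eq] at h
    rw [h, eq_comm]
  refine ⟨fun a => g a α, fun a b h => ?_, fun σ a => ?_⟩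
  · rw [← hg a, ← hg b]
    exact (key _ _).mp h
  · exact (key (σ * g a) _).mpr (by rw [map_mul, hg, hg])

theorem EMB_as (a : Ω) : ∃ y : Ω, y ^ p - y = a := by
  have hp := (Fact.out : p.Prime).one_lt
  have hd : (Polynomial.X ^ p - (Polynomial.X + Polynomial.C a) : Polynomial Ω).degree = p := by
    rw [Polynomial.degree_sub_eq_left_of_degree_lt, Polynomial.degree_X_pow]
    rw [Polynomial.degree_X_pow, Polynomial.degree_X_add_C]
    exact_mod_cast hp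
  obtain ⟨y, hy⟩ := IsAlgClosed.exists_root _ (by
    rw [hd]
    exact_mod_cast (by omega : p ≠ 0) :
      (Polynomial.X ^ p - (Polynomial.X + Polynomial.C a) : Polynomial Ω).degree ≠ 0)
  refine ⟨y, ?_⟩
  simp only [Polynomial.IsRoot, Polynomial.eval_sub, Polynomial.eval_pow, Polynomial.eval_X,
    Polynomial.eval_add, Polynomial.eval_C] at hy
  linear_combination hy

theorem emb1 (hc : ∀ α z : Ω, z ∈ M⟮α⟯ → z ≠ 0 →
      ∃ c : M, ∀ y ∈ M⟮α⟯, y ^ p - y ≠ algebraMap M Ω c * z)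
    {B A : Type} [Group B] [Finite B] [Group A] (q : B →* A) (hq : Function.Surjective q)
    (hne : q.ker ≠ ⊥) (hcomm : ∀ a ∈ q.ker, ∀ b ∈ q.ker, a * b = b * a)
    (hexp : ∀ a ∈ q.ker, a ^ p = 1)
    (hmin : ∀ W : Subgroup B, W.Normal → W ≤ q.ker → W = ⊥ ∨ W = q.ker)
    (π : (Ω ≃ₐ[M] Ω) →* A) (hπ : Function.Surjective π) (ho : OpenK π) :
    ∃ ψ : (Ω ≃ₐ[M] Ω) →* B, Function.Surjective ψ ∧ OpenK ψ ∧ ∀ σ, q (ψ σ) = π σ := by
  classical
  have : Finite A := Finite.of_surjective q hq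
  let : Fintype A := Fintype.ofFinite A
  obtain ⟨n, ι, T, P, hι, hι0, hP0, hPι, hP, hTs, hTm, hTV, hTι, hTP⟩ :=
    EMB_act (M := M) (Ω := Ω) p q.ker hcomm hexp
  obtain ⟨α, hα⟩ := prim π ho
  obtain ⟨al, hal, hσal⟩ := EMB_conj π hπ hα
  choose s hs using hq
  have hre : ∀ (a : A) (F : A → Fin n → Ω), ∑ h, F (a * h) = ∑ h, F h := fun a F =>
    Equiv.sum_comp (Equiv.mulLeft a) F
  obtain ⟨θ, hθ1, hθ⟩ : ∃ θ : A → Ω, ∑ a, θ a = 1 ∧ ∀ σ a, σ (θ a) = θ (π σ * a) := by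
    obtain ⟨i, hi⟩ := lag0 al (fun _ => 1) hal (i₀ := 1) one_ne_zero
    simp only [mul_one] at hi
    refine ⟨fun a => al a ^ i * (∑ h, al h ^ i)⁻¹, ?_, fun σ a => ?_⟩
    · rw [← Finset.sum_mul, mul_inv_cancel₀ hi]
    · simp only [map_mul, map_inv₀, map_sum, map_pow, hσal]
      exact congrArg (fun t => al (π σ * a) ^ i * t⁻¹)
        (Equiv.sum_comp (Equiv.mulLeft (π σ)) fun h => al h ^ i)
  obtain ⟨κ, hκ⟩ : ∃ κ : B → A → B, ∀ b h, κ b h = b * s h * (s (q b * h))⁻¹ :=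
    ⟨_, fun _ _ => rfl⟩
  have hκV : ∀ b h, κ b h ∈ q.ker := fun b h => by
    rw [MonoidHom.mem_ker, hκ]
    simp [hs]
  have hκ' : ∀ b h, b * s h = κ b h * s (q b * h) := fun b h => by
    rw [hκ, inv_mul_cancel_right]
  have hT1 : ∀ v ∈ q.ker, ∀ w, T v 1 w = w := fun v hv w => funext fun j => hTV v hv 1 w j
  have hTv : ∀ v ∈ q.ker, ∀ b σ w, T (v * b) σ w = T b σ w := fun v hv b σ w => by
    rw [← hT1 v hv (T b σ w), hTm, one_mul]
  obtain ⟨β, hβ⟩ : ∃ β : B → Fin n → Ω, ∀ b, β b = ∑ h, θ (q b * h) • ι (κ b h) :=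
    ⟨_, fun _ => rfl⟩
  have hβm : ∀ b σ b', q b = π σ → β (b * b') = β b + T b σ (β b') := by
    intro b σ b' hb
    rw [hβ, hβ, hβ, map_sum, ← hre (q b') fun h => θ (q b * h) • ι (κ b h),
      ← Finset.sum_add_distrib]
    refine Finset.sum_congr rfl fun h _ => ?_
    have e : κ (b * b') h = b * κ b' h * b⁻¹ * κ b (q b' * h) := by
      simp only [hκ, map_mul, mul_assoc, inv_mul_cancel_left]
    rw [hTs, hθ, hTι b σ _ (hκV _ _), e,
      hι _ ((MonoidHom.normal_ker q).conj_mem _ (hκV _ _) b) _ (hκV _ _), map_mul, ← hb, mul_assoc,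
      smul_add, add_comm]
  have hβV : ∀ v ∈ q.ker, β v = ι v := fun v hv => by
    have h1 : q v = 1 := hv
    rw [hβ]
    simp only [hκ, h1, one_mul, mul_inv_cancel_right]
    rw [← Finset.sum_smul, hθ1, one_smul]
  have hβv : ∀ v ∈ q.ker, ∀ b, β (v * b) = ι v + β b := fun v hv b => by
    rw [hβm v 1 b (by rw [map_one]; exact hv), hβV v hv, hT1 v hv]
  have hβ1 : β 1 = 0 := by
    have := hβv 1 (one_mem _) 1
    rw [one_mul, ← hβV 1 (one_mem _)] at this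
    simpa using this
  obtain ⟨a₁, ha₁⟩ : ∃ a₁ : Fin n → Ω, ∀ b σ, q b = π σ → T b σ a₁ = a₁ - P (β b) := by
    refine ⟨∑ h, θ h • P (β (s h)), fun b σ hb => ?_⟩
    have e : ∀ h, T b σ (θ h • P (β (s h))) =
        θ (q b * h) • P (β (s (q b * h))) - θ (q b * h) • P (β b) := fun h => by
      have e1 := hβm b σ (s h) hb
      rw [hκ', hβv _ (hκV _ _)] at e1
      have e2 := congrArg P e1
      rw [map_add, map_add, hPι, zero_add, hTP] at e2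
      rw [hTs, hθ, ← hb, e2, smul_add, add_sub_cancel_left]
    rw [map_sum]
    simp only [e]
    rw [Finset.sum_sub_distrib, hre (q b) fun h => θ h • P (β (s h)),
      hre (q b) fun h => θ h • P (β b), ← Finset.sum_smul, hθ1, one_smul]
  obtain ⟨a₂, j₀, ha₂0, ha₂⟩ : ∃ (a₂ : Fin n → Ω) (j : Fin n), a₂ j ≠ 0 ∧
      ∀ b σ, q b = π σ → T b σ a₂ = a₂ := by
    obtain ⟨v₀, hv₀, hv₀'⟩ := (Subgroup.bot_or_exists_ne_one q.ker).resolve_left hne
    obtain ⟨j, hj⟩ := Function.ne_iff.mp fun h => hv₀' (hι0 v₀ hv₀ h)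
    obtain ⟨i, hi⟩ := lag0 al (fun h => T (s h) 1 (ι v₀) j) hal (i₀ := 1) (by
      rw [hT1 _ (hs 1)]
      exact hj)
    refine ⟨∑ h, al h ^ i • T (s h) 1 (ι v₀), j, ?_, fun b σ hb => ?_⟩
    · simpa only [Finset.sum_apply, Pi.smul_apply, smul_eq_mul] using hi
    · rw [map_sum, ← hre (q b) fun h => al h ^ i • T (s h) 1 (ι v₀)]
      refine Finset.sum_congr rfl fun h _ => ?_
      rw [hTs, map_pow, hσal, ← hb, hTm, hκ', hTv _ (hκV _ _), hTι _ _ _ hv₀, hTι _ _ _ hv₀]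
  obtain ⟨a, ha, ha'⟩ : ∃ a : Fin n → Ω, (∀ b σ, q b = π σ → T b σ a = a - P (β b)) ∧
      ∀ w : Fin n → Ω, (∀ j, w j ∈ M⟮α⟯) → P w ≠ a := by
    by_cases h : ∃ w : Fin n → Ω, (∀ j, w j ∈ M⟮α⟯) ∧ P w = a₁
    · obtain ⟨w₁, hw₁, hw₁'⟩ := h
      obtain ⟨c, hc'⟩ := hc α (a₂ j₀) (fix_mem fun σ hσ => by
        rw [← hTV 1 (one_mem _), ha₂ 1 σ (by rw [map_one, (hα σ).mp hσ])]) ha₂0
      refine ⟨a₁ + algebraMap M Ω c • a₂, fun b σ hb => ?_, fun w hw h => ?_⟩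
      · rw [map_add, hTs, ha₁ b σ hb, ha₂ b σ hb, AlgEquiv.commutes]
        abel
      · apply hc' (w j₀ - w₁ j₀) (sub_mem (hw j₀) (hw₁ j₀))
        have e : P (w - w₁) = algebraMap M Ω c • a₂ := by
          rw [map_sub, h, hw₁', add_sub_cancel_left]
        have e' := congrFun e j₀
        rw [hP] at e'
        exact e'
    · exact ⟨a₁, ha₁, fun w hw h' => h ⟨w, hw, h'⟩⟩
  obtain ⟨γ, hγ⟩ : ∃ γ : Fin n → Ω, P γ = a := by
    choose γ hγ using fun j => EMB_as p (a j)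
    exact ⟨γ, funext fun j => (hP γ j).trans (hγ j)⟩
  have hex : ∀ σ, ∃ b, q b = π σ ∧ β b = γ - T b σ γ := fun σ => by
    obtain ⟨v, hv, hv'⟩ := hP0 (γ - T (s (π σ)) σ γ - β (s (π σ))) (by
      rw [map_sub, map_sub, hTP, hγ, ha _ σ (hs _)]
      abel)
    refine ⟨v * s (π σ), ?_, ?_⟩
    · rw [map_mul, hs, show q v = 1 from hv, one_mul]
    · rw [hβv v hv, hTv v hv, hv', sub_add_cancel]
  have huniq : ∀ σ b b', q b = π σ → β b = γ - T b σ γ → q b' = π σ → β b' = γ - T b' σ γ →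
      b' = b := by
    intro σ b b' h1 h2 h3 h4
    have hv : b' * b⁻¹ ∈ q.ker := by
      rw [MonoidHom.mem_ker, map_mul, map_inv, h1, h3, mul_inv_cancel]
    have e : b' = b' * b⁻¹ * b := (inv_mul_cancel_right _ _).symm
    rw [e, hβv _ hv, hTv _ hv, h2, add_eq_right] at h4
    exact mul_inv_eq_one.mp (hι0 _ hv h4)
  choose ψ₀ hψ₁ hψ₂ using hex
  have hψm : ∀ σ τ, ψ₀ (σ * τ) = ψ₀ σ * ψ₀ τ := fun σ τ =>
    huniq (σ * τ) _ _ (by rw [map_mul, map_mul, hψ₁, hψ₁]) (by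
      rw [hβm _ σ _ (hψ₁ σ), hψ₂ σ, hψ₂ τ, map_sub, hTm]
      abel) (hψ₁ _) (hψ₂ _)
  let ψ : (Ω ≃ₐ[M] Ω) →* B := MonoidHom.mk' ψ₀ hψm
  have hψ : ∀ σ, ψ σ = ψ₀ σ := fun _ => rfl
  refine ⟨ψ, ?_, ?_, hψ₁⟩
  · have hdec : ∀ b, ∃ σ, (ψ σ)⁻¹ * b ∈ q.ker := fun b => by
      obtain ⟨σ, hσ⟩ := hπ (q b)
      exact ⟨σ, by rw [MonoidHom.mem_ker, map_mul, map_inv, hψ, hψ₁, hσ, inv_mul_cancel]⟩
    have hN : (ψ.range ⊓ q.ker).Normal := ⟨fun x hx b => by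
      refine ⟨?_, (MonoidHom.normal_ker q).conj_mem x hx.2 b⟩
      obtain ⟨σ, hσ⟩ := hdec b
      have e : b * x * b⁻¹ = ψ σ * x * (ψ σ)⁻¹ := by
        calc b * x * b⁻¹ = ψ σ * ((ψ σ)⁻¹ * b * x) * b⁻¹ := by group
          _ = ψ σ * (x * ((ψ σ)⁻¹ * b)) * b⁻¹ := by rw [hcomm _ hσ _ hx.2]
          _ = ψ σ * x * (ψ σ)⁻¹ := by group
      rw [e]
      exact ψ.range.mul_mem (ψ.range.mul_mem ⟨σ, rfl⟩ hx.1) (ψ.range.inv_mem ⟨σ, rfl⟩)⟩
    rcases hmin _ hN inf_le_right with h | h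
    · exfalso
      refine ha' γ (fun j => fix_mem fun σ hσ => ?_) hγ
      have h1 : ψ σ ∈ ψ.range ⊓ q.ker :=
        ⟨⟨σ, rfl⟩, (hψ₁ σ).trans ((hα σ).mp hσ)⟩
      rw [h, Subgroup.mem_bot, hψ] at h1
      have h2 := hψ₂ σ
      rw [h1, hβ1, eq_comm, sub_eq_zero] at h2
      rw [← hTV 1 (one_mem _), ← h2]
    · intro b
      obtain ⟨σ, hσ⟩ := hdec b
      rw [← h] at hσ
      obtain ⟨τ, hτ⟩ := hσ.1
      exact ⟨σ * τ, by rw [map_mul, hτ, mul_inv_cancel_left]⟩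
  · obtain ⟨S, hS⟩ := ho
    refine ⟨S ∪ Finset.univ.image γ, fun σ hσ => ?_⟩
    refine huniq σ 1 _ ?_ ?_ (hψ₁ σ) (hψ₂ σ)
    · rw [map_one, hS σ fun x hx => hσ x (Finset.mem_union_left _ hx)]
    · rw [hβ1, eq_comm, sub_eq_zero]
      funext j
      rw [hTV 1 (one_mem _),
        hσ _ (Finset.mem_union_right _ (Finset.mem_image_of_mem _ (Finset.mem_univ j)))]

end Pool.Agent.PH
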