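import Pool.Agent.Work.MP_db9079_lc.PH.EMB

/-!
Embedding problems with a `p`-group as kernel.

PLAN for `emb1`. `V = q.ker`; give `Additive V` a `ZMod p`-module structure (`AddCommGroup.zmodModule`), choose a basis: an
injective `ι : V → (Fin n → ZMod p)` (bijective, additive), matrices `ρ b` over `ZMod p` with `ι (b v b⁻¹) = ρ b *ᵥ ι v`
(`ρ` multiplicative, trivial on `V`). Cast to `Ω` by `ZMod.castHom`. `α` from `prim π`; `α_a = σ α` for `π σ = a`, injective in `a`,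
`σ α_a = α_(π σ * a)`; `lag0` gives `θ_a = α_a ^ i / Tr` with `∑ θ_a = 1`. `s` a section of `q`,
`κ b h = b * s h * (s (q b * h))⁻¹ ∈ V`, `β b = ∑ h, θ_(q b * h) • ι (κ b h)`; then for `π σ = q b`:
`β (b * b') = β b + ρ b *ᵥ σ (β b')`, `β v = ι v` on `V`. With `P w = w ^ p - w` componentwise, `a₁ = ∑ h, θ_h • P (β (s h))` has
`P (β b) = a₁ - ρ b *ᵥ σ a₁`. A nonzero invariant `a₂ = ∑ h, α_h ^ i • ρ (s h) *ᵥ ι v₀` (`lag0` on a coordinate); components of
`a₁, a₂` lie in `M⟮α⟯` (`fix_mem`). Choose `c : M` such that `a = a₁ + c • a₂` is not `P w` with `w` in `M⟮α⟯` (`c = 0`, or `c` from `hc`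
for a nonzero component of `a₂`). `γ` with `P γ = a` (`IsAlgClosed`). `ψ σ` = the unique `b` with `q b = π σ` and
`β b = γ - ρ b *ᵥ σ γ` (roots of `X ^ p - X` are the casts of `ZMod p`). Open kernel: `T ∪ {α} ∪ range γ`. Surjective: `range ψ ⊓ V` is normal;
if it is `⊥` then `γ` is fixed by all `σ` fixing `α`. `emb`: induction on `Nat.card B` with `exists_min_normal` and `B ⧸ V`.
-/

namespace Pool.Agent.PH

open IntermediateField

variable {M Ω : Type*} [Field M] [PerfectField M] [Field Ω] [IsAlgClosed Ω] [Algebra M Ω]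
  [Algebra.IsAlgebraic M Ω] (p : ℕ) [Fact p.Prime] [CharP Ω p]

theorem emb (hc : ∀ α z : Ω, z ∈ M⟮α⟯ → z ≠ 0 →
      ∃ c : M, ∀ y ∈ M⟮α⟯, y ^ p - y ≠ algebraMap M Ω c * z)
    {B A : Type} [Group B] [Finite B] [Group A] (q : B →* A) (hq : Function.Surjective q)
    (hp : IsPGroup p q.ker) (π : (Ω ≃ₐ[M] Ω) →* A) (hπ : Function.Surjective π) (ho : OpenK π) :
    ∃ ψ : (Ω ≃ₐ[M] Ω) →* B, Function.Surjective ψ ∧ OpenK ψ ∧ ∀ σ, q (ψ σ) = π σ := by
  induction hn : Nat.card B using Nat.strong_induction_on generalizing B with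
  | _ n ih =>
    by_cases h0 : q.ker = ⊥
    · let e := MulEquiv.ofBijective q ⟨(MonoidHom.ker_eq_bot_iff q).1 h0, hq⟩
      obtain ⟨T, hT⟩ := ho
      exact ⟨e.symm.toMonoidHom.comp π, e.symm.surjective.comp hπ,
        ⟨T, fun σ hσ => by rw [MonoidHom.comp_apply, hT σ hσ, map_one]⟩,
        fun σ => e.apply_symm_apply (π σ)⟩
    obtain ⟨V, hV, h1, h2, h3, h4, h5⟩ := exists_min_normal q.ker hp h0
    have c1 : Nat.card (B ⧸ V) < n := by
      rw [← hn, V.card_eq_card_quotient_mul_card_subgroup]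
      exact lt_mul_of_one_lt_right Nat.card_pos (V.one_lt_card_iff_ne_bot.2 h2)
    have c2 : Function.Surjective (QuotientGroup.lift V q h1) := fun a =>
      (hq a).elim fun b hb => ⟨b, hb⟩
    have c3 : IsPGroup p (QuotientGroup.lift V q h1).ker := by
      rintro ⟨x, hx⟩
      obtain ⟨b, rfl⟩ := QuotientGroup.mk_surjective x
      obtain ⟨k, hk⟩ := hp ⟨b, hx⟩
      exact ⟨k, Subtype.ext (congrArg (fun z : q.ker => ((z : B) : B ⧸ V)) hk)⟩
    obtain ⟨ψ', a1, a2, a3⟩ := ih _ c1 (QuotientGroup.lift V q h1) c2 c3 rfl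
    rw [← QuotientGroup.ker_mk' V] at h2 h3 h4 h5
    obtain ⟨ψ, b1, b2, b3⟩ := emb1 p hc (QuotientGroup.mk' V) (QuotientGroup.mk'_surjective V)
      h2 h3 h4 h5 ψ' a1 a2
    exact ⟨ψ, b1, b2, fun σ => (congrArg (QuotientGroup.lift V q h1) (b3 σ)).trans (a3 σ)⟩

end Pool.Agent.PH
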