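import Pool.Agent.Work.MP_db9079_lc.PH.VD

/-!
Basic lemmas on valuations in algebraic extensions.

PLAN. `vp_on_le`: as `VP.le`. `val_eq_of_periodic`: if `v (τ a) < v a` then `v (τ^[i+1] a) < v (τ^[i] a)`
for all `i`. `alg_val`: in `∑ a_i g ^ i = 0` (minpoly) two nonzero terms have the same value, else the
largest one gives the value of the sum (`Valuation.map_sum_eq_of_lt` or induction). `alg_res`: divide a
relation by a coefficient of largest value, replace each coefficient by an element of `k` (by `h`), get
`q : k[X]` with a unit coefficient and `v (aeval g q) < 1`; divide out: factor `q` over `k`; write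
`q = c * ∏ (X - r)`; if `v (g - r) ≥ 1` for all roots then compare with the unit coefficient (simplest: first
replace the coefficients of value `< 1` by `0`, so the leading coefficient of `q` is a unit, and then
`∏ v (g - r) < 1`). `alg_imm`: `v (g ^ n) = v a = v (λ)`, `μ ^ n = λ` in `k`, `g / μ` is a unit, `alg_res`.
`inc_eq`: for `a ∈ O' \ O` use `alg_val` for `O` and `a⁻¹`. `coeff_mem_of_roots`: induction on the multiset,
carrying monic and degree. `minpoly_coeff_mem`: the minpoly splits, its roots are conjugates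
(`minpoly.exists_algEquiv_of_root'` or `Normal.minpoly_eq_iff_mem_orbit`).
-/

namespace Pool.Agent.PH

open Polynomial

variable {F : Type*} [Field F]

theorem V1_le (O : ValuationSubring F) (x : F) {y : F} (hy : y ≠ 0) :
    O.valuation x ≤ O.valuation y ↔ x / y ∈ O := by
  rw [← ValuationSubring.valuation_le_one_iff, map_div₀,
    div_le_one₀ ((Valuation.pos_iff O.valuation).2 hy)]

theorem vp_on_le {F' : Type*} [Field F'] (S : Subfield F) {O : ValuationSubring F}
    {O' : ValuationSubring F'} {φ : F →+* F'} (h : ∀ a ∈ S, φ a ∈ O' ↔ a ∈ O) {a b : F}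
    (ha : a ∈ S) (hb : b ∈ S) :
    O'.valuation (φ a) ≤ O'.valuation (φ b) ↔ O.valuation a ≤ O.valuation b := by
  by_cases h0 : b = 0
  · simp [h0]
  · rw [V1_le _ _ h0, V1_le _ _ ((map_ne_zero φ).2 h0), ← map_div₀]
    exact h _ (div_mem ha hb)

theorem val_eq_of_periodic (S : Subfield F) (O : ValuationSubring F) (τ : F →+* F)
    (hS : ∀ a ∈ S, τ a ∈ S) (h : ∀ a ∈ S, τ a ∈ O ↔ a ∈ O) {a : F} (ha : a ∈ S) {n : ℕ}
    (hn : 0 < n) (hp : τ^[n] a = a) : O.valuation (τ a) = O.valuation a := by
  have hm : ∀ i, τ^[i] a ∈ S := fun i => Set.MapsTo.iterate (s := (S : Set F)) hS i ha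
  have hlt : ∀ x ∈ S, ∀ y ∈ S, O.valuation x < O.valuation y →
      O.valuation (τ x) < O.valuation (τ y) := fun x hx y hy hxy => by
    rwa [← not_le, vp_on_le S h hy hx, not_le]
  rcases lt_trichotomy (O.valuation (τ a)) (O.valuation a) with h1 | h1 | h1
  · have h2 : StrictAnti fun i => O.valuation (τ^[i] a) := by
      refine strictAnti_nat_of_succ_lt fun i => ?_
      induction i with
      | zero => exact h1
      | succ i ih =>
        have := hlt _ (hm _) _ (hm _) ih
        rwa [← Function.iterate_succ_apply' τ, ← Function.iterate_succ_apply' τ] at this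
    have h3 := h2 hn
    simp only [hp, Function.iterate_zero_apply] at h3
    exact absurd h3 (lt_irrefl _)
  · exact h1
  · have h2 : StrictMono fun i => O.valuation (τ^[i] a) := by
      refine strictMono_nat_of_lt_succ fun i => ?_
      induction i with
      | zero => exact h1
      | succ i ih =>
        have := hlt _ (hm _) _ (hm _) ih
        rwa [← Function.iterate_succ_apply' τ, ← Function.iterate_succ_apply' τ] at this
    have h3 := h2 hn
    simp only [hp, Function.iterate_zero_apply] at h3
    exact absurd h3 (lt_irrefl _)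

theorem lt_of_le_ring {O O' : ValuationSubring F} (h : O ≤ O') {x y : F}
    (hxy : O'.valuation x < O'.valuation y) : O.valuation x < O.valuation y := by
  by_contra hc
  have h1 := O.monotone_mapOfLE O' h (not_lt.1 hc)
  rw [O.mapOfLE_valuation_apply, O.mapOfLE_valuation_apply] at h1
  exact absurd hxy (not_lt.2 h1)

theorem loc_le {O : ValuationSubring F} {c : F} {hc : c ∈ O} (h0 : c ≠ 0) (x y : F) :
    (loc O c hc).valuation x ≤ (loc O c hc).valuation y ↔
      ∃ n : ℕ, O.valuation c ^ n * O.valuation x ≤ O.valuation y := by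
  by_cases hy : y = 0
  · simp [hy, h0]
  · rw [V1_le _ _ hy, mem_loc]
    refine exists_congr fun n => ?_
    rw [← map_pow, ← map_mul, V1_le _ _ hy, mul_div_assoc]

theorem loc_lt_one {O : ValuationSubring F} {c : F} {hc : c ∈ O} (h0 : c ≠ 0) (x : F) :
    (loc O c hc).valuation x < 1 ↔ ∀ n : ℕ, O.valuation x < O.valuation c ^ n := by
  rw [← not_le, ← (loc O c hc).valuation.map_one, loc_le h0]
  simp only [map_one, mul_one, not_exists, not_le]

theorem coeff_mem_of_roots (I : NonUnitalSubring F) (s : Multiset F) (hs : ∀ r ∈ s, r ∈ I) {i : ℕ}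
    (hi : i < Multiset.card s) : (s.map fun r => X - C r).prod.coeff i ∈ I := by
  induction s using Multiset.induction_on generalizing i with
  | empty => simp at hi
  | cons r s ih =>
    have hr := hs r (Multiset.mem_cons_self r s)
    have ih' := fun j => @ih (fun x hx => hs x (Multiset.mem_cons_of_mem hx)) j
    have h1 : ∀ j ≤ Multiset.card s, r * (s.map fun r => X - C r).prod.coeff j ∈ I := by
      intro j hj
      rcases hj.eq_or_lt with rfl | hj
      · have hm : (s.map fun r => X - C r).prod.Monic :=
          monic_multiset_prod_of_monic _ _ fun r _ => monic_X_sub_C r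
        rw [← natDegree_multiset_prod_X_sub_C_eq_card s, hm.coeff_natDegree, mul_one]
        exact hr
      · exact mul_mem hr (ih' j hj)
    rw [Multiset.card_cons] at hi
    rw [Multiset.map_cons, Multiset.prod_cons, sub_mul, coeff_sub, coeff_C_mul]
    cases i with
    | zero =>
      rw [coeff_X_mul_zero, zero_sub]
      exact neg_mem (h1 0 (Nat.zero_le _))
    | succ i =>
      rw [coeff_X_mul]
      exact sub_mem (ih' i (by omega)) (h1 _ (by omega))

theorem V1_root (O : ValuationSubring F) {f : F[X]} (hf : f.Monic) {a : F} (ha : f.eval a = 0)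
    (h0 : O.valuation a ≠ 0) (h : ∀ i < f.natDegree,
      O.valuation (f.coeff i) * O.valuation a ^ i < O.valuation a ^ f.natDegree) : False := by
  rw [eval_eq_sum_range, Finset.sum_range_succ, hf.coeff_natDegree, one_mul] at ha
  have h1 := O.valuation.map_sum_lt (s := Finset.range f.natDegree)
    (f := fun i => f.coeff i * a ^ i) (pow_ne_zero f.natDegree h0) fun i hi => by
      rw [map_mul, map_pow]
      exact h i (Finset.mem_range.1 hi)
  rw [eq_neg_of_add_eq_zero_left ha, Valuation.map_neg, map_pow] at h1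
  exact lt_irrefl _ h1

theorem root_lt_one (O : ValuationSubring F) {f : F[X]} (hf : f.Monic)
    (h : ∀ i < f.natDegree, O.valuation (f.coeff i) < 1) {a : F} (ha : f.eval a = 0) :
    O.valuation a < 1 := by
  by_contra hc
  have h1 := not_lt.1 hc
  have h2 : 0 < O.valuation a := zero_lt_one.trans_le h1
  exact V1_root O hf ha h2.ne' fun i hi =>
    (mul_lt_of_lt_one_left (pow_pos h2 i) (h i hi)).trans_le (pow_le_pow_right₀ h1 hi.le)

theorem root_mem (O : ValuationSubring F) {f : F[X]} (hf : f.Monic) (h : ∀ i, f.coeff i ∈ O)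
    {a : F} (ha : f.eval a = 0) : a ∈ O := by
  by_contra hc
  rw [← O.valuation_le_one_iff, not_le] at hc
  have h2 : 0 < O.valuation a := zero_lt_one.trans hc
  exact V1_root O hf ha h2.ne' fun i hi =>
    (mul_le_of_le_one_left (pow_pos h2 i).le ((O.valuation_le_one_iff _).2 (h i))).trans_lt
      (pow_lt_pow_right₀ hc hi)

variable {K : Type*} [Field K] [Algebra K F]

theorem finite_orbit {a : F} (ha : IsAlgebraic K a) :
    (Set.range fun τ : F ≃ₐ[K] F => τ a).Finite := by
  refine ((minpoly K a).rootSet_finite F).subset ?_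
  rintro _ ⟨τ, rfl⟩
  rw [mem_rootSet]
  refine ⟨minpoly.ne_zero ha.isIntegral, ?_⟩
  rw [aeval_algHom_apply, minpoly.aeval, map_zero]

theorem periodic_of_alg (τ : F ≃ₐ[K] F) {a : F} (ha : IsAlgebraic K a) :
    ∃ n, 0 < n ∧ τ^[n] a = a := by
  obtain ⟨i, j, hij, h⟩ := Set.Finite.exists_lt_map_eq_of_forall_mem
    (f := fun n : ℕ => τ^[n] a) (t := Set.range fun τ : F ≃ₐ[K] F => τ a)
    (fun n => ⟨τ ^ n, by simp⟩) (finite_orbit ha)
  exact ⟨j - i, Nat.sub_pos_of_lt hij, Function.iterate_cancel τ.injective h.symm⟩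

theorem dec_val [Algebra.IsAlgebraic K F] {O : ValuationSubring F} {σ : F ≃ₐ[K] F}
    (hσ : σ ∈ Dec K O) (a : F) : O.valuation (σ a) = O.valuation a := by
  obtain ⟨n, hn, hp⟩ := periodic_of_alg σ (Algebra.IsAlgebraic.isAlgebraic (R := K) a)
  exact val_eq_of_periodic ⊤ O (σ : F →+* F) (fun _ _ => trivial) (fun x _ => hσ x) trivial hn hp

end Pool.Agent.PH
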