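import Pool.Agent.Work.MP_db9079_lc.PH.EMBb
import Pool.Agent.Work.MP_db9079_lc.PH.FLDb
import Pool.Agent.Work.MP_db9079_lc.PH.V1

/-!
The Galois theoretic part of the finite level embedding.

PLAN. `exists_stable_set`: union of the orbits (`finite_orbit`). `flb`: `S₁ ⊇ S` finite and stable; `N₁` = pointwise stabilizer of `S₁`, normal of finite index (kernel of the action on `S₁`);
`B = G₁ ⧸ N₁` (or the range of the permutation representation), `ρ` the projection. `r₁`, `r'` from `res_hom` with `L = L₁.comap i`. `B₀ = (ker r₁).map ρ`, normal, a `p`-group by `htame`.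
`G₁ → B ⧸ B₀` kills `ker r₁`, so it factors as `π₀ ∘ r₁` (`MonoidHom.liftOfRightInverse`, or `QuotientGroup.quotientKerEquivOfSurjective`); `π = π₀ ∘ r'` is onto, with open kernel by `fin_lvl`
(`T = S₀.image j`). `emb` with `q = QuotientGroup.mk' B₀`. For `σ` take `τ₁` with `r₁ τ₁ = r' σ` and correct by an element of `ker r₁`. `theta_family`: `α` from `prim`, `θ₀` from `hAT`,
`θ b = σ θ₀` for a chosen `σ` with `ψ σ = b`; values are preserved (`dec_val`).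
-/

namespace Pool.Agent.PH

open IntermediateField

theorem exists_stable_set {L Ω : Type*} [Field L] [Field Ω] [Algebra L Ω] [Algebra.IsAlgebraic L Ω]
    (S : Finset Ω) : ∃ S₁ : Finset Ω, S ⊆ S₁ ∧ ∀ (τ : Ω ≃ₐ[L] Ω), ∀ g ∈ S₁, τ g ∈ S₁ := by
  classical
  have h : ∀ a : Ω, (Set.range fun τ : Ω ≃ₐ[L] Ω => τ a).Finite := fun a =>
    finite_orbit (Algebra.IsAlgebraic.isAlgebraic a)
  refine ⟨S.biUnion fun a => (h a).toFinset, fun a ha => ?_, fun τ g hg => ?_⟩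
  · exact Finset.mem_biUnion.2 ⟨a, ha, (h a).mem_toFinset.2 ⟨1, rfl⟩⟩
  · obtain ⟨a, ha, hg⟩ := Finset.mem_biUnion.1 hg
    obtain ⟨σ, rfl⟩ := (h a).mem_toFinset.1 hg
    exact Finset.mem_biUnion.2 ⟨a, ha, (h a).mem_toFinset.2 ⟨τ * σ, rfl⟩⟩

theorem FLB_rep {L Ω : Type} [Field L] [Field Ω] [Algebra L Ω] (S : Finset Ω)
    (hS : ∀ (τ : Ω ≃ₐ[L] Ω), ∀ g ∈ S, τ g ∈ S) :
    ∃ (B : Type) (_ : Group B) (_ : Finite B) (ρ : (Ω ≃ₐ[L] Ω) →* B), Function.Surjective ρ ∧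
      ∀ τ, ρ τ = 1 ↔ ∀ g ∈ S, τ g = g := by
  let X : SubMulAction (Ω ≃ₐ[L] Ω) Ω := ⟨S, fun τ g hg => hS τ g hg⟩
  have : Finite X := S.finite_toSet.to_subtype
  refine ⟨(MulAction.toPermHom (Ω ≃ₐ[L] Ω) X).range, inferInstance, inferInstance,
    (MulAction.toPermHom (Ω ≃ₐ[L] Ω) X).rangeRestrict, MonoidHom.rangeRestrict_surjective _,
    fun τ => ⟨fun h g hg => ?_, fun h => ?_⟩⟩
  · exact congrArg (fun b : (MulAction.toPermHom (Ω ≃ₐ[L] Ω) X).range => ((b.1 ⟨g, hg⟩ : X) : Ω)) h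
  · exact Subtype.ext (Equiv.ext fun g => Subtype.ext (h g.1 g.2))

theorem flb {k Ω₁ Ω : Type} [Field k] [IsAlgClosed k] [Field Ω₁] [IsAlgClosed Ω₁] [Field Ω]
    [IsAlgClosed Ω] (p : ℕ) [Fact p.Prime] [CharP Ω p] (L₁ : Subfield Ω₁) [PerfectField L₁]
    [Algebra.IsAlgebraic L₁ Ω₁] (M : Subfield Ω) [PerfectField M] [Algebra.IsAlgebraic M Ω]
    (i : k →+* Ω₁) (j : k →+* Ω) (hij : ∀ a, i a ∈ L₁ ↔ j a ∈ M)
    (halg : Algebra.IsAlgebraic (L₁.comap i) k)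
    (htame : ∀ τ : Ω₁ ≃ₐ[L₁] Ω₁, (∀ a, τ (i a) = i a) → ∀ g, ∃ m : ℕ, τ^[p ^ m] g = g)
    (hc : ∀ α z : Ω, z ∈ M⟮α⟯ → z ≠ 0 →
      ∃ c : M, ∀ y ∈ M⟮α⟯, y ^ p - y ≠ algebraMap M Ω c * z) (S : Finset Ω₁) :
    ∃ (B : Type) (_ : Group B) (_ : Finite B) (ρ : (Ω₁ ≃ₐ[L₁] Ω₁) →* B) (ψ : (Ω ≃ₐ[M] Ω) →* B),
      Function.Surjective ρ ∧ Function.Surjective ψ ∧ OpenK ψ ∧
      (∀ τ, ρ τ = 1 → ∀ g ∈ S, τ g = g) ∧
      ∀ σ, ∃ τ, ρ τ = ψ σ ∧ ∀ a, ∃ b, τ (i a) = i b ∧ σ (j a) = j b := by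
  classical
  obtain ⟨S₁, hS, hS₁⟩ := exists_stable_set (L := L₁) S
  obtain ⟨B, _, _, ρ, hρ, hρ1⟩ := FLB_rep S₁ hS₁
  obtain ⟨r₁, hr₁, hr₁i⟩ := res_hom L₁ i (L₁.comap i) fun _ => Iff.rfl
  obtain ⟨r', hr', hr'j⟩ := res_hom M j (L₁.comap i) hij
  have hker : ∀ τ, r₁ τ = 1 ↔ ∀ a, τ (i a) = i a := fun τ =>
    ⟨fun h a => by rw [← hr₁i, h, AlgEquiv.one_apply],
      fun h => AlgEquiv.ext fun a => i.injective ((hr₁i τ a).trans (h a))⟩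
  have hN : (r₁.ker.map ρ).Normal := Subgroup.Normal.map inferInstance ρ hρ
  have hp : IsPGroup p (QuotientGroup.mk' (r₁.ker.map ρ)).ker := by
    rw [QuotientGroup.ker_mk']
    rintro ⟨_, τ, hτ, rfl⟩
    choose m hm using htame τ ((hker τ).1 hτ)
    refine ⟨S₁.sup m, Subtype.ext ?_⟩
    show ρ τ ^ p ^ S₁.sup m = 1
    rw [← map_pow, hρ1]
    intro g hg
    rw [AlgEquiv.coe_pow]
    exact Function.IsPeriodicPt.trans_dvd (hm g) (pow_dvd_pow p (Finset.le_sup hg))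
  obtain ⟨π₀, hπ₀⟩ : ∃ π₀ : (k ≃ₐ[L₁.comap i] k) →* B ⧸ r₁.ker.map ρ,
      ∀ τ, π₀ (r₁ τ) = QuotientGroup.mk' (r₁.ker.map ρ) (ρ τ) :=
    ⟨r₁.liftOfRightInverse _ (Function.rightInverse_surjInv hr₁)
      ⟨(QuotientGroup.mk' (r₁.ker.map ρ)).comp ρ, fun τ hτ =>
        (QuotientGroup.eq_one_iff _).2 ⟨τ, hτ, rfl⟩⟩,
      fun τ => r₁.liftOfRightInverse_comp_apply _ _ _ τ⟩
  have hπ : Function.Surjective (π₀.comp r') := fun a => by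
    obtain ⟨b, rfl⟩ := QuotientGroup.mk'_surjective _ a
    obtain ⟨τ, rfl⟩ := hρ b
    obtain ⟨σ, hσ⟩ := hr' (r₁ τ)
    exact ⟨σ, by rw [MonoidHom.comp_apply, hσ, hπ₀]⟩
  have ho : OpenK (π₀.comp r') := by
    obtain ⟨S₀, hS₀⟩ := fin_lvl (M := L₁) i S₁
    refine ⟨S₀.image j, fun σ hσ => ?_⟩
    obtain ⟨τ, hτ⟩ := hr₁ (r' σ)
    obtain ⟨τ', h1, h2⟩ := hS₀ τ fun a ha => by
      rw [← hr₁i, hτ, j.injective ((hr'j σ a).trans (hσ _ (Finset.mem_image_of_mem j ha)))]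
    have h3 : ρ τ' = ρ τ := by
      rw [← inv_mul_eq_one, ← map_inv, ← map_mul, hρ1]
      intro g hg
      rw [AlgEquiv.mul_apply, ← h2 g hg, ← AlgEquiv.mul_apply, inv_mul_cancel, AlgEquiv.one_apply]
    rw [MonoidHom.comp_apply, ← hτ, hπ₀, ← h3, ← hπ₀, (hker τ').2 h1, map_one]
  obtain ⟨ψ, hψ, hψo, hq⟩ := emb p hc (QuotientGroup.mk' (r₁.ker.map ρ))
    (QuotientGroup.mk'_surjective _) hp (π₀.comp r') hπ ho
  refine ⟨B, inferInstance, inferInstance, ρ, ψ, hρ, hψ, hψo,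
    fun τ h g hg => (hρ1 τ).1 h g (hS hg), fun σ => ?_⟩
  obtain ⟨τ₁, hτ₁⟩ := hr₁ (r' σ)
  have h1 : QuotientGroup.mk' (r₁.ker.map ρ) (ρ τ₁) = QuotientGroup.mk' (r₁.ker.map ρ) (ψ σ) := by
    rw [hq, MonoidHom.comp_apply, ← hτ₁, hπ₀]
  obtain ⟨κ, hκ, hκe⟩ := QuotientGroup.eq.1 h1
  refine ⟨τ₁ * κ, by rw [map_mul, hκe, mul_inv_cancel_left], fun a => ⟨r' σ a, ?_, (hr'j σ a).symm⟩⟩
  rw [← hr₁i, map_mul, (MonoidHom.mem_ker).1 hκ, mul_one, hτ₁]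

theorem theta_family {M Ω : Type*} [Field M] [PerfectField M] [Field Ω] [IsAlgClosed Ω]
    [Algebra M Ω] [Algebra.IsAlgebraic M Ω] (O : ValuationSubring Ω)
    (hO : ∀ σ : Ω ≃ₐ[M] Ω, VP O O σ) {c : Ω}
    (hAT : ∀ α : Ω, ∃ θ ∈ O, (∀ σ : Ω ≃ₐ[M] Ω, σ θ = θ ↔ σ α = α) ∧
      ∀ σ : Ω ≃ₐ[M] Ω, σ θ ≠ θ → O.valuation c ≤ O.valuation (σ θ - θ))
    {B : Type*} [Group B] (ψ : (Ω ≃ₐ[M] Ω) →* B) (hψ : Function.Surjective ψ) (ho : OpenK ψ) :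
    ∃ θ : B → Ω, (∀ b, θ b ∈ O) ∧ (∀ σ b, σ (θ b) = θ (ψ σ * b)) ∧
      ∀ b b', b ≠ b' → O.valuation c ≤ O.valuation (θ b - θ b') := by
  obtain ⟨α, hα⟩ := prim ψ ho
  obtain ⟨θ, hθ, h1, h2⟩ := hAT α
  choose s hs using hψ
  refine ⟨fun b => s b θ, fun b => (hO _ _).2 hθ, fun σ b => ?_, fun b b' hb => ?_⟩
  · have h : ((s (ψ σ * b))⁻¹ * (σ * s b)) θ = θ :=
      (h1 _).2 ((hα _).2 (by rw [map_mul, map_inv, map_mul, hs, hs, inv_mul_cancel]))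
    have h' := congrArg (s (ψ σ * b)) h
    rwa [← AlgEquiv.mul_apply, mul_inv_cancel_left] at h'
  · have h := h2 ((s b')⁻¹ * s b) fun h => hb (by
      have h' := (hα _).1 ((h1 _).1 h)
      rw [map_mul, map_inv, hs, hs, inv_mul_eq_one] at h'
      exact h'.symm)
    rwa [← dec_val (K := M) (σ := s b') (hO _) (_ - _), map_sub (s b'), ← AlgEquiv.mul_apply,
      mul_inv_cancel_left] at h

end Pool.Agent.PH
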