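import Pool.Agent.Work.MP_db9079_lc.PH.UEb
import Pool.Agent.Work.MP_db9079_lc.PH.V5b
import Pool.Agent.Work.MP_db9079_lc.PH.ACL

/-!
The twisted invariant embedding.

PLAN. `flc_gen`: every `j₁ a`, `a ∈ F`, is separable over `N⟮c⟯` (`sep_of_gen` over `k⟮y⟯`, then map the minpoly along `j₁`, which sends `k⟮y⟯` into `N⟮c⟯`); so are all elements of
`adjoin N (j₁ '' F)` (they lie in `separableClosure N⟮c⟯ Ω`). A valuation preserving `d` fixing `N⟮c⟯` has `d ∘ j₁ = j₁` on `F` (`ue`), so fixes the adjoin; `val_of_fixed`, `vt_genV`.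
`flc_core`: `j₁` from `vt_ext`; `u b = j₁ (yb b) / c` are `W`-units; `lag` gives `n` with `f = ∑ θ b ^ n * j₁ (yb b)` of value `w c`; `j₂ : Ω → Ω` from `vt_ext` over `N` with `f ↦ c` (`exch`);
`J = j₂ ∘ j₁`. Given `σ, τ, b₀`: `T` from `vt_ext` over `N` with `φ = σ ∘ algebraMap`, `c ↦ j₁ (yb b₀)`; `ue` on `F`: `T ∘ j₁ = j₁ ∘ τ`; hence `T f = f` (`Equiv.mulLeft` reindexing);
`ue` over `N` on `F' = adjoin N (j₁ '' F)` with generator `f`: `σ ∘ j₂ = j₂ ∘ T`.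
-/

namespace Pool.Agent.PH

open IntermediateField

variable {k Ω₁ N Ω : Type*} [Field k] [IsAlgClosed k] [Field Ω₁] [IsAlgClosed Ω₁] [Algebra k Ω₁]
  [Field N] [IsAlgClosed N] [Field Ω] [IsAlgClosed Ω] [Algebra N Ω] (p : ℕ) [Fact p.Prime]
  [CharP k p] (O₁ : ValuationSubring Ω₁) (W : ValuationSubring Ω) (F : IntermediateField k Ω₁)

omit [IsAlgClosed k] [IsAlgClosed Ω₁] [IsAlgClosed N] [IsAlgClosed Ω] in
theorem FLC_map {y : Ω₁} (j₁ : Ω₁ →+* Ω)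
    (hk : ∀ a : k, ∃ ν : N, j₁ (algebraMap k Ω₁ a) = algebraMap N Ω ν) {a : Ω₁} (ha : a ∈ k⟮y⟯) :
    j₁ a ∈ N⟮j₁ y⟯ := by
  have h1 : k⟮y⟯ ≤ ((N⟮j₁ y⟯).toSubfield.comap j₁).toIntermediateField (fun b => by
      obtain ⟨ν, hν⟩ := hk b
      show j₁ (algebraMap k Ω₁ b) ∈ N⟮j₁ y⟯
      rw [hν]
      exact IntermediateField.algebraMap_mem _ ν) :=
    adjoin_simple_le_iff.2 (mem_adjoin_simple_self N (j₁ y))
  exact h1 ha

omit [IsAlgClosed k] [IsAlgClosed Ω₁] [IsAlgClosed N] [IsAlgClosed Ω] in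
theorem FLC_sep {y : Ω₁} (j₁ : Ω₁ →+* Ω)
    (hk : ∀ a : k, ∃ ν : N, j₁ (algebraMap k Ω₁ a) = algebraMap N Ω ν) {a : Ω₁}
    (ha : IsSeparable k⟮y⟯ a) : IsSeparable N⟮j₁ y⟯ (j₁ a) := by
  let ρ : k⟮y⟯ →+* N⟮j₁ y⟯ := (j₁.comp (algebraMap k⟮y⟯ Ω₁)).codRestrict N⟮j₁ y⟯
    fun b => FLC_map j₁ hk b.2
  have h1 : (algebraMap N⟮j₁ y⟯ Ω).comp ρ = j₁.comp (algebraMap k⟮y⟯ Ω₁) := rfl
  have h2 := Polynomial.map_aeval_eq_aeval_map h1 (minpoly k⟮y⟯ a) a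
  rw [minpoly.aeval, map_zero] at h2
  exact (Polynomial.Separable.map ha (f := ρ)).of_dvd (minpoly.dvd _ _ h2.symm)

include p in
theorem flc_gen {y : Ω₁} (hyF : y ∈ F) (halg : Algebra.IsAlgebraic k⟮y⟯ Ω₁) (hy : VT k O₁ y)
    (hg : GenV k O₁ y F) (j₁ : Ω₁ →+* Ω) (hj₁ : VP O₁ W j₁)
    (hk : ∀ a : k, ∃ ν : N, j₁ (algebraMap k Ω₁ a) = algebraMap N Ω ν) (hc : VT N W (j₁ y))
    (hcalg : Algebra.IsAlgebraic N⟮j₁ y⟯ Ω) : GenV N W (j₁ y) (adjoin N (j₁ '' F)) := by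
  have hKT : k⟮y⟯ ≤ F := adjoin_simple_le_iff.2 hyF
  have hsep : ∀ a ∈ F, IsSeparable k⟮y⟯ a := fun a ha => by
    have h1 : (k⟮y⟯⟮a⟯ : IntermediateField k⟮y⟯ Ω₁) ≤ extendScalars hKT :=
      adjoin_simple_le_iff.2 ha
    exact sep_of_gen hy (halg.isAlgebraic a) fun z hz h0 => hg z (h1 hz) h0
  have hle : adjoin N (j₁ '' F) ≤ (separableClosure N⟮j₁ y⟯ Ω).restrictScalars N := by
    rw [adjoin_le_iff]
    rintro _ ⟨a, ha, rfl⟩
    exact mem_separableClosure_iff.2 (FLC_sep j₁ hk (hsep a ha))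
  intro g hgm h0
  obtain ⟨a, ha⟩ := val_of_fixed (K := N⟮j₁ y⟯) W (mem_separableClosure_iff.1 (hle hgm))
    fun d hd hfix => by
      have hfix' : ∀ z ∈ N⟮j₁ y⟯, d z = z := fun z hz => hfix ⟨z, hz⟩
      have h1 := ue p O₁ W F hyF halg hy hg (d.comp j₁) j₁ (fun z _ => (hd _).trans (hj₁ z))
        (fun z _ => hj₁ z)
        (fun b => hfix' _ (FLC_map j₁ hk (IntermediateField.algebraMap_mem k⟮y⟯ b)))
        (hfix' _ (mem_adjoin_simple_self N (j₁ y)))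
      have h2 : adjoin N (j₁ '' F) ≤ (d.eqLocusField (RingHom.id Ω)).toIntermediateField
          (fun ν : N => hfix' _ (IntermediateField.algebraMap_mem _ ν)) := by
        rw [adjoin_le_iff]
        rintro _ ⟨z, hz, rfl⟩
        exact h1 z hz
      exact h2 hgm
  have ha0 : (a : Ω) ≠ 0 := fun h => h0 (by
    have h1 : algebraMap N⟮j₁ y⟯ Ω a = 0 := h
    rw [h1, map_zero] at ha
    exact (map_eq_zero _).1 ha)
  obtain ⟨ν, i, hν⟩ := vt_genV hc a a.2 ha0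
  exact ⟨ν, i, ha.trans hν⟩

include p in
theorem flc_core {B : Type*} [Group B] [Fintype B] (yb : B → Ω₁) (hyF : ∀ b, yb b ∈ F)
    (halg : Algebra.IsAlgebraic k⟮yb 1⟯ Ω₁) (hy : VT k O₁ (yb 1)) (hg : GenV k O₁ (yb 1) F)
    (hyv : ∀ b, O₁.valuation (yb b) = O₁.valuation (yb 1)) (j : k →+* N)
    (hj : ∀ a, algebraMap N Ω (j a) ∈ W ↔ algebraMap k Ω₁ a ∈ O₁) (θ : B → N)
    (hθ : ∀ b, algebraMap N Ω (θ b) ∈ W)
    (hθd : ∀ b b', b ≠ b' → W.valuation (algebraMap N Ω (θ b) - algebraMap N Ω (θ b')) = 1)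
    {c : Ω} (hc : VT N W c) (hcalg : Algebra.IsAlgebraic N⟮c⟯ Ω)
    (hcut : ∀ a, O₁.valuation (yb 1) < O₁.valuation (algebraMap k Ω₁ a) ↔
      W.valuation c < W.valuation (algebraMap N Ω (j a))) :
    ∃ J : Ω₁ →+* Ω, (∀ a, J (algebraMap k Ω₁ a) = algebraMap N Ω (j a)) ∧ VP O₁ W J ∧
      ∀ (σ : Ω →+* Ω) (τ : Ω₁ →+* Ω₁) (b₀ : B), VP W W σ → σ c = c →
        (∀ ν : N, ∃ ν' : N, σ (algebraMap N Ω ν) = algebraMap N Ω ν') →
        (∀ b, σ (algebraMap N Ω (θ b)) = algebraMap N Ω (θ (b₀ * b))) →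
        (∀ a, ∃ a', τ (algebraMap k Ω₁ a) = algebraMap k Ω₁ a' ∧
          σ (algebraMap N Ω (j a)) = algebraMap N Ω (j a')) →
        (∀ b, τ (yb b) = yb (b₀ * b)) → (∀ g ∈ F, τ g ∈ O₁ ↔ g ∈ O₁) →
        ∀ g ∈ F, σ (J g) = J (τ g) := by
  have : CharP N p := charP_of_injective_ringHom j.injective p
  obtain ⟨j₁, hj₁, hj₁k, hj₁y⟩ := vt_ext O₁ W hy halg ((algebraMap N Ω).comp j) hj
    (fun a => hc (j a)) hcut
  have hc0 : c ≠ 0 := hc.ne_zero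
  have hwc : W.valuation c ≠ 0 := (Valuation.ne_zero_iff _).2 hc0
  have hwy : ∀ b, W.valuation (j₁ (yb b)) = W.valuation c := fun b => by
    rw [← hj₁y]
    exact (hj₁.eq _ _).2 (hyv b)
  have hu : ∀ b, W.valuation (j₁ (yb b) / c) = 1 := fun b => by
    rw [map_div₀, hwy, div_self hwc]
  obtain ⟨n, hn⟩ := lag W (fun b => algebraMap N Ω (θ b)) (fun b => j₁ (yb b) / c) hθ hθd
    (fun b => (W.valuation_le_one_iff _).1 (hu b).le) (hu 1)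
  obtain ⟨f, hf⟩ : ∃ f : Ω, f = ∑ b, algebraMap N Ω (θ b) ^ n * j₁ (yb b) := ⟨_, rfl⟩
  have hwf : W.valuation f = W.valuation c := by
    have e : f = c * ∑ b, algebraMap N Ω (θ b) ^ n * (j₁ (yb b) / c) := by
      rw [hf, Finset.mul_sum]
      refine Finset.sum_congr rfl fun b _ => ?_
      field_simp
    rw [e, map_mul, hn, mul_one]
  have hfv : VT N W f := fun ν => by rw [hwf]; exact hc ν
  have hfalg : Algebra.IsAlgebraic N⟮f⟯ Ω := exch hcalg (transc_of_ne hfv.ne)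
  obtain ⟨j₂, hj₂, hj₂k, hj₂f⟩ := vt_ext W W hfv hfalg (algebraMap N Ω) (fun _ => Iff.rfl)
    (c := c) hc fun ν => by rw [hwf]
  have hgen : GenV N W f (adjoin N (j₁ '' F)) := by
    have h1 := flc_gen p O₁ W F (hyF 1) halg hy hg j₁ hj₁ (fun a => ⟨j a, hj₁k a⟩)
      (by rw [hj₁y]; exact hc) (by rw [hj₁y]; exact hcalg)
    intro g hgm h0
    obtain ⟨ν, i, hν⟩ := h1 g hgm h0
    refine ⟨ν, i, hν.trans ?_⟩
    rw [map_mul, map_mul, map_zpow₀, map_zpow₀, hj₁y, hwf]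
  have hfm : f ∈ adjoin N (j₁ '' F) := by
    rw [hf]
    exact sum_mem fun b _ => mul_mem (pow_mem (IntermediateField.algebraMap_mem _ _) n)
      (subset_adjoin _ _ ⟨yb b, hyF b, rfl⟩)
  refine ⟨j₂.comp j₁, fun a => ?_, fun a => (hj₂ _).trans (hj₁ a), ?_⟩
  · rw [RingHom.comp_apply, hj₁k, RingHom.comp_apply, hj₂k]
  intro σ τ b₀ hσ hσc hσN hσθ hστ hτy hτO
  obtain ⟨T, hT, hTk, hTc⟩ := vt_ext W W hc hcalg (σ.comp (algebraMap N Ω)) (fun ν => hσ _)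
    (c := j₁ (yb b₀)) (fun ν => by
      obtain ⟨ν', hν'⟩ := hσN ν
      rw [hwy, RingHom.comp_apply, hν']
      exact hc ν') (fun ν => by
      rw [hwy, RingHom.comp_apply, ← hσ.lt, hσc])
  have h1 : ∀ g ∈ F, T (j₁ g) = j₁ (τ g) :=
    ue p O₁ W F (hyF 1) halg hy hg (T.comp j₁) (j₁.comp τ) (fun g _ => (hT _).trans (hj₁ g))
      (fun g hgF => (hj₁ _).trans (hτO g hgF)) (fun a => by
        obtain ⟨a', h2, h3⟩ := hστ a
        simp only [RingHom.comp_apply, hj₁k, hTk, h2, h3]) (by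
        simp only [RingHom.comp_apply, hj₁y, hTc, hτy, mul_one])
  have hTf : T f = f := by
    rw [hf, map_sum]
    refine Fintype.sum_equiv (Equiv.mulLeft b₀) _ _ fun b => ?_
    rw [map_mul, map_pow, hTk, RingHom.comp_apply, hσθ, h1 _ (hyF b), hτy]
    rfl
  have h2 := ue p W W (adjoin N (j₁ '' F)) hfm hfalg hfv hgen (σ.comp j₂) (j₂.comp T)
    (fun g _ => (hσ _).trans (hj₂ g)) (fun g _ => (hj₂ _).trans (hT g)) (fun ν => by
      obtain ⟨ν', hν'⟩ := hσN ν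
      simp only [RingHom.comp_apply, hj₂k, hTk, hν']) (by
      simp only [RingHom.comp_apply, hj₂f, hTf, hσc])
  intro g hgF
  have h3 := h2 (j₁ g) (subset_adjoin _ _ ⟨g, hgF, rfl⟩)
  simp only [RingHom.comp_apply] at h3 ⊢
  rw [h3, h1 g hgF]

end Pool.Agent.PH
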