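import Pool.Agent.Work.MP_db9079_lc.PH.VD

/-!
Uses of saturation.

PLAN. Enumerate the countably many conditions in the form of `Satur` (`a n = 0` or `b n = 0` switches off one alternative; `v u < v x` is `1 < v (x * u⁻¹)`).
`sat1`: conditions `v x < 1` and `v w < v x` for `w ^ (n + 1) = j a` nonzero of value `< 1`; finitely many are satisfied by `Den` between the largest `v w` (or `hne`) and `1`.
`avoid`: `m` with `m ^ 2 = a b`; if `v m ≤ v ν` take `a' = a`, `b' ^ 2 = a m`, else `b' = b`, `a' ^ 2 = m b`; iterate for a list. `sat2`: for finitely many conditions find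
`a, b` in `j k`, `a ≠ 0`, `v a < v b`, above the lower and below the upper conditions (use `hne` when one side is empty); `v (a / b) < v c ^ n` by `hc`; `avoid`; `Den`.
-/

namespace Pool.Agent.PH

variable {Ω : Type*} [Field Ω] [IsAlgClosed Ω] {M : Subfield Ω} {O : ValuationSubring Ω}

omit [IsAlgClosed Ω] in
theorem SAT_pos {g : Ω} (hg : g ≠ 0) : 0 < O.valuation g := (Valuation.pos_iff _).2 hg

omit [IsAlgClosed Ω] in
theorem SAT_fin (hs : Satur M O) {ι : Type*} [Countable ι] (B U W : ι → Ω)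
    (h : ∀ T : Finset ι, ∃ x ∈ M, x ≠ 0 ∧ ∀ i ∈ T, O.valuation x < O.valuation (B i) ∨
      O.valuation (U i) < O.valuation x * O.valuation (W i)) :
    ∃ x ∈ M, x ≠ 0 ∧ ∀ i, O.valuation x < O.valuation (B i) ∨
      O.valuation (U i) < O.valuation x * O.valuation (W i) := by
  classical
  suffices H : ∃ x ∈ M, x ≠ 0 ∧ ∀ i : {i // U i ≠ 0 ∨ W i = 0}, O.valuation x < O.valuation (B i) ∨
      O.valuation (U i) < O.valuation x * O.valuation (W i) by
    obtain ⟨x, hx, h0, H⟩ := H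
    refine ⟨x, hx, h0, fun i => ?_⟩
    by_cases hi : U i ≠ 0 ∨ W i = 0
    · exact H ⟨i, hi⟩
    · rw [not_or, not_not] at hi
      rw [hi.1, map_zero]
      exact Or.inr (mul_pos (SAT_pos h0) (SAT_pos hi.2))
  have key : ∀ (i : {i // U i ≠ 0 ∨ W i = 0}) (x : Ω), 1 < O.valuation (x * (W i / U i)) ↔
      O.valuation (U i) < O.valuation x * O.valuation (W i) := by
    rintro ⟨i, hi | hi⟩ x
    · rw [← mul_div_assoc, map_div₀, map_mul, one_lt_div₀ (SAT_pos hi)]
    · simp [hi]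
  rcases isEmpty_or_nonempty {i // U i ≠ 0 ∨ W i = 0} with he | he
  · obtain ⟨x, hx, h0, -⟩ := h ∅
    exact ⟨x, hx, h0, fun i => he.elim i⟩
  obtain ⟨e, he⟩ := exists_surjective_nat {i // U i ≠ 0 ∨ W i = 0}
  obtain ⟨x, hx, h0, H⟩ := hs (fun n => W (e n) / U (e n)) (fun n => B (e n)) fun N => by
    obtain ⟨x, hx, h0, H⟩ := h ((Finset.range N).image fun n => (e n).1)
    refine ⟨x, hx, h0, fun n hn => ?_⟩
    rw [key]
    exact H _ (Finset.mem_image_of_mem _ (Finset.mem_range.2 hn))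
  refine ⟨x, hx, h0, fun i => ?_⟩
  obtain ⟨n, rfl⟩ := he i
  rw [← key]
  exact H n

theorem sat1 (hs : Satur M O) (hd : Den M O) {k : Type*} [Countable k] (j : k → Ω)
    (hne : ∃ a : Ω, a ≠ 0 ∧ O.valuation a < 1) :
    ∃ c ∈ M, c ≠ 0 ∧ O.valuation c < 1 ∧
      ∀ (a : k) (n : ℕ), O.valuation (j a) < 1 → O.valuation (j a) < O.valuation c ^ n := by
  classical
  choose w hw using fun (p : k × ℕ) => IsAlgClosed.exists_pow_nat_eq (j p.1) p.2.succ_pos
  let U : Option {p : k × ℕ // O.valuation (j p.1) < 1} → Ω := fun i => i.elim 0 fun p => w p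
  have hU : ∀ i, O.valuation (U i) < 1 := by
    rintro (_ | ⟨p, hp⟩)
    · simp [U]
    · refine lt_of_pow_lt_pow_left₀ p.2.succ zero_le ?_
      rw [one_pow, ← map_pow]
      exact (hw p).symm ▸ hp
  obtain ⟨x, hx, h0, H⟩ := SAT_fin hs (fun i => i.elim 1 fun _ => 0) U
    (fun i => i.elim 0 fun _ => 1) fun T => by
      obtain ⟨a, ha, h1, h2⟩ : ∃ a : Ω, a ≠ 0 ∧ O.valuation a < 1 ∧
          ∀ i ∈ T, O.valuation (U i) ≤ O.valuation a := by
        induction T using Finset.induction_on with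
        | empty =>
          obtain ⟨a, ha, h1⟩ := hne
          exact ⟨a, ha, h1, by simp⟩
        | insert i T _ ih =>
          obtain ⟨a, ha, h1, h2⟩ := ih
          rcases le_or_gt (O.valuation (U i)) (O.valuation a) with h | h
          · exact ⟨a, ha, h1, Finset.forall_mem_insert _ _ _ |>.2 ⟨h, h2⟩⟩
          · exact ⟨U i, (Valuation.pos_iff _).1 (zero_le.trans_lt h), hU i,
              Finset.forall_mem_insert _ _ _ |>.2 ⟨le_rfl, fun i hi => (h2 i hi).trans h.le⟩⟩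
      obtain ⟨x, hx, h3, h4⟩ := hd a 1 ha (by rwa [map_one])
      refine ⟨x, hx, (Valuation.pos_iff _).1 (zero_le.trans_lt h3), ?_⟩
      rintro (_ | p) hi
      · exact Or.inl h4
      · refine Or.inr ?_
        rw [Option.elim_some, map_one, mul_one]
        exact (h2 _ hi).trans_lt h3
  have h1 : O.valuation x < 1 := by simpa [U] using H none
  refine ⟨x, hx, h0, h1, fun a n ha => ?_⟩
  have h2 : O.valuation (w (a, n)) < O.valuation x := by simpa [U] using H (some ⟨(a, n), ha⟩)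
  have h3 := pow_lt_pow_left₀ h2 zero_le n.succ_ne_zero
  rw [← map_pow, hw] at h3
  refine h3.trans_le ?_
  rw [pow_succ]
  exact mul_le_of_le_one_right' h1.le

theorem SAT_mid {c a b : Ω} (ha : a ≠ 0) (hb : b ≠ 0)
    (h : ∀ n : ℕ, O.valuation a < O.valuation b * O.valuation c ^ n) :
    ∃ m : Ω, m ≠ 0 ∧ (∀ n : ℕ, O.valuation a < O.valuation m * O.valuation c ^ n) ∧
      ∀ n : ℕ, O.valuation m < O.valuation b * O.valuation c ^ n := by
  obtain ⟨m, hm⟩ := IsAlgClosed.exists_pow_nat_eq (a * b) two_pos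
  have e : O.valuation m ^ 2 = O.valuation a * O.valuation b := by rw [← map_pow, hm, map_mul]
  refine ⟨m, ?_, fun n => lt_of_pow_lt_pow_left₀ 2 zero_le ?_,
    fun n => lt_of_pow_lt_pow_left₀ 2 zero_le ?_⟩
  · rintro rfl
    exact mul_ne_zero ha hb (by rw [← hm, zero_pow two_ne_zero])
  · rw [mul_pow, e, ← pow_mul, sq, mul_assoc]
    exact mul_lt_mul_of_pos_left (h _) (SAT_pos ha)
  · rw [mul_pow, e, ← pow_mul, sq, mul_right_comm]
    exact mul_lt_mul_of_pos_right (h _) (SAT_pos hb)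

theorem avoid {c a b : Ω} (ha : a ≠ 0) (hb : b ≠ 0)
    (h : ∀ n : ℕ, O.valuation a < O.valuation b * O.valuation c ^ n) (ν : Ω) (n : ℕ) :
    ∃ a' b' : Ω, a' ≠ 0 ∧ b' ≠ 0 ∧ O.valuation a ≤ O.valuation a' ∧
      O.valuation b' ≤ O.valuation b ∧
      (∀ m : ℕ, O.valuation a' < O.valuation b' * O.valuation c ^ m) ∧
      (O.valuation b' ≤ O.valuation ν * O.valuation c ^ n ∨
        O.valuation ν ≤ O.valuation a' * O.valuation c ^ n) := by
  obtain ⟨m, hm, h1, h2⟩ := SAT_mid ha hb h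
  rcases le_or_gt (O.valuation m) (O.valuation ν) with hν | hν
  · obtain ⟨b', hb', h3, h4⟩ := SAT_mid ha hm h1
    refine ⟨a, b', ha, hb', le_rfl, ?_, h3, Or.inl ((h4 n).le.trans (mul_le_mul_left hν _))⟩
    have h5 := h4 0
    have h6 := h2 0
    rw [pow_zero, mul_one] at h5 h6
    exact (h5.trans h6).le
  · obtain ⟨a', ha', h3, h4⟩ := SAT_mid hm hb h2
    refine ⟨a', b, ha', hb, ?_, le_rfl, h4, Or.inr (hν.trans (h3 n)).le⟩
    have h5 := h1 0
    have h6 := h3 0
    rw [pow_zero, mul_one] at h5 h6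
    exact (h5.trans h6).le

theorem SAT_avoid {ι : Type*} {c a b : Ω} (ha : a ≠ 0) (hb : b ≠ 0)
    (h : ∀ n : ℕ, O.valuation a < O.valuation b * O.valuation c ^ n) (ν : ι → Ω) (n : ι → ℕ)
    (T : Finset ι) : ∃ a' b' : Ω, a' ≠ 0 ∧ b' ≠ 0 ∧ O.valuation a ≤ O.valuation a' ∧
      O.valuation b' ≤ O.valuation b ∧
      (∀ m : ℕ, O.valuation a' < O.valuation b' * O.valuation c ^ m) ∧
      ∀ i ∈ T, O.valuation b' ≤ O.valuation (ν i) * O.valuation c ^ n i ∨
        O.valuation (ν i) ≤ O.valuation a' * O.valuation c ^ n i := by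
  classical
  induction T using Finset.induction_on with
  | empty => exact ⟨a, b, ha, hb, le_rfl, le_rfl, h, by simp⟩
  | insert i T _ ih =>
    obtain ⟨a1, b1, h1, h2, h3, h4, h5, h6⟩ := ih
    obtain ⟨a2, b2, g1, g2, g3, g4, g5, g6⟩ := avoid h1 h2 h5 (ν i) (n i)
    refine ⟨a2, b2, g1, g2, h3.trans g3, g4.trans h4, g5,
      Finset.forall_mem_insert _ _ _ |>.2 ⟨g6, fun i hi => ?_⟩⟩
    exact (h6 i hi).imp g4.trans fun h => h.trans (mul_le_mul_left g3 _)

omit [IsAlgClosed Ω] in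
theorem SAT_cut {k : Type*} [Field k] (j : k →+* Ω)
    (hne : ∃ a : k, a ≠ 0 ∧ O.valuation (j a) < 1) (P : k → Prop) (hP0 : ¬ P 0)
    (hP : ∀ a b, P a → O.valuation (j a) ≤ O.valuation (j b) → P b) (T : Finset k) :
    ∃ a b : k, a ≠ 0 ∧ O.valuation (j a) < O.valuation (j b) ∧
      ∀ d ∈ T, (P d → O.valuation (j b) ≤ O.valuation (j d)) ∧
        (¬ P d → O.valuation (j d) ≤ O.valuation (j a)) := by
  classical
  obtain ⟨ε, hε0, hε⟩ := hne
  have hpos : ∀ {a : k}, a ≠ 0 → 0 < O.valuation (j a) := fun h => SAT_pos ((map_ne_zero j).2 h)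
  obtain ⟨a, ha, hmax⟩ := ((insert 0 T).filter fun d => ¬ P d).exists_max_image
    (fun d => O.valuation (j d)) ⟨0, by simp [hP0]⟩
  have hmax' : ∀ d ∈ T, ¬ P d → O.valuation (j d) ≤ O.valuation (j a) := fun d hd h =>
    hmax d (Finset.mem_filter.2 ⟨Finset.mem_insert_of_mem hd, h⟩)
  obtain ⟨b, h1, h2⟩ : ∃ b : k, O.valuation (j a) < O.valuation (j b) ∧
      ∀ d ∈ T, P d → O.valuation (j b) ≤ O.valuation (j d) := by
    by_cases hT : (T.filter P).Nonempty
    · obtain ⟨b, hb, hmin⟩ := (T.filter P).exists_min_image (fun d => O.valuation (j d)) hT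
      exact ⟨b, lt_of_not_ge fun h => (Finset.mem_filter.1 ha).2
        (hP b a (Finset.mem_filter.1 hb).2 h), fun d hd h => hmin d (Finset.mem_filter.2 ⟨hd, h⟩)⟩
    · have h3 : ∀ d ∈ T, ¬ P d := fun d hd h => hT ⟨d, Finset.mem_filter.2 ⟨hd, h⟩⟩
      rcases eq_or_ne a 0 with rfl | h0
      · exact ⟨1, by simp, fun d hd h => absurd h (h3 d hd)⟩
      · refine ⟨a / ε, ?_, fun d hd h => absurd h (h3 d hd)⟩
        rw [map_div₀, map_div₀, lt_div_iff₀ (hpos hε0)]
        exact mul_lt_of_lt_one_right (hpos h0) hε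
  rcases eq_or_ne a 0 with rfl | h0
  · rw [map_zero, map_zero] at h1 hmax'
    have hb : b ≠ 0 := (map_ne_zero j).1 ((Valuation.pos_iff _).1 h1)
    refine ⟨b * ε, b, mul_ne_zero hb hε0, ?_, fun d hd =>
      ⟨h2 d hd, fun h => (hmax' d hd h).trans zero_le⟩⟩
    rw [map_mul, map_mul]
    exact mul_lt_of_lt_one_right h1 hε
  · exact ⟨a, b, h0, h1, fun d hd => ⟨h2 d hd, hmax' d hd⟩⟩

theorem sat2 (hs : Satur M O) (hd : Den M O) {k : Type*} [Field k] [Countable k] (j : k →+* Ω)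
    (hne : ∃ a : k, a ≠ 0 ∧ O.valuation (j a) < 1) {c : Ω} (h0 : c ≠ 0)
    (hc : ∀ (a : k) (n : ℕ), O.valuation (j a) < 1 → O.valuation (j a) < O.valuation c ^ n)
    (P : k → Prop) (hP0 : ¬ P 0)
    (hP : ∀ a b, P a → O.valuation (j a) ≤ O.valuation (j b) → P b) (N : Set Ω)
    (hN : N.Countable) :
    ∃ x ∈ M, x ≠ 0 ∧ (∀ a, P a → O.valuation x < O.valuation (j a)) ∧
      (∀ a, ¬ P a → O.valuation (j a) < O.valuation x) ∧
      ∀ ν ∈ N, ∀ n : ℕ, O.valuation x < O.valuation ν * O.valuation c ^ n ∨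
        O.valuation ν < O.valuation x * O.valuation c ^ n := by
  classical
  have := hN.to_subtype
  obtain ⟨x, hx, hx0, H⟩ := SAT_fin hs (ι := k ⊕ N × ℕ)
    (Sum.elim (fun d => if P d then j d else 0) fun q => q.1 * c ^ q.2)
    (Sum.elim (fun d => j d) fun q => q.1)
    (Sum.elim (fun d => if P d then 0 else 1) fun q => c ^ q.2) fun T => by
      obtain ⟨a, b, ha, h1, h2⟩ := SAT_cut j hne P hP0 hP T.toLeft
      have hb : 0 < O.valuation (j b) := zero_le.trans_lt h1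
      obtain ⟨a', b', ha', -, h3, h4, h5, h6⟩ := SAT_avoid (O := O) (c := c) ((map_ne_zero j).2 ha)
        ((Valuation.pos_iff _).1 hb) (fun n => by
          have h := hc (a / b) n (by rwa [map_div₀, map_div₀, div_lt_one₀ hb])
          rwa [map_div₀, map_div₀, div_lt_iff₀ hb, mul_comm] at h)
        (fun q : N × ℕ => (q.1 : Ω)) (fun q => q.2) T.toRight
      obtain ⟨x, hx, h7, h8⟩ := hd a' b' ha' (by simpa using h5 0)
      refine ⟨x, hx, (Valuation.pos_iff _).1 (zero_le.trans_lt h7), ?_⟩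
      rintro (d | q) hi
      · have h9 := h2 d (Finset.mem_toLeft.2 hi)
        by_cases hd : P d
        · refine Or.inl ?_
          rw [Sum.elim_inl, if_pos hd]
          exact h8.trans_le (h4.trans (h9.1 hd))
        · refine Or.inr ?_
          rw [Sum.elim_inl, Sum.elim_inl, if_neg hd, map_one, mul_one]
          exact ((h9.2 hd).trans h3).trans_lt h7
      · simp only [Sum.elim_inr, map_mul, map_pow]
        exact (h6 q (Finset.mem_toRight.2 hi)).imp h8.trans_le fun h =>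
          h.trans_lt (mul_lt_mul_of_pos_right h7 (pow_pos (SAT_pos h0) _))
  refine ⟨x, hx, hx0, fun a ha => ?_, fun a ha => ?_, fun ν hν n => ?_⟩
  · simpa [ha] using H (Sum.inl a)
  · simpa [ha] using H (Sum.inl a)
  · simpa using H (Sum.inr (⟨ν, hν⟩, n))

end Pool.Agent.PH
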