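import Pool.Agent.Work.MP_db9079_lc.PH.FLC
import Pool.Agent.Work.MP_db9079_lc.PH.FLB
import Pool.Agent.Work.MP_db9079_lc.PH.SAT

/-!
The finite level embedding for a value-transcendental place.

PLAN. `c` from `sat1`, `W = loc O c`; `W` is preserved by all `σ`, agrees with `O` on `j k`, `θ` from `theta_family` has `W`-unit differences (`loc_le`). `M₀ = Subfield.closure (range j ∪ range θ)` is countable and stable under all `σ`;
`N` from `exists_acl`, stable too. `c₁` from `sat2` with `P a = (v₁ y < v₁ a)` and the set `N`; so `w c₁ ≠ w ν` (`loc_le`), and the cut holds for `w`. `T, c₁'` from `exists_acl1` over `N`; every `σ` maps `T` into `T` (restrict it, `RingHom.codRestrict`).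
`yb b = τ_b y` for a section `τ_b` of `ρ`; `yb 1 = y`; values by `val_eq_of_periodic`, `periodic_of_alg`. Apply `flc_core` with `Ω := T`, `W.comap T.val`; compose with `T.val`; `lt_of_le_ring`.
-/

namespace Pool.Agent.PH

open IntermediateField

theorem FLV_alg {K Ω : Type*} [Field K] [Field Ω] [Algebra K Ω] (σ : Ω →+* Ω)
    (h : ∀ a : K, ∃ a' : K, σ (algebraMap K Ω a) = algebraMap K Ω a') {g : Ω}
    (hg : IsAlgebraic K g) : IsAlgebraic K (σ g) := by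
  choose f hf using h
  have hi := (algebraMap K Ω).injective
  let r : K →+* K :=
    { toFun := f
      map_one' := hi (by rw [← hf, map_one, map_one])
      map_mul' := fun a b => hi (by rw [map_mul, ← hf, ← hf, ← hf, map_mul, map_mul])
      map_zero' := hi (by rw [← hf, map_zero, map_zero])
      map_add' := fun a b => hi (by rw [map_add, ← hf, ← hf, ← hf, map_add, map_add]) }
  exact hg.ringHom_of_comp_eq r σ r.injective (RingHom.ext fun a => (hf a).symm)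

theorem FLV_count {Ω : Type*} [Field Ω] {s : Set Ω} (hs : s.Countable) :
    Countable (Subfield.closure s) := by
  have := hs.to_subtype
  rw [← Cardinal.mk_le_aleph0_iff]
  exact (Subfield.cardinalMk_closure_le_max s).trans (max_le Cardinal.mk_le_aleph0 le_rfl)

theorem FLV_ne {Ω : Type*} [Field Ω] {O : ValuationSubring Ω} {c x ν : Ω} (hc : c ∈ O)
    (h0 : c ≠ 0) (h : ∀ n : ℕ, O.valuation x < O.valuation ν * O.valuation c ^ n ∨
      O.valuation ν < O.valuation x * O.valuation c ^ n) :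
    (loc O c hc).valuation x ≠ (loc O c hc).valuation ν := fun e => by
  obtain ⟨n, hn⟩ := (loc_le (hc := hc) h0 x ν).1 e.le
  obtain ⟨m, hm⟩ := (loc_le (hc := hc) h0 ν x).1 e.ge
  have h1 : O.valuation c ≤ 1 := (O.valuation_le_one_iff c).2 hc
  rcases h (n + m) with h2 | h2
  · refine absurd (h2.trans_le ?_) (not_lt.2 hm)
    rw [mul_comm]
    exact mul_le_mul_left (pow_le_pow_right_of_le_one' h1 (Nat.le_add_left m n)) _
  · refine absurd (h2.trans_le ?_) (not_lt.2 hn)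
    rw [mul_comm]
    exact mul_le_mul_left (pow_le_pow_right_of_le_one' h1 (Nat.le_add_right n m)) _

theorem FLV_mem {k Ω : Type*} [Field k] [Field Ω] {O : ValuationSubring Ω} {c : Ω} (hc : c ∈ O)
    (j : k →+* Ω)
    (h : ∀ (a : k) (n : ℕ), O.valuation (j a) < 1 → O.valuation (j a) < O.valuation c ^ n)
    (a : k) : j a ∈ loc O c hc ↔ j a ∈ O := by
  refine ⟨fun ⟨n, hn⟩ => ?_, fun h => le_loc O c hc h⟩
  by_contra ha
  have h1 : 1 < O.valuation (j a) := lt_of_not_ge fun h => ha ((O.valuation_le_one_iff _).1 h)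
  have h2 : 0 < O.valuation (j a) := zero_lt_one.trans h1
  have h3 := h a⁻¹ n (by rw [map_inv₀, map_inv₀]; exact inv_lt_one_of_one_lt₀ h1)
  rw [map_inv₀, map_inv₀, inv_lt_iff_one_lt_mul₀ h2, ← map_pow, ← map_mul] at h3
  exact absurd ((O.valuation_le_one_iff _).2 hn) (not_le.2 h3)

theorem flc {k Ω₁ Ω : Type*} [Field k] [IsAlgClosed k] [Countable k] [Field Ω₁] [IsAlgClosed Ω₁]
    [Algebra k Ω₁] [Field Ω] [IsAlgClosed Ω] (p : ℕ) [Fact p.Prime] [CharP k p]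
    (L₁ : Subfield Ω₁) [Algebra.IsAlgebraic L₁ Ω₁] (M : Subfield Ω) [PerfectField M]
    [Algebra.IsAlgebraic M Ω] (O₁ : ValuationSubring Ω₁) (O : ValuationSubring Ω) (j : k →+* Ω)
    (F : IntermediateField k Ω₁) {y : Ω₁} (hyF : y ∈ F) (halg : Algebra.IsAlgebraic k⟮y⟯ Ω₁)
    (hy : VT k O₁ y) (hg : GenV k O₁ y F)
    (hF : ∀ (τ : Ω₁ ≃ₐ[L₁] Ω₁), ∀ g ∈ F, τ g ∈ F ∧ (τ g ∈ O₁ ↔ g ∈ O₁))
    (hj : ∀ a, j a ∈ O ↔ algebraMap k Ω₁ a ∈ O₁) (hO : ∀ σ : Ω ≃ₐ[M] Ω, VP O O σ)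
    (hAT : ∀ α c : Ω, c ∈ M → c ≠ 0 → O.valuation c < 1 →
      ∃ θ ∈ O, (∀ σ : Ω ≃ₐ[M] Ω, σ θ = θ ↔ σ α = α) ∧
        ∀ σ : Ω ≃ₐ[M] Ω, σ θ ≠ θ → O.valuation c ≤ O.valuation (σ θ - θ))
    (hs : Satur M O) (hd : Den M O) (hne : ∃ a : k, a ≠ 0 ∧ O.valuation (j a) < 1)
    {B : Type*} [Group B] [Finite B] (ρ : (Ω₁ ≃ₐ[L₁] Ω₁) →* B) (ψ : (Ω ≃ₐ[M] Ω) →* B)
    (hρ : Function.Surjective ρ) (hψ : Function.Surjective ψ) (ho : OpenK ψ)
    (hρy : ∀ τ, ρ τ = 1 → τ y = y) :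
    ∃ J : Ω₁ →+* Ω, (∀ a, J (algebraMap k Ω₁ a) = j a) ∧
      (∀ g, O₁.valuation g < 1 → O.valuation (J g) < 1) ∧
      ∀ σ τ, ρ τ = ψ σ → (∀ a, ∃ b, τ (algebraMap k Ω₁ a) = algebraMap k Ω₁ b ∧ σ (j a) = j b) →
        ∀ g ∈ F, σ (J g) = J (τ g) := by
  classical
  have := Fintype.ofFinite B
  obtain ⟨c, hcM, hc0, hc1, hc⟩ := sat1 hs hd (k := k) j
    (let ⟨a, h1, h2⟩ := hne; ⟨j a, (map_ne_zero j).2 h1, h2⟩)
  have hcO : c ∈ O := (O.valuation_le_one_iff c).1 hc1.le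
  have hfix : ∀ (σ : Ω ≃ₐ[M] Ω), ∀ x ∈ M, σ x = x := fun σ x hx => σ.commutes ⟨x, hx⟩
  have hW : ∀ σ : Ω ≃ₐ[M] Ω, VP (loc O c hcO) (loc O c hcO) σ := fun σ x => by
    refine exists_congr fun n => ?_
    rw [← hO σ (c ^ n * x), map_mul, map_pow, hfix σ c hcM]
  obtain ⟨θ, hθO, hθσ, hθd⟩ := theta_family O hO (fun α => hAT α c hcM hc0 hc1) ψ hψ ho
  obtain ⟨N, hNac, hN, hNc⟩ := exists_acl (Subfield.closure (Set.range j ∪ Set.range θ))
  have hNc' : Countable N :=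
    hNc (FLV_count ((Set.countable_range j).union (Set.countable_range θ)))
  have hsub : ∀ x ∈ Set.range j ∪ Set.range θ, x ∈ N := fun x hx =>
    (hN x).2 (isAlgebraic_algebraMap
      (⟨x, Subfield.subset_closure hx⟩ : Subfield.closure (Set.range j ∪ Set.range θ)))
  have hjN : ∀ a, j a ∈ N := fun a => hsub _ (Or.inl ⟨a, rfl⟩)
  have hθN : ∀ b, θ b ∈ N := fun b => hsub _ (Or.inr ⟨b, rfl⟩)
  have hv : ∀ a b, O.valuation (j a) ≤ O.valuation (j b) ↔
      O₁.valuation (algebraMap k Ω₁ a) ≤ O₁.valuation (algebraMap k Ω₁ b) := fun a b =>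
    (VP.le (O := O₁.comap (algebraMap k Ω₁)) (φ := j) hj a b).trans
      ((vp_comap O₁ (algebraMap k Ω₁)).le a b).symm
  obtain ⟨x, hxM, -, hx1, hx2, hx3⟩ := sat2 hs hd j hne hc0 hc
    (fun a => O₁.valuation y < O₁.valuation (algebraMap k Ω₁ a)) (by simp)
    (fun a b h1 h2 => h1.trans_le ((hv a b).1 h2)) (N : Set Ω) (Set.countable_coe_iff.1 hNc')
  have hxne : ∀ ν ∈ N, (loc O c hcO).valuation x ≠ (loc O c hcO).valuation ν := fun ν hν =>
    FLV_ne hcO hc0 (hx3 ν hν)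
  obtain ⟨T, x₁, hx₁, hTac, hTalg, hT, -⟩ := exists_acl1 (k := N) x
  choose s hs' using hρ
  have hyb : ∀ (τ : Ω₁ ≃ₐ[L₁] Ω₁) (b : B), τ (s b y) = s (ρ τ * b) y := fun τ b => by
    have h1 := hρy ((s (ρ τ * b))⁻¹ * (τ * s b)) (by rw [map_mul, map_inv, map_mul, hs', hs', inv_mul_cancel])
    have h2 := congrArg (s (ρ τ * b)) h1
    rwa [← AlgEquiv.mul_apply, mul_inv_cancel_left] at h2
  have hy1 : s 1 y = y := hρy _ (hs' 1)
  have hι : VP ((loc O c hcO).comap (algebraMap T Ω)) (loc O c hcO) (algebraMap T Ω) :=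
    vp_comap _ _
  have hx₁' : algebraMap T Ω x₁ = x := hx₁
  obtain ⟨J, hJ1, hJ2, hJ3⟩ := flc_core (N := N) (Ω := T) p O₁
    ((loc O c hcO).comap (algebraMap T Ω)) F (fun b => s b y) (fun b => (hF _ y hyF).1)
    (by rw [hy1]; exact halg) (by rw [hy1]; exact hy) (by rw [hy1]; exact hg)
    (fun b => by
      obtain ⟨n, hn, hp⟩ := periodic_of_alg (s b) (Algebra.IsAlgebraic.isAlgebraic y)
      rw [hy1]
      exact val_eq_of_periodic F.toSubfield O₁ (s b : Ω₁ →+* Ω₁) (fun a ha => (hF _ a ha).1)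
        (fun a ha => (hF _ a ha).2) hyF hn hp)
    (j.codRestrict N hjN) (fun a => (FLV_mem hcO j hc a).trans (hj a)) (fun b => ⟨θ b, hθN b⟩)
    (fun b => le_loc O c hcO (hθO b))
    (fun b b' h => by
      rw [← map_one ((loc O c hcO).comap (algebraMap T Ω)).valuation, ← hι.eq, map_one, map_sub]
      change (loc O c hcO).valuation (θ b - θ b') = (loc O c hcO).valuation 1
      refine le_antisymm ?_ ((loc_le hc0 _ _).2 ⟨1, by simpa using hθd b b' h⟩)
      rw [map_one]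
      exact (ValuationSubring.valuation_le_one_iff _ _).2
        (le_loc O c hcO (sub_mem (hθO b) (hθO b'))))
    (c := x₁)
    (fun ν h => hxne ν ν.2 (by rw [← hι.eq, hx₁'] at h; exact h)) hTalg
    (fun a => by
      rw [hy1, ← hι.lt, hx₁']
      change _ ↔ (loc O c hcO).valuation x < (loc O c hcO).valuation (j a)
      refine ⟨fun h => lt_of_le_of_ne ((loc_le hc0 _ _).2 ⟨0, by simpa using (hx1 a h).le⟩)
        (hxne _ (hjN a)), fun h => ?_⟩
      by_contra h'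
      exact absurd (lt_of_le_ring (le_loc O c hcO) h) (not_lt.2 (hx2 a h').le))
  refine ⟨(algebraMap T Ω).comp J, fun a => ?_, fun g h => ?_, fun σ τ hστ hk g hgF => ?_⟩
  · rw [RingHom.comp_apply, hJ1]
    rfl
  · have h1 := (hι.lt_one _).2 ((hJ2.lt_one g).2 h)
    rw [← map_one O.valuation]
    exact lt_of_le_ring (le_loc O c hcO) (by rw [map_one]; exact h1)
  · have h1 : Subfield.closure (Set.range j ∪ Set.range θ) ≤
        (Subfield.closure (Set.range j ∪ Set.range θ)).comap (σ : Ω →+* Ω) := by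
      rw [Subfield.closure_le]
      rintro _ (⟨a, rfl⟩ | ⟨b, rfl⟩)
      · obtain ⟨a', -, h⟩ := hk a
        exact Subfield.subset_closure (Or.inl ⟨a', h.symm⟩)
      · exact Subfield.subset_closure (Or.inr ⟨_, (hθσ σ b).symm⟩)
    have h2 : ∀ ν ∈ N, σ ν ∈ N := fun ν hν =>
      (hN _).2 (FLV_alg (σ : Ω →+* Ω) (fun a => ⟨⟨_, h1 a.2⟩, rfl⟩) ((hN ν).1 hν))
    have h3 : ∀ z ∈ T, σ z ∈ T := fun z hz =>
      (hT _).2 (FLV_alg (σ : Ω →+* Ω) (fun a => ⟨⟨σ a, by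
        have h := FLC_map (k := N) (N := N) (y := x) (σ : Ω →+* Ω)
          (fun ν => ⟨⟨_, h2 ν ν.2⟩, rfl⟩) a.2
        rwa [show (σ : Ω →+* Ω) x = x from hfix σ x hxM] at h⟩, rfl⟩) ((hT z).1 hz))
    have h4 := hJ3 (((σ : Ω →+* Ω).comp (algebraMap T Ω)).codRestrict T fun z => h3 z z.2)
      (τ : Ω₁ →+* Ω₁) (ψ σ) (fun z => hW σ z) (Subtype.ext (by
        change σ (x₁ : Ω) = x₁
        rw [hx₁, hfix σ x hxM])) (fun ν => ⟨⟨_, h2 ν ν.2⟩, rfl⟩)
      (fun b => Subtype.ext (hθσ σ b)) (fun a => by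
        obtain ⟨a', h, h'⟩ := hk a
        exact ⟨a', h, Subtype.ext h'⟩) (fun b => by rw [← hστ]; exact hyb τ b)
      (fun z hz => (hF τ z hz).2) g hgF
    exact congrArg (algebraMap T Ω) h4

end Pool.Agent.PH
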