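import Pool.Agent.Work.MP_db9079_lc.PH.Syn

/-!
Henkin clauses. Atoms, environments and closed terms are natural numbers; the variables of a
closed term play the role of Henkin constants.
-/

namespace Pool.Agent.PH

/-- `φ` holds in all full models of the sentences `T n`. -/
def Valid (T : ℕ → ℕ) (φ : ℕ) : Prop :=
  ∀ S : Str, (∀ x, S.D x) → (∀ n, S.Sat (T n) (fun _ => S.zero)) → S.Sat φ (fun _ => S.zero)

/-- Atom: the formula `φ` holds in the environment `e`. -/
def aS (φ e : ℕ) : ℕ := 4 * Nat.pair φ e
/-- Atom: the closed terms `a`, `b` are equal. -/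
def aE (a b : ℕ) : ℕ := 4 * Nat.pair a b + 1
/-- Atom: the closed terms `a`, `b` are related. -/
def aR (a b : ℕ) : ℕ := 4 * Nat.pair a b + 2
/-- Atom: the term `τ` has in the environment `e` the value of the closed term `a`. -/
def aV (τ e a : ℕ) : ℕ := 4 * Nat.pair τ (Nat.pair e a) + 3
/-- The environment `e` extended by `v ↦ a`; the empty environment is `0`. -/
def ec (v a e : ℕ) : ℕ := Nat.pair (Nat.pair v a) e + 1
/-- The Skolem constant. -/
def sk (v φ e : ℕ) : ℕ := tv (Nat.pair (fa v φ) e)

/-- Lookup in an environment. -/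
def lk : ℕ → ℕ → ℕ
  | 0, _ => tz
  | e + 1, v => if e.unpair.1.unpair.1 = v then e.unpair.1.unpair.2 else lk e.unpair.2 v
decreasing_by exact Nat.lt_succ_of_le (Nat.unpair_right_le _)

theorem lk_zero (v : ℕ) : lk 0 v = tz := by rw [lk]

theorem lk_ec (w a e v : ℕ) : lk (ec w a e) v = if w = v then a else lk e v := by
  rw [ec, lk]; simp only [Nat.unpair_pair]

/-- The clauses with parameters `a b c d u`. -/
def cls (T : ℕ → ℕ) (φ a b c d u : ℕ) : List (List (ℕ × Bool)) :=
  [[(aS (T a) 0, true)],
   [(aS φ 0, false)],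
   [(aS (5 * a) b, false)],
   [(aS (fi a b) c, false), (aS a c, false), (aS b c, true)],
   [(aS a c, true), (aS (fi a b) c, true)],
   [(aS b c, false), (aS (fi a b) c, true)],
   [(aS (fa a b) c, false), (aS b (ec a d c), true)],
   [(aS (fa a b) c, true), (aS b (ec a (sk a b c) c), false)],
   [(aV a c d, false), (aV b c u, false), (aS (fe a b) c, false), (aE d u, true)],
   [(aV a c d, false), (aV b c u, false), (aS (fe a b) c, true), (aE d u, false)],
   [(aV a c d, false), (aV b c u, false), (aS (fr a b) c, false), (aR d u, true)],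
   [(aV a c d, false), (aV b c u, false), (aS (fr a b) c, true), (aR d u, false)],
   [(aV (tv a) 0 tz, true)],
   [(aV (tv a) (ec a b c) b, true)],
   [(aV (tv a) c b, false), (aV (tv a) (ec d u c) (if a = d then u else b), true)],
   [(aV (7 * a + 1) c tz, true)],
   [(aV (7 * a + 2) c t1, true)],
   [(aV (7 * a + 3) c tt, true)],
   [(aV a c d, false), (aV (tn a) c (tn d), true)],
   [(aV a c d, false), (aV b c u, false), (aV (ta a b) c (ta d u), true)],
   [(aV a c d, false), (aV b c u, false), (aV (tm a b) c (tm d u), true)],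
   [(aE a a, true)],
   [(aE a b, false), (aE b a, true)],
   [(aE a b, false), (aE b c, false), (aE a c, true)],
   [(aE a b, false), (aE (tn a) (tn b), true)],
   [(aE a b, false), (aE c d, false), (aE (ta a c) (ta b d), true)],
   [(aE a b, false), (aE c d, false), (aE (tm a c) (tm b d), true)],
   [(aE a b, false), (aE c d, false), (aR a c, false), (aR b d, true)]]

/-- The assignment `f` satisfies all clauses. -/
def Sol (T : ℕ → ℕ) (φ : ℕ) (f : ℕ → Bool) : Prop :=
  ∀ a b c d u, ∀ x ∈ cls T φ a b c d u, ∃ l ∈ x, f l.1 = l.2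

end Pool.Agent.PH
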