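import Pool.Agent.Work.MP_db9079_lc.PH.Syn
import Mathlib.RingTheory.Valuation.ValuationSubring
import Mathlib.FieldTheory.IsAlgClosed.Basic

/-!
Valued fields with a distinguished subfield and a constant, seen as structures.
-/

namespace Pool.Agent.PH

/-- An ambient valued field, a subfield (the range of the quantifiers) and a constant. -/
structure PM where
  Ω : Type
  [fld : Field Ω]
  M : Subfield Ω
  O : ValuationSubring Ω
  t : Ω

attribute [instance] PM.fld

/-- The associated structure. -/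
@[reducible] def PM.str (A : PM) : Str :=
  ⟨A.Ω, fun x => x ∈ A.M, 0, 1, A.t, fun a => -a, fun a b => a + b, fun a b => a * b,
    fun a b => A.O.valuation a ≤ A.O.valuation b⟩

/-- Elementary maps. -/
def Elem (A B : PM) (e : A.Ω →+* B.Ω) : Prop :=
  ∀ (φ : ℕ) (env : ℕ → A.Ω), B.str.Sat φ (fun v => e (env v)) ↔ A.str.Sat φ env

/-- Valuation preserving maps. -/
def VP {F F' : Type*} [Field F] [Field F'] (O : ValuationSubring F) (O' : ValuationSubring F')
    (φ : F → F') : Prop := ∀ a, φ a ∈ O' ↔ a ∈ O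

theorem VP.le {F F' : Type*} [Field F] [Field F'] {O : ValuationSubring F}
    {O' : ValuationSubring F'} {φ : F →+* F'} (h : VP O O' φ) (a b : F) :
    O'.valuation (φ a) ≤ O'.valuation (φ b) ↔ O.valuation a ≤ O.valuation b := by
  by_cases hb : b = 0
  · simp [hb]
  · have hb' : φ b ≠ 0 := (map_ne_zero φ).2 hb
    have h1 := (div_le_one₀ (a := O'.valuation (φ a)) ((Valuation.pos_iff O'.valuation).2 hb')).symm
    have h2 := (div_le_one₀ (a := O.valuation a) ((Valuation.pos_iff O.valuation).2 hb)).symm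
    rw [h1, h2, ← map_div₀, ← map_div₀, ← map_div₀, ValuationSubring.valuation_le_one_iff,
      ValuationSubring.valuation_le_one_iff]
    exact h _

theorem VP.lt {F F' : Type*} [Field F] [Field F'] {O : ValuationSubring F}
    {O' : ValuationSubring F'} {φ : F →+* F'} (h : VP O O' φ) (a b : F) :
    O'.valuation (φ a) < O'.valuation (φ b) ↔ O.valuation a < O.valuation b := by
  rw [← not_le, ← not_le, h.le]

theorem VP.eq {F F' : Type*} [Field F] [Field F'] {O : ValuationSubring F}
    {O' : ValuationSubring F'} {φ : F →+* F'} (h : VP O O' φ) (a b : F) :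
    O'.valuation (φ a) = O'.valuation (φ b) ↔ O.valuation a = O.valuation b := by
  rw [le_antisymm_iff, le_antisymm_iff, h.le, h.le]

theorem VP.lt_one {F F' : Type*} [Field F] [Field F'] {O : ValuationSubring F}
    {O' : ValuationSubring F'} {φ : F →+* F'} (h : VP O O' φ) (a : F) :
    O'.valuation (φ a) < 1 ↔ O.valuation a < 1 := by
  simpa using h.lt a 1

theorem vp_comap {F F' : Type*} [Field F] [Field F'] (O' : ValuationSubring F') (φ : F →+* F') :
    VP (O'.comap φ) O' φ := fun _ => Iff.rfl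

theorem ev_map {A B : PM} (e : A.Ω →+* B.Ω) (ht : e A.t = B.t) (env : ℕ → A.Ω) (n : ℕ) :
    B.str.ev (fun v => e (env v)) n = e (A.str.ev env n) := by
  induction n using tm_ind with
  | hv n => simp
  | h1 n h => rw [ev_1 _ _ h, ev_1 _ _ h]; exact (map_zero e).symm
  | h2 n h => rw [ev_2 _ _ h, ev_2 _ _ h]; exact (map_one e).symm
  | h3 n h => rw [ev_3 _ _ h, ev_3 _ _ h]; exact ht.symm
  | hn a ih => rw [ev_tn, ev_tn, ih]; exact (map_neg e _).symm
  | ha a b iha ihb => rw [ev_ta, ev_ta, iha, ihb]; exact (map_add e _ _).symm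
  | hm a b iha ihb => rw [ev_tm, ev_tm, iha, ihb]; exact (map_mul e _ _).symm

theorem comp_update {α β : Type} (e : α → β) (env : ℕ → α) (v : ℕ) (x : α) :
    (fun w => e (Function.update env v x w)) = Function.update (fun w => e (env w)) v (e x) := by
  funext w
  by_cases h : w = v
  · subst h; simp
  · simp [Function.update_of_ne h]

/-- A valuation preserving embedding mapping `M` onto `M` is elementary. -/
theorem elem_of_map {A B : PM} (e : A.Ω →+* B.Ω) (ht : e A.t = B.t) (hO : VP A.O B.O e)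
    (hM : ∀ y, y ∈ B.M ↔ ∃ x ∈ A.M, e x = y) : Elem A B e := by
  intro φ
  induction φ using fm_ind with
  | h0 n h => intro env; rw [sat_0 _ _ h, sat_0 _ _ h]
  | he a b => intro env; rw [sat_fe, sat_fe, ev_map e ht, ev_map e ht]; exact e.injective.eq_iff
  | hr a b => intro env; rw [sat_fr, sat_fr, ev_map e ht, ev_map e ht]; exact hO.le _ _
  | hi a b iha ihb => intro env; rw [sat_fi, sat_fi, iha, ihb]
  | ha v a ih =>
    intro env
    rw [sat_fa, sat_fa]
    constructor
    · intro h x hx
      rw [← ih, comp_update]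
      exact h _ ((hM _).2 ⟨x, hx, rfl⟩)
    · intro h y hy
      obtain ⟨x, hx, rfl⟩ := (hM y).1 hy
      rw [← comp_update, ih]
      exact h x hx

theorem Elem.comp {A B C : PM} {e : A.Ω →+* B.Ω} {e' : B.Ω →+* C.Ω} (h : Elem A B e)
    (h' : Elem B C e') : Elem A C (e'.comp e) := fun φ env =>
  (h' φ fun v => e (env v)).trans (h φ env)

theorem Elem.mem {A B : PM} {e : A.Ω →+* B.Ω} (h : Elem A B e) (a : A.Ω) :
    e a ∈ B.M ↔ a ∈ A.M := by
  have := h (fx 1 (fe (tv 1) (tv 0))) (fun _ => a)
  simpa using this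

theorem Elem.vp {A B : PM} {e : A.Ω →+* B.Ω} (h : Elem A B e) : VP A.O B.O e := fun a => by
  have := h (fr (tv 0) t1) (fun _ => a)
  simpa [ValuationSubring.valuation_le_one_iff] using this

theorem Elem.map_t {A B : PM} {e : A.Ω →+* B.Ω} (h : Elem A B e) : e A.t = B.t := by
  have := h (fe (tv 0) tt) (fun _ => A.t)
  simpa using this

theorem Elem.sat0 {A B : PM} {e : A.Ω →+* B.Ω} (h : Elem A B e) (φ : ℕ) :
    B.str.Sat φ (fun _ => 0) ↔ A.str.Sat φ (fun _ => 0) := by
  have := h φ (fun _ => 0)
  simpa only [map_zero] using this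

/-- Countable saturation for conditions on the value of one element. -/
def Satur {Ω : Type*} [Field Ω] (M : Subfield Ω) (O : ValuationSubring Ω) : Prop :=
  ∀ a b : ℕ → Ω,
    (∀ N, ∃ x ∈ M, x ≠ 0 ∧ ∀ n < N, O.valuation x < O.valuation (b n) ∨ 1 < O.valuation (x * a n)) →
    ∃ x ∈ M, x ≠ 0 ∧ ∀ n, O.valuation x < O.valuation (b n) ∨ 1 < O.valuation (x * a n)

end Pool.Agent.PH
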