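import Pool.Agent.Work.MP_db9079_lc.PH.CR
import Pool.Agent.Work.MP_db9079_lc.PH.CRb
import Pool.Agent.Work.MP_db9079_lc.PH.V2
import Pool.Agent.Work.MP_db9079_lc.PH.V3b
import Mathlib.RingTheory.RootsOfUnity.AlgebraicallyClosed

/-!
Cyclic steps at a value-transcendental place are ramified.

PLAN. `hv_index`: units in distinct cosets of `HV O T` are linearly independent over `T` (the nonzero terms of a relation have
distinct values). `dvd_relIndex`: the class of `z` has order `l` in the quotient (`Subgroup.relIndex`, `orderOf_dvd_card`,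
or `Subgroup.pow_index_mem`-like arguments: `z ^ index ∈ H` and `z ^ l ∈ H`, Bezout). `st_step`: `T = fixedField Q`,
`T' = fixedField (ker χ)`. Pick `g₀` with `χ g₀ ≠ 1`; it generates `Q` modulo the kernel. `k⟮y⟯` is the image of `K`, so `E` is
algebraic over `k⟮y⟯` with degrees bounded by `finrank K E`, `Res k O univ` (`vt_res`). Case `l ≠ p`: `a ∈ T'` moved by `g₀`
(Galois correspondence), `exists_eig` gives `z ∈ T'`, `z ^ l ∈ T`; if `v z = v b`, `b ∈ T`, then `z / b` is a unit congruent to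
some `λ ∈ k`, and `kum` with `u = λ b` is a contradiction. Case `l = p`: `z` from `exists_as`, `a = z ^ p - z ∈ T`; `exists_gen` gives
`y' ∈ T` generating the values of `T`; `E` is finite over `k⟮y'⟯` (`exch`: `y` is algebraic over `k⟮y'⟯`, `E` is generated over `k` by `y` and a
`K`-basis), `span_pow`, `cartier` with `c = 0`; `z' = z - f`; if `v z'` is a value of `T` then `as_dich` and `as_split` give a
contradiction; and `v z' ^ p = v (z' ^ p - z')` is a value of `T` as `1 < v z'` (else `v z' = 1` or `as_split`).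
-/

namespace Pool.Agent.PH

open IntermediateField

theorem hv_index {E : Type*} [Field E] (O : ValuationSubring E) (T : Subfield E)
    [FiniteDimensional T E] : (HV O T).index ≠ 0 ∧ (HV O T).index ≤ Module.finrank T E := by
  classical
  have hli : LinearIndependent T fun q : Eˣ ⧸ HV O T => ((q.out : Eˣ) : E) := by
    rw [linearIndependent_iff']
    intro s g hs
    by_contra hcon
    push Not at hcon
    obtain ⟨i₁, hi₁, hg₁⟩ := hcon
    obtain ⟨j, hj, hmax⟩ := Finset.exists_max_image s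
      (fun q : Eˣ ⧸ HV O T => O.valuation (g q • ((q.out : Eˣ) : E))) ⟨i₁, hi₁⟩
    have hne : ∀ q : Eˣ ⧸ HV O T, g q ≠ 0 → O.valuation (g q • ((q.out : Eˣ) : E)) ≠ 0 := by
      intro q hq
      rw [Ne, map_eq_zero]
      exact smul_ne_zero hq (Units.ne_zero _)
    have hj0 : O.valuation (g j • ((j.out : Eˣ) : E)) ≠ 0 := by
      intro h0
      have := hmax i₁ hi₁
      rw [h0] at this
      exact hne i₁ hg₁ (le_zero_iff.mp this)
    have hsum := O.valuation.map_sum_eq_of_lt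
      (f := fun q : Eˣ ⧸ HV O T => g q • ((q.out : Eˣ) : E)) hj (by
        intro i hi
        obtain ⟨hi, hij⟩ := Finset.mem_sdiff.mp hi
        refine lt_of_le_of_ne (hmax i hi) fun he => hij ?_
        rw [Finset.mem_singleton, ← Quotient.out_eq i, ← Quotient.out_eq j]
        refine QuotientGroup.eq.mpr ⟨(g i : E) / (g j : E), div_mem (g i).2 (g j).2, ?_⟩
        have h1 : O.valuation (g i : E) * O.valuation ((i.out : Eˣ) : E)
            = O.valuation (g j : E) * O.valuation ((j.out : Eˣ) : E) := by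
          rw [← map_mul, ← map_mul]
          exact he
        have h2 : O.valuation (g j : E) ≠ 0 := by
          intro h0
          apply hj0
          rw [show g j • ((j.out : Eˣ) : E) = (g j : E) * ((j.out : Eˣ) : E) from rfl, map_mul, h0,
            zero_mul]
        have h3 : O.valuation ((i.out : Eˣ) : E) ≠ 0 := by
          rw [Ne, map_eq_zero]
          exact Units.ne_zero _
        rw [Units.val_mul, Units.val_inv_eq_inv_val, map_mul, map_inv₀, map_div₀,
          eq_div_iff h2, mul_assoc, inv_mul_eq_iff_eq_mul₀ h3, mul_comm, ← h1, mul_comm])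
    rw [hs, map_zero] at hsum
    exact hj0 hsum.symm
  have : Finite (Eˣ ⧸ HV O T) := hli.finite_of_isNoetherian
  have := Fintype.ofFinite (Eˣ ⧸ HV O T)
  refine ⟨Subgroup.index_ne_zero_of_finite, ?_⟩
  rw [Subgroup.index, Nat.card_eq_fintype_card]
  exact hli.fintype_card_le_finrank

theorem dvd_relIndex {G : Type*} [CommGroup G] {H H' : Subgroup G} {l : ℕ} (hl : l.Prime) {z : G}
    (hz : z ∈ H') (h1 : z ∉ H) (h2 : z ^ l ∈ H) : l ∣ H.relIndex H' := by
  have := Fact.mk hl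
  have ho : orderOf (QuotientGroup.mk (⟨z, hz⟩ : H') : H' ⧸ H.subgroupOf H') = l := by
    apply orderOf_eq_prime
    · rw [← QuotientGroup.mk_pow, QuotientGroup.eq_one_iff, Subgroup.mem_subgroupOf]
      exact h2
    · rw [Ne, QuotientGroup.eq_one_iff, Subgroup.mem_subgroupOf]
      exact h1
  rw [← ho]
  exact orderOf_dvd_natCard _

theorem ST_fin {A B E : Type*} [Field A] [Field B] [Field E] [Algebra A E] [Algebra B E]
    [FiniteDimensional A E] (h : ∀ a : A, ∃ b : B, algebraMap B E b = algebraMap A E a) :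
    FiniteDimensional B E := by
  obtain ⟨s, hs⟩ := Module.Finite.fg_top (R := A) (M := E)
  refine ⟨⟨s, ?_⟩⟩
  rw [eq_top_iff]
  intro x _
  have hx : x ∈ Submodule.span A (s : Set E) := by rw [hs]; trivial
  induction hx using Submodule.span_induction with
  | mem x hx => exact Submodule.subset_span hx
  | zero => exact zero_mem _
  | add x y _ _ hx hy => exact add_mem (hx trivial) (hy trivial)
  | smul a x _ hx =>
    obtain ⟨b, hb⟩ := h a
    rw [Algebra.smul_def, ← hb, ← Algebra.smul_def]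
    exact Submodule.smul_mem _ _ (hx trivial)

theorem ST_fin_exch {k E : Type*} [Field k] [Field E] [Algebra k E] {y y' : E}
    [FiniteDimensional k⟮y⟯ E] (hy' : Transcendental k y') : FiniteDimensional k⟮y'⟯ E := by
  have halg : Algebra.IsAlgebraic k⟮y'⟯ E :=
    exch (x := y) (Algebra.IsAlgebraic.of_finite _ _) hy'
  have h1 : FiniteDimensional k⟮y'⟯ k⟮y'⟯⟮y⟯ :=
    adjoin.finiteDimensional (halg.isAlgebraic y).isIntegral
  have h2 : FiniteDimensional k⟮y'⟯⟮y⟯ E := by
    refine ST_fin (A := k⟮y⟯) fun a => ⟨⟨a, ?_⟩, rfl⟩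
    have hle : k⟮y⟯ ≤ (k⟮y'⟯⟮y⟯).restrictScalars k := by
      rw [adjoin_simple_le_iff]
      exact mem_adjoin_simple_self k⟮y'⟯ y
    exact hle a.2
  exact Module.Finite.trans k⟮y'⟯⟮y⟯ E

section
variable {K E : Type*} [Field K] [Field E] [Algebra K E] {Q : Subgroup (E ≃ₐ[K] E)} {l : ℕ}
  [Fact l.Prime] {χ : Q →* Multiplicative (ZMod l)}

theorem ST_mem {b : E} :
    b ∈ fixedField (χ.ker.map Q.subtype) ↔ ∀ h : Q, χ h = 1 → (h : E ≃ₐ[K] E) b = b := by
  rw [mem_fixedField_iff]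
  constructor
  · intro H h hh
    exact H h ⟨h, hh, rfl⟩
  · rintro H _ ⟨h, hh, rfl⟩
    exact H h hh

theorem ST_conj {b : E} (hb : b ∈ fixedField (χ.ker.map Q.subtype)) (g : Q) :
    (g : E ≃ₐ[K] E) b ∈ fixedField (χ.ker.map Q.subtype) := by
  rw [ST_mem] at hb ⊢
  intro h hh
  have h1 := hb (g⁻¹ * h * g) (by rw [map_mul, map_mul, hh, mul_one, ← map_mul, inv_mul_cancel,
    map_one])
  have h2 : h * g = g * (g⁻¹ * h * g) := by group
  calc (h : E ≃ₐ[K] E) ((g : E ≃ₐ[K] E) b) = ((h * g : Q) : E ≃ₐ[K] E) b := rfl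
    _ = ((g * (g⁻¹ * h * g) : Q) : E ≃ₐ[K] E) b := by rw [← h2]
    _ = (g : E ≃ₐ[K] E) (((g⁻¹ * h * g : Q) : E ≃ₐ[K] E) b) := rfl
    _ = _ := by rw [h1]

theorem ST_iter (g : Q) (i : ℕ) (b : E) :
    (((g : E ≃ₐ[K] E) : E →+* E))^[i] b = ((g ^ i : Q) : E ≃ₐ[K] E) b := by
  induction i with
  | zero => rfl
  | succ i ih => rw [Function.iterate_succ_apply', ih, pow_succ']; rfl

omit [Fact l.Prime] in
theorem ST_card : Nat.card (Multiplicative (ZMod l)) = l := by
  rw [Nat.card_congr Multiplicative.toAdd, Nat.card_zmod]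

theorem ST_gen {g₀ : Q} (h0 : χ g₀ ≠ 1) {b : E} (hb : b ∈ fixedField (χ.ker.map Q.subtype))
    (hσ : (g₀ : E ≃ₐ[K] E) b = b) : b ∈ fixedField Q := by
  rw [mem_fixedField_iff]
  intro g hg
  obtain ⟨i, hi⟩ := mem_powers_of_prime_card ST_card (g' := χ ⟨g, hg⟩) h0
  have hi' : χ g₀ ^ i = χ ⟨g, hg⟩ := hi
  have h1 := ST_mem.mp hb ((g₀ ^ i)⁻¹ * ⟨g, hg⟩)
    (by rw [map_mul, map_inv, map_pow, hi', inv_mul_cancel])
  have h2 : ((g₀ ^ i : Q) : E ≃ₐ[K] E) b = b := by
    rw [← ST_iter]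
    exact Function.iterate_fixed hσ i
  have h3 : (⟨g, hg⟩ : Q) = g₀ ^ i * ((g₀ ^ i)⁻¹ * ⟨g, hg⟩) := by group
  calc g b = ((⟨g, hg⟩ : Q) : E ≃ₐ[K] E) b := rfl
    _ = ((g₀ ^ i * ((g₀ ^ i)⁻¹ * ⟨g, hg⟩) : Q) : E ≃ₐ[K] E) b := by rw [← h3]
    _ = ((g₀ ^ i : Q) : E ≃ₐ[K] E) ((((g₀ ^ i)⁻¹ * ⟨g, hg⟩ : Q) : E ≃ₐ[K] E) b) := rfl
    _ = b := by rw [h1, h2]

theorem ST_moved [FiniteDimensional K E] {g₀ : Q} (h0 : χ g₀ ≠ 1) :
    ∃ a ∈ fixedField (χ.ker.map Q.subtype), (g₀ : E ≃ₐ[K] E) a ≠ a := by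
  by_contra hcon
  push Not at hcon
  have h1 : (g₀ : E ≃ₐ[K] E) ∈ (fixedField (χ.ker.map Q.subtype)).fixingSubgroup :=
    (IntermediateField.mem_fixingSubgroup_iff _ _).mpr hcon
  rw [fixingSubgroup_fixedField] at h1
  obtain ⟨h, hh, he⟩ := h1
  have : h = g₀ := Subtype.ext he
  exact h0 (this ▸ hh)

theorem ST_le {b : E} (hb : b ∈ fixedField Q) : b ∈ fixedField (χ.ker.map Q.subtype) :=
  ST_mem.mpr fun h _ => (mem_fixedField_iff _ _).mp hb h h.2

end

theorem ST_dvd {E : Type*} [Field E] (O : ValuationSubring E) {T T' : Subfield E} {l : ℕ}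
    (hl : l.Prime) {z : E} (h0 : z ≠ 0) (hz : z ∈ T')
    (h1 : ∀ b ∈ T, O.valuation z ≠ O.valuation b)
    (h2 : ∃ b ∈ T, O.valuation (z ^ l) = O.valuation b) : l ∣ (HV O T).relIndex (HV O T') := by
  refine dvd_relIndex hl (z := Units.mk0 z h0) ⟨z, hz, rfl⟩ ?_ ?_
  · rintro ⟨b, hb, he⟩
    exact h1 b hb he
  · obtain ⟨b, hb, he⟩ := h2
    exact ⟨b, hb, by rw [Units.val_pow_eq_pow_val]; exact he⟩

theorem ST_as {k E : Type*} [Field k] [IsAlgClosed k] [Field E] [Algebra k E]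
    (p : ℕ) [Fact p.Prime] [CharP k p] {O : ValuationSubring E} {y : E} (hy : VT k O y)
    [FiniteDimensional k⟮y⟯ E] (T : Subfield E) (hk : ∀ a : k, algebraMap k E a ∈ T)
    (hyT : y ∈ T) {a : E} (ha : a ∈ T) :
    ∃ f ∈ T, ∀ z : E, z ^ p - z = a - f ^ p + f → ∀ b ∈ T, b ≠ 0 →
      O.valuation z = O.valuation b → O.valuation (z ^ p - z) < 1 := by
  obtain ⟨y', hy'T, hy', hgen⟩ := exists_gen hy T hyT (Module.finrank k⟮y⟯ E) fun g _ =>
    ⟨(Algebra.IsAlgebraic.of_finite k⟮y⟯ E).isAlgebraic g, minpoly.natDegree_le g⟩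
  have : FiniteDimensional k⟮y'⟯ E := ST_fin_exch (y := y) (transc_of_ne hy'.ne)
  have hle : ∀ g ∈ k⟮y'⟯, g ∈ T := by
    have : k⟮y'⟯ ≤ T.toIntermediateField hk := adjoin_simple_le_iff.mpr hy'T
    exact fun g hg => this hg
  let T₁ : IntermediateField k⟮y'⟯ E := T.toIntermediateField fun x => hle x x.2
  obtain ⟨n, e, he, hspan⟩ := span_pow p hy' T₁ hgen
  obtain ⟨Q', _, hQ⟩ := cartier p T hk hy'T e he hspan ha
  obtain ⟨P, d, f, hd, hf, heq⟩ := hQ 0
  have hev : ∀ R : Polynomial k, Polynomial.aeval y' R ∈ T := fun R =>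
    hle _ (algebra_adjoin_le_adjoin k {y'} (Polynomial.aeval_mem_adjoin_singleton k y'))
  refine ⟨f, ?_, fun z hz b hb hb0 hv => ?_⟩
  · rw [hf]
    exact div_mem (sum_mem fun i _ => mul_mem (hev _) (he i)) (hev _)
  · simp only [map_zero, sub_zero] at heq
    refine as_dich p hy' d ?_ (hz.trans heq) ?_
    · rintro _ ⟨i, rfl⟩ h0
      exact hgen _ (hd i) h0
    · rintro g rfl _
      rw [hv]
      exact hgen b hb hb0

theorem st_step {k K E : Type*} [Field k] [IsAlgClosed k] [Field K] [Field E] [Algebra k E]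
    [Algebra K E] [FiniteDimensional K E] [IsGalois K E] (p : ℕ) [Fact p.Prime] [CharP k p]
    {O : ValuationSubring E} {y : E} (hy : VT k O y)
    (hK : ∀ g : E, g ∈ k⟮y⟯ ↔ g ∈ (algebraMap K E).range) (Q : Subgroup (E ≃ₐ[K] E))
    (hQ : Q ≤ Dec K O) {l : ℕ} [Fact l.Prime] (χ : Q →* Multiplicative (ZMod l))
    (hχ : ∃ g, χ g ≠ 1) :
    l ∣ (HV O (fixedField Q).toSubfield).relIndex
      (HV O (fixedField (χ.ker.map Q.subtype)).toSubfield) := by
  obtain ⟨g₀, h0⟩ := hχ
  have : CharP E p := charP_of_injective_algebraMap (algebraMap k E).injective p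
  have hfin : FiniteDimensional k⟮y⟯ E :=
    ST_fin (A := K) fun a => ⟨⟨algebraMap K E a, (hK _).mpr ⟨a, rfl⟩⟩, rfl⟩
  have hfix : ∀ g ∈ k⟮y⟯, g ∈ fixedField Q := by
    intro g hg
    obtain ⟨a, rfl⟩ := (hK g).mp hg
    exact IntermediateField.algebraMap_mem _ a
  have hk : ∀ a : k, algebraMap k E a ∈ fixedField Q := fun a =>
    hfix _ (IntermediateField.algebraMap_mem _ a)
  have hσT : ∀ b ∈ fixedField Q, (g₀ : E ≃ₐ[K] E) b = b := fun b hb =>
    (mem_fixedField_iff _ _).mp hb _ g₀.2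
  have hvp : VP O O ((g₀ : E ≃ₐ[K] E) : E →+* E) := hQ g₀.2
  have hl : l.Prime := Fact.out
  by_cases hlp : l = p
  · subst hlp
    obtain ⟨z, hz⟩ := exists_as Q χ
    have hcast : ∀ j : ℕ, (j : E) ^ l = j := fun j => map_natCast (frobenius E l) j
    have ha : z ^ l - z ∈ fixedField Q := by
      rw [mem_fixedField_iff]
      intro g hg
      have h1 : g z = _ := hz ⟨g, hg⟩
      rw [map_sub, map_pow, h1, add_pow_char, hcast]
      ring
    have hzT : z ∈ fixedField (χ.ker.map Q.subtype) := ST_mem.mpr fun h hh => by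
      rw [hz h, hh]
      simp
    obtain ⟨f, hf, hdich⟩ := ST_as l hy (fixedField Q).toSubfield hk
      (hfix y (mem_adjoin_simple_self k y)) ha
    have hj : (((Multiplicative.toAdd (χ g₀)).val : ℕ) : E) ≠ 0 := by
      rw [Ne, CharP.cast_eq_zero_iff E l]
      intro hd
      have h1 := Nat.eq_zero_of_dvd_of_lt hd (ZMod.val_lt _)
      rw [ZMod.val_eq_zero] at h1
      exact h0 h1
    have hz' : ((g₀ : E ≃ₐ[K] E) : E →+* E) (z - f)
        = (z - f) + (((Multiplicative.toAdd (χ g₀)).val : ℕ) : E) := by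
      change (g₀ : E ≃ₐ[K] E) (z - f) = _
      rw [map_sub, hz g₀, hσT f hf]
      ring
    have hne : z - f ≠ 0 := by
      intro h1
      rw [h1, map_zero, zero_add] at hz'
      exact hj hz'.symm
    have hnot : ¬ O.valuation ((z - f) ^ l - (z - f)) < 1 := as_split O _ hvp hj hz'
    have heq : (z - f) ^ l - (z - f) = z ^ l - z - f ^ l + f := by
      rw [sub_pow_char]
      ring
    have hv0 : O.valuation (z - f) ≠ 0 := by rwa [Ne, map_eq_zero]
    have h1 : ∀ b ∈ (fixedField Q).toSubfield, O.valuation (z - f) ≠ O.valuation b := by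
      intro b hb hv
      refine hnot (hdich _ heq b hb ?_ hv)
      rintro rfl
      rw [map_zero] at hv
      exact hv0 hv
    refine ST_dvd O hl hne (sub_mem hzT (ST_le hf)) h1 ⟨(z - f) ^ l - (z - f), ?_, ?_⟩
    · rw [heq]
      exact add_mem (sub_mem ha (pow_mem hf l)) hf
    · have h2 : 1 < O.valuation (z - f) := by
        rcases lt_trichotomy 1 (O.valuation (z - f)) with h | h | h
        · exact h
        · exact absurd (h.symm.trans (map_one O.valuation).symm) (h1 1 (one_mem _))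
        · refine absurd (lt_of_le_of_lt (Valuation.map_sub _ _ _) (max_lt ?_ h)) hnot
          rw [map_pow]
          exact pow_lt_one₀ zero_le h hl.ne_zero
      refine (Valuation.map_sub_eq_of_lt_left _ ?_).symm
      rw [map_pow]
      exact lt_self_pow₀ h2 hl.one_lt
  · have hl0 : (l : k) ≠ 0 := by
      rw [Ne, CharP.cast_eq_zero_iff k p]
      intro hd
      exact hlp ((Nat.prime_dvd_prime_iff_eq Fact.out hl).mp hd).symm
    have : NeZero (l : k) := ⟨hl0⟩
    have hl0' : (l : E) ≠ 0 := by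
      rw [← map_natCast (algebraMap k E), Ne, map_eq_zero]
      exact hl0
    obtain ⟨ζ, hζ⟩ := HasEnoughRootsOfUnity.exists_primitiveRoot k l
    obtain ⟨a, ha, hmov⟩ := ST_moved h0
    have hper : (((g₀ : E ≃ₐ[K] E) : E →+* E))^[l] a = a := by
      rw [ST_iter]
      refine ST_mem.mp ha _ ?_
      rw [map_pow]
      have := pow_card_eq_one' (x := χ g₀)
      rwa [ST_card] at this
    obtain ⟨z, ξ, hz0, hξ, hξ1, hσz, hS⟩ := exists_eig hl hl0' ((g₀ : E ≃ₐ[K] E) : E →+* E)
      (hζ.map_of_injective (algebraMap k E).injective) (hσT _ (hk ζ)) hper hmov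
    have hzT : z ∈ fixedField (χ.ker.map Q.subtype) :=
      hS (fixedField (χ.ker.map Q.subtype)).toSubfield (ST_le (hk ζ)) fun i => by
        rw [ST_iter]
        exact ST_conj ha _
    have hres : Res k O Set.univ := vt_res hy (Algebra.IsAlgebraic.of_finite _ _)
    have hv0 : O.valuation z ≠ 0 := by rwa [Ne, map_eq_zero]
    refine ST_dvd O hl hz0 hzT (fun b hb hv => ?_) ⟨z ^ l, ?_, rfl⟩
    · have hvb : O.valuation b ≠ 0 := hv ▸ hv0
      have hb0 : b ≠ 0 := by rwa [Ne, map_eq_zero] at hvb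
      obtain ⟨c, hc⟩ := hres (z / b) trivial ((V1_le O z hb0).mp hv.le)
      refine kum hl hlp O _ hvp hξ hξ1 hσz (u := algebraMap k E c * b)
        (hσT _ (mul_mem (hk c) hb)) ?_
      rw [show z - algebraMap k E c * b = (z / b - algebraMap k E c) * b by field_simp, map_mul, hv]
      exact mul_lt_of_lt_one_left (zero_lt_iff.mpr hvb) hc
    · refine ST_gen h0 (pow_mem hzT l) ?_
      have h1 : (g₀ : E ≃ₐ[K] E) z = ξ * z := hσz
      rw [map_pow, h1, mul_pow, hξ, one_mul]

end Pool.Agent.PH
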