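import Mathlib.Data.Nat.Pairing
import Mathlib.Logic.Function.Basic
import Mathlib.Tactic.Ring
import Mathlib.Tactic.Linarith

/-!
Terms and formulas coded by natural numbers (named variables), and their semantics in structures
with a domain predicate for the quantifiers.
-/

namespace Pool.Agent.PH

/-- A structure; quantifiers range over `D`; `R` is a binary relation. -/
structure Str where
  A : Type
  D : A → Prop
  zero : A
  one : A
  t : A
  neg : A → A
  add : A → A → A
  mul : A → A → A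
  R : A → A → Prop

/-- Variable. -/
def tv (n : ℕ) : ℕ := 7 * n
/-- Zero. -/
def tz : ℕ := 1
/-- One. -/
def t1 : ℕ := 2
/-- The constant `t`. -/
def tt : ℕ := 3
/-- Negation. -/
def tn (a : ℕ) : ℕ := 7 * a + 4
/-- Sum. -/
def ta (a b : ℕ) : ℕ := 7 * Nat.pair a b + 5
/-- Product. -/
def tm (a b : ℕ) : ℕ := 7 * Nat.pair a b + 6

theorem unp1_lt {n m : ℕ} (hm : 1 < m) (h : n % m ≠ 0) : (n / m).unpair.1 < n :=
  lt_of_le_of_lt (Nat.unpair_left_le _)
    (Nat.div_lt_self (Nat.pos_of_ne_zero fun e => h (by simp [e])) hm)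

theorem unp2_lt {n m : ℕ} (hm : 1 < m) (h : n % m ≠ 0) : (n / m).unpair.2 < n :=
  lt_of_le_of_lt (Nat.unpair_right_le _)
    (Nat.div_lt_self (Nat.pos_of_ne_zero fun e => h (by simp [e])) hm)

/-- Value of a term. -/
def Str.ev (S : Str) (e : ℕ → S.A) (n : ℕ) : S.A :=
  if h0 : n % 7 = 0 then e (n / 7)
  else if n % 7 = 1 then S.zero
  else if n % 7 = 2 then S.one
  else if n % 7 = 3 then S.t
  else if n % 7 = 4 then S.neg (S.ev e (n / 7))
  else if n % 7 = 5 then S.add (S.ev e (n / 7).unpair.1) (S.ev e (n / 7).unpair.2)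
  else S.mul (S.ev e (n / 7).unpair.1) (S.ev e (n / 7).unpair.2)
termination_by n
decreasing_by
  · omega
  · exact unp1_lt (by decide) h0
  · exact unp2_lt (by decide) h0
  · exact unp1_lt (by decide) h0
  · exact unp2_lt (by decide) h0

section
variable (S : Str) (e : ℕ → S.A)

@[simp] theorem ev_tv (n : ℕ) : S.ev e (tv n) = e n := by
  rw [Str.ev, dif_pos (by unfold tv; omega), show tv n / 7 = n by unfold tv; omega]

theorem ev_1 {n : ℕ} (h : n % 7 = 1) : S.ev e n = S.zero := by
  rw [Str.ev, dif_neg (by omega), if_pos h]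

theorem ev_2 {n : ℕ} (h : n % 7 = 2) : S.ev e n = S.one := by
  rw [Str.ev, dif_neg (by omega), if_neg (by omega), if_pos h]

theorem ev_3 {n : ℕ} (h : n % 7 = 3) : S.ev e n = S.t := by
  rw [Str.ev, dif_neg (by omega), if_neg (by omega), if_neg (by omega), if_pos h]

@[simp] theorem ev_tz : S.ev e tz = S.zero := ev_1 S e rfl
@[simp] theorem ev_t1 : S.ev e t1 = S.one := ev_2 S e rfl
@[simp] theorem ev_tt : S.ev e tt = S.t := ev_3 S e rfl

@[simp] theorem ev_tn (a : ℕ) : S.ev e (tn a) = S.neg (S.ev e a) := by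
  have h : tn a % 7 = 4 := by unfold tn; omega
  rw [Str.ev, dif_neg (by omega), if_neg (by omega), if_neg (by omega), if_neg (by omega),
    if_pos h, show tn a / 7 = a by unfold tn; omega]

@[simp] theorem ev_ta (a b : ℕ) : S.ev e (ta a b) = S.add (S.ev e a) (S.ev e b) := by
  have h : ta a b % 7 = 5 := by unfold ta; omega
  rw [Str.ev, dif_neg (by omega), if_neg (by omega), if_neg (by omega), if_neg (by omega),
    if_neg (by omega), if_pos h, show ta a b / 7 = Nat.pair a b by unfold ta; omega,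
    Nat.unpair_pair]

@[simp] theorem ev_tm (a b : ℕ) : S.ev e (tm a b) = S.mul (S.ev e a) (S.ev e b) := by
  have h : tm a b % 7 = 6 := by unfold tm; omega
  rw [Str.ev, dif_neg (by omega), if_neg (by omega), if_neg (by omega), if_neg (by omega),
    if_neg (by omega), if_neg (by omega), show tm a b / 7 = Nat.pair a b by unfold tm; omega,
    Nat.unpair_pair]

end

/-- Induction on terms. -/
theorem tm_ind {P : ℕ → Prop} (hv : ∀ n, P (tv n)) (h1 : ∀ n, n % 7 = 1 → P n)
    (h2 : ∀ n, n % 7 = 2 → P n) (h3 : ∀ n, n % 7 = 3 → P n) (hn : ∀ a, P a → P (tn a))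
    (ha : ∀ a b, P a → P b → P (ta a b)) (hm : ∀ a b, P a → P b → P (tm a b)) (n : ℕ) : P n := by
  induction n using Nat.strong_induction_on with
  | _ n ih =>
    have h7 : n % 7 = 0 ∨ n % 7 = 1 ∨ n % 7 = 2 ∨ n % 7 = 3 ∨ n % 7 = 4 ∨ n % 7 = 5 ∨
      n % 7 = 6 := by omega
    rcases h7 with h | h | h | h | h | h | h
    · rw [show n = tv (n / 7) by unfold tv; omega]; exact hv _
    · exact h1 n h
    · exact h2 n h
    · exact h3 n h
    · have := hn _ (ih (n / 7) (by omega))
      rwa [show tn (n / 7) = n by unfold tn; omega] at this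
    · have := ha _ _ (ih _ (unp1_lt (n := n) (m := 7) (by decide) (by omega)))
        (ih _ (unp2_lt (n := n) (m := 7) (by decide) (by omega)))
      rwa [show ta _ _ = n by unfold ta; rw [Nat.pair_unpair]; omega] at this
    · have := hm _ _ (ih _ (unp1_lt (n := n) (m := 7) (by decide) (by omega)))
        (ih _ (unp2_lt (n := n) (m := 7) (by decide) (by omega)))
      rwa [show tm _ _ = n by unfold tm; rw [Nat.pair_unpair]; omega] at this

/-- Falsum. -/
def ff : ℕ := 0
/-- Equality. -/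
def fe (a b : ℕ) : ℕ := 5 * Nat.pair a b + 1
/-- The relation `R`. -/
def fr (a b : ℕ) : ℕ := 5 * Nat.pair a b + 2
/-- Implication. -/
def fi (a b : ℕ) : ℕ := 5 * Nat.pair a b + 3
/-- Universal quantifier on the variable `v`. -/
def fa (v a : ℕ) : ℕ := 5 * Nat.pair v a + 4

/-- Satisfaction. -/
def Str.Sat (S : Str) (n : ℕ) (e : ℕ → S.A) : Prop :=
  if h0 : n % 5 = 0 then False
  else if n % 5 = 1 then S.ev e (n / 5).unpair.1 = S.ev e (n / 5).unpair.2
  else if n % 5 = 2 then S.R (S.ev e (n / 5).unpair.1) (S.ev e (n / 5).unpair.2)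
  else if n % 5 = 3 then S.Sat (n / 5).unpair.1 e → S.Sat (n / 5).unpair.2 e
  else ∀ x, S.D x → S.Sat (n / 5).unpair.2 (Function.update e (n / 5).unpair.1 x)
termination_by n
decreasing_by
  · exact unp1_lt (by decide) h0
  · exact unp2_lt (by decide) h0
  · exact unp2_lt (by decide) h0

section
variable (S : Str) (e : ℕ → S.A)

theorem sat_0 {n : ℕ} (h : n % 5 = 0) : S.Sat n e ↔ False := by
  rw [Str.Sat, dif_pos h]

@[simp] theorem sat_ff : S.Sat ff e ↔ False := sat_0 S e rfl

@[simp] theorem sat_fe (a b : ℕ) : S.Sat (fe a b) e ↔ S.ev e a = S.ev e b := by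
  have h : fe a b % 5 = 1 := by unfold fe; omega
  rw [Str.Sat, dif_neg (by omega), if_pos h, show fe a b / 5 = Nat.pair a b by unfold fe; omega,
    Nat.unpair_pair]

@[simp] theorem sat_fr (a b : ℕ) : S.Sat (fr a b) e ↔ S.R (S.ev e a) (S.ev e b) := by
  have h : fr a b % 5 = 2 := by unfold fr; omega
  rw [Str.Sat, dif_neg (by omega), if_neg (by omega), if_pos h,
    show fr a b / 5 = Nat.pair a b by unfold fr; omega, Nat.unpair_pair]

@[simp] theorem sat_fi (a b : ℕ) : S.Sat (fi a b) e ↔ (S.Sat a e → S.Sat b e) := by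
  have h : fi a b % 5 = 3 := by unfold fi; omega
  rw [Str.Sat, dif_neg (by omega), if_neg (by omega), if_neg (by omega), if_pos h,
    show fi a b / 5 = Nat.pair a b by unfold fi; omega, Nat.unpair_pair]

@[simp] theorem sat_fa (v a : ℕ) :
    S.Sat (fa v a) e ↔ ∀ x, S.D x → S.Sat a (Function.update e v x) := by
  have h : fa v a % 5 = 4 := by unfold fa; omega
  rw [Str.Sat, dif_neg (by omega), if_neg (by omega), if_neg (by omega), if_neg (by omega),
    show fa v a / 5 = Nat.pair v a by unfold fa; omega, Nat.unpair_pair]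

end

/-- Induction on formulas. -/
theorem fm_ind {P : ℕ → Prop} (h0 : ∀ n, n % 5 = 0 → P n) (he : ∀ a b, P (fe a b))
    (hr : ∀ a b, P (fr a b)) (hi : ∀ a b, P a → P b → P (fi a b))
    (ha : ∀ v a, P a → P (fa v a)) (n : ℕ) : P n := by
  induction n using Nat.strong_induction_on with
  | _ n ih =>
    have h5 : n % 5 = 0 ∨ n % 5 = 1 ∨ n % 5 = 2 ∨ n % 5 = 3 ∨ n % 5 = 4 := by omega
    rcases h5 with h | h | h | h | h
    · exact h0 n h
    · have := he (n / 5).unpair.1 (n / 5).unpair.2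
      rwa [show fe _ _ = n by unfold fe; rw [Nat.pair_unpair]; omega] at this
    · have := hr (n / 5).unpair.1 (n / 5).unpair.2
      rwa [show fr _ _ = n by unfold fr; rw [Nat.pair_unpair]; omega] at this
    · have := hi _ _ (ih _ (unp1_lt (n := n) (m := 5) (by decide) (by omega)))
        (ih _ (unp2_lt (n := n) (m := 5) (by decide) (by omega)))
      rwa [show fi _ _ = n by unfold fi; rw [Nat.pair_unpair]; omega] at this
    · have := ha (n / 5).unpair.1 _ (ih _ (unp2_lt (n := n) (m := 5) (by decide) (by omega)))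
      rwa [show fa _ _ = n by unfold fa; rw [Nat.pair_unpair]; omega] at this

/-- Negation. -/
def fn (a : ℕ) : ℕ := fi a ff
/-- Conjunction. -/
def fc (a b : ℕ) : ℕ := fn (fi a (fn b))
/-- Disjunction. -/
def fo (a b : ℕ) : ℕ := fi (fn a) b
/-- Existential quantifier. -/
def fx (v a : ℕ) : ℕ := fn (fa v (fn a))

section
variable (S : Str) (e : ℕ → S.A)

@[simp] theorem sat_fn (a : ℕ) : S.Sat (fn a) e ↔ ¬ S.Sat a e := by simp [fn]

@[simp] theorem sat_fc (a b : ℕ) : S.Sat (fc a b) e ↔ S.Sat a e ∧ S.Sat b e := by simp [fc]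

@[simp] theorem sat_fo (a b : ℕ) : S.Sat (fo a b) e ↔ S.Sat a e ∨ S.Sat b e := by
  simp only [fo, sat_fi, sat_fn]; tauto

@[simp] theorem sat_fx (v a : ℕ) :
    S.Sat (fx v a) e ↔ ∃ x, S.D x ∧ S.Sat a (Function.update e v x) := by simp [fx]

end

end Pool.Agent.PH
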