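import Pool.Agent.Work.MP_db9079_lc.PH.ST
import Pool.Agent.Work.MP_db9079_lc.PH.V2b
import Pool.Agent.Work.MP_db9079_lc.PH.V5

/-!
Uniqueness of valuation preserving embeddings.

PLAN. `st_pgroup`: induction on `Nat.card Q`; `exists_chi` with `H = ⊥`; `Q' = χ.ker.map Q.subtype` has cardinality `card Q / l`;
`Subgroup.relIndex_mul_index`. `st_dvd`: Sylow subgroups of `Dec K O` (mapped into the Galois group), `HV` is monotone,
`Subgroup.index_dvd_of_le`, then prime powers. `st_fix`: `D = Dec K O`, `D₁ = D ⊓ fixingSubgroup K⟮g⟯`; by `imm_val` over `K` and over `K⟮g⟯`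
(an automorphism over `K⟮g⟯` preserving `O` restricts to an element of `D₁`) and `hg`, `vt_genV`, both `HV O (fixedField D)` and
`HV O (fixedField D₁)` equal `HV O k⟮y⟯`; `card D ∣ index ≤ finrank (fixedField D₁) E = card D₁` (`hv_index`,
`finrank_fixedField_eq_card`), so `D₁ = D`. `ue`: fix `g ∈ T`, `K = k⟮y⟯`, `L = K⟮g⟯ ≤ T`, separable by `sep_of_gen`;
`E = normalClosure K L F` is finite Galois; `φ`, `ψ` agree on `K`; extend `φ|L`, `ψ|L` to valuation preserving `φ', ψ' : E → Ω` (`ext_vp`);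
with the `K`-algebra structure of `Ω` given by `φ|K` both are `K`-algebra maps of the normal `E`, so `ψ' = φ' ∘ σ`
(`AlgHom.fieldRange_of_normal`, `AlgEquiv.ofInjectiveField`, or `Normal.algHomEquivAut`-like), `σ ∈ Dec`, `st_fix`.
-/

namespace Pool.Agent.PH

open IntermediateField

theorem UE_mono {K E : Type*} [Field K] [Field E] [Algebra K E] (O : ValuationSubring E)
    {Q Q' : Subgroup (E ≃ₐ[K] E)} (h : Q' ≤ Q) :
    HV O (fixedField Q).toSubfield ≤ HV O (fixedField Q').toSubfield := by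
  rintro u ⟨a, ha, e⟩
  exact ⟨a, (mem_fixedField_iff Q' a).2 fun σ hσ => (mem_fixedField_iff Q a).1 ha σ (h hσ), e⟩

theorem UE_card {G : Type*} [Group G] [Finite G] {l : ℕ} [hl : Fact l.Prime]
    (χ : G →* Multiplicative (ZMod l)) (hχ : ∃ g, χ g ≠ 1) : l * Nat.card χ.ker = Nat.card G := by
  have h1 : Nat.card χ.range ∣ l := by
    simpa using Subgroup.card_subgroup_dvd_card χ.range
  have h2 : Nat.card χ.range = l := by
    refine ((Nat.dvd_prime hl.out).1 h1).resolve_left fun h => ?_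
    obtain ⟨g, hg⟩ := hχ
    have h3 : χ g ∈ χ.range := ⟨g, rfl⟩
    rw [Subgroup.card_eq_one.1 h] at h3
    exact hg h3
  rw [← χ.ker.index_mul_card, Subgroup.index_ker, h2]

section
variable {k K E : Type*} [Field k] [IsAlgClosed k] [Field K] [Field E] [Algebra k E]
  [Algebra K E] [FiniteDimensional K E] [IsGalois K E] (p : ℕ) [Fact p.Prime] [CharP k p]
  {O : ValuationSubring E} {y : E}
include p

theorem st_pgroup (hy : VT k O y) (hK : ∀ g : E, g ∈ k⟮y⟯ ↔ g ∈ (algebraMap K E).range)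
    {l : ℕ} [Fact l.Prime] (Q : Subgroup (E ≃ₐ[K] E)) (hQ : Q ≤ Dec K O) (hl : IsPGroup l Q) :
    Nat.card Q ∣ (HV O (fixedField Q).toSubfield).index := by
  induction hn : Nat.card Q using Nat.strong_induction_on generalizing Q with
  | _ n ih =>
    subst hn
    by_cases h : (⊥ : Subgroup Q) = ⊤
    · have h1 : Nat.card Q = 1 := by rw [← Subgroup.card_top, ← h, Subgroup.card_bot]
      rw [h1]
      exact one_dvd _
    obtain ⟨χ, hχ, -⟩ := exists_chi hl ⊥ h
    have h1 := UE_card χ hχ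
    have h2 : Nat.card (χ.ker.map Q.subtype) = Nat.card χ.ker :=
      Subgroup.card_map_of_injective Q.subtype_injective
    have h3 : χ.ker.map Q.subtype ≤ Q := Subgroup.map_subtype_le _
    have h4 : Nat.card χ.ker < Nat.card Q := by
      rw [← h1]
      exact lt_mul_of_one_lt_left Nat.card_pos (Fact.out : l.Prime).one_lt
    have h5 := ih _ h4 (χ.ker.map Q.subtype) (h3.trans hQ) ((hl.to_subgroup _).map _) h2
    rw [← Subgroup.relIndex_mul_index (UE_mono O h3), ← h1]
    exact mul_dvd_mul (st_step p hy hK Q hQ χ hχ) h5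

theorem st_dvd (hy : VT k O y) (hK : ∀ g : E, g ∈ k⟮y⟯ ↔ g ∈ (algebraMap K E).range) :
    Nat.card (Dec K O) ∣ (HV O (fixedField (Dec K O)).toSubfield).index := by
  refine (Nat.dvd_iff_prime_pow_dvd_dvd _ _).2 fun l n hl h => ?_
  have := Fact.mk hl
  obtain ⟨P, hP⟩ := Sylow.exists_subgroup_card_pow_prime l h
  have h1 : P.map (Dec K O).subtype ≤ Dec K O := Subgroup.map_subtype_le _
  have h2 := st_pgroup p hy hK _ h1 ((IsPGroup.of_card hP).map _)
  rw [Subgroup.card_map_of_injective (Dec K O).subtype_injective, hP] at h2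
  exact h2.trans (Subgroup.index_dvd_of_le (UE_mono O h1))

theorem st_fix (hy : VT k O y) (hK : ∀ g : E, g ∈ k⟮y⟯ ↔ g ∈ (algebraMap K E).range) {g : E}
    (hg : GenV k O y K⟮g⟯) {σ : E ≃ₐ[K] E} (hσ : σ ∈ Dec K O) : σ g = g := by
  set D₁ := Dec K O ⊓ K⟮g⟯.fixingSubgroup with hD₁
  have h1 : HV O (fixedField D₁).toSubfield ≤ HV O (fixedField (Dec K O)).toSubfield := by
    rintro u ⟨a, ha, e⟩
    obtain ⟨b, hb⟩ := imm_val (K := K⟮g⟯) O (g := a) fun τ hτ =>
      (mem_fixedField_iff D₁ a).1 ha (τ.restrictScalars K)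
        ⟨hτ, (mem_fixingSubgroup_iff _ _).2 fun x hx => τ.commutes ⟨x, hx⟩⟩
    have hb0 : (b : E) ≠ 0 := by
      intro h0
      rw [hb, show algebraMap K⟮g⟯ E b = 0 from h0, map_zero] at e
      exact u.ne_zero (O.valuation.zero_iff.1 e)
    obtain ⟨c, j, hc⟩ := hg b b.2 hb0
    obtain ⟨z, hz⟩ := (hK (algebraMap k E c * y ^ j)).1
      (mul_mem (IntermediateField.algebraMap_mem _ c) (zpow_mem (mem_adjoin_simple_self k y) j))
    exact ⟨_, hz ▸ IntermediateField.algebraMap_mem (fixedField (Dec K O)) z,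
      e.trans (hb.trans hc)⟩
  have : FiniteDimensional (fixedField D₁).toSubfield E :=
    inferInstanceAs (FiniteDimensional (fixedField D₁) E)
  obtain ⟨h2, h3⟩ := hv_index O (fixedField D₁).toSubfield
  have h4 : Module.finrank (fixedField D₁).toSubfield E = Nat.card D₁ :=
    finrank_fixedField_eq_card D₁
  have h5 := Nat.le_of_dvd (Nat.pos_of_ne_zero h2)
    ((st_dvd p hy hK).trans (Subgroup.index_dvd_of_le h1))
  have h6 : D₁ = Dec K O :=
    Subgroup.eq_of_le_of_card_ge inf_le_left (h5.trans (h3.trans_eq h4))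
  rw [← h6] at hσ
  exact (mem_fixingSubgroup_iff _ _).1 hσ.2 g (mem_adjoin_simple_self K g)

end

end Pool.Agent.PH
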