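import Pool.Agent.Work.MP_db9079_lc.PH.UE

/-!
Uniqueness of valuation preserving embeddings.

PLAN. `st_pgroup`: induction on `Nat.card Q`; `exists_chi` with `H = ⊥`; `Q' = χ.ker.map Q.subtype` has cardinality `card Q / l`;
`Subgroup.relIndex_mul_index`. `st_dvd`: Sylow subgroups of `Dec K O` (mapped into the Galois group), `HV` is monotone,
`Subgroup.index_dvd_of_le`, then prime powers. `st_fix`: `D = Dec K O`, `D₁ = D ⊓ fixingSubgroup K⟮g⟯`; by `imm_val` over `K` and over `K⟮g⟯`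
(an automorphism over `K⟮g⟯` preserving `O` restricts to an element of `D₁`) and `hg`, `vt_genV`, both `HV O (fixedField D)` and
`HV O (fixedField D₁)` equal `HV O k⟮y⟯`; `card D ∣ index ≤ finrank (fixedField D₁) E = card D₁` (`hv_index`,
`finrank_fixedField_eq_card`), so `D₁ = D`. `ue`: fix `g ∈ T`, `K = k⟮y⟯`, `L = K⟮g⟯ ≤ T`, separable by `sep_of_gen`;
`E = normalClosure K L F` is finite Galois; `φ`, `ψ` agree on `K`; extend `φ|L`, `ψ|L` to valuation preserving `φ', ψ' : E → Ω` (`ext_vp`);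
with the `K`-algebra structure of `Ω` given by `φ|K` both are `K`-algebra maps of the normal `E`, so `ψ' = φ' ∘ σ`
(`AlgHom.fieldRange_of_normal`, `AlgEquiv.ofInjectiveField`, or `Normal.algHomEquivAut`-like), `σ ∈ Dec`, `st_fix`.
-/

namespace Pool.Agent.PH

open IntermediateField

theorem UEb_fix {k F : Type*} [Field k] [IsAlgClosed k] [Field F] [Algebra k F] (p : ℕ)
    [Fact p.Prime] [CharP k p] (O : ValuationSubring F) {y : F} (hy : VT k O y)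
    (E : IntermediateField k⟮y⟯ F) [FiniteDimensional k⟮y⟯ E] [IsGalois k⟮y⟯ E] (g : E)
    (hg : GenV k O y (k⟮y⟯⟮(g : F)⟯ : IntermediateField k⟮y⟯ F)) (σ : E ≃ₐ[k⟮y⟯] E)
    (hσ : ∀ x : E, (σ x : F) ∈ O ↔ (x : F) ∈ O) : σ g = g := by
  have hv := vp_comap O (algebraMap E F)
  have _ : IsScalarTower k E F := IsScalarTower.of_algebraMap_eq fun _ => rfl
  let y' : E := algebraMap k⟮y⟯ E ⟨y, mem_adjoin_simple_self k y⟩
  have hmap : (k⟮y'⟯).map (IsScalarTower.toAlgHom k E F) = k⟮y⟯ := by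
    rw [adjoin_map, Set.image_singleton]
    rfl
  have hmap' : (k⟮y⟯⟮g⟯).map E.val = k⟮y⟯⟮(g : F)⟯ := by
    rw [adjoin_map, Set.image_singleton]
    rfl
  have key : VT k (O.comap (algebraMap E F)) y' →
      (∀ z : E, z ∈ k⟮y'⟯ ↔ z ∈ (algebraMap k⟮y⟯ E).range) →
      GenV k (O.comap (algebraMap E F)) y' k⟮y⟯⟮g⟯ →
      σ ∈ Dec k⟮y⟯ (O.comap (algebraMap E F)) → σ g = g := by
    intro h1 h2 h3 h4
    first
      | exact st_fix p h1 h2 h3 h4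
      | exact st_fix h1 h2 h3 h4
  refine key (fun a h => hy a ((hv.eq _ _).2 h)) (fun z => ⟨fun hz => ?_, ?_⟩)
    (fun z hz h0 => ?_) hσ
  · have h1 : (z : F) ∈ k⟮y⟯ := hmap.le ⟨z, hz, rfl⟩
    exact ⟨⟨z, h1⟩, rfl⟩
  · rintro ⟨a, rfl⟩
    obtain ⟨w, hw, e⟩ := hmap.ge a.2
    have h1 : w = algebraMap k⟮y⟯ E a := Subtype.ext e
    exact h1 ▸ hw
  · obtain ⟨a, j, h1⟩ := hg (z : F) (hmap'.le ⟨z, hz, rfl⟩) fun h => h0 (Subtype.ext h)
    refine ⟨a, j, (hv.eq _ _).1 ?_⟩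
    rw [map_mul (algebraMap E F), map_zpow₀]
    exact h1

theorem ue {k F Ω : Type*} [Field k] [IsAlgClosed k] [Field F] [IsAlgClosed F] [Field Ω]
    [IsAlgClosed Ω] [Algebra k F] (p : ℕ) [Fact p.Prime] [CharP k p] (O : ValuationSubring F)
    (W : ValuationSubring Ω) (T : IntermediateField k F) {y : F} (hyT : y ∈ T)
    (halg : Algebra.IsAlgebraic k⟮y⟯ F) (hy : VT k O y) (hg : GenV k O y T) (φ ψ : F →+* Ω)
    (hφ : ∀ g ∈ T, φ g ∈ W ↔ g ∈ O) (hψ : ∀ g ∈ T, ψ g ∈ W ↔ g ∈ O)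
    (hk : ∀ a : k, φ (algebraMap k F a) = ψ (algebraMap k F a)) (hyy : φ y = ψ y) :
    ∀ g ∈ T, φ g = ψ g := by
  intro g hgT
  have hKT : k⟮y⟯ ≤ T := adjoin_simple_le_iff.2 hyT
  have hLT : ∀ z ∈ (k⟮y⟯⟮g⟯ : IntermediateField k⟮y⟯ F), z ∈ T := by
    have h1 : (k⟮y⟯⟮g⟯ : IntermediateField k⟮y⟯ F) ≤ extendScalars hKT :=
      adjoin_simple_le_iff.2 hgT
    exact fun z hz => h1 hz
  have hgL : GenV k O y (k⟮y⟯⟮g⟯ : IntermediateField k⟮y⟯ F) :=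
    fun z hz h0 => hg z (hLT z hz) h0
  have hsep : IsSeparable k⟮y⟯ g := by
    first
      | exact sep_of_gen p hy (halg.isAlgebraic g) hgL
      | exact sep_of_gen hy (halg.isAlgebraic g) hgL
  have hint : IsIntegral k⟮y⟯ g := (halg.isAlgebraic g).isIntegral
  have hK : ∀ a : k⟮y⟯, φ a = ψ a := by
    have h1 : k⟮y⟯ ≤ (φ.eqLocusField ψ).toIntermediateField hk := adjoin_simple_le_iff.2 hyy
    exact fun a => h1 a.2
  let E : IntermediateField k⟮y⟯ F := adjoin k⟮y⟯ ((minpoly k⟮y⟯ g).rootSet F)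
  have hsp : (minpoly k⟮y⟯ g).IsSplittingField k⟮y⟯ E :=
    adjoin_rootSet_isSplittingField (IsAlgClosed.splits _)
  have hfin : FiniteDimensional k⟮y⟯ E :=
    Polynomial.IsSplittingField.finiteDimensional E (minpoly k⟮y⟯ g)
  have hgal : IsGalois k⟮y⟯ E := IsGalois.of_separable_splitting_field hsep
  have hgE : g ∈ E := subset_adjoin _ _
    ((Polynomial.mem_rootSet_of_ne (minpoly.ne_zero hint)).2 (minpoly.aeval _ _))
  have halg' : Algebra.IsAlgebraic (k⟮y⟯⟮g⟯ : IntermediateField k⟮y⟯ F) F :=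
    Algebra.IsAlgebraic.tower_top (K := k⟮y⟯) _
  obtain ⟨φ', hφ1, hφ2⟩ := ext_vp O W
    (φ.comp (algebraMap (k⟮y⟯⟮g⟯ : IntermediateField k⟮y⟯ F) F)) fun a => hφ a (hLT a a.2)
  obtain ⟨ψ', hψ1, hψ2⟩ := ext_vp O W
    (ψ.comp (algebraMap (k⟮y⟯⟮g⟯ : IntermediateField k⟮y⟯ F) F)) fun a => hψ a (hLT a a.2)
  let _ : Algebra k⟮y⟯ Ω := (φ.comp (algebraMap k⟮y⟯ F)).toAlgebra
  let _ : Algebra E Ω := (φ'.comp (algebraMap E F)).toAlgebra
  have _ : IsScalarTower k⟮y⟯ E Ω := IsScalarTower.of_algebraMap_eq fun a =>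
    (hφ1 (algebraMap k⟮y⟯ (k⟮y⟯⟮g⟯ : IntermediateField k⟮y⟯ F) a)).symm
  let χ : F →ₐ[k⟮y⟯] Ω := { ψ' with
    commutes' := fun a =>
      (hψ1 (algebraMap k⟮y⟯ (k⟮y⟯⟮g⟯ : IntermediateField k⟮y⟯ F) a)).trans (hK a).symm }
  have hc : ∀ x : E, φ' (χ.restrictNormal' E x : F) = ψ' x := fun x =>
    χ.restrictNormal_commutes E x
  have hfix := UEb_fix p O hy E ⟨g, hgE⟩ hgL (χ.restrictNormal' E) fun x => by
    rw [← hφ2, hc, hψ2]
  have h1 := hc ⟨g, hgE⟩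
  rw [hfix] at h1
  exact (hφ1 ⟨g, mem_adjoin_simple_self _ g⟩).symm.trans
    (h1.trans (hψ1 ⟨g, mem_adjoin_simple_self _ g⟩))

end Pool.Agent.PH
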