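import Pool.Agent.Work.MP_db9079_lc.PH.PM
import Mathlib.Order.Filter.FilterProduct
import Mathlib.Order.Filter.Ultrafilter.Basic

/-!
Ultrapowers.

PLAN. Fill the proofs inside `ultM`, `ultO` (closure under the field operations holds eventually; use
`Filter.Germ.inductionOn`, `Filter.Germ.liftPred_coe`, `Ultrafilter.eventually_or`). `ult_le` from
`ValuationSubring.valuation_le_iff` or by dividing. `los`: `tm_ind` for terms, `fm_ind` for formulas
(`Ultrafilter.eventually_imp`; for `fa` choose counterexamples where they exist). `ult_algClosed`: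
`IsAlgClosed.of_exists_root`; represent the coefficients of a monic `f` of degree `d > 0` by sequences,
choose roots of `X ^ d + ∑ i < d, C (c i n) * X ^ i`. `ult_satur`: represent `a n, b n` and the
witnesses `x N` by sequences; for an index `m` take the largest `N ≤ m` such that the `N`-th witness
satisfies at `m` all conditions `n < N` (and is nonzero and in `M`); `hyperfilter ≤ atTop`.
-/

namespace Pool.Agent.PH

open Filter

/-- The ultrapower of a type. -/
abbrev UP (F : Type) : Type := Germ (hyperfilter ℕ : Filter ℕ) F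

/-- Ultrapower of a subfield. -/
noncomputable def ultM {F : Type} [Field F] (M : Subfield F) : Subfield (UP F) where
  carrier := {x | Germ.LiftPred (fun a => a ∈ M) x}
  mul_mem' := fun {a b} => Germ.inductionOn₂ a b fun _ _ hf hg =>
    (Eventually.and hf hg).mono fun _ h => mul_mem h.1 h.2
  one_mem' := Eventually.of_forall fun _ => one_mem _
  add_mem' := fun {a b} => Germ.inductionOn₂ a b fun _ _ hf hg =>
    (Eventually.and hf hg).mono fun _ h => add_mem h.1 h.2
  zero_mem' := Eventually.of_forall fun _ => zero_mem _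
  neg_mem' := fun {a} => Germ.inductionOn a fun _ hf =>
    Eventually.mono hf fun _ h => neg_mem h
  inv_mem' := fun a => Germ.inductionOn a fun _ hf =>
    Eventually.mono hf fun _ h => inv_mem h

/-- Ultrapower of a valuation subring. -/
noncomputable def ultO {F : Type} [Field F] (O : ValuationSubring F) :
    ValuationSubring (UP F) where
  carrier := {x | Germ.LiftPred (fun a => a ∈ O) x}
  mul_mem' := fun {a b} => Germ.inductionOn₂ a b fun _ _ hf hg =>
    (Eventually.and hf hg).mono fun _ h => mul_mem h.1 h.2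
  one_mem' := Eventually.of_forall fun _ => one_mem _
  add_mem' := fun {a b} => Germ.inductionOn₂ a b fun _ _ hf hg =>
    (Eventually.and hf hg).mono fun _ h => add_mem h.1 h.2
  zero_mem' := Eventually.of_forall fun _ => zero_mem _
  neg_mem' := fun {a} => Germ.inductionOn a fun _ hf =>
    Eventually.mono hf fun _ h => neg_mem h
  mem_or_inv_mem' := fun a => Germ.inductionOn a fun f =>
    Ultrafilter.eventually_or.1 (Eventually.of_forall fun n => O.mem_or_inv_mem (f n))

theorem mem_ultM {F : Type} [Field F] (M : Subfield F) (f : ℕ → F) :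
    (f : UP F) ∈ ultM M ↔ ∀ᶠ n in (hyperfilter ℕ : Filter ℕ), f n ∈ M := Iff.rfl

theorem mem_ultO {F : Type} [Field F] (O : ValuationSubring F) (f : ℕ → F) :
    (f : UP F) ∈ ultO O ↔ ∀ᶠ n in (hyperfilter ℕ : Filter ℕ), f n ∈ O := Iff.rfl

theorem ult_le {F : Type} [Field F] (O : ValuationSubring F) (f g : ℕ → F) :
    (ultO O).valuation (f : UP F) ≤ (ultO O).valuation (g : UP F) ↔
      ∀ᶠ n in (hyperfilter ℕ : Filter ℕ), O.valuation (f n) ≤ O.valuation (g n) := by
  simp only [ValuationSubring.valuation_le_iff]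
  constructor
  · rintro ⟨⟨a, ha⟩, h⟩
    induction a using Germ.inductionOn with
    | _ a => exact (Eventually.and ha (Germ.coe_eq.1 h)).mono fun n hn => ⟨⟨a n, hn.1⟩, hn.2⟩
  · intro h
    obtain ⟨a, ha⟩ := h.choice
    exact ⟨⟨((fun n => a n : ℕ → F) : UP F), Eventually.of_forall fun n => (a n).2⟩,
      Germ.coe_eq.2 ha⟩

/-- The ring homomorphism given by a sequence of ring homomorphisms. -/
noncomputable def ultHom {K F : Type} [Field K] [Field F] (J : ℕ → K →+* F) : K →+* UP F :=
  (Germ.coeRingHom _).comp (RingHom.pi J)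

theorem ultHom_apply {K F : Type} [Field K] [Field F] (J : ℕ → K →+* F) (a : K) :
    ultHom J a = ((fun n => J n a : ℕ → F) : UP F) := rfl

/-- The ultrapower of `A`. -/
@[reducible] noncomputable def PM.ult (A : PM) : PM :=
  ⟨UP A.Ω, ultM A.M, ultO A.O, ((fun _ => A.t : ℕ → A.Ω) : UP A.Ω)⟩

/-- The diagonal embedding. -/
noncomputable def PM.diag (A : PM) : A.Ω →+* A.ult.Ω := ultHom fun _ => RingHom.id A.Ω

theorem Ult_ev (A : PM) (E : ℕ → ℕ → A.Ω) (k : ℕ) :
    A.ult.str.ev (fun v => ((fun n => E n v : ℕ → A.Ω) : UP A.Ω)) k =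
      ((fun n => A.str.ev (E n) k : ℕ → A.Ω) : UP A.Ω) := by
  induction k using tm_ind with
  | hv n => simp only [ev_tv]
  | h1 n h => simp only [ev_1 _ _ h]; rfl
  | h2 n h => simp only [ev_2 _ _ h]; rfl
  | h3 n h => simp only [ev_3 _ _ h]
  | hn a ha => simp only [ev_tn, ha]; rfl
  | ha a b ha hb => simp only [ev_ta, ha, hb]; rfl
  | hm a b ha hb => simp only [ev_tm, ha, hb]; rfl

theorem Ult_update {F : Type} (E : ℕ → ℕ → F) (v : ℕ) (x : ℕ → F) :
    Function.update (fun w => ((fun n => E n w : ℕ → F) : UP F)) v (x : UP F) =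
      fun w => ((fun n => Function.update (E n) v (x n) w : ℕ → F) : UP F) := by
  funext w
  by_cases h : w = v
  · subst h
    simp only [Function.update_self]
  · simp only [Function.update_of_ne h]

theorem los (A : PM) (φ : ℕ) (E : ℕ → ℕ → A.Ω) :
    A.ult.str.Sat φ (fun v => ((fun n => E n v : ℕ → A.Ω) : UP A.Ω)) ↔
      ∀ᶠ n in (hyperfilter ℕ : Filter ℕ), A.str.Sat φ (E n) := by
  induction φ using fm_ind generalizing E with
  | h0 n h => simp only [sat_0 _ _ h, eventually_const]
  | he a b => simp only [sat_fe, Ult_ev]; exact Germ.coe_eq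
  | hr a b => simp only [sat_fr, Ult_ev]; exact ult_le _ _ _
  | hi a b ha hb => simp only [sat_fi, ha, hb, Ultrafilter.eventually_imp]
  | ha v a ha =>
    simp only [sat_fa]
    constructor
    · intro h
      by_contra hc
      rw [← Ultrafilter.eventually_not] at hc
      simp only [not_forall] at hc
      obtain ⟨x, hx⟩ := hc.choice
      have h1 := h (x : UP A.Ω) (hx.mono fun n hn => hn.1)
      rw [Ult_update, ha] at h1
      obtain ⟨n, h2, _, h3⟩ := (h1.and hx).exists
      exact h3 h2
    · intro h x hx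
      induction x using Germ.inductionOn with
      | _ x =>
        rw [Ult_update, ha]
        exact (h.and hx).mono fun n hn => hn.1 _ hn.2

theorem elem_diag (A : PM) : Elem A A.ult A.diag := fun φ env => by
  have := los A φ fun _ => env
  rw [eventually_const] at this
  exact this

theorem ult_algClosed (F : Type) [Field F] [IsAlgClosed F] : IsAlgClosed (UP F) := by
  refine IsAlgClosed.of_exists_root _ fun p hp hi => ?_
  obtain ⟨q, rfl, h1, h2⟩ := Polynomial.lifts_and_degree_eq_and_monic
    (f := Germ.coeRingHom (hyperfilter ℕ : Filter ℕ)) (p := p)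
    ((Polynomial.lifts_iff_coeff_lifts p).2 fun n =>
      Germ.inductionOn (p.coeff n) fun f => ⟨f, rfl⟩) hp
  have h3 : ∀ n : ℕ, ∃ x, (q.map (Pi.evalRingHom (fun _ : ℕ => F) n)).IsRoot x := fun n =>
    IsAlgClosed.exists_root _ (by
      rw [h2.degree_map, h1]
      exact (Polynomial.degree_pos_of_irreducible hi).ne')
  choose x hx using h3
  have h4 : q.eval x = 0 := funext fun n =>
    (Polynomial.eval₂_at_apply (Pi.evalRingHom (fun _ : ℕ => F) n) x).symm.trans
      ((Polynomial.eval_map _ _).symm.trans (hx n))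
  exact ⟨Germ.coeRingHom _ x, by rw [Polynomial.eval_map, Polynomial.eval₂_at_apply, h4, map_zero]⟩

theorem Ult_cond {F : Type} [Field F] (O : ValuationSubring F) (x a b : ℕ → F) :
    ((ultO O).valuation (x : UP F) < (ultO O).valuation (b : UP F) ∨
      1 < (ultO O).valuation ((x : UP F) * (a : UP F))) ↔ ∀ᶠ n in (hyperfilter ℕ : Filter ℕ),
        O.valuation (x n) < O.valuation (b n) ∨ 1 < O.valuation (x n * a n) := by
  simp only [← not_le, Ultrafilter.eventually_or, Ultrafilter.eventually_not, ult_le,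
    ValuationSubring.valuation_le_one_iff]
  rfl

theorem Ult_ne {F : Type} [Field F] (x : ℕ → F) :
    (x : UP F) ≠ 0 ↔ ∀ᶠ n in (hyperfilter ℕ : Filter ℕ), x n ≠ 0 :=
  (not_congr Germ.coe_eq).trans Ultrafilter.eventually_not.symm

theorem ult_satur {F : Type} [Field F] (M : Subfield F) (O : ValuationSubring F) :
    Satur (ultM M) (ultO O) := by
  classical
  intro a b h
  have hs : ∀ y : UP F, ∃ f : ℕ → F, (f : UP F) = y := fun y =>
    Germ.inductionOn y fun f => ⟨f, rfl⟩
  choose r hr using hs
  choose x h1 h2 h3 using h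
  let P : ℕ → ℕ → Prop := fun m N => r (x N) m ∈ M ∧ r (x N) m ≠ 0 ∧ ∀ n ∈ Finset.range N,
    O.valuation (r (x N) m) < O.valuation (r (b n) m) ∨ 1 < O.valuation (r (x N) m * r (a n) m)
  have h4 : ∀ N, ∀ᶠ m in (hyperfilter ℕ : Filter ℕ),
      N ≤ Nat.findGreatest (P m) m ∧ P m (Nat.findGreatest (P m) m) := by
    intro N
    have e : ∀ᶠ m in (hyperfilter ℕ : Filter ℕ), P m N :=
      ((mem_ultM M _).1 ((hr _).symm ▸ h1 N)).and (((Ult_ne _).1 ((hr _).symm ▸ h2 N)).and
        ((eventually_all_finset _).2 fun n hn => (Ult_cond O _ _ _).1 (by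
          simpa only [hr] using h3 N n (Finset.mem_range.1 hn))))
    exact (e.and ((eventually_ge_atTop N).filter_mono Nat.hyperfilter_le_atTop)).mono fun m hm =>
      ⟨Nat.le_findGreatest hm.2 hm.1, Nat.findGreatest_spec hm.2 hm.1⟩
  refine ⟨((fun m => r (x (Nat.findGreatest (P m) m)) m : ℕ → F) : UP F),
    (h4 0).mono fun m hm => hm.2.1, (Ult_ne _).2 ((h4 0).mono fun m hm => hm.2.2.1), fun n => ?_⟩
  rw [← hr (a n), ← hr (b n), Ult_cond]
  exact (h4 (n + 1)).mono fun m hm => hm.2.2.2 n (Finset.mem_range.2 hm.1)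

end Pool.Agent.PH
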