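import Pool.Agent.Work.MP_db9079_lc.PH.PM
import Mathlib.FieldTheory.Galois.Basic
import Mathlib.FieldTheory.IntermediateField.Adjoin.Basic

/-!
Definitions for the valuation theoretic part.
-/

namespace Pool.Agent.PH

section
variable (k : Type*) {F : Type*} [Field k] [Field F] [Algebra k F]

/-- The value of `y` is not a value of `k`. -/
def VT (O : ValuationSubring F) (y : F) : Prop :=
  ∀ a : k, O.valuation y ≠ O.valuation (algebraMap k F a)

/-- The values of `S` are generated by those of `k` and `y`. -/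
def GenV (O : ValuationSubring F) (y : F) (S : Set F) : Prop :=
  ∀ g ∈ S, g ≠ 0 → ∃ (a : k) (j : ℤ), O.valuation g = O.valuation (algebraMap k F a * y ^ j)

/-- Every nonzero element of `S` is close to an element of `k`. -/
def Imm (O : ValuationSubring F) (S : Set F) : Prop :=
  ∀ g ∈ S, g ≠ 0 → ∃ a : k, O.valuation (g - algebraMap k F a) < O.valuation g

/-- The residues of `S` come from `k`. -/
def Res (O : ValuationSubring F) (S : Set F) : Prop :=
  ∀ g ∈ S, g ∈ O → ∃ a : k, O.valuation (g - algebraMap k F a) < 1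

/-- The decomposition group. -/
def Dec (O : ValuationSubring F) : Subgroup (F ≃ₐ[k] F) where
  carrier := {σ | VP O O σ}
  one_mem' := fun _ => Iff.rfl
  mul_mem' := fun {σ τ} hσ hτ a => (hσ (τ a)).trans (hτ a)
  inv_mem' := fun {σ} hσ a => by
    have := hσ (σ⁻¹ a)
    rw [AlgEquiv.aut_inv, AlgEquiv.apply_symm_apply] at this
    exact this.symm

theorem mem_Dec {O : ValuationSubring F} {σ : F ≃ₐ[k] F} : σ ∈ Dec k O ↔ ∀ a, σ a ∈ O ↔ a ∈ O :=
  Iff.rfl

end

variable {F : Type*} [Field F]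

/-- Finite rank: no infinite chain of archimedean classes. -/
def FR (O : ValuationSubring F) : Prop :=
  ¬ ∃ g : ℕ → F, ∀ n, g n ≠ 0 ∧ O.valuation (g n) < 1 ∧
    ∀ m, O.valuation (g (n + 1)) < O.valuation (g n) ^ m

/-- The values of `M` are dense. -/
def Den (M : Subfield F) (O : ValuationSubring F) : Prop :=
  ∀ a b : F, a ≠ 0 → O.valuation a < O.valuation b →
    ∃ c ∈ M, O.valuation a < O.valuation c ∧ O.valuation c < O.valuation b

/-- The localization of `O` at `c`. -/
def loc (O : ValuationSubring F) (c : F) (hc : c ∈ O) : ValuationSubring F where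
  carrier := {x | ∃ n : ℕ, c ^ n * x ∈ O}
  mul_mem' := by
    rintro x y ⟨n, hn⟩ ⟨m, hm⟩
    exact ⟨n + m, by rw [show c ^ (n + m) * (x * y) = c ^ n * x * (c ^ m * y) by ring]
                     exact mul_mem hn hm⟩
  one_mem' := ⟨0, by simp⟩
  add_mem' := by
    rintro x y ⟨n, hn⟩ ⟨m, hm⟩
    exact ⟨n + m, by
      rw [show c ^ (n + m) * (x + y) = c ^ m * (c ^ n * x) + c ^ n * (c ^ m * y) by ring]
      exact add_mem (mul_mem (pow_mem hc _) hn) (mul_mem (pow_mem hc _) hm)⟩
  zero_mem' := ⟨0, by simp⟩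
  neg_mem' := by
    rintro x ⟨n, hn⟩
    exact ⟨n, by rw [mul_neg]; exact neg_mem hn⟩
  mem_or_inv_mem' := fun x => (O.mem_or_inv_mem x).imp (fun h => ⟨0, by simpa using h⟩)
    fun h => ⟨0, by simpa using h⟩

theorem mem_loc {O : ValuationSubring F} {c : F} {hc : c ∈ O} {x : F} :
    x ∈ loc O c hc ↔ ∃ n : ℕ, c ^ n * x ∈ O := Iff.rfl

theorem le_loc (O : ValuationSubring F) (c : F) (hc : c ∈ O) : O ≤ loc O c hc :=
  fun _ h => ⟨0, by simpa using h⟩

/-- Units whose value is a value of `T`. -/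
def HV (O : ValuationSubring F) (T : Subfield F) : Subgroup Fˣ where
  carrier := {u | ∃ a ∈ T, O.valuation (u : F) = O.valuation a}
  one_mem' := ⟨1, T.one_mem, rfl⟩
  mul_mem' := by
    rintro u w ⟨a, ha, h⟩ ⟨b, hb, h'⟩
    exact ⟨a * b, mul_mem ha hb, by rw [Units.val_mul, map_mul, map_mul, h, h']⟩
  inv_mem' := by
    rintro u ⟨a, ha, h⟩
    exact ⟨a⁻¹, inv_mem ha, by rw [Units.val_inv_eq_inv_val, map_inv₀, map_inv₀, h]⟩

/-- The kernel of `ψ` contains the pointwise stabilizer of a finite set. -/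
def OpenK {M Ω B : Type*} [Field M] [Field Ω] [Algebra M Ω] [Group B]
    (ψ : (Ω ≃ₐ[M] Ω) →* B) : Prop :=
  ∃ T : Finset Ω, ∀ σ : Ω ≃ₐ[M] Ω, (∀ a ∈ T, σ a = a) → ψ σ = 1

end Pool.Agent.PH
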